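import Mathlib

/-!
MP_d9606f_gt, dimension theorem (paper `/team-store/h23_dim.md`).  Linear algebra, definitions (helper23).

`fn B` is the Frobenius norm of the matrix `B`, `vn v` the Euclidean norm of the vector `v`.
`qf C v = vᵀ C v`.  `MM f`: the matrix valued function `f` is measurable (entrywise).
-/

open MeasureTheory Filter Matrix
open scoped Topology

namespace Pool.Agent.H23.DM

noncomputable section

variable {ι : Type} [Fintype ι]

/-- Frobenius norm. -/
def fn (B : Matrix ι ι ℝ) : ℝ := Real.sqrt (∑ i, ∑ j, B i j ^ 2)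

/-- Euclidean norm. -/
def vn (v : ι → ℝ) : ℝ := Real.sqrt (∑ i, v i ^ 2)

/-- Quadratic form. -/
def qf (C : Matrix ι ι ℝ) (v : ι → ℝ) : ℝ := v ⬝ᵥ (C *ᵥ v)

/-- Entrywise measurability of a matrix valued function. -/
def MM {X : Type} [MeasurableSpace X] (f : X → Matrix ι ι ℝ) : Prop :=
  ∀ i j, Measurable fun x => f x i j

/-- The measure of the bad sets tends to zero: the complementary events hold with probability
tending to one. -/
def WP {X : Type} [MeasurableSpace X] (μ : Measure X) (E : ℕ → Set X) : Prop :=
  Tendsto (fun t : ℕ => μ (E t)) atTop (𝓝 0)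

end

end Pool.Agent.H23.DM
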