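import Mathlib
import Pool.Agent.H23.DM.La

/-!
MODULE La1 (dimension theorem, Part 2.0).  The Frobenius norm `fn` and the Euclidean norm `vn`.
All statements are elementary: `fn B ^ 2 = ∑ B i j ^ 2 = trace (Bᵀ * B)`, Cauchy-Schwarz for
`fn_mul_le` and `vn_mulVec_le`; `fn_le_one_of_proj`: for a symmetric idempotent `P` one has
`fn P ^ 2 = trace P = rank P`.
-/

open MeasureTheory Filter Matrix
open scoped Topology

namespace Pool.Agent.H23.DM

variable {ι : Type} [Fintype ι]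

theorem fn_nonneg (B : Matrix ι ι ℝ) : 0 ≤ fn B := Real.sqrt_nonneg _

theorem vn_nonneg (v : ι → ℝ) : 0 ≤ vn v := Real.sqrt_nonneg _

private theorem la1_nn (B : Matrix ι ι ℝ) : 0 ≤ ∑ i, ∑ j, B i j ^ 2 :=
  Finset.sum_nonneg fun i _ => Finset.sum_nonneg fun j _ => sq_nonneg _

private theorem la1_vnn (v : ι → ℝ) : 0 ≤ ∑ i, v i ^ 2 :=
  Finset.sum_nonneg fun i _ => sq_nonneg _

private theorem la1_vsq (v : ι → ℝ) : vn v ^ 2 = ∑ i, v i ^ 2 := Real.sq_sqrt (la1_vnn v)

private theorem la1_tri {κ : Type} [Fintype κ] (a b : κ → ℝ) :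
    Real.sqrt (∑ i, (a i + b i) ^ 2) ≤ Real.sqrt (∑ i, a i ^ 2) + Real.sqrt (∑ i, b i ^ 2) := by
  have hA : 0 ≤ ∑ i, a i ^ 2 := Finset.sum_nonneg fun i _ => sq_nonneg _
  have hB : 0 ≤ ∑ i, b i ^ 2 := Finset.sum_nonneg fun i _ => sq_nonneg _
  refine Real.sqrt_le_iff.2 ⟨add_nonneg (Real.sqrt_nonneg _) (Real.sqrt_nonneg _), ?_⟩
  have h1 := Real.sum_mul_le_sqrt_mul_sqrt Finset.univ a b
  have h2 : ∑ i, (a i + b i) ^ 2 = ∑ i, a i ^ 2 + 2 * ∑ i, a i * b i + ∑ i, b i ^ 2 := by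
    rw [Finset.mul_sum, ← Finset.sum_add_distrib, ← Finset.sum_add_distrib]
    exact Finset.sum_congr rfl fun i _ => by ring
  rw [h2, add_sq, Real.sq_sqrt hA, Real.sq_sqrt hB]
  linarith

private theorem la1_prod (B : Matrix ι ι ℝ) :
    fn B = Real.sqrt (∑ p : ι × ι, B p.1 p.2 ^ 2) := by
  unfold fn
  rw [Fintype.sum_prod_type]

theorem fn_sq (B : Matrix ι ι ℝ) : fn B ^ 2 = ∑ i, ∑ j, B i j ^ 2 := by
  exact Real.sq_sqrt (la1_nn B)

theorem fn_sq_trace (B : Matrix ι ι ℝ) : fn B ^ 2 = trace (B * Bᵀ) := by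
  rw [fn_sq]
  unfold Matrix.trace
  refine Finset.sum_congr rfl fun i _ => ?_
  rw [Matrix.diag_apply, Matrix.mul_apply]
  refine Finset.sum_congr rfl fun j _ => ?_
  rw [Matrix.transpose_apply, sq]

theorem fn_transpose (B : Matrix ι ι ℝ) : fn Bᵀ = fn B := by
  unfold fn
  rw [Finset.sum_comm]
  rfl

theorem fn_zero : fn (0 : Matrix ι ι ℝ) = 0 := by
  unfold fn
  have h : ∑ i : ι, ∑ j : ι, (0 : Matrix ι ι ℝ) i j ^ 2 = 0 :=
    Finset.sum_eq_zero fun i _ => Finset.sum_eq_zero fun j _ => by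
      rw [Matrix.zero_apply, zero_pow two_ne_zero]
  rw [h, Real.sqrt_zero]

theorem fn_eq_zero {B : Matrix ι ι ℝ} : fn B = 0 ↔ B = 0 := by
  constructor
  · intro h
    have h1 : ∑ i, ∑ j, B i j ^ 2 = 0 := by
      rw [← fn_sq, h, zero_pow two_ne_zero]
    ext i j
    have h2 := (Finset.sum_eq_zero_iff_of_nonneg fun i _ =>
      Finset.sum_nonneg fun j _ => sq_nonneg (B i j)).1 h1 i (Finset.mem_univ i)
    have h3 := (Finset.sum_eq_zero_iff_of_nonneg fun j _ => sq_nonneg (B i j)).1 h2 j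
      (Finset.mem_univ j)
    rw [Matrix.zero_apply]
    exact pow_eq_zero_iff two_ne_zero |>.1 h3
  · rintro rfl
    exact fn_zero

theorem fn_add_le (B C : Matrix ι ι ℝ) : fn (B + C) ≤ fn B + fn C := by
  rw [la1_prod, la1_prod, la1_prod]
  exact la1_tri (fun p : ι × ι => B p.1 p.2) (fun p : ι × ι => C p.1 p.2)

theorem fn_neg (B : Matrix ι ι ℝ) : fn (-B) = fn B := by
  unfold fn
  congr 1
  refine Finset.sum_congr rfl fun i _ => Finset.sum_congr rfl fun j _ => ?_
  rw [Matrix.neg_apply, neg_sq]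

theorem fn_sub_le (B C : Matrix ι ι ℝ) : fn (B - C) ≤ fn B + fn C := by
  rw [sub_eq_add_neg]
  refine (fn_add_le B (-C)).trans ?_
  rw [fn_neg]

theorem fn_smul (r : ℝ) (B : Matrix ι ι ℝ) : fn (r • B) = |r| * fn B := by
  have h : ∑ i, ∑ j, (r • B) i j ^ 2 = r ^ 2 * ∑ i, ∑ j, B i j ^ 2 := by
    rw [Finset.mul_sum]
    refine Finset.sum_congr rfl fun i _ => ?_
    rw [Finset.mul_sum]
    refine Finset.sum_congr rfl fun j _ => ?_
    rw [Matrix.smul_apply, smul_eq_mul, mul_pow]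
  unfold fn
  rw [h, Real.sqrt_mul (sq_nonneg r), Real.sqrt_sq_eq_abs]

theorem fn_mul_le (B C : Matrix ι ι ℝ) : fn (B * C) ≤ fn B * fn C := by
  have h : ∑ i, ∑ k, (B * C) i k ^ 2 ≤ (fn B * fn C) ^ 2 := by
    rw [mul_pow, fn_sq, fn_sq, Finset.sum_mul]
    refine Finset.sum_le_sum fun i _ => ?_
    have h1 : ∀ k, (B * C) i k ^ 2 ≤ (∑ j, B i j ^ 2) * ∑ j, C j k ^ 2 := by
      intro k
      rw [Matrix.mul_apply]
      exact Finset.sum_mul_sq_le_sq_mul_sq Finset.univ (fun j => B i j) (fun j => C j k)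
    refine (Finset.sum_le_sum fun k _ => h1 k).trans ?_
    rw [← Finset.mul_sum, Finset.sum_comm (f := fun k j => C j k ^ 2)]
  exact Real.sqrt_le_iff.2 ⟨mul_nonneg (fn_nonneg B) (fn_nonneg C), h⟩

theorem abs_entry_le_fn (B : Matrix ι ι ℝ) (i j : ι) : |B i j| ≤ fn B := by
  unfold fn
  rw [← Real.sqrt_sq_eq_abs]
  refine Real.sqrt_le_sqrt ?_
  refine le_trans ?_ (Finset.single_le_sum (f := fun i => ∑ j, B i j ^ 2)
    (fun i _ => Finset.sum_nonneg fun j _ => sq_nonneg _) (Finset.mem_univ i))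
  exact Finset.single_le_sum (f := fun j => B i j ^ 2) (fun j _ => sq_nonneg _) (Finset.mem_univ j)

theorem fn_le_of_entries {B : Matrix ι ι ℝ} {c : ℝ} (hc : 0 ≤ c) (h : ∀ i j, |B i j| ≤ c) :
    fn B ≤ Fintype.card ι * c := by
  refine Real.sqrt_le_iff.2 ⟨mul_nonneg (Nat.cast_nonneg _) hc, ?_⟩
  have h1 : ∑ i, ∑ j, B i j ^ 2 ≤ ∑ _i : ι, ∑ _j : ι, c ^ 2 :=
    Finset.sum_le_sum fun i _ => Finset.sum_le_sum fun j _ => by
      rw [← sq_abs (B i j)]
      exact pow_le_pow_left₀ (abs_nonneg _) (h i j) 2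
  refine h1.trans ?_
  rw [Finset.sum_const, Finset.sum_const, Finset.card_univ, nsmul_eq_mul, nsmul_eq_mul]
  apply le_of_eq
  ring

theorem vn_mulVec_le (B : Matrix ι ι ℝ) (v : ι → ℝ) : vn (B *ᵥ v) ≤ fn B * vn v := by
  have h : ∑ i, (B *ᵥ v) i ^ 2 ≤ (fn B * vn v) ^ 2 := by
    rw [mul_pow, fn_sq, la1_vsq, Finset.sum_mul]
    refine Finset.sum_le_sum fun i _ => ?_
    exact Finset.sum_mul_sq_le_sq_mul_sq Finset.univ (fun j => B i j) (fun j => v j)
  exact Real.sqrt_le_iff.2 ⟨mul_nonneg (fn_nonneg B) (vn_nonneg v), h⟩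

theorem vn_add_le (v w : ι → ℝ) : vn (v + w) ≤ vn v + vn w := by
  exact la1_tri v w

theorem vn_neg (v : ι → ℝ) : vn (-v) = vn v := by
  unfold vn
  congr 1
  refine Finset.sum_congr rfl fun i _ => ?_
  rw [Pi.neg_apply, neg_sq]

theorem vn_sub_le (v w : ι → ℝ) : vn (v - w) ≤ vn v + vn w := by
  rw [sub_eq_add_neg]
  refine (vn_add_le v (-w)).trans ?_
  rw [vn_neg]

theorem vn_eq_zero {v : ι → ℝ} : vn v = 0 ↔ v = 0 := by
  constructor
  · intro h
    have h1 : ∑ i, v i ^ 2 = 0 := by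
      rw [← la1_vsq, h, zero_pow two_ne_zero]
    funext i
    have h2 := (Finset.sum_eq_zero_iff_of_nonneg fun i _ => sq_nonneg (v i)).1 h1 i
      (Finset.mem_univ i)
    exact pow_eq_zero_iff two_ne_zero |>.1 h2
  · rintro rfl
    unfold vn
    have h : ∑ i : ι, (0 : ι → ℝ) i ^ 2 = 0 :=
      Finset.sum_eq_zero fun i _ => by rw [Pi.zero_apply, zero_pow two_ne_zero]
    rw [h, Real.sqrt_zero]

theorem abs_entry_le_vn (v : ι → ℝ) (i : ι) : |v i| ≤ vn v := by
  unfold vn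
  rw [← Real.sqrt_sq_eq_abs]
  refine Real.sqrt_le_sqrt ?_
  exact Finset.single_le_sum (f := fun i => v i ^ 2) (fun j _ => sq_nonneg _) (Finset.mem_univ i)

theorem vn_le_of_entries {v : ι → ℝ} {c : ℝ} (hc : 0 ≤ c) (h : ∀ i, |v i| ≤ c) :
    vn v ≤ Fintype.card ι * c := by
  refine Real.sqrt_le_iff.2 ⟨mul_nonneg (Nat.cast_nonneg _) hc, ?_⟩
  have h1 : ∑ i, v i ^ 2 ≤ ∑ _i : ι, c ^ 2 :=
    Finset.sum_le_sum fun i _ => by
      rw [← sq_abs (v i)]
      exact pow_le_pow_left₀ (abs_nonneg _) (h i) 2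
  refine h1.trans ?_
  rw [Finset.sum_const, Finset.card_univ, nsmul_eq_mul, mul_pow]
  refine mul_le_mul_of_nonneg_right ?_ (sq_nonneg c)
  have h2 : Fintype.card ι ≤ Fintype.card ι ^ 2 := Nat.le_self_pow two_ne_zero _
  exact_mod_cast h2

/-- If `fn (B * C) = 0` ... a nonzero symmetric idempotent has Frobenius norm at least one. -/
theorem one_le_fn_of_proj {P : Matrix ι ι ℝ} (hs : Pᵀ = P) (hi : P * P = P) (h0 : P ≠ 0) :
    1 ≤ fn P := by
  have h1 := fn_mul_le P P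
  rw [hi] at h1
  have h2 : 0 < fn P := lt_of_le_of_ne (fn_nonneg P) fun h => h0 (fn_eq_zero.1 h.symm)
  by_contra h3
  push Not at h3
  nlinarith

theorem fn_proj_le {P : Matrix ι ι ℝ} (hs : Pᵀ = P) (hi : P * P = P) :
    fn P ≤ Fintype.card ι := by
  have h1 : fn P ^ 2 = Matrix.trace P := by
    rw [fn_sq_trace, hs, hi]
  have h2 : Matrix.trace P ≤ Fintype.card ι * fn P := by
    unfold Matrix.trace
    have h3 : ∑ i, Matrix.diag P i ≤ ∑ _i : ι, fn P :=
      Finset.sum_le_sum fun i _ => (le_abs_self _).trans (abs_entry_le_fn P i i)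
    refine h3.trans ?_
    rw [Finset.sum_const, Finset.card_univ, nsmul_eq_mul]
  rcases (fn_nonneg P).eq_or_lt with h4 | h4
  · rw [← h4]
    exact Nat.cast_nonneg _
  · rw [← h1, sq] at h2
    exact le_of_mul_le_mul_right h2 h4

/-- Multiplying by a symmetric idempotent does not increase the norm. -/
theorem fn_proj_mul_le {P : Matrix ι ι ℝ} (hs : Pᵀ = P) (hi : P * P = P) (B : Matrix ι ι ℝ) :
    fn (P * B) ≤ fn B := by
  have e1 : fn (P * B) ^ 2 = Matrix.trace (P * (B * Bᵀ)) := by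
    rw [fn_sq_trace, Matrix.transpose_mul, hs, Matrix.mul_assoc, ← Matrix.mul_assoc B,
      Matrix.trace_mul_comm, Matrix.mul_assoc, hi, Matrix.trace_mul_comm]
  have e2 : fn (B - P * B) ^ 2 = Matrix.trace (B * Bᵀ) - Matrix.trace (P * (B * Bᵀ)) := by
    rw [fn_sq_trace, Matrix.transpose_sub, Matrix.transpose_mul, hs, Matrix.sub_mul,
      Matrix.mul_sub, Matrix.mul_sub, Matrix.trace_sub, Matrix.trace_sub, Matrix.trace_sub]
    have a1 : Matrix.trace (B * (Bᵀ * P)) = Matrix.trace (P * (B * Bᵀ)) := by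
      rw [← Matrix.mul_assoc, Matrix.trace_mul_comm]
    have a2 : Matrix.trace (P * B * Bᵀ) = Matrix.trace (P * (B * Bᵀ)) := by
      rw [Matrix.mul_assoc]
    have a3 : Matrix.trace (P * B * (Bᵀ * P)) = Matrix.trace (P * (B * Bᵀ)) := by
      rw [Matrix.mul_assoc, ← Matrix.mul_assoc B, Matrix.trace_mul_comm, Matrix.mul_assoc, hi,
        Matrix.trace_mul_comm]
    rw [a1, a2, a3]
    ring
  have h1 := sq_nonneg (fn (B - P * B))
  rw [e2] at h1
  have h2 : fn (P * B) ^ 2 ≤ fn B ^ 2 := by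
    rw [e1, fn_sq_trace]
    linarith
  exact (pow_le_pow_iff_left₀ (fn_nonneg _) (fn_nonneg _) two_ne_zero).1 h2

theorem fn_mul_proj_le {P : Matrix ι ι ℝ} (hs : Pᵀ = P) (hi : P * P = P) (B : Matrix ι ι ℝ) :
    fn (B * P) ≤ fn B := by
  rw [← fn_transpose (B * P), Matrix.transpose_mul, hs, ← fn_transpose B]
  exact fn_proj_mul_le hs hi Bᵀ

section Meas

variable {X : Type} [MeasurableSpace X]

private theorem la1_det [DecidableEq ι] {f : X → Matrix ι ι ℝ} (h : MM f) :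
    Measurable fun x => Matrix.det (f x) := by
  have e : (fun x => Matrix.det (f x)) = fun x => ∑ σ : Equiv.Perm ι,
      ((Equiv.Perm.sign σ : ℤ) : ℝ) * ∏ i, f x (σ i) i := by
    funext x
    exact Matrix.det_apply' (f x)
  rw [e]
  refine Finset.measurable_fun_sum Finset.univ fun σ _ => ?_
  exact measurable_const.mul (Finset.measurable_fun_prod Finset.univ fun i _ => h (σ i) i)

theorem MM.fn {f : X → Matrix ι ι ℝ} (h : MM f) : Measurable fun x => fn (f x) := by
  change Measurable fun x => Real.sqrt (∑ i, ∑ j, f x i j ^ 2)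
  refine Measurable.sqrt ?_
  refine Finset.measurable_fun_sum Finset.univ fun i _ => ?_
  exact Finset.measurable_fun_sum Finset.univ fun j _ => (h i j).pow_const 2

theorem MM.mul {f g : X → Matrix ι ι ℝ} (hf : MM f) (hg : MM g) : MM fun x => f x * g x := by
  intro i j
  change Measurable fun x => ∑ k, f x i k * g x k j
  exact Finset.measurable_fun_sum Finset.univ fun k _ => (hf i k).mul (hg k j)

theorem MM.add {f g : X → Matrix ι ι ℝ} (hf : MM f) (hg : MM g) : MM fun x => f x + g x := by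
  intro i j
  exact (hf i j).add (hg i j)

theorem MM.sub {f g : X → Matrix ι ι ℝ} (hf : MM f) (hg : MM g) : MM fun x => f x - g x := by
  intro i j
  exact (hf i j).sub (hg i j)

theorem MM.transpose {f : X → Matrix ι ι ℝ} (hf : MM f) : MM fun x => (f x)ᵀ := by
  intro i j
  exact hf j i

theorem MM.comp {Y : Type} [MeasurableSpace Y] {f : X → Matrix ι ι ℝ} (hf : MM f) {g : Y → X}
    (hg : Measurable g) : MM fun y => f (g y) := by
  intro i j
  exact (hf i j).comp hg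

theorem MM.const (B : Matrix ι ι ℝ) : MM fun _ : X => B := by
  intro i j
  exact measurable_const

theorem MM.trace {f : X → Matrix ι ι ℝ} (hf : MM f) : Measurable fun x => trace (f x) := by
  change Measurable fun x => ∑ i, f x i i
  exact Finset.measurable_fun_sum Finset.univ fun i _ => hf i i

theorem MM.inv [DecidableEq ι] {f : X → Matrix ι ι ℝ} (hf : MM f) : MM fun x => (f x)⁻¹ := by
  intro i j
  have e : ∀ x, (f x)⁻¹ i j = (Matrix.det (f x))⁻¹ *
      Matrix.det (Matrix.updateRow (f x) j (Pi.single i 1)) := by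
    intro x
    rw [Matrix.inv_def, Matrix.smul_apply, smul_eq_mul, Ring.inverse_eq_inv',
      Matrix.adjugate_apply]
  have h1 : MM fun x => Matrix.updateRow (f x) j (Pi.single i 1) := by
    intro a b
    by_cases hab : a = j
    · subst hab
      have : (fun x => Matrix.updateRow (f x) a (Pi.single i 1) a b) =
          fun _ => (Pi.single i (1 : ℝ) : ι → ℝ) b := by
        funext x
        rw [Matrix.updateRow_self]
      rw [this]
      exact measurable_const
    · have : (fun x => Matrix.updateRow (f x) j (Pi.single i 1) a b) = fun x => f x a b := by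
        funext x
        rw [Matrix.updateRow_ne hab]
      rw [this]
      exact hf a b
  rw [funext e]
  exact (la1_det hf).inv.mul (la1_det h1)

end Meas

end Pool.Agent.H23.DM
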