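import Mathlib
import Pool.Agent.H23.DM.La

/-!
MODULE La2 (dimension theorem, Part 2.0).  Measurable range projection and pseudo-inverse.

`Z B := lim (Bᵀ B + 1/k)⁻¹ Bᵀ`, `R B := B * Z B` (Moore-Penrose).  With the spectral theorem for
`A = Bᵀ B` (`A` symmetric, positive semidefinite, `range Bᵀ = range A`, so `Bᵀ = A * Y`):
`(A + 1/k)⁻¹ A → ` projection on the range of `A`.  Each approximation is measurable (entries of the
inverse are rational functions) and the limit exists everywhere, so `R`, `Z` are measurable.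

Proof used here: no limit.  With the characteristic polynomial `p = X ^ m * q` of `A`, `q 0 ≠ 0`,
Cayley-Hamilton and symmetry give `B * q(A) = 0`; `q(A) = q 0 + A * G` gives
`B = B * A * g` with `g = - G / q 0`, and `Z = g * Bᵀ`.  The coefficients of `p` are polynomials in the
entries of `B`.
-/

open MeasureTheory Filter Matrix
open scoped Topology

namespace Pool.Agent.H23.DM

section La2aux

variable {ι : Type} [Fintype ι] [DecidableEq ι]

/-- coefficients of the characteristic polynomial of `Bᵀ B` -/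
private noncomputable def cf (B : Matrix ι ι ℝ) (j : ℕ) : ℝ := ((Bᵀ * B).charpoly).coeff j

private noncomputable def gk (B : Matrix ι ι ℝ) (k : ℕ) : Matrix ι ι ℝ :=
  ∑ j ∈ Finset.range (Fintype.card ι + 1), (-(cf B (j + k + 1)) / cf B k) • (Bᵀ * B) ^ j

private lemma cf_ne (B : Matrix ι ι ℝ) : ∃ k, cf B k ≠ 0 := by
  by_contra h
  push Not at h
  have : (Bᵀ * B).charpoly = 0 := by
    ext j
    simpa [cf] using h j
  exact (Matrix.charpoly_monic (Bᵀ * B)).ne_zero this

open Classical in
private noncomputable def mm (B : Matrix ι ι ℝ) : ℕ := Nat.find (cf_ne B)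

private lemma mm_spec (B : Matrix ι ι ℝ) : cf B (mm B) ≠ 0 := by
  classical
  exact Nat.find_spec (cf_ne B)

private lemma mm_min (B : Matrix ι ι ℝ) {j : ℕ} (h : j < mm B) : cf B j = 0 := by
  classical
  have := Nat.find_min (cf_ne B) h
  simpa using this

private lemma mm_le (B : Matrix ι ι ℝ) : mm B ≤ Fintype.card ι := by
  classical
  apply Nat.find_min'
  have h := (Matrix.charpoly_monic (Bᵀ * B))
  have h2 := Matrix.charpoly_natDegree_eq_dim (Bᵀ * B)
  have : cf B (Fintype.card ι) = 1 := by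
    unfold cf
    rw [← h2]
    exact h
  rw [this]
  exact one_ne_zero

private lemma cf_big (B : Matrix ι ι ℝ) {j : ℕ} (h : Fintype.card ι < j) : cf B j = 0 := by
  unfold cf
  apply Polynomial.coeff_eq_zero_of_natDegree_lt
  rw [Matrix.charpoly_natDegree_eq_dim]
  exact h

private lemma ch (B : Matrix ι ι ℝ) :
    (Bᵀ * B) ^ (mm B) * ∑ j ∈ Finset.range (Fintype.card ι + 2), cf B (j + mm B) • (Bᵀ * B) ^ j
      = 0 := by
  have h0 := Matrix.aeval_self_charpoly (Bᵀ * B)
  rw [Polynomial.aeval_eq_sum_range' (n := mm B + (Fintype.card ι + 2))] at h0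
  · rw [Finset.sum_range_add] at h0
    have h1 : ∑ x ∈ Finset.range (mm B), ((Bᵀ * B).charpoly.coeff x) • (Bᵀ * B) ^ x = 0 := by
      apply Finset.sum_eq_zero
      intro x hx
      have : cf B x = 0 := mm_min B (Finset.mem_range.1 hx)
      unfold cf at this
      rw [this, zero_smul]
    rw [h1, zero_add] at h0
    rw [← h0, Finset.mul_sum]
    apply Finset.sum_congr rfl
    intro j hj
    rw [mul_smul_comm, ← pow_add]
    unfold cf
    rw [add_comm j]
  · rw [Matrix.charpoly_natDegree_eq_dim]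
    omega

private lemma tmul_zero {X : Matrix ι ι ℝ} (h : Xᵀ * X = 0) : X = 0 := by
  have := Matrix.conjTranspose_mul_self_eq_zero (A := X)
  apply this.1
  rw [Matrix.conjTranspose_eq_transpose_of_trivial]
  exact h

private lemma A_symm (B : Matrix ι ι ℝ) : (Bᵀ * B)ᵀ = Bᵀ * B := by
  rw [Matrix.transpose_mul, Matrix.transpose_transpose]

private lemma pow_zero_imp (B : Matrix ι ι ℝ) (Q : Matrix ι ι ℝ) :
    ∀ m : ℕ, (Bᵀ * B) ^ m * Q = 0 → B * Q = 0
  | 0, h => by
      rw [pow_zero, one_mul] at h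
      rw [h, mul_zero]
  | 1, h => by
      rw [pow_one] at h
      apply tmul_zero
      rw [Matrix.transpose_mul, Matrix.mul_assoc, ← Matrix.mul_assoc Bᵀ B Q, h, Matrix.mul_zero]
  | (m + 2), h => by
      apply pow_zero_imp B Q (m + 1)
      apply tmul_zero
      have hs : ((Bᵀ * B) ^ (m + 1))ᵀ = (Bᵀ * B) ^ (m + 1) := by
        rw [Matrix.transpose_pow, A_symm]
      rw [Matrix.transpose_mul, hs, Matrix.mul_assoc, ← Matrix.mul_assoc ((Bᵀ * B) ^ (m + 1)), ← pow_add]
      have : m + 1 + (m + 1) = m + (m + 2) := by ring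
      rw [this, pow_add, Matrix.mul_assoc, h, Matrix.mul_zero, Matrix.mul_zero]

private lemma BQ (B : Matrix ι ι ℝ) :
    B * ∑ j ∈ Finset.range (Fintype.card ι + 2), cf B (j + mm B) • (Bᵀ * B) ^ j = 0 :=
  pow_zero_imp B _ (mm B) (ch B)

private lemma gk_symm (B : Matrix ι ι ℝ) (k : ℕ) : (gk B k)ᵀ = gk B k := by
  unfold gk
  rw [Matrix.transpose_sum]
  apply Finset.sum_congr rfl
  intro j _
  rw [Matrix.transpose_smul, Matrix.transpose_pow, A_symm]

private lemma gk_comm (B : Matrix ι ι ℝ) (k : ℕ) : gk B k * (Bᵀ * B) = (Bᵀ * B) * gk B k := by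
  unfold gk
  rw [Finset.sum_mul, Finset.mul_sum]
  apply Finset.sum_congr rfl
  intro j _
  rw [smul_mul_assoc, mul_smul_comm, ← pow_succ, ← pow_succ']

private lemma key (B : Matrix ι ι ℝ) : B * ((Bᵀ * B) * gk B (mm B)) = B := by
  have h := BQ B
  rw [Finset.sum_range_succ'] at h
  simp only [zero_add, pow_zero] at h
  rw [Matrix.mul_add] at h
  have hm := mm_spec B
  have h2 : (Bᵀ * B) * gk B (mm B) = (-(1 / cf B (mm B))) •
      ∑ k ∈ Finset.range (Fintype.card ι + 1), cf B (k + 1 + mm B) • (Bᵀ * B) ^ (k + 1) := by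
    unfold gk
    rw [Finset.mul_sum, Finset.smul_sum]
    apply Finset.sum_congr rfl
    intro j _
    rw [mul_smul_comm, ← pow_succ', smul_smul]
    congr 1
    rw [show j + 1 + mm B = j + mm B + 1 by ring]
    ring
  rw [h2, mul_smul_comm]
  have h3 : B * ∑ k ∈ Finset.range (Fintype.card ι + 1), cf B (k + 1 + mm B) • (Bᵀ * B) ^ (k + 1)
      = - (cf B (mm B) • B) := by
    have h4 : B * (cf B (mm B) • (1 : Matrix ι ι ℝ)) = cf B (mm B) • B := by
      rw [mul_smul_comm, Matrix.mul_one]
    rw [h4] at h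
    exact eq_neg_of_add_eq_zero_left h
  rw [h3, smul_neg, neg_smul, neg_neg, smul_smul, one_div, inv_mul_cancel₀ hm, one_smul]

private lemma mm_mul {X : Type} [MeasurableSpace X] {f g : X → Matrix ι ι ℝ} (hf : MM f) (hg : MM g) :
    MM fun x => f x * g x := by
  intro i j
  simp only [Matrix.mul_apply]
  exact Finset.measurable_sum _ fun k _ => (hf i k).mul (hg k j)

private lemma mm_tr {X : Type} [MeasurableSpace X] {f : X → Matrix ι ι ℝ} (hf : MM f) :
    MM fun x => (f x)ᵀ := fun i j => hf j i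

private lemma mm_pow {X : Type} [MeasurableSpace X] {f : X → Matrix ι ι ℝ} (hf : MM f) (k : ℕ) :
    MM fun x => (f x) ^ k := by
  induction k with
  | zero =>
    intro i j
    simp only [pow_zero]
    exact measurable_const
  | succ k ih =>
    simp only [pow_succ]
    exact mm_mul ih hf

private lemma mm_sum {X : Type} [MeasurableSpace X] {κ : Type} (s : Finset κ)
    {f : κ → X → Matrix ι ι ℝ} (hf : ∀ k ∈ s, MM (f k)) : MM fun x => ∑ k ∈ s, f k x := by
  intro i j
  simp only [Matrix.sum_apply]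
  exact Finset.measurable_sum _ fun k hk => hf k hk i j

private lemma mm_smul {X : Type} [MeasurableSpace X] {c : X → ℝ} {f : X → Matrix ι ι ℝ}
    (hc : Measurable c) (hf : MM f) : MM fun x => c x • f x := by
  intro i j
  simp only [Matrix.smul_apply, smul_eq_mul]
  exact hc.mul (hf i j)

private lemma meas_charpoly {X : Type} [MeasurableSpace X] {f : X → Matrix ι ι ℝ} (hf : MM f)
    (k : ℕ) : Measurable fun x => (f x).charpoly.coeff k := by
  have h : ∀ M : Matrix ι ι ℝ, M.charpoly.coeff k
      = MvPolynomial.eval (fun p : ι × ι => M p.1 p.2) ((Matrix.charpoly.univ ℝ ι).coeff k) := by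
    intro M
    have h1 := Matrix.charpoly.univ_map_eval₂Hom (R := ℝ) (n := ι) (RingHom.id ℝ)
      (fun p : ι × ι => M p.1 p.2)
    have h2 : M = (Matrix.of (Function.curry fun p : ι × ι => M p.1 p.2)) := by
      ext i j
      rfl
    conv_lhs => rw [h2]
    rw [← h1, Polynomial.coeff_map]
    rfl
  simp only [h]
  have hc : Continuous fun v : ι × ι → ℝ =>
      MvPolynomial.eval v ((Matrix.charpoly.univ ℝ ι).coeff k) := MvPolynomial.continuous_eval _
  exact hc.measurable.comp (measurable_pi_iff.2 fun p => hf p.1 p.2)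

private lemma meas_cf {X : Type} [MeasurableSpace X] {f : X → Matrix ι ι ℝ} (hf : MM f)
    (k : ℕ) : Measurable fun x => cf (f x) k := meas_charpoly (mm_mul (mm_tr hf) hf) k

private lemma meas_mm {X : Type} [MeasurableSpace X] {f : X → Matrix ι ι ℝ} (hf : MM f)
    (k : ℕ) : MeasurableSet {x | mm (f x) = k} := by
  have : {x | mm (f x) = k} = (⋂ j ∈ Finset.range k, {x | cf (f x) j = 0}) ∩ {x | cf (f x) k ≠ 0} := by
    ext x
    simp only [Set.mem_setOf_eq, Set.mem_inter_iff, Set.mem_iInter, Finset.mem_range, ne_eq]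
    constructor
    · rintro rfl
      exact ⟨fun j hj => mm_min _ hj, mm_spec _⟩
    · rintro ⟨h1, h2⟩
      apply le_antisymm
      · by_contra h
        exact h2 (mm_min _ (not_le.1 h))
      · by_contra h
        exact mm_spec (f x) (h1 _ (not_le.1 h))
  rw [this]
  refine MeasurableSet.inter ?_ ?_
  · exact Finset.measurableSet_biInter _ fun j _ =>
      measurableSet_eq_fun (meas_cf hf j) measurable_const
  · exact (measurableSet_eq_fun (meas_cf hf k) measurable_const).compl

private lemma meas_gk {X : Type} [MeasurableSpace X] {f : X → Matrix ι ι ℝ} (hf : MM f)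
    (k : ℕ) : MM fun x => gk (f x) k := by
  unfold gk
  apply mm_sum
  intro j _
  exact mm_smul ((meas_cf hf _).neg.div (meas_cf hf _)) (mm_pow (mm_mul (mm_tr hf) hf) j)

private lemma meas_g {X : Type} [MeasurableSpace X] {f : X → Matrix ι ι ℝ} (hf : MM f) :
    MM fun x => gk (f x) (mm (f x)) := by
  classical
  have h : (fun x => gk (f x) (mm (f x))) = fun x => ∑ k ∈ Finset.range (Fintype.card ι + 1),
      (if mm (f x) = k then (1 : ℝ) else 0) • gk (f x) k := by
    funext x
    rw [Finset.sum_eq_single (mm (f x))]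
    · simp
    · intro b _ hb
      rw [if_neg (Ne.symm hb), zero_smul]
    · intro hb
      exact absurd (Finset.mem_range.2 (Nat.lt_succ_of_le (mm_le (f x)))) hb
  rw [h]
  apply mm_sum
  intro k _
  refine mm_smul ?_ (meas_gk hf k)
  exact Measurable.ite (meas_mm hf k) measurable_const measurable_const

end La2aux

theorem exists_rp (ι : Type) [Fintype ι] [DecidableEq ι] :
    ∃ R Z : Matrix ι ι ℝ → Matrix ι ι ℝ,
      (∀ B, (R B)ᵀ = R B) ∧ (∀ B, R B * R B = R B) ∧ (∀ B, R B * B = B) ∧ (∀ B, R B = B * Z B) ∧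
      (∀ (X : Type) [MeasurableSpace X] (f : X → Matrix ι ι ℝ), MM f → MM fun x => R (f x)) ∧
      (∀ (X : Type) [MeasurableSpace X] (f : X → Matrix ι ι ℝ), MM f → MM fun x => Z (f x)) := by
  have hRB : ∀ B : Matrix ι ι ℝ, B * (gk B (mm B) * Bᵀ) * B = B := by
    intro B
    rw [Matrix.mul_assoc, Matrix.mul_assoc (gk B (mm B)), gk_comm]
    exact key B
  refine ⟨fun B => B * (gk B (mm B) * Bᵀ), fun B => gk B (mm B) * Bᵀ, ?_, ?_, hRB, fun _ => rfl,
    ?_, ?_⟩
  · intro B
    rw [Matrix.transpose_mul, Matrix.transpose_mul, Matrix.transpose_transpose, gk_symm,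
      Matrix.mul_assoc]
  · intro B
    simp only
    rw [← Matrix.mul_assoc (B * (gk B (mm B) * Bᵀ)) B, hRB]
  · intro X _ f hf
    exact mm_mul hf (mm_mul (meas_g hf) (mm_tr hf))
  · intro X _ f hf
    exact mm_mul (meas_g hf) (mm_tr hf)

end Pool.Agent.H23.DM
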