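import Mathlib
import Pool.Agent.H23.DM.La1
import Pool.Agent.H23.DM.La2

/-!
Range projection `rp B` and pseudo-inverse `pv B` (dimension theorem, Part 2.0, helper23), and
MODULE La3: facts on positive semidefinite matrices.

* `rp_of_le`: if `D C Dᵀ ≤ K C'` (as quadratic forms), `C, C' ≥ 0` symmetric, then the range of
  `D * rp C` is contained in the range of `C'`: if `C' v = 0` then `qf C (Dᵀ v) ≤ 0`, so
  `C Dᵀ v = 0`, so `rp C Dᵀ v = 0` (`rp C = C Z = Zᵀ C`); apply this to `v = (1 - rp C') u`.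
* `exists_sigma`: spectral theorem.
* `proj_le_of_ge`: `W = rp C`, `0 ≤ C' ≤ C`, `C' ≥ (s/2)` on the range of `W`: `W ≤ (2/s) C'`, so
  `trace (D W Dᵀ) ≤ (2/s) trace (D C' Dᵀ)`.
-/

open MeasureTheory Filter Matrix
open scoped Topology

namespace Pool.Agent.H23.DM

noncomputable section

variable {ι : Type} [Fintype ι] [DecidableEq ι]

/-- Orthogonal projection on the range of `B`. -/
def rp (B : Matrix ι ι ℝ) : Matrix ι ι ℝ := (exists_rp ι).choose B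

/-- Pseudo-inverse. -/
def pv (B : Matrix ι ι ℝ) : Matrix ι ι ℝ := (exists_rp ι).choose_spec.choose B

theorem rp_symm (B : Matrix ι ι ℝ) : (rp B)ᵀ = rp B := (exists_rp ι).choose_spec.choose_spec.1 B

theorem rp_idem (B : Matrix ι ι ℝ) : rp B * rp B = rp B :=
  (exists_rp ι).choose_spec.choose_spec.2.1 B

theorem rp_mul (B : Matrix ι ι ℝ) : rp B * B = B := (exists_rp ι).choose_spec.choose_spec.2.2.1 B

theorem rp_eq (B : Matrix ι ι ℝ) : rp B = B * pv B :=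
  (exists_rp ι).choose_spec.choose_spec.2.2.2.1 B

theorem MM.rp {X : Type} [MeasurableSpace X] {f : X → Matrix ι ι ℝ} (hf : MM f) :
    MM fun x => rp (f x) := (exists_rp ι).choose_spec.choose_spec.2.2.2.2.1 X f hf

theorem MM.pv {X : Type} [MeasurableSpace X] {f : X → Matrix ι ι ℝ} (hf : MM f) :
    MM fun x => pv (f x) := (exists_rp ι).choose_spec.choose_spec.2.2.2.2.2 X f hf

/-- `Q * rp B = rp B` as soon as `Q * B = B`. -/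
theorem mul_rp_of_mul {Q B : Matrix ι ι ℝ} (h : Q * B = B) : Q * rp B = rp B := by
  rw [rp_eq, ← Matrix.mul_assoc, h]

private lemma la3_ext {M : Matrix ι ι ℝ} (h : ∀ u, M *ᵥ u = 0) : M = 0 := by
  ext i j
  have h1 := congrFun (h (Pi.single j 1)) i
  rw [mulVec_single_one] at h1
  simpa using h1

private lemma la3_qf_mul (B : Matrix ι ι ℝ) (v : ι → ℝ) :
    qf (Bᵀ * B) v = (B *ᵥ v) ⬝ᵥ (B *ᵥ v) := by
  unfold qf
  rw [← mulVec_mulVec, dotProduct_mulVec, vecMul_transpose]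

open scoped MatrixOrder in
private lemma la3_factor {C : Matrix ι ι ℝ} (hs : Cᵀ = C) (hC : ∀ v, 0 ≤ qf C v) :
    ∃ B : Matrix ι ι ℝ, C = Bᵀ * B := by
  have h : C.PosSemidef := Matrix.PosSemidef.of_dotProduct_mulVec_nonneg
    (by rw [IsHermitian, conjTranspose_eq_transpose_of_trivial]; exact hs)
    (fun x => by
      have h1 := hC x
      unfold qf at h1
      simpa using h1)
  obtain ⟨B, hB⟩ := CStarAlgebra.nonneg_iff_eq_star_mul_self.mp h.nonneg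
  exact ⟨B, by rw [hB, star_eq_conjTranspose, conjTranspose_eq_transpose_of_trivial]⟩

private lemma la3_dot_nonneg (v : ι → ℝ) : 0 ≤ v ⬝ᵥ v := by
  unfold dotProduct
  exact Finset.sum_nonneg fun i _ => mul_self_nonneg (v i)

private lemma la3_zero {C : Matrix ι ι ℝ} (hs : Cᵀ = C) (hC : ∀ v, 0 ≤ qf C v) {v : ι → ℝ}
    (h : qf C v ≤ 0) : C *ᵥ v = 0 := by
  obtain ⟨B, hB⟩ := la3_factor hs hC
  rw [hB, la3_qf_mul] at h
  have h1 : B *ᵥ v = 0 := dotProduct_self_eq_zero.1 (le_antisymm h (la3_dot_nonneg _))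
  rw [hB, ← mulVec_mulVec, h1, mulVec_zero]

private lemma la3_qf_proj {Q : Matrix ι ι ℝ} (hs : Qᵀ = Q) (hi : Q * Q = Q) (v : ι → ℝ) :
    qf Q v = (Q *ᵥ v) ⬝ᵥ (Q *ᵥ v) := by
  have h := la3_qf_mul Q v
  rwa [hs, hi] at h

private lemma la3_vn_sq (v : ι → ℝ) : vn v ^ 2 = v ⬝ᵥ v := by
  unfold vn dotProduct
  rw [Real.sq_sqrt (Finset.sum_nonneg fun i _ => sq_nonneg _)]
  exact Finset.sum_congr rfl fun i _ => sq (v i)

private lemma la3_rp_eq' (B : Matrix ι ι ℝ) : rp B = (pv B)ᵀ * Bᵀ := by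
  have h := congrArg Matrix.transpose (rp_eq B)
  rw [rp_symm, transpose_mul] at h
  exact h

private lemma la3_mul_rp {C : Matrix ι ι ℝ} (hs : Cᵀ = C) : C * rp C = C := by
  have h := congrArg Matrix.transpose (rp_mul C)
  rw [transpose_mul, rp_symm, hs] at h
  exact h

private lemma la3_sub_symm {Q : Matrix ι ι ℝ} (hs : Qᵀ = Q) : (1 - Q)ᵀ = 1 - Q := by
  rw [transpose_sub, transpose_one, hs]

private lemma la3_sub_idem {Q : Matrix ι ι ℝ} (hi : Q * Q = Q) : (1 - Q) * (1 - Q) = 1 - Q := by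
  rw [Matrix.sub_mul, Matrix.one_mul, Matrix.mul_sub, Matrix.mul_one, hi, sub_self, sub_zero]

private lemma la3_trace (D M : Matrix ι ι ℝ) : trace (D * M * Dᵀ) = ∑ i, qf M (D i) := by
  unfold trace qf
  refine Finset.sum_congr rfl fun i _ => ?_
  rw [diag_apply, Matrix.mul_assoc, Matrix.mul_apply]
  unfold dotProduct mulVec dotProduct
  refine Finset.sum_congr rfl fun j _ => ?_
  rw [Matrix.mul_apply]
  rfl

private lemma la3_qf_nonneg_proj {Q : Matrix ι ι ℝ} (hs : Qᵀ = Q) (hi : Q * Q = Q) (v : ι → ℝ) :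
    0 ≤ qf Q v := by
  rw [la3_qf_proj hs hi]
  exact la3_dot_nonneg _

private lemma la3_qf_add (A B : Matrix ι ι ℝ) (v : ι → ℝ) : qf (A + B) v = qf A v + qf B v := by
  unfold qf
  rw [add_mulVec, dotProduct_add]

theorem rp_of_proj {Q : Matrix ι ι ℝ} (hs : Qᵀ = Q) (hi : Q * Q = Q) : rp Q = Q := by
  have h1 := mul_rp_of_mul hi
  have h2 := congrArg Matrix.transpose h1
  rw [transpose_mul, rp_symm, hs, rp_mul] at h2
  exact h2.symm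

theorem rp_of_le {C C' D : Matrix ι ι ℝ} {K : ℝ} (hs : Cᵀ = C) (hs' : C'ᵀ = C')
    (hC : ∀ v, 0 ≤ qf C v) (hC' : ∀ v, 0 ≤ qf C' v)
    (h : ∀ v, qf (D * C * Dᵀ) v ≤ K * qf C' v) : rp C' * (D * rp C) = D * rp C := by
  have hP : C' * (1 - rp C') = 0 := by
    rw [Matrix.mul_sub, Matrix.mul_one, la3_mul_rp hs', sub_self]
  have h1 : rp C * (Dᵀ * (1 - rp C')) = 0 := by
    refine la3_ext fun u => ?_
    have h2 : C' *ᵥ ((1 - rp C') *ᵥ u) = 0 := by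
      rw [mulVec_mulVec, hP, zero_mulVec]
    have h3 : qf C' ((1 - rp C') *ᵥ u) = 0 := by
      unfold qf
      rw [h2, dotProduct_zero]
    have h4 := h ((1 - rp C') *ᵥ u)
    rw [h3, mul_zero] at h4
    have h5 : qf (D * C * Dᵀ) ((1 - rp C') *ᵥ u) = qf C (Dᵀ *ᵥ ((1 - rp C') *ᵥ u)) := by
      unfold qf
      rw [Matrix.mul_assoc, ← mulVec_mulVec, ← mulVec_mulVec, dotProduct_mulVec _ D, ← mulVec_transpose]
    rw [h5] at h4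
    have h6 := la3_zero hs hC h4
    rw [← mulVec_mulVec, ← mulVec_mulVec, la3_rp_eq' C, hs, ← mulVec_mulVec, h6, mulVec_zero]
  have h2 := congrArg Matrix.transpose h1
  rw [transpose_mul, transpose_mul, transpose_transpose, rp_symm, la3_sub_symm (rp_symm C'),
    transpose_zero, Matrix.mul_assoc, Matrix.sub_mul, Matrix.one_mul, sub_eq_zero] at h2
  exact h2.symm

theorem exists_sigma {C : Matrix ι ι ℝ} (hs : Cᵀ = C) (hC : ∀ v, 0 ≤ qf C v) :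
    ∃ s : ℝ, 0 < s ∧ ∀ v, s * qf (rp C) v ≤ qf C v := by
  obtain ⟨B, hB⟩ := la3_factor hs hC
  have hK : 0 ≤ (fn (pv C)ᵀ * fn Bᵀ) ^ 2 := sq_nonneg _
  refine ⟨((fn (pv C)ᵀ * fn Bᵀ) ^ 2 + 1)⁻¹, by positivity, fun v => ?_⟩
  have h1 : rp C *ᵥ v = (pv C)ᵀ *ᵥ (Bᵀ *ᵥ (B *ᵥ v)) := by
    rw [la3_rp_eq' C, hs, ← mulVec_mulVec]
    congr 1
    rw [hB, ← mulVec_mulVec]
  have h2 : vn (rp C *ᵥ v) ≤ fn (pv C)ᵀ * fn Bᵀ * vn (B *ᵥ v) := by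
    rw [h1, mul_assoc]
    exact (vn_mulVec_le _ _).trans (mul_le_mul_of_nonneg_left (vn_mulVec_le _ _) (fn_nonneg _))
  have h3 : qf (rp C) v ≤ (fn (pv C)ᵀ * fn Bᵀ) ^ 2 * qf C v := by
    rw [la3_qf_proj (rp_symm C) (rp_idem C), ← la3_vn_sq]
    have h4 : qf C v = vn (B *ᵥ v) ^ 2 := by
      rw [la3_vn_sq, ← la3_qf_mul, ← hB]
    rw [h4, ← mul_pow]
    exact pow_le_pow_left₀ (vn_nonneg _) h2 2
  have h5 : (fn (pv C)ᵀ * fn Bᵀ) ^ 2 * qf C v ≤ ((fn (pv C)ᵀ * fn Bᵀ) ^ 2 + 1) * qf C v :=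
    mul_le_mul_of_nonneg_right (by linarith) (hC v)
  rw [inv_mul_le_iff₀ (by positivity)]
  exact h3.trans h5

theorem proj_le_of_ge {C C' D : Matrix ι ι ℝ} {s t : ℝ} (hs : Cᵀ = C) (hs' : C'ᵀ = C')
    (hC' : ∀ v, 0 ≤ qf C' v) (hle : ∀ v, qf C' v ≤ qf C v)
    (hlow : ∀ v, s * qf (rp C) v ≤ qf C v) (hdiff : ∀ v, qf C v - qf C' v ≤ t * (v ⬝ᵥ v))
    (h0 : 0 < s) (hts : t ≤ s / 2) : fn (D * rp C) ^ 2 ≤ (2 / s) * trace (D * C' * Dᵀ) := by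
  have hC : ∀ v, 0 ≤ qf C v := fun v => (hC' v).trans (hle v)
  have hW : ∀ v, qf (rp C) v ≤ 2 / s * qf C' v := by
    intro v
    have e1 : C *ᵥ (v - rp C *ᵥ v) = 0 := by
      rw [mulVec_sub, mulVec_mulVec, la3_mul_rp hs, sub_self]
    have e2 : qf C (v - rp C *ᵥ v) = 0 := by
      unfold qf
      rw [e1, dotProduct_zero]
    have e3 : C' *ᵥ (v - rp C *ᵥ v) = 0 := la3_zero hs' hC' (by rw [← e2]; exact hle _)
    have e4 : C' *ᵥ v = C' *ᵥ (rp C *ᵥ v) := by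
      rw [mulVec_sub, sub_eq_zero] at e3
      exact e3
    have e5 : qf C' v = qf C' (rp C *ᵥ v) := by
      unfold qf
      rw [e4]
      have e6 : (v - rp C *ᵥ v) ⬝ᵥ (C' *ᵥ (rp C *ᵥ v)) = 0 := by
        rw [dotProduct_mulVec, ← mulVec_transpose, hs', e3, zero_dotProduct]
      rw [sub_dotProduct, sub_eq_zero] at e6
      exact e6
    have e7 : qf (rp C) (rp C *ᵥ v) = qf (rp C) v := by
      rw [la3_qf_proj (rp_symm C) (rp_idem C), la3_qf_proj (rp_symm C) (rp_idem C), mulVec_mulVec,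
        rp_idem]
    have e8 : (rp C *ᵥ v) ⬝ᵥ (rp C *ᵥ v) = qf (rp C) v :=
      (la3_qf_proj (rp_symm C) (rp_idem C) v).symm
    have e9 := hlow (rp C *ᵥ v)
    have e10 := hdiff (rp C *ᵥ v)
    rw [e7] at e9
    rw [e8] at e10
    have e11 : 0 ≤ qf (rp C) v := la3_qf_nonneg_proj (rp_symm C) (rp_idem C) v
    have e12 : t * qf (rp C) v ≤ s / 2 * qf (rp C) v := mul_le_mul_of_nonneg_right hts e11
    rw [e5, div_mul_eq_mul_div, le_div_iff₀ h0]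
    linarith
  have h1 : fn (D * rp C) ^ 2 = trace (D * rp C * Dᵀ) := by
    rw [fn_sq_trace, transpose_mul, rp_symm]
    congr 1
    rw [Matrix.mul_assoc, ← Matrix.mul_assoc (rp C), rp_idem, ← Matrix.mul_assoc]
  rw [h1, la3_trace, la3_trace, Finset.mul_sum]
  exact Finset.sum_le_sum fun i _ => hW (D i)

/-- The sum of the ranges of two symmetric idempotents. -/
theorem rp_add {Q₁ Q₂ : Matrix ι ι ℝ} (h1 : Q₁ᵀ = Q₁) (h1' : Q₁ * Q₁ = Q₁) (h2 : Q₂ᵀ = Q₂)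
    (h2' : Q₂ * Q₂ = Q₂) : rp (Q₁ + Q₂) * Q₁ = Q₁ ∧ rp (Q₁ + Q₂) * Q₂ = Q₂ := by
  have hS : (Q₁ + Q₂)ᵀ = Q₁ + Q₂ := by rw [transpose_add, h1, h2]
  have h3 : (Q₁ + Q₂) * (1 - rp (Q₁ + Q₂)) = 0 := by
    rw [Matrix.mul_sub, Matrix.mul_one, la3_mul_rp hS, sub_self]
  have h4 : ∀ u, Q₁ *ᵥ ((1 - rp (Q₁ + Q₂)) *ᵥ u) = 0 ∧ Q₂ *ᵥ ((1 - rp (Q₁ + Q₂)) *ᵥ u) = 0 := by
    intro u
    have e1 : qf (Q₁ + Q₂) ((1 - rp (Q₁ + Q₂)) *ᵥ u) = 0 := by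
      unfold qf
      rw [mulVec_mulVec, h3, zero_mulVec, dotProduct_zero]
    rw [la3_qf_add, la3_qf_proj h1 h1', la3_qf_proj h2 h2'] at e1
    have e2 := la3_dot_nonneg (Q₁ *ᵥ ((1 - rp (Q₁ + Q₂)) *ᵥ u))
    have e3 := la3_dot_nonneg (Q₂ *ᵥ ((1 - rp (Q₁ + Q₂)) *ᵥ u))
    exact ⟨dotProduct_self_eq_zero.1 (by linarith), dotProduct_self_eq_zero.1 (by linarith)⟩
  have h5 : ∀ Q : Matrix ι ι ℝ, Qᵀ = Q → (∀ u, Q *ᵥ ((1 - rp (Q₁ + Q₂)) *ᵥ u) = 0) →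
      rp (Q₁ + Q₂) * Q = Q := by
    intro Q hQ hu
    have e1 : Q * (1 - rp (Q₁ + Q₂)) = 0 := la3_ext fun u => by rw [← mulVec_mulVec]; exact hu u
    have e2 := congrArg Matrix.transpose e1
    rw [transpose_mul, la3_sub_symm (rp_symm _), hQ, transpose_zero, Matrix.sub_mul, Matrix.one_mul,
      sub_eq_zero] at e2
    exact e2.symm
  exact ⟨h5 Q₁ h1 fun u => (h4 u).1, h5 Q₂ h2 fun u => (h4 u).2⟩

/-- The intersection of the ranges of two symmetric idempotents. -/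
def ip (Q₁ Q₂ : Matrix ι ι ℝ) : Matrix ι ι ℝ := 1 - rp ((1 - Q₁) + (1 - Q₂))

theorem ip_spec {Q₁ Q₂ : Matrix ι ι ℝ} (h1 : Q₁ᵀ = Q₁) (h1' : Q₁ * Q₁ = Q₁) (h2 : Q₂ᵀ = Q₂)
    (h2' : Q₂ * Q₂ = Q₂) : (ip Q₁ Q₂)ᵀ = ip Q₁ Q₂ ∧ ip Q₁ Q₂ * ip Q₁ Q₂ = ip Q₁ Q₂ ∧
      Q₁ * ip Q₁ Q₂ = ip Q₁ Q₂ ∧ Q₂ * ip Q₁ Q₂ = ip Q₁ Q₂ ∧
      ∀ B : Matrix ι ι ℝ, Q₁ * B = B → Q₂ * B = B → ip Q₁ Q₂ * B = B := by
  have hR1 := la3_sub_symm h1
  have hR1' := la3_sub_idem h1'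
  have hR2 := la3_sub_symm h2
  have hR2' := la3_sub_idem h2'
  obtain ⟨ha, hb⟩ := rp_add hR1 hR1' hR2 hR2'
  have hS : ((1 - Q₁) + (1 - Q₂))ᵀ = (1 - Q₁) + (1 - Q₂) := by rw [transpose_add, hR1, hR2]
  have ha' : (1 - Q₁) * rp ((1 - Q₁) + (1 - Q₂)) = 1 - Q₁ := by
    have h := congrArg Matrix.transpose ha
    rwa [transpose_mul, rp_symm, hR1] at h
  have hb' : (1 - Q₂) * rp ((1 - Q₁) + (1 - Q₂)) = 1 - Q₂ := by
    have h := congrArg Matrix.transpose hb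
    rwa [transpose_mul, rp_symm, hR2] at h
  have key : ∀ Q R : Matrix ι ι ℝ, (1 - Q) * R = 1 - Q → Q * (1 - R) = 1 - R := by
    intro Q R h
    have e : (1 - Q) * (1 - R) = 0 := by
      rw [Matrix.mul_sub, Matrix.mul_one, h, sub_self]
    rw [Matrix.sub_mul, Matrix.one_mul, sub_eq_zero] at e
    exact e.symm
  refine ⟨la3_sub_symm (rp_symm _), la3_sub_idem (rp_idem _), key _ _ ha', key _ _ hb', ?_⟩
  intro B hB1 hB2
  unfold ip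
  have e1 : ((1 - Q₁) + (1 - Q₂)) * B = 0 := by
    rw [Matrix.add_mul, Matrix.sub_mul, Matrix.sub_mul, Matrix.one_mul, hB1, hB2, sub_self, add_zero]
  rw [Matrix.sub_mul, Matrix.one_mul, la3_rp_eq', hS, Matrix.mul_assoc, e1, Matrix.mul_zero, sub_zero]

/-- If the ranges of `Q₁`, `Q₂` are independent and span the range of `P`, there are oblique
projections: `S = Q₁ + Q₂ + (1 - P)` is positive definite and `π = Q₁ * S⁻¹`. -/
theorem oblique {P Q₁ Q₂ : Matrix ι ι ℝ} (hP : Pᵀ = P) (hP' : P * P = P) (h1 : Q₁ᵀ = Q₁)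
    (h1' : Q₁ * Q₁ = Q₁) (h2 : Q₂ᵀ = Q₂) (h2' : Q₂ * Q₂ = Q₂) (hP1 : P * Q₁ = Q₁)
    (hP2 : P * Q₂ = Q₂) (hint : ip Q₁ Q₂ = 0) (hsum : rp (Q₁ + Q₂) = P) :
    let S := Q₁ + Q₂ + (1 - P)
    (Q₁ * S⁻¹ + Q₂ * S⁻¹ = P) ∧ Q₁ * S⁻¹ * Q₁ = Q₁ ∧ Q₁ * S⁻¹ * Q₂ = 0 ∧
      Q₂ * S⁻¹ * Q₂ = Q₂ ∧ Q₂ * S⁻¹ * Q₁ = 0 ∧ Q₁ * S⁻¹ * P = Q₁ * S⁻¹ ∧
      Q₂ * S⁻¹ * P = Q₂ * S⁻¹ := by
  intro S
  have hS : S = Q₁ + Q₂ + (1 - P) := rfl
  have hPQ1 : Q₁ * P = Q₁ := by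
    have h := congrArg Matrix.transpose hP1
    rwa [transpose_mul, hP, h1] at h
  have hPQ2 : Q₂ * P = Q₂ := by
    have h := congrArg Matrix.transpose hP2
    rwa [transpose_mul, hP, h2] at h
  have hN := la3_sub_symm hP
  have hN' := la3_sub_idem hP'
  have hdet : S.det ≠ 0 := by
    intro h0
    obtain ⟨v, hv0, hv⟩ := Matrix.exists_mulVec_eq_zero_iff.2 h0
    have e1 : qf S v = 0 := by
      unfold qf
      rw [hv, dotProduct_zero]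
    rw [hS, la3_qf_add, la3_qf_add, la3_qf_proj h1 h1', la3_qf_proj h2 h2', la3_qf_proj hN hN'] at e1
    have e2 := la3_dot_nonneg (Q₁ *ᵥ v)
    have e3 := la3_dot_nonneg (Q₂ *ᵥ v)
    have e4 := la3_dot_nonneg ((1 - P) *ᵥ v)
    have f1 : Q₁ *ᵥ v = 0 := dotProduct_self_eq_zero.1 (by linarith)
    have f2 : Q₂ *ᵥ v = 0 := dotProduct_self_eq_zero.1 (by linarith)
    have f3 : (1 - P) *ᵥ v = 0 := dotProduct_self_eq_zero.1 (by linarith)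
    have hSt : (Q₁ + Q₂)ᵀ = Q₁ + Q₂ := by rw [transpose_add, h1, h2]
    have f4 : P *ᵥ v = 0 := by
      rw [← hsum, la3_rp_eq', hSt, ← mulVec_mulVec, add_mulVec, f1, f2, add_zero, mulVec_zero]
    rw [sub_mulVec, one_mulVec, f4, sub_zero] at f3
    exact hv0 f3
  have hU : IsUnit S.det := isUnit_iff_ne_zero.2 hdet
  have hSS : S * S⁻¹ = 1 := Matrix.mul_nonsing_inv S hU
  have hSS' : S⁻¹ * S = 1 := Matrix.nonsing_inv_mul S hU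
  have g1 : Q₁ * S⁻¹ + Q₂ * S⁻¹ = P := by
    have e1 : P * S = Q₁ + Q₂ := by
      rw [hS, Matrix.mul_add, Matrix.mul_add, hP1, hP2, Matrix.mul_sub, Matrix.mul_one, hP', sub_self,
        add_zero]
    rw [← Matrix.add_mul, ← e1, Matrix.mul_assoc, hSS, Matrix.mul_one]
  have hip := ip_spec h1 h1' h2 h2'
  have key1 : Q₂ * S⁻¹ * Q₁ = 0 := by
    have e1 : Q₁ * S⁻¹ * Q₁ + Q₂ * S⁻¹ * Q₁ = Q₁ := by
      rw [← Matrix.add_mul, g1, hP1]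
    have e2 : Q₂ * S⁻¹ * Q₁ = Q₁ - Q₁ * S⁻¹ * Q₁ := by
      rw [eq_sub_iff_add_eq, add_comm]
      exact e1
    have e3 : Q₂ * (Q₂ * S⁻¹ * Q₁) = Q₂ * S⁻¹ * Q₁ := by
      rw [← Matrix.mul_assoc, ← Matrix.mul_assoc, h2']
    have e4 : Q₁ * (Q₂ * S⁻¹ * Q₁) = Q₂ * S⁻¹ * Q₁ := by
      rw [e2, Matrix.mul_sub, h1', ← Matrix.mul_assoc, ← Matrix.mul_assoc, h1']
    have e5 := hip.2.2.2.2 _ e4 e3
    rw [hint, Matrix.zero_mul] at e5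
    exact e5.symm
  have key2 : Q₁ * S⁻¹ * Q₂ = 0 := by
    have e1 : Q₁ * S⁻¹ * Q₂ + Q₂ * S⁻¹ * Q₂ = Q₂ := by
      rw [← Matrix.add_mul, g1, hP2]
    have e2 : Q₁ * S⁻¹ * Q₂ = Q₂ - Q₂ * S⁻¹ * Q₂ := by
      rw [eq_sub_iff_add_eq]
      exact e1
    have e3 : Q₁ * (Q₁ * S⁻¹ * Q₂) = Q₁ * S⁻¹ * Q₂ := by
      rw [← Matrix.mul_assoc, ← Matrix.mul_assoc, h1']
    have e4 : Q₂ * (Q₁ * S⁻¹ * Q₂) = Q₁ * S⁻¹ * Q₂ := by
      rw [e2, Matrix.mul_sub, h2', ← Matrix.mul_assoc, ← Matrix.mul_assoc, h2']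
    have e5 := hip.2.2.2.2 _ e3 e4
    rw [hint, Matrix.zero_mul] at e5
    exact e5.symm
  have hSN : S⁻¹ * (1 - P) = 1 - P := by
    have e1 : S * (1 - P) = 1 - P := by
      rw [hS, Matrix.add_mul, hN', Matrix.add_mul, Matrix.mul_sub, Matrix.mul_sub, Matrix.mul_one,
        Matrix.mul_one, hPQ1, hPQ2, sub_self, sub_self, add_zero, zero_add]
    calc S⁻¹ * (1 - P) = S⁻¹ * (S * (1 - P)) := by rw [e1]
      _ = 1 - P := by rw [← Matrix.mul_assoc, hSS', Matrix.one_mul]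
  have key3 : ∀ Q : Matrix ι ι ℝ, Q * P = Q → Q * S⁻¹ * P = Q * S⁻¹ := by
    intro Q hQ
    have e1 : Q * S⁻¹ * (1 - P) = 0 := by
      rw [Matrix.mul_assoc, hSN, Matrix.mul_sub, Matrix.mul_one, hQ, sub_self]
    rw [Matrix.mul_sub, Matrix.mul_one, sub_eq_zero] at e1
    exact e1.symm
  refine ⟨g1, ?_, key2, ?_, key1, key3 Q₁ hPQ1, key3 Q₂ hPQ2⟩
  · have e1 : Q₁ * S⁻¹ * Q₁ + Q₂ * S⁻¹ * Q₁ = Q₁ := by
      rw [← Matrix.add_mul, g1, hP1]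
    rwa [key1, add_zero] at e1
  · have e1 : Q₁ * S⁻¹ * Q₂ + Q₂ * S⁻¹ * Q₂ = Q₂ := by
      rw [← Matrix.add_mul, g1, hP2]
    rwa [key2, zero_add] at e1

end

end Pool.Agent.H23.DM
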