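import Mathlib
import Pool.Agent.H23.DM.La3

/-!
Cocycles over ergodic actions, definitions (dimension theorem, Part 2, helper23).

* `Sys A X μ`: the abelian group `A` acts ergodically on the probability space `(X, μ)`.
* `Coc A X ι μ`: a bounded measurable linear cocycle `D a x` with fibre the range of the orthogonal
  projection `D 1 x`.
* `c.Sub`: an invariant subbundle, given by its orthogonal projection `Q`.
* `c.sub hE S`, `c.quot hE S`, `c.dual hE`: the cocycle on the subbundle, on the quotient, the dual.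
* `c.Le a r`: `fn (D (a^t) x) ≤ exp (r t)` with probability tending to one; `Up`, `Dn`.
-/

open MeasureTheory Filter Matrix
open scoped Topology

namespace Pool.Agent.H23.DM

noncomputable section

/-- An ergodic probability preserving action of the group `A`. -/
structure Sys (A X : Type) [Group A] [MulAction A X] [MeasurableSpace X] (μ : Measure X) :
    Prop where
  prob : IsProbabilityMeasure μ
  mp : ∀ a : A, MeasurePreserving (fun x : X => a • x) μ μ
  erg : ∀ E : Set X, MeasurableSet E → (∀ a : A, (fun x : X => a • x) ⁻¹' E =ᵐ[μ] E) →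
    μ E = 0 ∨ μ Eᶜ = 0

/-- A bounded measurable cocycle. -/
structure Coc (A X ι : Type) [CommGroup A] [MulAction A X] [Fintype ι] [DecidableEq ι]
    [MeasurableSpace X] (μ : Measure X) where
  /-- the cocycle -/
  D : A → X → Matrix ι ι ℝ
  meas : ∀ a, MM (D a)
  bdd : ∀ a, ∃ C : ℝ, ∀ᵐ x ∂μ, fn (D a x) ≤ C
  mul : ∀ a b, ∀ᵐ x ∂μ, D (a * b) x = D a (b • x) * D b x
  symm : ∀ᵐ x ∂μ, (D 1 x)ᵀ = D 1 x

namespace Coc

variable {A X ι : Type} [CommGroup A] [MulAction A X] [Fintype ι] [DecidableEq ι]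
  [MeasurableSpace X] {μ : Measure X}

/-- `fn (D (a ^ t) x) ≤ exp (r t)` with probability tending to one. -/
def Le (c : Coc A X ι μ) (a : A) (r : ℝ) : Prop :=
  WP μ fun t => {x | Real.exp (r * t) < fn (c.D (a ^ t) x)}

/-- At most subexponential growth. -/
def Up (c : Coc A X ι μ) (a : A) : Prop := ∀ ε : ℝ, 0 < ε → c.Le a ε

/-- Uniform exponential expansion (in probability). -/
def Dn (c : Coc A X ι μ) (a : A) : Prop := ∃ δ : ℝ, 0 < δ ∧ c.Le a⁻¹ (-δ)

/-- An invariant subbundle. -/
structure Sub (c : Coc A X ι μ) where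
  /-- the orthogonal projection -/
  Q : X → Matrix ι ι ℝ
  meas : MM Q
  symm : ∀ᵐ x ∂μ, (Q x)ᵀ = Q x
  idem : ∀ᵐ x ∂μ, Q x * Q x = Q x
  le : ∀ᵐ x ∂μ, c.D 1 x * Q x = Q x
  equiv : ∀ a, ∀ᵐ x ∂μ, Q (a • x) * (c.D a x * Q x) = c.D a x * Q x

end Coc

end

end Pool.Agent.H23.DM
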