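import Mathlib
import Pool.Agent.H23.DM.Coc

/-!
MODULE Co1 (dimension theorem, Part 2).  First properties of cocycles.

`Sys.ae_smul`: a measure preserving map is quasi measure preserving.  `D_one_idem`: `D 1 = D (1*1)`.
`D_inv_mul`: `D 1 = D (a⁻¹ * a)`.  All the a.e. identities come from `Coc.mul`.
-/

open MeasureTheory Filter Matrix
open scoped Topology

namespace Pool.Agent.H23.DM

variable {A X : Type} [MeasurableSpace X] {μ : Measure X}

theorem Sys.ae_smul [Group A] [MulAction A X] (hE : Sys A X μ) (a : A) {P : X → Prop}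
    (h : ∀ᵐ x ∂μ, P x) : ∀ᵐ x ∂μ, P (a • x) := by
  exact (hE.mp a).quasiMeasurePreserving.ae h

theorem Sys.measure_preimage [Group A] [MulAction A X] (hE : Sys A X μ) (a : A) {E : Set X}
    (h : MeasurableSet E) : μ ((fun x => a • x) ⁻¹' E) = μ E := by
  exact (hE.mp a).measure_preimage h.nullMeasurableSet

/-- An invariant real function is almost everywhere constant. -/
theorem Sys.ae_const [Group A] [MulAction A X] (hE : Sys A X μ) {f : X → ℝ} (hf : Measurable f)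
    (h : ∀ a : A, ∀ᵐ x ∂μ, f (a • x) = f x) : ∃ c : ℝ, ∀ᵐ x ∂μ, f x = c := by
  have key : ∃ c : ℝ, f =ᵐ[μ] Function.const X c := by
    refine exists_eventuallyEq_const_of_forall_separating MeasurableSet fun U hU => ?_
    have hE' : MeasurableSet (f ⁻¹' U) := hf hU
    have hinv : ∀ a : A, (fun x : X => a • x) ⁻¹' (f ⁻¹' U) =ᵐ[μ] (f ⁻¹' U) := by
      intro a
      filter_upwards [h a] with x hx
      change (f (a • x) ∈ U) = (f x ∈ U)
      rw [hx]
    rcases hE.erg (f ⁻¹' U) hE' hinv with h1 | h1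
    · right
      have h2 : ∀ᵐ x ∂μ, x ∉ f ⁻¹' U := measure_eq_zero_iff_ae_notMem.1 h1
      exact h2
    · left
      have h2 : ∀ᵐ x ∂μ, x ∉ (f ⁻¹' U)ᶜ := measure_eq_zero_iff_ae_notMem.1 h1
      filter_upwards [h2] with x hx
      simpa using hx
  obtain ⟨c, hc⟩ := key
  exact ⟨c, hc⟩

namespace Coc

variable {ι : Type} [CommGroup A] [MulAction A X] [Fintype ι] [DecidableEq ι]

theorem D_one_idem (hE : Sys A X μ) (c : Coc A X ι μ) : ∀ᵐ x ∂μ, c.D 1 x * c.D 1 x = c.D 1 x := by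
  filter_upwards [c.mul 1 1] with x hx
  rw [mul_one, one_smul] at hx
  exact hx.symm

theorem D_mul_one (hE : Sys A X μ) (c : Coc A X ι μ) (a : A) :
    ∀ᵐ x ∂μ, c.D a x * c.D 1 x = c.D a x := by
  filter_upwards [c.mul a 1] with x hx
  rw [mul_one, one_smul] at hx
  exact hx.symm

theorem D_one_mul (hE : Sys A X μ) (c : Coc A X ι μ) (a : A) :
    ∀ᵐ x ∂μ, c.D 1 (a • x) * c.D a x = c.D a x := by
  filter_upwards [c.mul 1 a] with x hx
  rw [one_mul] at hx
  exact hx.symm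

theorem D_inv_mul (hE : Sys A X μ) (c : Coc A X ι μ) (a : A) :
    ∀ᵐ x ∂μ, c.D a⁻¹ (a • x) * c.D a x = c.D 1 x := by
  filter_upwards [c.mul a⁻¹ a] with x hx
  rw [inv_mul_cancel] at hx
  exact hx.symm

theorem D_mul_inv (hE : Sys A X μ) (c : Coc A X ι μ) (a : A) :
    ∀ᵐ x ∂μ, c.D a x * c.D a⁻¹ (a • x) = c.D 1 (a • x) := by
  filter_upwards [hE.ae_smul a (c.mul a a⁻¹)] with x hx
  rw [mul_inv_cancel, inv_smul_smul] at hx
  exact hx.symm

/-- A common bound `≥ 1` for `D a` and `D a⁻¹`. -/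
theorem exists_bd (c : Coc A X ι μ) (a : A) : ∃ C : ℝ, 1 ≤ C ∧ (∀ᵐ x ∂μ, fn (c.D a x) ≤ C) ∧
    ∀ᵐ x ∂μ, fn (c.D a⁻¹ x) ≤ C := by
  obtain ⟨C₁, h1⟩ := c.bdd a
  obtain ⟨C₂, h2⟩ := c.bdd a⁻¹
  refine ⟨max 1 (max C₁ C₂), le_max_left _ _, ?_, ?_⟩
  · filter_upwards [h1] with x hx
    exact hx.trans ((le_max_left _ _).trans (le_max_right _ _))
  · filter_upwards [h2] with x hx
    exact hx.trans ((le_max_right _ _).trans (le_max_right _ _))

/-- Exponential bound for the powers. -/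
theorem pow_bd (hE : Sys A X μ) (c : Coc A X ι μ) (a : A) : ∃ C : ℝ, 1 ≤ C ∧
    ∀ t : ℕ, ∀ᵐ x ∂μ, fn (c.D (a ^ t) x) ≤ C ^ (t + 1) := by
  obtain ⟨C₁, h1⟩ := c.bdd a
  obtain ⟨C₂, h2⟩ := c.bdd 1
  refine ⟨max 1 (max C₁ C₂), le_max_left _ _, fun t => ?_⟩
  have hC : (0 : ℝ) ≤ max 1 (max C₁ C₂) := zero_le_one.trans (le_max_left _ _)
  induction t with
  | zero =>
    filter_upwards [h2] with x hx
    rw [pow_zero, zero_add, pow_one]
    exact hx.trans ((le_max_right _ _).trans (le_max_right _ _))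
  | succ t ih =>
    filter_upwards [c.mul (a ^ t) a, hE.ae_smul a ih, h1] with x hx h3 h4
    rw [pow_succ a t, hx, pow_succ _ (t + 1)]
    refine (fn_mul_le _ _).trans (mul_le_mul h3 ?_ (fn_nonneg _) (pow_nonneg hC _))
    exact h4.trans ((le_max_left _ _).trans (le_max_right _ _))

end Coc

end Pool.Agent.H23.DM
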