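import Mathlib
import Pool.Agent.H23.DM.Co1

/-!
MODULE Co2 (dimension theorem, Part 2).  The subcocycle, the quotient cocycle and the dual cocycle.

`sub_mul`: `D (a b) Q = D a (b x) D b x Q x = D a (b x) Q (b x) D b x Q x`.
`quot_mul`: with `P = D 1`, `(P-Q)(abx) D a (bx) Q(bx) = 0`, `(P - Q)(bx)` may be replaced by
`P (bx)`.  `dual_mul`: `(D (b⁻¹ a⁻¹) (abx))ᵀ = (D b⁻¹ (bx) * D a⁻¹ (abx))ᵀ` (`A` is abelian).
Bounds: `fn_proj_mul_le`, `fn_mul_proj_le`, `fn_transpose`.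
-/

open MeasureTheory Filter Matrix
open scoped Topology

namespace Pool.Agent.H23.DM

namespace Coc

noncomputable section

variable {A X ι : Type} [CommGroup A] [MulAction A X] [Fintype ι] [DecidableEq ι]
  [MeasurableSpace X] {μ : Measure X}

theorem sub_one (c : Coc A X ι μ) (S : c.Sub) : ∀ᵐ x ∂μ, c.D 1 x * S.Q x = S.Q x := S.le

theorem sub_bdd (c : Coc A X ι μ) (S : c.Sub) (a : A) :
    ∃ C : ℝ, ∀ᵐ x ∂μ, fn (c.D a x * S.Q x) ≤ C := by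
  obtain ⟨C, hC⟩ := c.bdd a
  refine ⟨C, ?_⟩
  filter_upwards [hC, S.symm, S.idem] with x h1 h2 h3
  exact (fn_mul_proj_le h2 h3 _).trans h1

theorem sub_mul (hE : Sys A X μ) (c : Coc A X ι μ) (S : c.Sub) (a b : A) :
    ∀ᵐ x ∂μ, c.D (a * b) x * S.Q x = c.D a (b • x) * S.Q (b • x) * (c.D b x * S.Q x) := by
  filter_upwards [c.mul a b, S.equiv b] with x h1 h2
  rw [Matrix.mul_assoc (c.D a (b • x)) (S.Q (b • x)), h2, h1, Matrix.mul_assoc]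

theorem sub_symm (c : Coc A X ι μ) (S : c.Sub) :
    ∀ᵐ x ∂μ, (c.D 1 x * S.Q x)ᵀ = c.D 1 x * S.Q x := by
  filter_upwards [S.le, S.symm] with x h1 h2
  rw [h1, h2]

/-- The cocycle on a subbundle. -/
def sub (c : Coc A X ι μ) (hE : Sys A X μ) (S : c.Sub) : Coc A X ι μ where
  D a x := c.D a x * S.Q x
  meas a := (c.meas a).mul S.meas
  bdd a := c.sub_bdd S a
  mul a b := c.sub_mul hE S a b
  symm := c.sub_symm S

/-- `D 1 - Q` is a symmetric idempotent. -/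
private theorem co2_proj (hE : Sys A X μ) (c : Coc A X ι μ) (S : c.Sub) : ∀ᵐ x ∂μ,
    (c.D 1 x - S.Q x)ᵀ = c.D 1 x - S.Q x ∧
    (c.D 1 x - S.Q x) * (c.D 1 x - S.Q x) = c.D 1 x - S.Q x ∧
    (c.D 1 x - S.Q x) * S.Q x = 0 ∧
    (c.D 1 x - S.Q x) * c.D 1 x = c.D 1 x - S.Q x := by
  filter_upwards [c.symm, c.D_one_idem hE, S.symm, S.idem, S.le] with x h1 h2 h3 h4 h5
  have h6 : S.Q x * c.D 1 x = S.Q x := by
    have := congrArg Matrix.transpose h5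
    rwa [Matrix.transpose_mul, h1, h3] at this
  have h7 : (c.D 1 x - S.Q x) * S.Q x = 0 := by rw [Matrix.sub_mul, h5, h4, sub_self]
  have h8 : (c.D 1 x - S.Q x) * c.D 1 x = c.D 1 x - S.Q x := by rw [Matrix.sub_mul, h2, h6]
  refine ⟨by rw [Matrix.transpose_sub, h1, h3], ?_, h7, h8⟩
  rw [Matrix.mul_sub, h7, h8, sub_zero]

theorem quot_meas (hE : Sys A X μ) (c : Coc A X ι μ) (S : c.Sub) (a : A) :
    MM fun x => (c.D 1 (a • x) - S.Q (a • x)) * c.D a x * (c.D 1 x - S.Q x) := by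
  have hm : Measurable fun x : X => a • x := (hE.mp a).measurable
  exact ((((c.meas 1).comp hm).sub (S.meas.comp hm)).mul (c.meas a)).mul ((c.meas 1).sub S.meas)

theorem quot_bdd (hE : Sys A X μ) (c : Coc A X ι μ) (S : c.Sub) (a : A) :
    ∃ C : ℝ, ∀ᵐ x ∂μ, fn ((c.D 1 (a • x) - S.Q (a • x)) * c.D a x * (c.D 1 x - S.Q x)) ≤ C := by
  obtain ⟨C, hC⟩ := c.bdd a
  refine ⟨C, ?_⟩
  have h := co2_proj hE c S
  filter_upwards [hC, h, hE.ae_smul a h] with x h1 h2 h3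
  exact (fn_mul_proj_le h2.1 h2.2.1 _).trans ((fn_proj_mul_le h3.1 h3.2.1 _).trans h1)

theorem quot_mul (hE : Sys A X μ) (c : Coc A X ι μ) (S : c.Sub) (a b : A) :
    ∀ᵐ x ∂μ, (c.D 1 ((a * b) • x) - S.Q ((a * b) • x)) * c.D (a * b) x * (c.D 1 x - S.Q x) =
      (c.D 1 (a • b • x) - S.Q (a • b • x)) * c.D a (b • x) * (c.D 1 (b • x) - S.Q (b • x)) *
      ((c.D 1 (b • x) - S.Q (b • x)) * c.D b x * (c.D 1 x - S.Q x)) := by
  have h := co2_proj hE c S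
  filter_upwards [c.mul a b, hE.ae_smul b h, hE.ae_smul b (hE.ae_smul a h),
    hE.ae_smul b (S.equiv a), c.D_one_mul hE b] with x h1 h2 h3 h4 h5
  have h6 : (c.D 1 (a • b • x) - S.Q (a • b • x)) * (c.D a (b • x) * S.Q (b • x)) = 0 := by
    rw [← h4, ← Matrix.mul_assoc, h3.2.2.1, Matrix.zero_mul]
  have h7 : (c.D 1 (b • x) - S.Q (b • x)) * c.D b x = c.D b x - S.Q (b • x) * c.D b x := by
    rw [Matrix.sub_mul, h5]
  have h8 : (c.D 1 (a • b • x) - S.Q (a • b • x)) * c.D a (b • x) *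
      ((c.D 1 (b • x) - S.Q (b • x)) * c.D b x) =
      (c.D 1 (a • b • x) - S.Q (a • b • x)) * (c.D a (b • x) * c.D b x) := by
    rw [h7, Matrix.mul_sub, Matrix.mul_assoc, sub_eq_self, ← Matrix.mul_assoc,
      Matrix.mul_assoc _ (c.D a (b • x)) (S.Q (b • x)), h6, Matrix.zero_mul]
  rw [mul_smul, h1, ← h8]
  simp only [Matrix.mul_assoc]
  rw [← Matrix.mul_assoc (c.D 1 (b • x) - S.Q (b • x)) (c.D 1 (b • x) - S.Q (b • x)), h2.2.1]

theorem quot_one (hE : Sys A X μ) (c : Coc A X ι μ) (S : c.Sub) :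
    ∀ᵐ x ∂μ, (c.D 1 ((1 : A) • x) - S.Q ((1 : A) • x)) * c.D 1 x * (c.D 1 x - S.Q x) =
      c.D 1 x - S.Q x := by
  filter_upwards [co2_proj hE c S] with x h
  rw [one_smul, h.2.2.2, h.2.1]

theorem quot_symm (hE : Sys A X μ) (c : Coc A X ι μ) (S : c.Sub) :
    ∀ᵐ x ∂μ, ((c.D 1 ((1 : A) • x) - S.Q ((1 : A) • x)) * c.D 1 x * (c.D 1 x - S.Q x))ᵀ =
      (c.D 1 ((1 : A) • x) - S.Q ((1 : A) • x)) * c.D 1 x * (c.D 1 x - S.Q x) := by
  filter_upwards [co2_proj hE c S, c.quot_one hE S] with x h h1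
  rw [h1, h.1]

/-- The cocycle on the quotient by a subbundle. -/
def quot (c : Coc A X ι μ) (hE : Sys A X μ) (S : c.Sub) : Coc A X ι μ where
  D a x := (c.D 1 (a • x) - S.Q (a • x)) * c.D a x * (c.D 1 x - S.Q x)
  meas a := c.quot_meas hE S a
  bdd a := c.quot_bdd hE S a
  mul a b := c.quot_mul hE S a b
  symm := c.quot_symm hE S

theorem dual_meas (hE : Sys A X μ) (c : Coc A X ι μ) (a : A) :
    MM fun x => (c.D a⁻¹ (a • x))ᵀ := by
  exact ((c.meas a⁻¹).comp (hE.mp a).measurable).transpose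

theorem dual_bdd (hE : Sys A X μ) (c : Coc A X ι μ) (a : A) :
    ∃ C : ℝ, ∀ᵐ x ∂μ, fn (c.D a⁻¹ (a • x))ᵀ ≤ C := by
  obtain ⟨C, hC⟩ := c.bdd a⁻¹
  refine ⟨C, ?_⟩
  filter_upwards [hE.ae_smul a hC] with x h1
  rw [fn_transpose]
  exact h1

theorem dual_mul (hE : Sys A X μ) (c : Coc A X ι μ) (a b : A) :
    ∀ᵐ x ∂μ, (c.D (a * b)⁻¹ ((a * b) • x))ᵀ =
      (c.D a⁻¹ (a • b • x))ᵀ * (c.D b⁻¹ (b • x))ᵀ := by
  filter_upwards [hE.ae_smul (a * b) (c.mul b⁻¹ a⁻¹)] with x h1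
  rw [_root_.mul_inv_rev, h1, Matrix.transpose_mul, mul_smul, inv_smul_smul]

theorem dual_symm (c : Coc A X ι μ) :
    ∀ᵐ x ∂μ, ((c.D (1 : A)⁻¹ ((1 : A) • x))ᵀ)ᵀ = (c.D (1 : A)⁻¹ ((1 : A) • x))ᵀ := by
  filter_upwards [c.symm] with x h
  rw [inv_one, one_smul, h, h]

/-- The dual cocycle. -/
def dual (c : Coc A X ι μ) (hE : Sys A X μ) : Coc A X ι μ where
  D a x := (c.D a⁻¹ (a • x))ᵀ
  meas a := c.dual_meas hE a
  bdd a := c.dual_bdd hE a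
  mul a b := c.dual_mul hE a b
  symm := c.dual_symm

end

end Coc

end Pool.Agent.H23.DM
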