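import Mathlib
import Pool.Agent.H23.DM.Co2

/-!
MODULE Co3 (dimension theorem, Part 2).  Constructions of subbundles.

All fields are a.e. matrix identities.  `exists_sup`: `mul_rp_of_mul`, `rp_add` (the range of
`rp (S + T)` is the sum of the ranges; `D a (S + T) = S' D a S + T' D a T`, `S' = S.Q (a x)`).
`exists_inf`: `ip_spec`; apply its last clause to `B = D a x * ip`.
`exists_of_quot`: `W ≤ P - Q`, `D a W = Q' D a W + (P' - Q') D a W` and the second term is the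
quotient cocycle times `W`.  `exists_ann`: transpose of the equivariance of `F` for `a⁻¹` at `a x`:
`F(ax) D a x (P - F)(x) = 0`.
-/

open MeasureTheory Filter Matrix
open scoped Topology

namespace Pool.Agent.H23.DM

namespace Coc

variable {A X ι : Type} [CommGroup A] [MulAction A X] [Fintype ι] [DecidableEq ι]
  [MeasurableSpace X] {μ : Measure X}

omit [DecidableEq ι] in
/-- The complement of a subprojection. -/
private theorem co3_proj {P Q : Matrix ι ι ℝ} (h1 : Pᵀ = P) (h2 : P * P = P) (h3 : Qᵀ = Q)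
    (h4 : Q * Q = Q) (h5 : P * Q = Q) :
    Q * P = Q ∧ (P - Q)ᵀ = P - Q ∧ (P - Q) * (P - Q) = P - Q ∧ Q * (P - Q) = 0 ∧
      (P - Q) * Q = 0 ∧ P * (P - Q) = P - Q := by
  have h6 : Q * P = Q := by
    have := congrArg Matrix.transpose h5
    rwa [Matrix.transpose_mul, h1, h3] at this
  have h7 : (P - Q) * Q = 0 := by rw [Matrix.sub_mul, h5, h4, sub_self]
  have h8 : (P - Q) * P = P - Q := by rw [Matrix.sub_mul, h2, h6]
  refine ⟨h6, by rw [Matrix.transpose_sub, h1, h3], ?_, ?_, h7, ?_⟩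
  · rw [Matrix.mul_sub, h7, h8, sub_zero]
  · rw [Matrix.mul_sub, h6, h4, sub_self]
  · rw [Matrix.mul_sub, h2, h5]

theorem exists_zero (c : Coc A X ι μ) : ∃ Z : c.Sub, ∀ x, Z.Q x = 0 := by
  refine ⟨⟨fun _ => 0, MM.const 0, ?_, ?_, ?_, ?_⟩, fun _ => rfl⟩
  · exact Eventually.of_forall fun x => Matrix.transpose_zero
  · exact Eventually.of_forall fun x => Matrix.mul_zero _
  · exact Eventually.of_forall fun x => Matrix.mul_zero _
  · exact fun a => Eventually.of_forall fun x => by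
      rw [Matrix.mul_zero, Matrix.mul_zero]

theorem exists_top (hE : Sys A X μ) (c : Coc A X ι μ) : ∃ Z : c.Sub, ∀ x, Z.Q x = c.D 1 x := by
  refine ⟨⟨c.D 1, c.meas 1, c.symm, c.D_one_idem hE, c.D_one_idem hE, ?_⟩, fun _ => rfl⟩
  intro a
  filter_upwards [c.D_mul_one hE a, c.D_one_mul hE a] with x h1 h2
  rw [h1, h2]

theorem exists_sup (hE : Sys A X μ) (c : Coc A X ι μ) (S T : c.Sub) :
    ∃ U : c.Sub, ∀ x, U.Q x = rp (S.Q x + T.Q x) := by
  refine ⟨⟨fun x => rp (S.Q x + T.Q x), (S.meas.add T.meas).rp, ?_, ?_, ?_, ?_⟩, fun _ => rfl⟩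
  · exact Eventually.of_forall fun x => rp_symm _
  · exact Eventually.of_forall fun x => rp_idem _
  · filter_upwards [S.le, T.le] with x h1 h2
    exact mul_rp_of_mul (by rw [Matrix.mul_add, h1, h2])
  · intro a
    filter_upwards [hE.ae_smul a S.symm, hE.ae_smul a S.idem, hE.ae_smul a T.symm,
      hE.ae_smul a T.idem, S.equiv a, T.equiv a] with x h1 h2 h3 h4 h5 h6
    obtain ⟨e1, e2⟩ := rp_add h1 h2 h3 h4
    have h7 : rp (S.Q (a • x) + T.Q (a • x)) * (c.D a x * (S.Q x + T.Q x)) =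
        c.D a x * (S.Q x + T.Q x) := by
      rw [Matrix.mul_add (c.D a x), Matrix.mul_add]
      congr 1
      · rw [← h5, ← Matrix.mul_assoc, e1]
      · rw [← h6, ← Matrix.mul_assoc, e2]
    rw [rp_eq (S.Q x + T.Q x), ← Matrix.mul_assoc (c.D a x), ← Matrix.mul_assoc, h7]

theorem exists_inf (hE : Sys A X μ) (c : Coc A X ι μ) (S T : c.Sub) :
    ∃ U : c.Sub, ∀ x, U.Q x = ip (S.Q x) (T.Q x) := by
  have hm : MM fun x => ip (S.Q x) (T.Q x) :=
    (MM.const 1).sub (((MM.const 1).sub S.meas).add ((MM.const 1).sub T.meas)).rp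
  have hs : ∀ᵐ x ∂μ, (ip (S.Q x) (T.Q x))ᵀ = ip (S.Q x) (T.Q x) ∧
      ip (S.Q x) (T.Q x) * ip (S.Q x) (T.Q x) = ip (S.Q x) (T.Q x) ∧
      S.Q x * ip (S.Q x) (T.Q x) = ip (S.Q x) (T.Q x) ∧
      T.Q x * ip (S.Q x) (T.Q x) = ip (S.Q x) (T.Q x) ∧
      ∀ B : Matrix ι ι ℝ, S.Q x * B = B → T.Q x * B = B → ip (S.Q x) (T.Q x) * B = B := by
    filter_upwards [S.symm, S.idem, T.symm, T.idem] with x h1 h2 h3 h4
    exact ip_spec h1 h2 h3 h4
  refine ⟨⟨fun x => ip (S.Q x) (T.Q x), hm, ?_, ?_, ?_, ?_⟩, fun _ => rfl⟩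
  · filter_upwards [hs] with x h
    exact h.1
  · filter_upwards [hs] with x h
    exact h.2.1
  · filter_upwards [hs, S.le] with x h h1
    rw [← h.2.2.1, ← Matrix.mul_assoc, h1]
  · intro a
    filter_upwards [hs, hE.ae_smul a hs, S.equiv a, T.equiv a] with x h h' h1 h2
    refine h'.2.2.2.2 _ ?_ ?_
    · rw [← h.2.2.1, ← Matrix.mul_assoc (c.D a x), ← Matrix.mul_assoc, h1]
    · rw [← h.2.2.2.1, ← Matrix.mul_assoc (c.D a x), ← Matrix.mul_assoc, h2]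

/-- A subbundle of a subbundle is a subbundle. -/
theorem exists_of_sub (hE : Sys A X μ) (c : Coc A X ι μ) (S : c.Sub) (T : (c.sub hE S).Sub) :
    ∃ U : c.Sub, (∀ x, U.Q x = T.Q x) ∧ ∀ᵐ x ∂μ, S.Q x * U.Q x = U.Q x := by
  have hST : ∀ᵐ x ∂μ, S.Q x * T.Q x = T.Q x := by
    filter_upwards [T.le, S.le] with x h1 h2
    have h3 : c.D 1 x * S.Q x * T.Q x = T.Q x := h1
    rwa [h2] at h3
  refine ⟨⟨T.Q, T.meas, T.symm, T.idem, ?_, ?_⟩, fun _ => rfl, hST⟩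
  · filter_upwards [hST, S.le] with x h1 h2
    rw [← h1, ← Matrix.mul_assoc, h2]
  · intro a
    filter_upwards [hST, T.equiv a] with x h1 h2
    have h3 : T.Q (a • x) * (c.D a x * S.Q x * T.Q x) = c.D a x * S.Q x * T.Q x := h2
    rwa [Matrix.mul_assoc, h1] at h3

theorem exists_in_sub (hE : Sys A X μ) (c : Coc A X ι μ) (S T : c.Sub)
    (h : ∀ᵐ x ∂μ, S.Q x * T.Q x = T.Q x) : ∃ U : (c.sub hE S).Sub, ∀ x, U.Q x = T.Q x := by
  refine ⟨⟨T.Q, T.meas, T.symm, T.idem, ?_, ?_⟩, fun _ => rfl⟩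
  · filter_upwards [h, T.le] with x h1 h2
    change c.D 1 x * S.Q x * T.Q x = T.Q x
    rw [Matrix.mul_assoc, h1, h2]
  · intro a
    filter_upwards [h, T.equiv a] with x h1 h2
    change T.Q (a • x) * (c.D a x * S.Q x * T.Q x) = c.D a x * S.Q x * T.Q x
    rw [Matrix.mul_assoc, h1, h2]

/-- The preimage of a subbundle of the quotient. -/
theorem exists_of_quot (hE : Sys A X μ) (c : Coc A X ι μ) (S : c.Sub) (W : (c.quot hE S).Sub) :
    ∃ U : c.Sub, (∀ x, U.Q x = S.Q x + W.Q x) ∧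
      ∀ᵐ x ∂μ, S.Q x * W.Q x = 0 ∧ W.Q x * S.Q x = 0 := by
  have hPQ : ∀ᵐ x ∂μ, S.Q x * c.D 1 x = S.Q x ∧ (c.D 1 x - S.Q x)ᵀ = c.D 1 x - S.Q x ∧
      (c.D 1 x - S.Q x) * (c.D 1 x - S.Q x) = c.D 1 x - S.Q x ∧
      S.Q x * (c.D 1 x - S.Q x) = 0 ∧ (c.D 1 x - S.Q x) * S.Q x = 0 ∧
      c.D 1 x * (c.D 1 x - S.Q x) = c.D 1 x - S.Q x := by
    filter_upwards [c.symm, c.D_one_idem hE, S.symm, S.idem, S.le] with x h1 h2 h3 h4 h5
    exact co3_proj h1 h2 h3 h4 h5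
  have hW : ∀ᵐ x ∂μ, (c.D 1 x - S.Q x) * W.Q x = W.Q x := by
    filter_upwards [W.le, c.quot_one hE S] with x h1 h2
    have h3 : (c.D 1 ((1 : A) • x) - S.Q ((1 : A) • x)) * c.D 1 x * (c.D 1 x - S.Q x) * W.Q x =
        W.Q x := h1
    rwa [h2] at h3
  have h0 : ∀ᵐ x ∂μ, S.Q x * W.Q x = 0 ∧ W.Q x * S.Q x = 0 := by
    filter_upwards [hPQ, hW, S.symm, W.symm] with x h1 h2 h3 h4
    have h5 : S.Q x * W.Q x = 0 := by
      rw [← h2, ← Matrix.mul_assoc, h1.2.2.2.1, Matrix.zero_mul]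
    refine ⟨h5, ?_⟩
    have h6 := congrArg Matrix.transpose h5
    rwa [Matrix.transpose_mul, h3, h4, Matrix.transpose_zero] at h6
  refine ⟨⟨fun x => S.Q x + W.Q x, S.meas.add W.meas, ?_, ?_, ?_, ?_⟩, fun _ => rfl, h0⟩
  · filter_upwards [S.symm, W.symm] with x h1 h2
    rw [Matrix.transpose_add, h1, h2]
  · filter_upwards [S.idem, W.idem, h0] with x h1 h2 h3
    rw [Matrix.add_mul, Matrix.mul_add, Matrix.mul_add, h1, h2, h3.1, h3.2, add_zero, zero_add]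
  · filter_upwards [S.le, hPQ, hW] with x h1 h2 h3
    have h4 : c.D 1 x * W.Q x = W.Q x := by
      rw [← h3, ← Matrix.mul_assoc, h2.2.2.2.2.2]
    rw [Matrix.mul_add, h1, h4]
  · intro a
    filter_upwards [S.equiv a, W.equiv a, h0, hE.ae_smul a h0, hW, hE.ae_smul a S.idem,
      c.D_one_mul hE a] with x h1 h2 h3 h4 h5 h6 h7
    have h8 : W.Q (a • x) * ((c.D 1 (a • x) - S.Q (a • x)) * c.D a x * (c.D 1 x - S.Q x) *
        W.Q x) = (c.D 1 (a • x) - S.Q (a • x)) * c.D a x * (c.D 1 x - S.Q x) * W.Q x := h2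
    have h9 : (c.D 1 (a • x) - S.Q (a • x)) * c.D a x * (c.D 1 x - S.Q x) * W.Q x =
        c.D a x * W.Q x - S.Q (a • x) * (c.D a x * W.Q x) := by
      rw [Matrix.mul_assoc, h5, Matrix.sub_mul, h7, Matrix.sub_mul, Matrix.mul_assoc]
    rw [h9] at h8
    have h10 : W.Q (a • x) * (c.D a x * W.Q x) =
        c.D a x * W.Q x - S.Q (a • x) * (c.D a x * W.Q x) := by
      rw [Matrix.mul_sub, ← Matrix.mul_assoc (W.Q (a • x)) (S.Q (a • x)), h4.2,
        Matrix.zero_mul, sub_zero] at h8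
      exact h8
    have h11 : W.Q (a • x) * (c.D a x * S.Q x) = 0 := by
      rw [← h1, ← Matrix.mul_assoc, h4.2, Matrix.zero_mul]
    rw [Matrix.mul_add, Matrix.add_mul, Matrix.mul_add, Matrix.mul_add, h1, h10, h11, zero_add]
    abel

/-- The annihilator of a subbundle of the dual. -/
theorem exists_ann (hE : Sys A X μ) (c : Coc A X ι μ) (F : (c.dual hE).Sub) :
    ∃ U : c.Sub, ∀ x, U.Q x = c.D 1 x - F.Q x := by
  have hF : ∀ᵐ x ∂μ, c.D 1 x * F.Q x = F.Q x := by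
    filter_upwards [F.le, c.symm] with x h1 h2
    have h3 : (c.D (1 : A)⁻¹ ((1 : A) • x))ᵀ * F.Q x = F.Q x := h1
    rwa [inv_one, one_smul, h2] at h3
  have hPQ : ∀ᵐ x ∂μ, F.Q x * c.D 1 x = F.Q x ∧ (c.D 1 x - F.Q x)ᵀ = c.D 1 x - F.Q x ∧
      (c.D 1 x - F.Q x) * (c.D 1 x - F.Q x) = c.D 1 x - F.Q x ∧
      F.Q x * (c.D 1 x - F.Q x) = 0 ∧ (c.D 1 x - F.Q x) * F.Q x = 0 ∧
      c.D 1 x * (c.D 1 x - F.Q x) = c.D 1 x - F.Q x := by
    filter_upwards [c.symm, c.D_one_idem hE, F.symm, F.idem, hF] with x h1 h2 h3 h4 h5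
    exact co3_proj h1 h2 h3 h4 h5
  refine ⟨⟨fun x => c.D 1 x - F.Q x, (c.meas 1).sub F.meas, ?_, ?_, ?_, ?_⟩, fun _ => rfl⟩
  · filter_upwards [hPQ] with x h
    exact h.2.1
  · filter_upwards [hPQ] with x h
    exact h.2.2.1
  · filter_upwards [hPQ] with x h
    exact h.2.2.2.2.2
  · intro a
    filter_upwards [hE.ae_smul a (F.equiv a⁻¹), c.D_one_mul hE a, c.D_mul_one hE a, F.symm,
      hE.ae_smul a F.symm] with x h1 h2 h3 h4 h5
    have h6 : F.Q (a⁻¹ • a • x) * ((c.D (a⁻¹)⁻¹ (a⁻¹ • a • x))ᵀ * F.Q (a • x)) =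
        (c.D (a⁻¹)⁻¹ (a⁻¹ • a • x))ᵀ * F.Q (a • x) := h1
    rw [inv_smul_smul, inv_inv] at h6
    have h7 := congrArg Matrix.transpose h6
    rw [Matrix.transpose_mul, Matrix.transpose_mul, Matrix.transpose_transpose, h4, h5] at h7
    have h8 : F.Q (a • x) * (c.D a x * (c.D 1 x - F.Q x)) = 0 := by
      rw [Matrix.mul_sub, h3, Matrix.mul_sub, ← Matrix.mul_assoc, h7, sub_self]
    rw [Matrix.sub_mul, h8, sub_zero, ← Matrix.mul_assoc, h2]

/-- The trace is invariant. -/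
private theorem co3_trace (hE : Sys A X μ) (c : Coc A X ι μ) (S : c.Sub) (a : A) :
    ∀ᵐ x ∂μ, trace (S.Q (a • x)) = trace (S.Q x) := by
  filter_upwards [S.equiv a, hE.ae_smul a (S.equiv a⁻¹), c.D_inv_mul hE a, c.D_mul_inv hE a,
    S.le, hE.ae_smul a S.le] with x h1 h2 h3 h4 h5 h6
  rw [inv_smul_smul] at h2
  have h7 : c.D a x * S.Q x * (c.D a⁻¹ (a • x) * S.Q (a • x)) = S.Q (a • x) := by
    rw [Matrix.mul_assoc, h2, ← Matrix.mul_assoc, h4, h6]
  have h8 : c.D a⁻¹ (a • x) * S.Q (a • x) * (c.D a x * S.Q x) = S.Q x := by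
    rw [Matrix.mul_assoc, h1, ← Matrix.mul_assoc, h3, h5]
  rw [← h7, Matrix.trace_mul_comm, h8]

/-- The trace of an idempotent matrix is a natural number. -/
private theorem co3_nat {Q : Matrix ι ι ℝ} (h : Q * Q = Q) :
    ∃ r : ℕ, r ≤ Fintype.card ι ∧ trace Q = (r : ℝ) := by
  have h1 : IsIdempotentElem (Matrix.toLin' Q) := by
    unfold IsIdempotentElem
    rw [Module.End.mul_eq_comp, ← Matrix.toLin'_mul, h]
  have h2 := (LinearMap.IsIdempotentElem.isProj_range _ h1).trace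
  rw [Matrix.trace_toLin'_eq] at h2
  refine ⟨_, ?_, h2⟩
  have h3 := Submodule.finrank_le (LinearMap.range (Matrix.toLin' Q))
  rwa [Module.finrank_fintype_fun_eq_card] at h3

private theorem co3_rank (hE : Sys A X μ) (c : Coc A X ι μ) (S : c.Sub) :
    ∃ r : ℕ, r ≤ Fintype.card ι ∧ ∀ᵐ x ∂μ, trace (S.Q x) = (r : ℝ) := by
  have := hE.prob
  obtain ⟨t, ht⟩ := hE.ae_const S.meas.trace (co3_trace hE c S)
  obtain ⟨x, hx, hi⟩ := (ht.and S.idem).exists
  obtain ⟨r, hr, h⟩ := co3_nat hi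
  refine ⟨r, hr, ?_⟩
  filter_upwards [ht] with y hy
  rw [hy, ← hx, h]

/-- A cocycle is a.e. zero or a.e. nonzero (ergodicity). -/
theorem zero_or_ne_zero (hE : Sys A X μ) (c : Coc A X ι μ) :
    (∀ᵐ x ∂μ, c.D 1 x = 0) ∨ ∀ᵐ x ∂μ, c.D 1 x ≠ 0 := by
  obtain ⟨Z, hZ⟩ := exists_top hE c
  obtain ⟨r, -, hr⟩ := co3_rank hE c Z
  rcases Nat.eq_zero_or_pos r with h0 | h0
  · left
    filter_upwards [hr, c.symm, c.D_one_idem hE] with x h1 h2 h3
    rw [hZ, h0, Nat.cast_zero] at h1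
    have h4 := fn_sq_trace (c.D 1 x)
    rw [h2, h3, h1] at h4
    exact fn_eq_zero.1 (pow_eq_zero_iff two_ne_zero |>.1 h4)
  · right
    filter_upwards [hr] with x h1 h2
    rw [hZ, h2, Matrix.trace_zero] at h1
    exact h0.ne (by exact_mod_cast h1)

/-- The rank of a subbundle: `trace (Q (a x)) = trace (Q x)` since `D a x` maps the range of `Q x`
isomorphically onto the range of `Q (a x)`; the trace of a projection is its rank. -/
theorem Sub.exists_rank (hE : Sys A X μ) {c : Coc A X ι μ} (S : c.Sub) :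
    ∃ r : ℕ, r ≤ Fintype.card ι ∧ ∀ᵐ x ∂μ, trace (S.Q x) = (r : ℝ) := by
  exact co3_rank hE c S

end Coc

end Pool.Agent.H23.DM
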