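import Mathlib
import Pool.Agent.H23.DM.Co3

/-!
MODULE Le1 (dimension theorem, Part 2.1).  Calculus of rates, first part.

`Le_mul`: `(a b)^t = a^t b^t`, `D (a^t b^t) x = D (a^t) (b^t x) * D (b^t) x`, the map `x ↦ b^t x`
preserves the measure.  `Le_pow`: subsequence.  `exists_Le`: `pow_bd`.  `zero_of_Le`: `fn (D 1 x) ≤
fn (D (a⁻¹ ^ t) (a^t x)) * fn (D (a^t) x) ≤ exp ((r + s) t)` outside sets of measure tending to `0`.
The sets `{x | exp (r t) < fn (D (a^t) x)}` are measurable.  If two families of bad sets satisfy `WP`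
so does any family contained in their union.
-/

open MeasureTheory Filter Matrix
open scoped Topology

namespace Pool.Agent.H23.DM

theorem WP.mono {X : Type} [MeasurableSpace X] {μ : Measure X} {E F : ℕ → Set X} (h : WP μ F)
    (hEF : ∀ᶠ t in atTop, μ (E t) ≤ μ (F t)) : WP μ E := by
  exact tendsto_of_tendsto_of_tendsto_of_le_of_le' tendsto_const_nhds h
    (Eventually.of_forall fun t => zero_le) hEF

theorem WP.union {X : Type} [MeasurableSpace X] {μ : Measure X} {E F G : ℕ → Set X} (hE : WP μ E)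
    (hF : WP μ F) (h : ∀ᶠ t in atTop, μ (G t \ (E t ∪ F t)) = 0) : WP μ G := by
  have h1 : Tendsto (fun t : ℕ => μ (E t) + μ (F t)) atTop (𝓝 0) := by
    have h2 := Filter.Tendsto.add hE hF
    simpa using h2
  refine tendsto_of_tendsto_of_tendsto_of_le_of_le' tendsto_const_nhds h1
    (Eventually.of_forall fun t => zero_le) ?_
  filter_upwards [h] with t ht
  calc μ (G t) ≤ μ ((E t ∪ F t) ∪ (G t \ (E t ∪ F t))) :=
        measure_mono fun x hx => by
          by_cases h3 : x ∈ E t ∪ F t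
          · exact Or.inl h3
          · exact Or.inr ⟨hx, h3⟩
    _ ≤ μ (E t ∪ F t) + μ (G t \ (E t ∪ F t)) := measure_union_le _ _
    _ ≤ μ (E t) + μ (F t) := by
        rw [ht, add_zero]
        exact measure_union_le _ _

namespace Coc

variable {A X ι : Type} [CommGroup A] [MulAction A X] [Fintype ι] [DecidableEq ι]
  [MeasurableSpace X] {μ : Measure X}

private theorem le1_meas (c : Coc A X ι μ) (a : A) (u : ℝ) :
    MeasurableSet {x | u < fn (c.D a x)} :=
  measurableSet_lt measurable_const (MM.fn (c.meas a))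

private theorem le1_of_null {E : ℕ → Set X} (h : ∀ᶠ t in atTop, μ (E t) = 0) : WP μ E := by
  refine Tendsto.congr' ?_ tendsto_const_nhds
  filter_upwards [h] with t ht
  exact ht.symm

theorem Le_mono {c : Coc A X ι μ} {a : A} {r r' : ℝ} (h : c.Le a r) (hr : r ≤ r') :
    c.Le a r' := by
  refine WP.mono h (Eventually.of_forall fun t => measure_mono fun x hx => ?_)
  have h1 : Real.exp (r * t) ≤ Real.exp (r' * t) :=
    Real.exp_le_exp.2 (mul_le_mul_of_nonneg_right hr (Nat.cast_nonneg t))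
  exact lt_of_le_of_lt h1 hx

theorem Le_congr {c c' : Coc A X ι μ} (h : ∀ a, ∀ᵐ x ∂μ, c.D a x = c'.D a x) {a : A} {r : ℝ}
    (hc : c.Le a r) : c'.Le a r := by
  refine WP.mono hc (Eventually.of_forall fun t => le_of_eq (measure_congr ?_))
  filter_upwards [h (a ^ t)] with x hx
  change (Real.exp (r * t) < fn (c'.D (a ^ t) x)) = (Real.exp (r * t) < fn (c.D (a ^ t) x))
  rw [hx]

theorem Le_mul (hE : Sys A X μ) {c : Coc A X ι μ} {a b : A} {r s : ℝ} (ha : c.Le a r)
    (hb : c.Le b s) : c.Le (a * b) (r + s) := by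
  have h1 : WP μ fun t => (fun x : X => b ^ t • x) ⁻¹' {x | Real.exp (r * t) < fn (c.D (a ^ t) x)} := by
    refine WP.mono ha (Eventually.of_forall fun t => le_of_eq ?_)
    exact hE.measure_preimage (b ^ t) (le1_meas c (a ^ t) _)
  refine WP.union h1 hb (Eventually.of_forall fun t => ?_)
  have h2 : ∀ᵐ x ∂μ, x ∉ {x | Real.exp ((r + s) * t) < fn (c.D ((a * b) ^ t) x)} \
      ((fun x : X => b ^ t • x) ⁻¹' {x | Real.exp (r * t) < fn (c.D (a ^ t) x)} ∪
        {x | Real.exp (s * t) < fn (c.D (b ^ t) x)}) := by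
    filter_upwards [c.mul (a ^ t) (b ^ t)] with x hx
    rintro ⟨h3, h4⟩
    have h5 : fn (c.D (a ^ t) (b ^ t • x)) ≤ Real.exp (r * t) := by
      by_contra h6
      exact h4 (Or.inl (not_le.1 h6))
    have h6 : fn (c.D (b ^ t) x) ≤ Real.exp (s * t) := by
      by_contra h7
      exact h4 (Or.inr (not_le.1 h7))
    have h7 : fn (c.D ((a * b) ^ t) x) ≤ Real.exp ((r + s) * t) := by
      rw [mul_pow, hx, add_mul, Real.exp_add]
      exact (fn_mul_le _ _).trans (mul_le_mul h5 h6 (fn_nonneg _) (Real.exp_pos _).le)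
    exact absurd h3 (not_lt.2 h7)
  exact measure_eq_zero_iff_ae_notMem.2 h2

theorem Le_pow {c : Coc A X ι μ} {a : A} {r : ℝ} (h : c.Le a r) {k : ℕ} (hk : 1 ≤ k) :
    c.Le (a ^ k) (k * r) := by
  have h1 : Tendsto (fun t : ℕ => k * t) atTop atTop :=
    tendsto_atTop_mono (fun t => Nat.le_mul_of_pos_left t hk) tendsto_id
  have h2 := Filter.Tendsto.comp h h1
  refine Tendsto.congr (fun t => ?_) h2
  simp only [Function.comp]
  rw [pow_mul]
  congr 1
  ext x
  change (Real.exp (r * ((k * t : ℕ) : ℝ)) < fn (c.D ((a ^ k) ^ t) x)) ↔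
    (Real.exp (k * r * t) < fn (c.D ((a ^ k) ^ t) x))
  have h3 : r * ((k * t : ℕ) : ℝ) = k * r * t := by
    push_cast
    ring
  rw [h3]

theorem exists_Le (hE : Sys A X μ) (c : Coc A X ι μ) (a : A) : ∃ r : ℝ, 0 < r ∧ c.Le a r := by
  obtain ⟨C, hC, h⟩ := c.pow_bd hE a
  have hC0 : 0 < C := zero_lt_one.trans_le hC
  have hl : 0 ≤ Real.log C := Real.log_nonneg hC
  refine ⟨2 * Real.log C + 1, by positivity, le1_of_null ?_⟩
  filter_upwards [eventually_ge_atTop 1] with t ht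
  rw [measure_eq_zero_iff_ae_notMem]
  filter_upwards [h t] with x hx
  have ht' : (1 : ℝ) ≤ t := by exact_mod_cast ht
  have h1 : C ^ (t + 1) ≤ Real.exp ((2 * Real.log C + 1) * t) := by
    rw [← Real.exp_log (pow_pos hC0 (t + 1)), Real.log_pow]
    refine Real.exp_le_exp.2 ?_
    push_cast
    nlinarith
  intro h2
  exact absurd (lt_of_lt_of_le h2 (hx.trans h1)) (lt_irrefl _)

theorem Up_one (hE : Sys A X μ) (c : Coc A X ι μ) : c.Up 1 := by
  intro ε hε
  obtain ⟨C, hC⟩ := c.bdd 1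
  have h1 : Tendsto (fun t : ℕ => Real.exp (ε * t)) atTop atTop :=
    Real.tendsto_exp_atTop.comp (tendsto_natCast_atTop_atTop.const_mul_atTop hε)
  refine le1_of_null ?_
  filter_upwards [h1.eventually_ge_atTop C] with t ht
  rw [measure_eq_zero_iff_ae_notMem]
  filter_upwards [hC] with x hx
  intro h2
  change Real.exp (ε * t) < fn (c.D (1 ^ t) x) at h2
  rw [one_pow] at h2
  exact absurd (lt_of_lt_of_le h2 (hx.trans ht)) (lt_irrefl _)

theorem Up_mul (hE : Sys A X μ) {c : Coc A X ι μ} {a b : A} (ha : c.Up a) (hb : c.Up b) :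
    c.Up (a * b) := by
  intro ε hε
  have h := Le_mul hE (ha (ε / 2) (half_pos hε)) (hb (ε / 2) (half_pos hε))
  rwa [add_halves] at h

theorem Up_pow (hE : Sys A X μ) {c : Coc A X ι μ} {a : A} (ha : c.Up a) (k : ℕ) :
    c.Up (a ^ k) := by
  induction k with
  | zero =>
    rw [pow_zero]
    exact Up_one hE c
  | succ k ih =>
    rw [pow_succ]
    exact Up_mul hE ih ha

/-- `Dn` and `Up` for the inverse give `Dn` of the product. -/
theorem Dn_mul (hE : Sys A X μ) {c : Coc A X ι μ} {a b : A} (ha : c.Dn a) (hb : c.Up b⁻¹) :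
    c.Dn (a * b) := by
  obtain ⟨δ, hδ, h⟩ := ha
  refine ⟨δ / 2, half_pos hδ, ?_⟩
  have h1 := Le_mul hE h (hb (δ / 2) (half_pos hδ))
  have e : -δ + δ / 2 = -(δ / 2) := by ring
  rw [e] at h1
  rwa [mul_inv]

theorem Dn_pow {c : Coc A X ι μ} {a : A} (ha : c.Dn a) {k : ℕ} (hk : 1 ≤ k) : c.Dn (a ^ k) := by
  obtain ⟨δ, hδ, h⟩ := ha
  have hk' : (0 : ℝ) < k := by exact_mod_cast hk
  refine ⟨k * δ, mul_pos hk' hδ, ?_⟩
  have h1 := Le_pow h hk
  rw [mul_neg, inv_pow] at h1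
  exact h1

/-- For `N` large `a ^ N * b` is expanding if `a` is. -/
theorem Dn_pow_mul (hE : Sys A X μ) {c : Coc A X ι μ} {a : A} (ha : c.Dn a) (b : A) :
    ∃ N₀ : ℕ, ∀ N, N₀ ≤ N → c.Dn (a ^ N * b) := by
  obtain ⟨δ, hδ, h⟩ := ha
  obtain ⟨r, hr, hb⟩ := exists_Le hE c b⁻¹
  obtain ⟨N₀, hN₀⟩ := exists_nat_gt (r / δ)
  have h0 : (0 : ℝ) < N₀ := lt_of_le_of_lt (div_nonneg hr.le hδ.le) hN₀
  refine ⟨N₀, fun N hN => ⟨N * δ - r, ?_, ?_⟩⟩
  · have h1 : (N₀ : ℝ) ≤ N := by exact_mod_cast hN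
    rw [div_lt_iff₀ hδ] at hN₀
    nlinarith
  · have hN1 : 1 ≤ N := by
      have h1 : 0 < N₀ := by exact_mod_cast h0
      omega
    have h1 := Le_mul hE (Le_pow h hN1) hb
    have e : (N : ℝ) * -δ + r = -(N * δ - r) := by ring
    rw [e, inv_pow] at h1
    rwa [mul_inv]

theorem Up_of_Dn_inv {c : Coc A X ι μ} {a : A} (ha : c.Dn a⁻¹) : c.Up a := by
  obtain ⟨δ, hδ, h⟩ := ha
  rw [inv_inv] at h
  intro ε hε
  exact Le_mono h (by linarith)

theorem zero_of_Le (hE : Sys A X μ) {c : Coc A X ι μ} {a : A} {r s : ℝ} (ha : c.Le a r)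
    (hb : c.Le a⁻¹ s) (hrs : r + s < 0) : ∀ᵐ x ∂μ, c.D 1 x = 0 := by
  have h1 := Le_mul hE ha hb
  rw [mul_inv_cancel] at h1
  have h2 : ∀ᶠ t : ℕ in atTop, μ {x | c.D 1 x ≠ 0} ≤
      μ {x | Real.exp ((r + s) * t) < fn (c.D (1 ^ t) x)} := by
    filter_upwards [eventually_ge_atTop 1] with t ht
    refine measure_mono_ae ?_
    filter_upwards [c.D_one_idem hE, c.symm] with x hi hs
    intro h3
    change Real.exp ((r + s) * t) < fn (c.D (1 ^ t) x)
    rw [one_pow]
    have ht' : (1 : ℝ) ≤ t := by exact_mod_cast ht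
    have h4 : Real.exp ((r + s) * t) < 1 := by
      rw [← Real.exp_zero]
      exact Real.exp_lt_exp.2 (mul_neg_of_neg_of_pos hrs (by linarith))
    exact h4.trans_le (one_le_fn_of_proj hs hi h3)
  have h3 : μ {x | c.D 1 x ≠ 0} ≤ 0 := ge_of_tendsto h1 h2
  have h4 : μ {x | c.D 1 x ≠ 0} = 0 := le_antisymm h3 zero_le
  have h5 := measure_eq_zero_iff_ae_notMem.1 h4
  filter_upwards [h5] with x hx
  by_contra h6
  exact hx h6

theorem zero_of_Up_Dn (hE : Sys A X μ) {c : Coc A X ι μ} {a : A} (ha : c.Up a)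
    (hb : c.Dn a) : ∀ᵐ x ∂μ, c.D 1 x = 0 := by
  obtain ⟨δ, hδ, h⟩ := hb
  exact zero_of_Le hE (ha (δ / 2) (half_pos hδ)) h (by linarith)

end Coc

end Pool.Agent.H23.DM
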