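import Mathlib
import Pool.Agent.H23.DM.Le1

/-!
MODULE Le2 (dimension theorem, Part 2.1).  Rates on subbundles and quotients.

`sub_Le_mono`: `D T = (D S) T`, `fn_mul_proj_le`.  `sup_Le`: `U = rp (S + T) = (S + T) Y`,
`Y = pv (S + T)` measurable and finite, so `fn (Y x) ≤ exp ((r'-r) t / 2)` with probability tending
to one, and `D U = (D S) Y + (D T) Y`.  `quot_Le_mono`: `P - T = (P - T)(P - S)`.
`sub_quot_zero`: if `S ≤ T` ... see the statements.
-/

open MeasureTheory Filter Matrix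
open scoped Topology

namespace Pool.Agent.H23.DM

/-- A measurable real function is at most `exp (ε t)` with probability tending to one. -/
theorem WP_of_finite {X : Type} [MeasurableSpace X] {μ : Measure X} [IsFiniteMeasure μ]
    {f : X → ℝ} (hf : Measurable f) {ε : ℝ} (hε : 0 < ε) :
    WP μ fun t => {x | Real.exp (ε * t) < f x} := by
  have hanti : Antitone fun t : ℕ => {x | Real.exp (ε * t) < f x} := by
    intro t t' htt x hx
    have h1 : Real.exp (ε * t) ≤ Real.exp (ε * t') := by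
      refine Real.exp_le_exp.2 (mul_le_mul_of_nonneg_left ?_ hε.le)
      exact_mod_cast htt
    exact lt_of_le_of_lt h1 hx
  have hint : ⋂ t : ℕ, {x | Real.exp (ε * t) < f x} = ∅ := by
    rw [Set.eq_empty_iff_forall_notMem]
    intro x hx
    rw [Set.mem_iInter] at hx
    obtain ⟨t, ht⟩ := exists_nat_ge (f x / ε)
    have h1 : Real.exp (ε * t) < f x := hx t
    have h2 : f x ≤ ε * t := by
      rw [div_le_iff₀ hε] at ht
      linarith
    have h3 := Real.add_one_le_exp (ε * t)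
    linarith
  have h := tendsto_measure_iInter_atTop (μ := μ) (s := fun t : ℕ => {x | Real.exp (ε * t) < f x})
    (fun t => (measurableSet_lt measurable_const hf).nullMeasurableSet) hanti
    ⟨0, measure_ne_top μ _⟩
  rw [hint, measure_empty] at h
  exact h

namespace Coc

variable {A X ι : Type} [CommGroup A] [MulAction A X] [Fintype ι] [DecidableEq ι]
  [MeasurableSpace X] {μ : Measure X}

private theorem le2_mono {E F : ℕ → Set X} (hF : WP μ F)
    (h : ∀ t, ∀ᵐ x ∂μ, x ∈ E t → x ∈ F t) : WP μ E :=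
  hF.mono (Eventually.of_forall fun t => measure_mono_ae (h t))

private theorem le2_cmp {c c' : Coc A X ι μ} {a : A} {r : ℝ}
    (h : ∀ b, ∀ᵐ x ∂μ, fn (c'.D b x) ≤ fn (c.D b x)) (hc : c.Le a r) : c'.Le a r :=
  le2_mono hc fun t => by
    filter_upwards [h (a ^ t)] with x hx hE
    exact lt_of_lt_of_le hE hx

/-- the algebra of `P = D 1` and a subbundle -/
private theorem le2_proj (hE : Sys A X μ) (c : Coc A X ι μ) (S : c.Sub) : ∀ᵐ x ∂μ,
    (c.D 1 x)ᵀ = c.D 1 x ∧ c.D 1 x * c.D 1 x = c.D 1 x ∧ (S.Q x)ᵀ = S.Q x ∧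
    S.Q x * S.Q x = S.Q x ∧ c.D 1 x * S.Q x = S.Q x ∧ S.Q x * c.D 1 x = S.Q x := by
  filter_upwards [c.symm, c.D_one_idem hE, S.symm, S.idem, S.le] with x h1 h2 h3 h4 h5
  refine ⟨h1, h2, h3, h4, h5, ?_⟩
  have := congrArg Matrix.transpose h5
  rwa [Matrix.transpose_mul, h1, h3] at this

private theorem le2_alg {P Q : Matrix ι ι ℝ} (h1 : Pᵀ = P) (h2 : P * P = P) (h3 : Qᵀ = Q)
    (h4 : Q * Q = Q) (h5 : P * Q = Q) (h6 : Q * P = Q) :
    (P - Q)ᵀ = P - Q ∧ (P - Q) * (P - Q) = P - Q := by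
  refine ⟨by rw [Matrix.transpose_sub, h1, h3], ?_⟩
  rw [Matrix.mul_sub, Matrix.sub_mul, Matrix.sub_mul, h2, h4, h5, h6, sub_self, sub_zero]

theorem sub_Le_mono (hE : Sys A X μ) {c : Coc A X ι μ} {S T : c.Sub}
    (h : ∀ᵐ x ∂μ, S.Q x * T.Q x = T.Q x) {a : A} {r : ℝ} (hS : (c.sub hE S).Le a r) :
    (c.sub hE T).Le a r := by
  refine le2_cmp (fun b => ?_) hS
  filter_upwards [h, T.symm, T.idem] with x h1 h2 h3
  change fn (c.D b x * T.Q x) ≤ fn (c.D b x * S.Q x)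
  rw [← h1, ← Matrix.mul_assoc]
  exact fn_mul_proj_le h2 h3 _

theorem sub_Le_of_Le (hE : Sys A X μ) {c : Coc A X ι μ} (S : c.Sub) {a : A} {r : ℝ}
    (h : c.Le a r) : (c.sub hE S).Le a r := by
  refine le2_cmp (fun b => ?_) h
  filter_upwards [S.symm, S.idem] with x h2 h3
  exact fn_mul_proj_le h2 h3 _

theorem Le_of_sub_Le (hE : Sys A X μ) {c : Coc A X ι μ} {S : c.Sub}
    (h : ∀ᵐ x ∂μ, S.Q x = c.D 1 x) {a : A} {r : ℝ} (hS : (c.sub hE S).Le a r) : c.Le a r := by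
  refine le2_cmp (fun b => ?_) hS
  filter_upwards [h, c.D_mul_one hE b] with x h1 h2
  change fn (c.D b x) ≤ fn (c.D b x * S.Q x)
  rw [h1, h2]

/-- Rates on a subbundle of a subbundle. -/
theorem sub_sub_Le (hE : Sys A X μ) {c : Coc A X ι μ} {S : c.Sub} {T : (c.sub hE S).Sub}
    {U : c.Sub} (hU : ∀ᵐ x ∂μ, U.Q x = T.Q x) {a : A} {r : ℝ} :
    ((c.sub hE S).sub hE T).Le a r ↔ (c.sub hE U).Le a r := by
  have key : ∀ b, ∀ᵐ x ∂μ, ((c.sub hE S).sub hE T).D b x = (c.sub hE U).D b x := by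
    intro b
    filter_upwards [hU, T.le, S.le] with x h1 h2 h3
    change c.D b x * S.Q x * T.Q x = c.D b x * U.Q x
    have h4 : c.D 1 x * S.Q x * T.Q x = T.Q x := h2
    rw [h3] at h4
    rw [h1, Matrix.mul_assoc, h4]
  exact ⟨fun h => Le_congr key h, fun h => Le_congr (fun b => (key b).mono fun x hx => hx.symm) h⟩

theorem sup_Le (hE : Sys A X μ) {c : Coc A X ι μ} {S T U : c.Sub}
    (hU : ∀ᵐ x ∂μ, U.Q x = rp (S.Q x + T.Q x)) {a : A} {r r' : ℝ} (hr : r < r')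
    (hS : (c.sub hE S).Le a r) (hT : (c.sub hE T).Le a r) : (c.sub hE U).Le a r' := by
  have := hE.prob
  obtain ⟨ε, hε⟩ : ∃ ε, ε = (r' - r) / 2 := ⟨_, rfl⟩
  have hε0 : 0 < ε := by
    rw [hε]
    linarith
  have hY : WP μ fun t => {x | Real.exp (ε * t) < fn (pv (S.Q x + T.Q x))} :=
    WP_of_finite (MM.fn (MM.pv (S.meas.add T.meas))) hε0
  have hST : WP μ fun t => {x | Real.exp (r * t) < fn ((c.sub hE S).D (a ^ t) x)} ∪
      {x | Real.exp (r * t) < fn ((c.sub hE T).D (a ^ t) x)} :=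
    WP.union hS hT (Eventually.of_forall fun t => by rw [Set.sdiff_self, measure_empty])
  have hlarge : ∀ᶠ t : ℕ in atTop, (2 : ℝ) ≤ Real.exp (ε * t) := by
    obtain ⟨N, hN⟩ := exists_nat_ge (1 / ε)
    filter_upwards [eventually_ge_atTop N] with t ht
    have h1 : (N : ℝ) ≤ t := by exact_mod_cast ht
    have h2 : 1 ≤ ε * t := by
      rw [div_le_iff₀ hε0] at hN
      nlinarith
    have h3 := Real.add_one_le_exp (ε * t)
    linarith
  refine WP.union hST hY ?_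
  filter_upwards [hlarge] with t ht
  have hae : ∀ᵐ x ∂μ, x ∉ {x | Real.exp (r' * t) < fn ((c.sub hE U).D (a ^ t) x)} \
      (({x | Real.exp (r * t) < fn ((c.sub hE S).D (a ^ t) x)} ∪
      {x | Real.exp (r * t) < fn ((c.sub hE T).D (a ^ t) x)}) ∪
      {x | Real.exp (ε * t) < fn (pv (S.Q x + T.Q x))}) := by
    filter_upwards [hU] with x hUx
    rintro ⟨h1, h2⟩
    rw [Set.mem_union, Set.mem_union, not_or, not_or] at h2
    obtain ⟨⟨h3, h4⟩, h5⟩ := h2
    have h3' : fn (c.D (a ^ t) x * S.Q x) ≤ Real.exp (r * t) := not_lt.1 h3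
    have h4' : fn (c.D (a ^ t) x * T.Q x) ≤ Real.exp (r * t) := not_lt.1 h4
    have h5' : fn (pv (S.Q x + T.Q x)) ≤ Real.exp (ε * t) := not_lt.1 h5
    have h1' : Real.exp (r' * t) < fn (c.D (a ^ t) x * U.Q x) := h1
    rw [hUx, rp_eq, ← Matrix.mul_assoc, Matrix.mul_add] at h1'
    have h6 : fn ((c.D (a ^ t) x * S.Q x + c.D (a ^ t) x * T.Q x) * pv (S.Q x + T.Q x)) ≤
        (Real.exp (r * t) + Real.exp (r * t)) * Real.exp (ε * t) := by
      refine (fn_mul_le _ _).trans (mul_le_mul ?_ h5' (fn_nonneg _) (by positivity))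
      exact (fn_add_le _ _).trans (add_le_add h3' h4')
    have h7 : (Real.exp (r * t) + Real.exp (r * t)) * Real.exp (ε * t) ≤ Real.exp (r' * t) := by
      have e1 : Real.exp (r' * t) = Real.exp (r * t) * Real.exp (ε * t) * Real.exp (ε * t) := by
        rw [← Real.exp_add, ← Real.exp_add]
        congr 1
        rw [hε]
        ring
      rw [e1]
      have h8 : 0 < Real.exp (r * t) * Real.exp (ε * t) := by positivity
      nlinarith
    linarith
  exact measure_eq_zero_iff_ae_notMem.2 hae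

theorem quot_Le_mono (hE : Sys A X μ) {c : Coc A X ι μ} {S T : c.Sub}
    (h : ∀ᵐ x ∂μ, T.Q x * S.Q x = S.Q x) {a : A} {r : ℝ} (hS : (c.quot hE S).Le a r) :
    (c.quot hE T).Le a r := by
  refine le2_cmp (fun b => ?_) hS
  have hall : ∀ᵐ x ∂μ, (c.D 1 x - T.Q x) * (c.D 1 x - S.Q x) = c.D 1 x - T.Q x ∧
      (c.D 1 x - S.Q x) * (c.D 1 x - T.Q x) = c.D 1 x - T.Q x ∧
      (c.D 1 x - T.Q x)ᵀ = c.D 1 x - T.Q x ∧
      (c.D 1 x - T.Q x) * (c.D 1 x - T.Q x) = c.D 1 x - T.Q x := by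
    filter_upwards [h, le2_proj hE c S, le2_proj hE c T] with x h1 hSx hTx
    obtain ⟨p1, p2, s1, s2, s3, s4⟩ := hSx
    obtain ⟨-, -, t1, t2, t3, t4⟩ := hTx
    have h2 : S.Q x * T.Q x = S.Q x := by
      have := congrArg Matrix.transpose h1
      rwa [Matrix.transpose_mul, s1, t1] at this
    refine ⟨?_, ?_, le2_alg p1 p2 t1 t2 t3 t4⟩
    · rw [Matrix.mul_sub, Matrix.sub_mul, Matrix.sub_mul, p2, t4, s3, h1, sub_self, sub_zero]
    · rw [Matrix.mul_sub, Matrix.sub_mul, Matrix.sub_mul, p2, s4, t3, h2]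
      abel
  filter_upwards [hall, hE.ae_smul b hall] with x hx hx'
  change fn ((c.D 1 (b • x) - T.Q (b • x)) * c.D b x * (c.D 1 x - T.Q x)) ≤
    fn ((c.D 1 (b • x) - S.Q (b • x)) * c.D b x * (c.D 1 x - S.Q x))
  have e : (c.D 1 (b • x) - T.Q (b • x)) * c.D b x * (c.D 1 x - T.Q x) =
      (c.D 1 (b • x) - T.Q (b • x)) * (((c.D 1 (b • x) - S.Q (b • x)) * c.D b x *
        (c.D 1 x - S.Q x)) * (c.D 1 x - T.Q x)) := by
    rw [Matrix.mul_assoc _ (c.D 1 x - S.Q x) (c.D 1 x - T.Q x), hx.2.1, ← Matrix.mul_assoc,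
      ← Matrix.mul_assoc, hx'.1]
  rw [e]
  exact (fn_proj_mul_le hx'.2.2.1 hx'.2.2.2 _).trans (fn_mul_proj_le hx.2.2.1 hx.2.2.2 _)

/-- If `S` is zero the quotient has the same rates as `c`. -/
theorem Le_of_quot_zero (hE : Sys A X μ) {c : Coc A X ι μ} {S : c.Sub}
    (h : ∀ᵐ x ∂μ, S.Q x = 0) {a : A} {r : ℝ} : (c.quot hE S).Le a r ↔ c.Le a r := by
  have key : ∀ b, ∀ᵐ x ∂μ, (c.quot hE S).D b x = c.D b x := by
    intro b
    filter_upwards [h, hE.ae_smul b h, c.D_one_mul hE b, c.D_mul_one hE b] with x h1 h2 h3 h4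
    change (c.D 1 (b • x) - S.Q (b • x)) * c.D b x * (c.D 1 x - S.Q x) = c.D b x
    rw [h1, h2, sub_zero, sub_zero, h3, h4]
  exact ⟨fun h => Le_congr key h, fun h => Le_congr (fun b => (key b).mono fun x hx => hx.symm) h⟩

/-- The quotient by `S` of the subbundle `S ⊕ W`, `W` a subbundle of the quotient: it is `W`. -/
theorem quot_sub_Le (hE : Sys A X μ) {c : Coc A X ι μ} {S : c.Sub} {W : (c.quot hE S).Sub}
    {U : c.Sub} (hU : ∀ x, U.Q x = S.Q x + W.Q x) {S' : (c.sub hE U).Sub}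
    (hS' : ∀ᵐ x ∂μ, S'.Q x = S.Q x) {a : A} {r : ℝ} (h : ((c.quot hE S).sub hE W).Le a r) :
    ((c.sub hE U).quot hE S').Le a r := by
  have hall : ∀ᵐ x ∂μ, (c.D 1 x - S.Q x) * W.Q x = W.Q x ∧ W.Q x * (c.D 1 x - S.Q x) = W.Q x ∧
      S.Q x * W.Q x = 0 ∧ W.Q x * W.Q x = W.Q x ∧ c.D 1 x * U.Q x = U.Q x ∧
      c.D 1 x * U.Q x - S'.Q x = W.Q x := by
    filter_upwards [le2_proj hE c S, W.le, W.symm, W.idem, c.quot_one hE S, hS', U.le] with
      x hSx w1 w2 w3 q1 hS'x hUx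
    obtain ⟨p1, p2, s1, s2, s3, s4⟩ := hSx
    have w4 : (c.D 1 ((1 : A) • x) - S.Q ((1 : A) • x)) * c.D 1 x * (c.D 1 x - S.Q x) * W.Q x =
        W.Q x := w1
    rw [q1] at w4
    have w5 : W.Q x * (c.D 1 x - S.Q x) = W.Q x := by
      have := congrArg Matrix.transpose w4
      rwa [Matrix.transpose_mul, w2, Matrix.transpose_sub, p1, s1] at this
    have w6 : S.Q x * W.Q x = 0 := by
      rw [← w4, ← Matrix.mul_assoc, Matrix.mul_sub, s4, s2, sub_self, Matrix.zero_mul]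
    refine ⟨w4, w5, w6, w3, hUx, ?_⟩
    rw [hUx, hU x, hS'x, add_sub_cancel_left]
  refine Le_congr (fun b => ?_) h
  filter_upwards [hall, hE.ae_smul b hall, W.equiv b] with x hx hx' hW
  obtain ⟨w1, w2, w3, w4, u1, u2⟩ := hx
  obtain ⟨w1', w2', w3', w4', u1', u2'⟩ := hx'
  change (c.D 1 (b • x) - S.Q (b • x)) * c.D b x * (c.D 1 x - S.Q x) * W.Q x =
    (c.D 1 (b • x) * U.Q (b • x) - S'.Q (b • x)) * (c.D b x * U.Q x) *
      (c.D 1 x * U.Q x - S'.Q x)
  have hW' : W.Q (b • x) * ((c.D 1 (b • x) - S.Q (b • x)) * c.D b x * (c.D 1 x - S.Q x) * W.Q x) =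
    (c.D 1 (b • x) - S.Q (b • x)) * c.D b x * (c.D 1 x - S.Q x) * W.Q x := hW
  rw [u2', u2, ← hW', Matrix.mul_assoc _ (c.D 1 x - S.Q x) (W.Q x), w1, ← Matrix.mul_assoc,
    ← Matrix.mul_assoc, w2', hU x, Matrix.mul_assoc, Matrix.mul_assoc, Matrix.mul_assoc,
    Matrix.add_mul, w3, w4, zero_add]

end Coc

end Pool.Agent.H23.DM
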