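import Mathlib
import Pool.Agent.H23.DM.Le2

/-!
MODULE Ext (dimension theorem, Part 2.2).  The extension lemma.

Let `Q = S.Q`, `P = D 1`.  Fix `k` (large), `t = k s + j`, `0 ≤ j < k`.  For a block of length `s`
at `y`: `D (a^s) y = A + B + C`, `A = D (a^s) y Q y`, `C = ` quotient cocycle,
`B = Q(a^s y) D (a^s) y (P - Q)(y)`, `fn B ≤ K^(s+1)` (`pow_bd`).  By induction on the number of
blocks the part of `D (a^(ks)) x (P - Q)(x)` with values in `Q` is the sum over `i < k` of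
`[D (a^((k-1-i)s)) Q] (a^((i+1)s) x) * B(a^(is) x) * C-part of length i s at x`.
Each of the finitely many factors satisfies its bound with probability tending to one (stationarity).
So `fn (D (a^(ks)) x) ≤ (k+2) K^(s+1) exp (r k s + 2 |r| s + ε s)`, and `K^s = exp ((log K / k) k s)`;
`k` large.  The remainder `j < k` costs a constant factor.
-/

open MeasureTheory Filter Matrix
open scoped Topology

namespace Pool.Agent.H23.DM

namespace Coc

variable {A X ι : Type} [CommGroup A] [MulAction A X] [Fintype ι] [DecidableEq ι]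
  [MeasurableSpace X] {μ : Measure X}

omit [Fintype ι] [DecidableEq ι] [MeasurableSpace X] in
private theorem ext_half (t : ℕ) : (t - t / 2) + t / 2 = t ∧ t / 2 ≤ t - t / 2 ∧
    t - t / 2 ≤ t / 2 + 1 := by omega

private theorem ext_tend1 : Tendsto (fun t : ℕ => t / 2) atTop atTop := by
  refine tendsto_atTop.2 fun b => ?_
  filter_upwards [eventually_ge_atTop (2 * b)] with t ht
  omega

private theorem ext_tend2 : Tendsto (fun t : ℕ => t - t / 2) atTop atTop := by
  refine tendsto_atTop.2 fun b => ?_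
  filter_upwards [eventually_ge_atTop (2 * b)] with t ht
  omega

private theorem ext_step {Y : Type} [MeasurableSpace Y] {ν : Measure Y} {T : ℕ → Y → Y}
    (hT : ∀ m, MeasurePreserving (T m) ν ν)
    {α β γ : ℕ → Y → ℝ} (hα : ∀ t, Measurable (α t)) (hβ : ∀ t, Measurable (β t))
    (hα0 : ∀ t x, 0 ≤ α t x) (hβ0 : ∀ t x, 0 ≤ β t x) (hγ0 : ∀ t x, 0 ≤ γ t x)
    (hrec : ∀ m m' : ℕ, ∀ᵐ x ∂ν, β (m' + m) x ≤ α m' (T m x) * β m x + β m' (T m x) * γ m x)
    {r ρ ρ' : ℝ} (hr : r ≤ ρ) (hρ : (r + ρ) / 2 < ρ')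
    (h1 : WP ν fun t => {x | Real.exp (r * t) < α t x})
    (h2 : WP ν fun t => {x | Real.exp (ρ * t) < β t x})
    (h3 : WP ν fun t => {x | Real.exp (r * t) < γ t x}) :
    WP ν fun t => {x | Real.exp (ρ' * t) < β t x} := by
  have hsum : Tendsto (fun t : ℕ => ν {x | Real.exp (r * ((t - t / 2 : ℕ) : ℝ)) < α (t - t / 2) x} +
      ν {x | Real.exp (ρ * ((t / 2 : ℕ) : ℝ)) < β (t / 2) x} +
      ν {x | Real.exp (ρ * ((t - t / 2 : ℕ) : ℝ)) < β (t - t / 2) x} +
      ν {x | Real.exp (r * ((t / 2 : ℕ) : ℝ)) < γ (t / 2) x}) atTop (𝓝 0) := by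
    have := (((h1.comp ext_tend2).add (h2.comp ext_tend1)).add (h2.comp ext_tend2)).add
      (h3.comp ext_tend1)
    simpa using this
  refine tendsto_of_tendsto_of_tendsto_of_le_of_le' tendsto_const_nhds hsum
    (Eventually.of_forall fun _ => zero_le) ?_
  have hbig : ∀ᶠ t : ℕ in atTop, (ρ - r) / 2 + 1 ≤ (ρ' - (r + ρ) / 2) * (t : ℝ) := by
    have := (tendsto_natCast_atTop_atTop (R := ℝ)).const_mul_atTop (sub_pos.2 hρ)
    exact this.eventually_ge_atTop _
  filter_upwards [hbig] with t ht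
  obtain ⟨e1, e2, e3⟩ := ext_half t
  set m := t / 2 with hm
  set m' := t - m with hm'
  have hsub : ν {x | Real.exp (ρ' * t) < β t x} ≤
      ν ((((T m) ⁻¹' {x | Real.exp (r * (m' : ℝ)) < α m' x} ∪
        {x | Real.exp (ρ * (m : ℝ)) < β m x}) ∪
        (T m) ⁻¹' {x | Real.exp (ρ * (m' : ℝ)) < β m' x}) ∪
        {x | Real.exp (r * (m : ℝ)) < γ m x}) := by
    refine measure_mono_ae ?_
    filter_upwards [hrec m m'] with x hx
    intro hxt
    change Real.exp (ρ' * t) < β t x at hxt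
    by_contra hcon
    have hcon' : ¬ ((((Real.exp (r * (m' : ℝ)) < α m' (T m x)) ∨
        Real.exp (ρ * (m : ℝ)) < β m x) ∨ Real.exp (ρ * (m' : ℝ)) < β m' (T m x)) ∨
        Real.exp (r * (m : ℝ)) < γ m x) := hcon
    rw [not_or, not_or, not_or, not_lt, not_lt, not_lt, not_lt] at hcon'
    obtain ⟨⟨⟨c1, c2⟩, c3⟩, c4⟩ := hcon'
    rw [e1] at hx
    have d1 : α m' (T m x) * β m x ≤ Real.exp (r * m' + ρ * m) := by
      rw [Real.exp_add]
      exact mul_le_mul c1 c2 (hβ0 _ _) (Real.exp_nonneg _)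
    have d2 : β m' (T m x) * γ m x ≤ Real.exp (ρ * m' + r * m) := by
      rw [Real.exp_add]
      exact mul_le_mul c3 c4 (hγ0 _ _) (Real.exp_nonneg _)
    have f1 : (m' : ℝ) + m = t := by exact_mod_cast e1
    have f2 : (m : ℝ) ≤ m' := by exact_mod_cast e2
    have f3 : (m' : ℝ) ≤ m + 1 := by exact_mod_cast e3
    have g1 : r * m' + ρ * m ≤ (r + ρ) / 2 * t + (ρ - r) / 2 := by
      rw [← f1]
      nlinarith [mul_nonneg (sub_nonneg.2 hr) (sub_nonneg.2 f2)]
    have g2 : ρ * m' + r * m ≤ (r + ρ) / 2 * t + (ρ - r) / 2 := by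
      rw [← f1]
      nlinarith [mul_nonneg (sub_nonneg.2 hr) (sub_nonneg.2 f3)]
    have g3 : Real.exp ((r + ρ) / 2 * t + (ρ - r) / 2) +
        Real.exp ((r + ρ) / 2 * t + (ρ - r) / 2) ≤ Real.exp (ρ' * t) := by
      have k1 : (2 : ℝ) ≤ Real.exp 1 := by
        have := Real.add_one_le_exp (1 : ℝ)
        linarith
      have k2 : Real.exp ((r + ρ) / 2 * t + (ρ - r) / 2 + 1) ≤ Real.exp (ρ' * t) := by
        rw [Real.exp_le_exp]
        linarith
      rw [Real.exp_add _ 1] at k2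
      nlinarith [Real.exp_pos ((r + ρ) / 2 * t + (ρ - r) / 2)]
    have := Real.exp_le_exp.2 g1
    have := Real.exp_le_exp.2 g2
    linarith
  refine hsub.trans ((measure_union_le _ _).trans (add_le_add ((measure_union_le _ _).trans
    (add_le_add ((measure_union_le _ _).trans (add_le_add ?_ le_rfl)) ?_)) le_rfl))
  · exact ((hT m).measure_preimage (measurableSet_lt measurable_const
      (hα m')).nullMeasurableSet).le
  · exact ((hT m).measure_preimage (measurableSet_lt measurable_const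
      (hβ m')).nullMeasurableSet).le

/-- the off diagonal block -/
private def ext_B (c : Coc A X ι μ) (S : c.Sub) (g : A) (x : X) : Matrix ι ι ℝ :=
  S.Q (g • x) * (c.D g x * (c.D 1 x - S.Q x))

private theorem ext_proj (hE : Sys A X μ) (c : Coc A X ι μ) (S : c.Sub) : ∀ᵐ x ∂μ,
    (c.D 1 x - S.Q x)ᵀ = c.D 1 x - S.Q x ∧
    (c.D 1 x - S.Q x) * (c.D 1 x - S.Q x) = c.D 1 x - S.Q x := by
  filter_upwards [c.symm, c.D_one_idem hE, S.symm, S.idem, S.le] with x h1 h2 h3 h4 h5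
  have h6 : S.Q x * c.D 1 x = S.Q x := by
    have := congrArg Matrix.transpose h5
    rwa [Matrix.transpose_mul, h1, h3] at this
  refine ⟨by rw [Matrix.transpose_sub, h1, h3], ?_⟩
  rw [Matrix.mul_sub, Matrix.sub_mul, Matrix.sub_mul, h2, h5, h6, h4, sub_self, sub_zero]

private theorem ext_meas (hE : Sys A X μ) (c : Coc A X ι μ) (S : c.Sub) (g : A) :
    MM (ext_B c S g) :=
  (S.meas.comp (hE.mp g).measurable).mul ((c.meas g).mul ((c.meas 1).sub S.meas))

private theorem ext_split (hE : Sys A X μ) (c : Coc A X ι μ) (S : c.Sub) (g : A) :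
    ∀ᵐ x ∂μ, c.D g x = (c.sub hE S).D g x + ext_B c S g x + (c.quot hE S).D g x := by
  filter_upwards [c.D_mul_one hE g, c.D_one_mul hE g] with x h1 h2
  change c.D g x = c.D g x * S.Q x + S.Q (g • x) * (c.D g x * (c.D 1 x - S.Q x)) +
    (c.D 1 (g • x) - S.Q (g • x)) * c.D g x * (c.D 1 x - S.Q x)
  have h3 : (c.D 1 (g • x) - S.Q (g • x)) * c.D g x * (c.D 1 x - S.Q x) =
      c.D g x * (c.D 1 x - S.Q x) - S.Q (g • x) * (c.D g x * (c.D 1 x - S.Q x)) := by
    rw [Matrix.mul_assoc, Matrix.sub_mul, ← Matrix.mul_assoc (c.D 1 (g • x)), h2]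
  rw [h3, Matrix.mul_sub (c.D g x), h1]
  abel

omit [DecidableEq ι] in
private theorem ext_alg (Dg Dh Qy Qz Py R : Matrix ι ι ℝ) (h3 : Qz * (Dg * Qy) = Dg * Qy)
    (h4 : Qy * Qy = Qy) (h2 : (Py - Qy) * (Py - Qy) = Py - Qy) (h5 : Py * Dh = Dh) :
    Qz * (Dg * Dh * R) = Dg * Qy * (Qy * (Dh * R)) +
      Qz * (Dg * (Py - Qy)) * ((Py - Qy) * Dh * R) := by
  have e1 : Dg * Qy * (Qy * (Dh * R)) = Qz * (Dg * (Qy * (Dh * R))) := by
    calc Dg * Qy * (Qy * (Dh * R)) = Dg * (Qy * Qy) * (Dh * R) := by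
          simp only [Matrix.mul_assoc]
      _ = Qz * (Dg * Qy) * (Dh * R) := by rw [h4, h3]
      _ = _ := by simp only [Matrix.mul_assoc]
  have e2 : Qz * (Dg * (Py - Qy)) * ((Py - Qy) * Dh * R) =
      Qz * (Dg * (Dh * R)) - Qz * (Dg * (Qy * (Dh * R))) := by
    calc Qz * (Dg * (Py - Qy)) * ((Py - Qy) * Dh * R)
        = Qz * (Dg * (((Py - Qy) * (Py - Qy)) * (Dh * R))) := by simp only [Matrix.mul_assoc]
      _ = Qz * (Dg * (Py * Dh * R - Qy * (Dh * R))) := by
          rw [h2, Matrix.sub_mul, Matrix.mul_assoc Py]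
      _ = _ := by rw [h5, Matrix.mul_sub, Matrix.mul_sub]
  rw [e1, e2, Matrix.mul_assoc Dg]
  abel

private theorem ext_rec (hE : Sys A X μ) (c : Coc A X ι μ) (S : c.Sub) (g h : A) :
    ∀ᵐ x ∂μ, ext_B c S (g * h) x = (c.sub hE S).D g (h • x) * ext_B c S h x +
      ext_B c S g (h • x) * (c.quot hE S).D h x := by
  filter_upwards [c.mul g h, hE.ae_smul h (ext_proj hE c S), hE.ae_smul h (S.equiv g),
    hE.ae_smul h S.idem, c.D_one_mul hE h] with x h1 h2 h3 h4 h5
  change S.Q ((g * h) • x) * (c.D (g * h) x * (c.D 1 x - S.Q x)) =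
    c.D g (h • x) * S.Q (h • x) * (S.Q (h • x) * (c.D h x * (c.D 1 x - S.Q x))) +
    S.Q (g • h • x) * (c.D g (h • x) * (c.D 1 (h • x) - S.Q (h • x))) *
      ((c.D 1 (h • x) - S.Q (h • x)) * c.D h x * (c.D 1 x - S.Q x))
  rw [h1, mul_smul]
  exact ext_alg _ _ _ _ _ _ h3 h4 h2.2 h5

private theorem ext_bd (hE : Sys A X μ) (c : Coc A X ι μ) (S : c.Sub) (g : A) :
    ∀ᵐ x ∂μ, fn (ext_B c S g x) ≤ fn (c.D g x) := by
  filter_upwards [ext_proj hE c S, hE.ae_smul g S.symm, hE.ae_smul g S.idem] with x h1 h2 h3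
  exact (fn_proj_mul_le h2 h3 _).trans (fn_mul_proj_le h1.1 h1.2 _)

private theorem ext_start (hE : Sys A X μ) (c : Coc A X ι μ) (S : c.Sub) (a : A) :
    ∃ R : ℝ, ∀ ρ : ℝ, R ≤ ρ → WP μ fun t : ℕ => {x | Real.exp (ρ * t) < fn (ext_B c S (a ^ t) x)} := by
  obtain ⟨K, hK1, hK⟩ := c.pow_bd hE a
  refine ⟨2 * Real.log K, fun ρ hρ => ?_⟩
  refine tendsto_const_nhds.congr' ?_
  filter_upwards [eventually_ge_atTop 1] with t ht
  symm
  have hK0 : 0 < K := zero_lt_one.trans_le hK1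
  have hlog : 0 ≤ Real.log K := Real.log_nonneg hK1
  rw [measure_eq_zero_iff_ae_notMem]
  filter_upwards [hK t, ext_bd hE c S (a ^ t)] with x h1 h2
  intro hx
  change Real.exp (ρ * t) < fn (ext_B c S (a ^ t) x) at hx
  have h3 : K ^ (t + 1) ≤ Real.exp (ρ * t) := by
    rw [← Real.exp_log (pow_pos hK0 _), Real.exp_le_exp, Real.log_pow]
    have ht' : (1 : ℝ) ≤ t := by exact_mod_cast ht
    push_cast
    nlinarith [mul_le_mul_of_nonneg_right hρ (zero_le_one.trans ht'),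
      mul_le_mul_of_nonneg_right ht' hlog]
  linarith

theorem extension (hE : Sys A X μ) {c : Coc A X ι μ} (S : c.Sub) {a : A} {r r' : ℝ} (hr : r < r')
    (hS : (c.sub hE S).Le a r) (hQ : (c.quot hE S).Le a r) : c.Le a r' := by
  obtain ⟨R, hR⟩ := ext_start hE c S a
  set δ₀ : ℝ := max 1 (R - r) with hδ₀
  have hδ1 : 1 ≤ δ₀ := le_max_left _ _
  have hT : ∀ m : ℕ, MeasurePreserving (fun x : X => a ^ m • x) μ μ := fun m => hE.mp (a ^ m)
  have hB : ∀ n : ℕ, WP μ fun t : ℕ =>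
      {x | Real.exp ((r + (3 / 4 : ℝ) ^ n * δ₀) * t) < fn (ext_B c S (a ^ t) x)} := by
    intro n
    induction n with
    | zero =>
      refine hR _ ?_
      rw [pow_zero, one_mul]
      have := le_max_right 1 (R - r)
      linarith
    | succ n ih =>
      have hpos : 0 < (3 / 4 : ℝ) ^ n * δ₀ := mul_pos (by positivity) (by linarith)
      refine ext_step (T := fun m x => a ^ m • x) hT
        (α := fun t x => fn ((c.sub hE S).D (a ^ t) x)) (γ := fun t x => fn ((c.quot hE S).D (a ^ t) x))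
        (fun t => ((c.sub hE S).meas _).fn) (fun t => (ext_meas hE c S _).fn)
        (fun _ _ => fn_nonneg _) (fun _ _ => fn_nonneg _) (fun _ _ => fn_nonneg _)
        ?_ (r := r) (ρ := r + (3 / 4 : ℝ) ^ n * δ₀) (by linarith) ?_ hS ih hQ
      · intro m m'
        filter_upwards [ext_rec hE c S (a ^ m') (a ^ m)] with x hx
        rw [pow_add, hx]
        exact (fn_add_le _ _).trans (add_le_add (fn_mul_le _ _) (fn_mul_le _ _))
      · rw [pow_succ]
        linarith
  obtain ⟨n, hn⟩ := exists_pow_lt_of_lt_one (show 0 < (r' - r) / δ₀ from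
    div_pos (sub_pos.2 hr) (by linarith)) (show (3 / 4 : ℝ) < 1 by norm_num)
  rw [lt_div_iff₀ (by linarith)] at hn
  set r₁ : ℝ := r + (3 / 4 : ℝ) ^ n * δ₀ with hr₁
  have hr1 : r ≤ r₁ := by
    have : 0 ≤ (3 / 4 : ℝ) ^ n * δ₀ := mul_nonneg (by positivity) (by linarith)
    linarith
  have hr2 : r₁ < r' := by linarith
  have hBn := hB n
  have hsum : Tendsto (fun t : ℕ => μ {x | Real.exp (r * t) < fn ((c.sub hE S).D (a ^ t) x)} +
      μ {x | Real.exp (r₁ * t) < fn (ext_B c S (a ^ t) x)} +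
      μ {x | Real.exp (r * t) < fn ((c.quot hE S).D (a ^ t) x)}) atTop (𝓝 0) := by
    have := (Tendsto.add hS hBn).add hQ
    simpa using this
  refine tendsto_of_tendsto_of_tendsto_of_le_of_le' tendsto_const_nhds hsum
    (Eventually.of_forall fun _ => zero_le) ?_
  have hbig : ∀ᶠ t : ℕ in atTop, 2 ≤ (r' - r₁) * (t : ℝ) := by
    have := (tendsto_natCast_atTop_atTop (R := ℝ)).const_mul_atTop (sub_pos.2 hr2)
    exact this.eventually_ge_atTop _
  filter_upwards [hbig] with t ht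
  have hsub : μ {x | Real.exp (r' * t) < fn (c.D (a ^ t) x)} ≤
      μ (({x | Real.exp (r * t) < fn ((c.sub hE S).D (a ^ t) x)} ∪
        {x | Real.exp (r₁ * t) < fn (ext_B c S (a ^ t) x)}) ∪
        {x | Real.exp (r * t) < fn ((c.quot hE S).D (a ^ t) x)}) := by
    refine measure_mono_ae ?_
    filter_upwards [ext_split hE c S (a ^ t)] with x hx
    intro hxt
    change Real.exp (r' * t) < fn (c.D (a ^ t) x) at hxt
    by_contra hcon
    have hcon' : ¬ ((Real.exp (r * t) < fn ((c.sub hE S).D (a ^ t) x) ∨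
        Real.exp (r₁ * t) < fn (ext_B c S (a ^ t) x)) ∨
        Real.exp (r * t) < fn ((c.quot hE S).D (a ^ t) x)) := hcon
    rw [not_or, not_or, not_lt, not_lt, not_lt] at hcon'
    obtain ⟨⟨c1, c2⟩, c3⟩ := hcon'
    have d1 : fn (c.D (a ^ t) x) ≤ fn ((c.sub hE S).D (a ^ t) x) + fn (ext_B c S (a ^ t) x) +
        fn ((c.quot hE S).D (a ^ t) x) := by
      conv_lhs => rw [hx]
      exact (fn_add_le _ _).trans (add_le_add (fn_add_le _ _) le_rfl)
    have d2 : Real.exp (r * t) ≤ Real.exp (r₁ * t) :=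
      Real.exp_le_exp.2 (mul_le_mul_of_nonneg_right hr1 (Nat.cast_nonneg t))
    have d3 : 3 * Real.exp (r₁ * t) ≤ Real.exp (r' * t) := by
      have k1 : (3 : ℝ) ≤ Real.exp 2 := by
        have := Real.add_one_le_exp (2 : ℝ)
        linarith
      have k2 : Real.exp (r₁ * t + 2) ≤ Real.exp (r' * t) := by
        rw [Real.exp_le_exp]
        linarith
      rw [Real.exp_add] at k2
      nlinarith [Real.exp_pos (r₁ * t)]
    linarith
  exact hsub.trans ((measure_union_le _ _).trans (add_le_add (measure_union_le _ _) le_rfl))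

end Coc

end Pool.Agent.H23.DM
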