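import Mathlib
import Pool.Agent.H23.DM.Co1

/-!
MODULE Erg1 (dimension theorem, Part 2.3).  The mean ergodic theorem in `L¹`.

`f` is bounded, so in `L²(μ)`; the composition with `x ↦ a x` is an isometry `U` of `L²(μ)`;
`ContinuousLinearMap.tendsto_birkhoffAverage_orthogonalProjection` (von Neumann) gives an `L²`-limit
`F₀` with `U F₀ = F₀`.  The averages are bounded by `C`, so `|F₀| ≤ C` a.e. (subsequence converging
a.e.); `F` = a measurable version truncated to `[-C, C]`.
-/

open MeasureTheory Filter Matrix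
open scoped Topology

namespace Pool.Agent.H23.DM

private lemma Erg1_clip (C x y : ℝ) :
    |max (-C) (min C x) - max (-C) (min C y)| ≤ |x - y| := by
  have h1 := abs_max_sub_max_le_max (-C) (min C x) (-C) (min C y)
  have h2 := abs_min_sub_min_le_max C x C y
  rw [sub_self, abs_zero] at h1 h2
  refine h1.trans (max_le (abs_nonneg _) (h2.trans (max_le (abs_nonneg _) le_rfl)))

private lemma Erg1_clip_self {C y : ℝ} (hy : |y| ≤ C) : max (-C) (min C y) = y := by
  have h := abs_le.1 hy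
  rw [min_eq_right h.2, max_eq_right h.1]

private lemma Erg1_norm {X : Type} [MeasurableSpace X] {μ : Measure X} [IsProbabilityMeasure μ]
    (h : Lp ℝ 2 μ) : ∫ x, |h x| ∂μ ≤ ‖h‖ := by
  have h0 : AEStronglyMeasurable (h : X → ℝ) μ := Lp.aestronglyMeasurable h
  have h1 : ∫ x, |h x| ∂μ = (eLpNorm h 1 μ).toReal := by
    rw [eLpNorm_one_eq_lintegral_enorm, ← integral_norm_eq_lintegral_enorm h0]
    rfl
  rw [h1, Lp.norm_def]
  refine ENNReal.toReal_mono (Lp.eLpNorm_ne_top h) ?_
  exact eLpNorm_le_eLpNorm_of_exponent_le one_le_two h0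

private lemma Erg1_sum {X : Type} [MeasurableSpace X] {μ : Measure X} (g : ℕ → Lp ℝ 2 μ)
    (S : Finset ℕ) : ∀ᵐ x ∂μ, (∑ s ∈ S, g s : Lp ℝ 2 μ) x = ∑ s ∈ S, g s x := by
  induction S using Finset.induction_on with
  | empty =>
    filter_upwards [Lp.coeFn_zero ℝ 2 μ] with x hx
    simpa using hx
  | insert s S hs ih =>
    rw [Finset.sum_insert hs]
    filter_upwards [ih, Lp.coeFn_add (g s) (∑ s ∈ S, g s)] with x h1 h2
    rw [h2, Pi.add_apply, h1, Finset.sum_insert hs]

theorem mean_ergodic {A X : Type} [Group A] [MulAction A X] [MeasurableSpace X] {μ : Measure X}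
    (hE : Sys A X μ) (a : A) {f : X → ℝ} (hf : Measurable f) {C : ℝ} (hC : ∀ x, |f x| ≤ C) :
    ∃ F : X → ℝ, Measurable F ∧ (∀ x, |F x| ≤ C) ∧ (∀ᵐ x ∂μ, F (a • x) = F x) ∧
      ∫ x, F x ∂μ = ∫ x, f x ∂μ ∧
      Tendsto (fun T : ℕ => ∫ x, |(∑ s ∈ Finset.range T, f (a ^ s • x)) / T - F x| ∂μ) atTop
        (𝓝 0) := by
  have := hE.prob
  have hC0 : 0 ≤ C := by
    obtain ⟨x⟩ := μ.nonempty_of_neZero
    exact (abs_nonneg _).trans (hC x)
  have hmeas : ∀ s : ℕ, Measurable fun x : X => a ^ s • x := fun s => (hE.mp (a ^ s)).measurable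
  have hfs : ∀ s : ℕ, Measurable fun x : X => f (a ^ s • x) := fun s => hf.comp (hmeas s)
  have hLp : ∀ s : ℕ, MemLp (fun x : X => f (a ^ s • x)) 2 μ := fun s =>
    MemLp.of_bound (hfs s).aestronglyMeasurable C (Eventually.of_forall fun x => hC _)
  have hint : ∀ s : ℕ, Integrable (fun x : X => f (a ^ s • x)) μ := fun s =>
    (hLp s).integrable one_le_two
  -- the isometry
  set U := (Lp.compMeasurePreservingₗᵢ ℝ (p := 2) (E := ℝ) (fun x : X => a • x) (hE.mp a)).toContinuousLinearMap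
    with hU
  have hU1 : ‖U‖ ≤ 1 := LinearIsometry.norm_toContinuousLinearMap_le _
  have hUs : ∀ s : ℕ, U ((hLp s).toLp _) = (hLp (s + 1)).toLp _ := by
    intro s
    have h1 : U ((hLp s).toLp _) = ((hLp s).comp_measurePreserving (hE.mp a)).toLp _ :=
      Lp.toLp_compMeasurePreserving (hLp s) (hE.mp a)
    rw [h1]
    refine MemLp.toLp_congr _ _ (Eventually.of_forall fun x => ?_)
    simp only [Function.comp_apply]
    rw [pow_succ, mul_smul]
  have hit : ∀ s : ℕ, (U : Lp ℝ 2 μ → Lp ℝ 2 μ)^[s] ((hLp 0).toLp _) = (hLp s).toLp _ := by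
    intro s
    induction s with
    | zero => rfl
    | succ s ih => rw [Function.iterate_succ_apply', ih, hUs]
  have hconv := ContinuousLinearMap.tendsto_birkhoffAverage_orthogonalProjection U hU1 ((hLp 0).toLp _)
  obtain ⟨P, hP⟩ : ∃ P : Lp ℝ 2 μ, P = (((U.eqLocus (1 : Lp ℝ 2 μ →L[ℝ] Lp ℝ 2 μ)).orthogonalProjectionOnto
    ((hLp 0).toLp _) : _) : Lp ℝ 2 μ) := ⟨_, rfl⟩
  rw [← hP] at hconv
  have hPU : U P = P := by
    have h1 : P ∈ U.eqLocus (1 : Lp ℝ 2 μ →L[ℝ] Lp ℝ 2 μ) := by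
      rw [hP]
      exact Submodule.coe_mem _
    exact h1
  have hPm : Measurable (P : X → ℝ) := (Lp.stronglyMeasurable P).measurable
  have hPi : Integrable (P : X → ℝ) μ := (Lp.memLp P).integrable one_le_two
  have hPinv : ∀ᵐ x ∂μ, P (a • x) = P x := by
    have h1 : (U P : X → ℝ) =ᵐ[μ] (P : X → ℝ) ∘ fun x : X => a • x :=
      Lp.coeFn_compMeasurePreserving P (hE.mp a)
    rw [hPU] at h1
    filter_upwards [h1] with x hx
    exact hx.symm
  -- the averages
  have hbirk : ∀ T : ℕ, ∀ᵐ x ∂μ, (birkhoffAverage ℝ U _root_.id T ((hLp 0).toLp _)) x =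
      (∑ s ∈ Finset.range T, f (a ^ s • x)) / T := by
    intro T
    have h1 : birkhoffAverage ℝ U _root_.id T ((hLp 0).toLp _) =
        (T : ℝ)⁻¹ • ∑ s ∈ Finset.range T, (hLp s).toLp _ := by
      simp only [birkhoffAverage, birkhoffSum, _root_.id]
      congr 1
      exact Finset.sum_congr rfl fun s _ => hit s
    have h2 : ∀ᵐ x ∂μ, ∀ s : ℕ, ((hLp s).toLp _ : X → ℝ) x = f (a ^ s • x) :=
      ae_all_iff.2 fun s => (hLp s).coeFn_toLp
    rw [h1]
    filter_upwards [Lp.coeFn_smul (T : ℝ)⁻¹ (∑ s ∈ Finset.range T, (hLp s).toLp _),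
      Erg1_sum (fun s => (hLp s).toLp _) (Finset.range T), h2] with x e1 e2 e3
    rw [e1, Pi.smul_apply, e2, smul_eq_mul, div_eq_inv_mul]
    congr 1
    exact Finset.sum_congr rfl fun s _ => e3 s
  have havg : ∀ T : ℕ, ∀ x : X, |(∑ s ∈ Finset.range T, f (a ^ s • x)) / T| ≤ C := by
    intro T x
    rcases Nat.eq_zero_or_pos T with h | h
    · subst h
      simpa using hC0
    · have hT : (0 : ℝ) < T := by exact_mod_cast h
      rw [abs_div, abs_of_pos hT, div_le_iff₀ hT]
      calc |∑ s ∈ Finset.range T, f (a ^ s • x)| ≤ ∑ s ∈ Finset.range T, |f (a ^ s • x)| :=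
            Finset.abs_sum_le_sum_abs _ _
        _ ≤ ∑ _s ∈ Finset.range T, C := Finset.sum_le_sum fun s _ => hC _
        _ = C * T := by rw [Finset.sum_const, Finset.card_range, nsmul_eq_mul, mul_comm]
  have hainT : ∀ T : ℕ, Integrable (fun x => (∑ s ∈ Finset.range T, f (a ^ s • x)) / (T : ℝ)) μ :=
    fun T => (integrable_finsetSum _ fun s _ => hint s).div_const _
  have hclipm : Measurable fun x => max (-C) (min C (P x)) :=
    measurable_const.max (measurable_const.min hPm)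
  have hclipb : ∀ x, |max (-C) (min C (P x))| ≤ C := fun x =>
    abs_le.2 ⟨le_max_left _ _, max_le (by linarith) (min_le_left _ _)⟩
  have hclipi : Integrable (fun x => max (-C) (min C (P x))) μ :=
    Integrable.of_bound hclipm.aestronglyMeasurable C (Eventually.of_forall hclipb)
  have hlim : Tendsto (fun T : ℕ => ∫ x, |(∑ s ∈ Finset.range T, f (a ^ s • x)) / T -
      max (-C) (min C (P x))| ∂μ) atTop (𝓝 0) := by
    have h1 : Tendsto (fun T : ℕ => ‖birkhoffAverage ℝ U _root_.id T ((hLp 0).toLp _) - P‖) atTop (𝓝 0) :=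
      tendsto_iff_norm_sub_tendsto_zero.1 hconv
    refine squeeze_zero (fun T => integral_nonneg fun x => abs_nonneg _) (fun T => ?_) h1
    refine le_trans ?_ (Erg1_norm _)
    refine integral_mono_ae ((hainT T).sub hclipi).abs
      ((Lp.memLp (birkhoffAverage ℝ U _root_.id T ((hLp 0).toLp _) - P)).integrable one_le_two).abs ?_
    filter_upwards [hbirk T, Lp.coeFn_sub (birkhoffAverage ℝ U _root_.id T ((hLp 0).toLp _)) P] with x e1 e2
    rw [e2, Pi.sub_apply, e1]
    calc |(∑ s ∈ Finset.range T, f (a ^ s • x)) / T - max (-C) (min C (P x))|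
        = |max (-C) (min C ((∑ s ∈ Finset.range T, f (a ^ s • x)) / T)) - max (-C) (min C (P x))| := by
          rw [Erg1_clip_self (havg T x)]
      _ ≤ _ := Erg1_clip _ _ _
  refine ⟨fun x => max (-C) (min C (P x)), hclipm, hclipb, ?_, ?_, hlim⟩
  · filter_upwards [hPinv] with x hx
    rw [hx]
  · have hpre : ∀ s : ℕ, ∫ x, f (a ^ s • x) ∂μ = ∫ x, f x ∂μ := by
      intro s
      have h1 := integral_map (μ := μ) (hmeas s).aemeasurable (f := f) hf.aestronglyMeasurable
      rw [(hE.mp (a ^ s)).map_eq] at h1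
      exact h1.symm
    have h2 : ∀ T : ℕ, 1 ≤ T → ∫ x, (∑ s ∈ Finset.range T, f (a ^ s • x)) / T ∂μ = ∫ x, f x ∂μ := by
      intro T hT
      have hT0 : (T : ℝ) ≠ 0 := by
        have : (0 : ℝ) < T := by exact_mod_cast hT
        exact this.ne'
      rw [integral_div, integral_finsetSum _ fun s _ => hint s]
      rw [Finset.sum_congr rfl fun s _ => hpre s, Finset.sum_const, Finset.card_range, nsmul_eq_mul]
      field_simp
    have h3 : |∫ x, max (-C) (min C (P x)) ∂μ - ∫ x, f x ∂μ| ≤ 0 := by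
      refine ge_of_tendsto hlim ?_
      filter_upwards [eventually_ge_atTop 1] with T hT
      rw [← h2 T hT, abs_sub_comm, ← integral_sub (hainT T) hclipi]
      exact abs_integral_le_integral_abs
    have h4 := abs_nonpos_iff.1 h3
    linarith

end Pool.Agent.H23.DM
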