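import Mathlib
import Pool.Agent.H23.DM.Erg1
import Pool.Agent.H23.DM.Le1

/-!
MODULE Erg2 (dimension theorem, Part 2.3).  The upper rate (Kingman in probability).

`L t x = log (fn (D (a^t) x))`.
* `log_bd`: `D 1 x ≠ 0` a.e. (`zero_or_ne_zero`), so `1 ≤ fn (D 1 x) ≤ fn (D (a⁻¹^t)(a^t x)) fn (D (a^t) x)`;
  `pow_bd` for `a` and `a⁻¹`.
* `L (s+t) x ≤ L s (a^t x) + L t x`, so `t ↦ ∫ L t` is subadditive (`Subadditive`), bounded below by
  `- C (t+1)`; `κ` = its limit `Subadditive.lim`.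
* For `q = 2^k` let `f_q = L q / q` (truncated to its a.e. bound), `F_q` its `mean_ergodic` limit.
  `L (2q) x ≤ L q x + L q (a^q x)` gives `F_{2q} ≤ F_q` a.e. (`F_q (a^q x) = F_q x`; the averages of
  `f ∘ a^q` have the same limit as those of `f`).  For `b ∈ A`: `D (a^q) (b x) =
  D b (a^q x) D (a^q) x D b⁻¹ (b x)`, so `|L q (b x) - L q x| ≤ C_b` and
  `|F_q (b x) - F_q x| ≤ C_b / q` a.e.  The decreasing limit of `F_{2^k}` is `A`-invariant, so
  constant (`Sys.ae_const`), and equal to `κ` (integrals).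
* `q L t x ≤ 2 C q² + ∑_{s<t} L q (a^s x)` (cut `[0,t)` into blocks of length `q` starting at `j`,
  `j = 0..q-1`, and add), so `L t x / t ≤ (1/t) ∑_{s<t} f_q (a^s x) + C' q / t`, and the right side is
  at most `κ + ε` with probability tending to one if `∫ |F_q - κ|` is small (Markov).
-/

open MeasureTheory Filter Matrix
open scoped Topology

namespace Pool.Agent.H23.DM

private theorem erg2_le_of_lim {X : Type} [MeasurableSpace X] {μ : Measure X}
    [IsProbabilityMeasure μ] {f g : ℕ → X → ℝ} {F G : X → ℝ} {c : ℝ}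
    (hf : ∀ T, Integrable (f T) μ) (hg : ∀ T, Integrable (g T) μ) (hF : Integrable F μ)
    (hG : Integrable G μ) (h : ∀ T, 1 ≤ T → ∀ᵐ x ∂μ, f T x ≤ g T x + c)
    (h1 : Tendsto (fun T => ∫ x, |f T x - F x| ∂μ) atTop (𝓝 0))
    (h2 : Tendsto (fun T => ∫ x, |g T x - G x| ∂μ) atTop (𝓝 0)) :
    ∀ᵐ x ∂μ, F x ≤ G x + c := by
  have hHi : Integrable (fun x => max (F x - G x - c) 0) μ :=
    ((hF.sub hG).sub (integrable_const c)).pos_part
  have hH0 : ∀ x, 0 ≤ (fun x => max (F x - G x - c) 0) x := fun x => le_max_right _ _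
  have hle : ∀ T, 1 ≤ T → ∫ x, max (F x - G x - c) 0 ∂μ ≤
      ∫ x, |f T x - F x| ∂μ + ∫ x, |g T x - G x| ∂μ := by
    intro T hT
    have i1 : Integrable (fun x => |f T x - F x|) μ := ((hf T).sub hF).abs
    have i2 : Integrable (fun x => |g T x - G x|) μ := ((hg T).sub hG).abs
    rw [← integral_add i1 i2]
    refine integral_mono_ae hHi (i1.add i2) ?_
    filter_upwards [h T hT] with x hx
    refine max_le ?_ (add_nonneg (abs_nonneg _) (abs_nonneg _))
    have e1 := neg_abs_le (f T x - F x)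
    have e2 := le_abs_self (g T x - G x)
    linarith
  have h3 : ∫ x, max (F x - G x - c) 0 ∂μ ≤ 0 := by
    have h4 := h1.add h2
    rw [add_zero] at h4
    exact ge_of_tendsto h4 (eventually_atTop.2 ⟨1, hle⟩)
  have h5 : ∫ x, max (F x - G x - c) 0 ∂μ = 0 := le_antisymm h3 (integral_nonneg hH0)
  have h6 := (integral_eq_zero_iff_of_nonneg hH0 hHi).1 h5
  filter_upwards [h6] with x hx
  have h7 : max (F x - G x - c) 0 = 0 := hx
  have h8 := le_max_left (F x - G x - c) 0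
  linarith

/-- Data for one block length. -/
private theorem erg2_block {A X : Type} [Group A] [MulAction A X] [MeasurableSpace X]
    {μ : Measure X} (hE : Sys A X μ) (a : A) {L : ℕ → X → ℝ} (hm : ∀ t, Measurable (L t)) {C : ℝ}
    (hC : 0 < C) (hb : ∀ t : ℕ, ∀ᵐ x ∂μ, |L t x| ≤ C * (t + 1)) (q : ℕ) (hq : 1 ≤ q) :
    ∃ f F : X → ℝ, Measurable f ∧ (∀ x, |f x| ≤ 2 * C) ∧ (∀ᵐ x ∂μ, f x = L q x / q) ∧
      Measurable F ∧ (∀ x, |F x| ≤ 2 * C) ∧ (∀ᵐ x ∂μ, F (a • x) = F x) ∧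
      ∫ x, F x ∂μ = (∫ x, L q x ∂μ) / q ∧
      Tendsto (fun T : ℕ => ∫ x, |(∑ s ∈ Finset.range T, f (a ^ s • x)) / T - F x| ∂μ) atTop
        (𝓝 0) := by
  have hq' : (1 : ℝ) ≤ q := by exact_mod_cast hq
  have hq0 : (0 : ℝ) < q := by linarith
  have hfm : Measurable fun x => max (-(2 * C)) (min (2 * C) (L q x / q)) :=
    measurable_const.max (measurable_const.min ((hm q).div_const _))
  have hfb : ∀ x, |max (-(2 * C)) (min (2 * C) (L q x / q))| ≤ 2 * C := by
    intro x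
    rw [abs_le]
    exact ⟨le_max_left _ _, max_le (by linarith) (min_le_left _ _)⟩
  have hfe : ∀ᵐ x ∂μ, max (-(2 * C)) (min (2 * C) (L q x / q)) = L q x / q := by
    filter_upwards [hb q] with x hx
    have h1 : |L q x / q| ≤ 2 * C := by
      rw [abs_div, abs_of_pos hq0, div_le_iff₀ hq0]
      refine hx.trans ?_
      nlinarith
    rw [abs_le] at h1
    rw [min_eq_right h1.2, max_eq_right h1.1]
  obtain ⟨F, hF1, hF2, hF3, hF4, hF5⟩ := mean_ergodic hE a hfm hfb
  refine ⟨_, F, hfm, hfb, hfe, hF1, hF2, hF3, ?_, hF5⟩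
  rw [hF4, integral_congr_ae hfe, integral_div]

private theorem erg2_comp {A X : Type} [Group A] [MulAction A X] [MeasurableSpace X]
    {μ : Measure X} (hE : Sys A X μ) (b : A) {f : X → ℝ} (hf : Measurable f) :
    ∫ x, f (b • x) ∂μ = ∫ x, f x ∂μ := by
  have h1 := (hE.mp b).map_eq
  have h2 := integral_map (hE.mp b).measurable.aemeasurable (f := f) (μ := μ)
    (hf.aestronglyMeasurable)
  rw [h1] at h2
  exact h2.symm

private theorem erg2_int {X : Type} [MeasurableSpace X] {μ : Measure X}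
    [IsProbabilityMeasure μ] {f : X → ℝ} (hf : Measurable f) {B : ℝ} (hB : ∀ x, |f x| ≤ B) :
    Integrable f μ :=
  Integrable.of_bound hf.aestronglyMeasurable B (ae_of_all _ fun x => by
    rw [Real.norm_eq_abs]; exact hB x)

private theorem erg2_avg_meas {A X : Type} [Group A] [MulAction A X] [MeasurableSpace X]
    {μ : Measure X} (hE : Sys A X μ) (a : A) {f : X → ℝ} (hf : Measurable f) (T : ℕ) :
    Measurable fun x => (∑ s ∈ Finset.range T, f (a ^ s • x)) / (T : ℝ) := by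
  refine Measurable.div_const ?_ _
  exact Finset.measurable_fun_sum _ fun s _ => hf.comp (hE.mp (a ^ s)).measurable

private theorem erg2_avg_bd {A X : Type} [Group A] [MulAction A X] (a : A) {f : X → ℝ} {B : ℝ}
    (hB : ∀ x, |f x| ≤ B) (T : ℕ) (x : X) :
    |(∑ s ∈ Finset.range T, f (a ^ s • x)) / (T : ℝ)| ≤ B := by
  have hB0 : 0 ≤ B := (abs_nonneg _).trans (hB x)
  rcases Nat.eq_zero_or_pos T with rfl | hT
  · simpa using hB0
  · have hT' : (0 : ℝ) < T := by exact_mod_cast hT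
    rw [abs_div, abs_of_pos hT', div_le_iff₀ hT']
    refine (Finset.abs_sum_le_sum_abs _ _).trans ?_
    refine (Finset.sum_le_sum fun s _ => hB (a ^ s • x)).trans ?_
    rw [Finset.sum_const, Finset.card_range, nsmul_eq_mul]
    exact le_of_eq (mul_comm _ _)

/-- Comparison of the limits of two averages, after the shift `b`. -/
private theorem erg2_shift {A X : Type} [CommGroup A] [MulAction A X] [MeasurableSpace X]
    {μ : Measure X} (hE : Sys A X μ) (a b : A) {f F : X → ℝ} (hf : Measurable f)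
    (hF : Measurable F)
    (h : Tendsto (fun T : ℕ => ∫ x, |(∑ s ∈ Finset.range T, f (a ^ s • x)) / T - F x| ∂μ) atTop
        (𝓝 0)) :
    Tendsto (fun T : ℕ => ∫ x, |(∑ s ∈ Finset.range T, f (b • a ^ s • x)) / T - F (b • x)| ∂μ)
      atTop (𝓝 0) := by
  refine h.congr fun T => ?_
  have hmm : Measurable fun x => |(∑ s ∈ Finset.range T, f (a ^ s • x)) / (T : ℝ) - F x| :=
    ((erg2_avg_meas hE a hf T).sub hF).abs
  rw [← erg2_comp hE b hmm]
  refine integral_congr_ae (ae_of_all _ fun x => ?_)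
  have : ∀ s : ℕ, b • a ^ s • x = a ^ s • b • x := fun s => smul_comm _ _ _
  simp only [this]

/-- The abstract upper rate. -/
private theorem erg2_kingman {A X : Type} [CommGroup A] [MulAction A X] [MeasurableSpace X]
    {μ : Measure X} (hE : Sys A X μ) (a : A) {L : ℕ → X → ℝ} (hm : ∀ t, Measurable (L t)) {C : ℝ}
    (hC : 0 < C) (hb : ∀ t : ℕ, ∀ᵐ x ∂μ, |L t x| ≤ C * (t + 1))
    (hs : ∀ s t : ℕ, ∀ᵐ x ∂μ, L (s + t) x ≤ L s (a ^ t • x) + L t x)
    (hr : ∀ t j : ℕ, ∀ᵐ x ∂μ, L t x ≤ L (t + j) x + C * (j + 1))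
    (hi : ∀ b : A, ∃ K : ℝ, ∀ q : ℕ, ∀ᵐ x ∂μ, L q (b • x) ≤ L q x + K)
    {κ : ℝ} (hκ : Tendsto (fun t : ℕ => (∫ x, L t x ∂μ) / t) atTop (𝓝 κ)) {ε : ℝ} (hε : 0 < ε) :
    Tendsto (fun t : ℕ => μ.real {x | (κ + ε) * t < L t x}) atTop (𝓝 0) := by
  have := hE.prob
  have hp : ∀ k : ℕ, 1 ≤ 2 ^ k := fun k => Nat.one_le_two_pow
  choose f F hf1 hf2 hf3 hF1 hF2 hF3 hF4 hF5 using
    fun k : ℕ => erg2_block hE a hm hC hb (2 ^ k) (hp k)
  have hfi : ∀ k, Integrable (f k) μ := fun k => erg2_int (hf1 k) (hf2 k)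
  have hFi : ∀ k, Integrable (F k) μ := fun k => erg2_int (hF1 k) (hF2 k)
  -- monotonicity
  have hmono : ∀ k, ∀ᵐ x ∂μ, F (k + 1) x ≤ F k x := by
    intro k
    set b : A := a ^ (2 ^ k) with hb'
    have hbm := (hE.mp b).measurable
    have hFb : ∀ᵐ x ∂μ, F k (b • x) = F k x := by
      have : ∀ n : ℕ, ∀ᵐ x ∂μ, F k (a ^ n • x) = F k x := by
        intro n
        induction n with
        | zero => exact ae_of_all _ fun x => by rw [pow_zero, one_smul]
        | succ n ih =>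
          filter_upwards [hE.ae_smul (a ^ n) (hF3 k), ih] with x h1 h2
          rw [pow_succ', mul_smul, h1, h2]
      exact this _
    have h0 := erg2_le_of_lim (μ := μ) (c := 0)
      (f := fun T x => (∑ s ∈ Finset.range T, f (k + 1) (a ^ s • x)) / (T : ℝ))
      (g := fun T x => ((∑ s ∈ Finset.range T, f k (b • a ^ s • x)) / (T : ℝ) +
        (∑ s ∈ Finset.range T, f k (a ^ s • x)) / (T : ℝ)) / 2)
      (F := F (k + 1)) (G := fun x => (F k (b • x) + F k x) / 2)
      (fun T => erg2_int (erg2_avg_meas hE a (hf1 (k + 1)) T)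
        (erg2_avg_bd a (hf2 (k + 1)) T))
      (fun T => ((erg2_int (erg2_avg_meas hE a ((hf1 k).comp hbm) T)
        (erg2_avg_bd a (fun x => hf2 k (b • x)) T)).add
        (erg2_int (erg2_avg_meas hE a (hf1 k) T) (erg2_avg_bd a (hf2 k) T))).div_const 2)
      (hFi (k + 1)) (((erg2_int ((hF1 k).comp hbm) fun x => hF2 k (b • x)).add (hFi k)).div_const 2)
      ?_ (hF5 (k + 1)) ?_
    · filter_upwards [h0, hFb] with x h1 h2
      rw [h2] at h1
      linarith
    · intro T hT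
      have hT' : (0 : ℝ) < T := by exact_mod_cast hT
      have key : ∀ᵐ x ∂μ, f (k + 1) x ≤ (f k (b • x) + f k x) / 2 := by
        filter_upwards [hf3 (k + 1), hf3 k, hE.ae_smul b (hf3 k), hs (2 ^ k) (2 ^ k)]
          with x h1 h2 h3 h4
        rw [h1, h2, h3]
        have e : (2 : ℕ) ^ (k + 1) = 2 ^ k + 2 ^ k := by ring
        have hk : (0 : ℝ) < 2 ^ k := by positivity
        rw [e]
        push_cast
        rw [div_le_iff₀ (by positivity)]
        refine h4.trans (le_of_eq ?_)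
        field_simp
        ring
      have key2 : ∀ᵐ x ∂μ, ∀ s : ℕ, f (k + 1) (a ^ s • x) ≤
          (f k (b • a ^ s • x) + f k (a ^ s • x)) / 2 :=
        ae_all_iff.2 fun s => hE.ae_smul (a ^ s) key
      filter_upwards [key2] with x hx
      have e1 : ((∑ s ∈ Finset.range T, f k (b • a ^ s • x)) / (T : ℝ) +
          (∑ s ∈ Finset.range T, f k (a ^ s • x)) / (T : ℝ)) / 2 + 0 =
          (∑ s ∈ Finset.range T, (f k (b • a ^ s • x) + f k (a ^ s • x)) / 2) / (T : ℝ) := by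
        rw [add_zero, ← Finset.sum_div, Finset.sum_add_distrib]
        field_simp
      rw [e1]
      exact div_le_div_of_nonneg_right (Finset.sum_le_sum fun s _ => hx s) hT'.le
    · have h1 := (erg2_shift hE a b (hf1 k) (hF1 k) (hF5 k)).add (hF5 k)
      rw [add_zero] at h1
      refine squeeze_zero (fun T => integral_nonneg fun x => abs_nonneg _) (fun T => ?_) h1
      have i1 : Integrable (fun x => |(∑ s ∈ Finset.range T, f k (b • a ^ s • x)) / (T : ℝ) -
          F k (b • x)|) μ := ((erg2_int (erg2_avg_meas hE a ((hf1 k).comp hbm) T)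
        (erg2_avg_bd a (fun x => hf2 k (b • x)) T)).sub
          (erg2_int ((hF1 k).comp hbm) fun x => hF2 k (b • x))).abs
      have i2 : Integrable (fun x => |(∑ s ∈ Finset.range T, f k (a ^ s • x)) / (T : ℝ) -
          F k x|) μ := ((erg2_int (erg2_avg_meas hE a (hf1 k) T)
        (erg2_avg_bd a (hf2 k) T)).sub (hFi k)).abs
      rw [← integral_add i1 i2]
      refine integral_mono_of_nonneg (ae_of_all _ fun x => abs_nonneg _) (i1.add i2)
        (ae_of_all _ fun x => ?_)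
      change |((∑ s ∈ Finset.range T, f k (b • a ^ s • x)) / (T : ℝ) +
        (∑ s ∈ Finset.range T, f k (a ^ s • x)) / (T : ℝ)) / 2 - (F k (b • x) + F k x) / 2| ≤
        |(∑ s ∈ Finset.range T, f k (b • a ^ s • x)) / (T : ℝ) - F k (b • x)| +
        |(∑ s ∈ Finset.range T, f k (a ^ s • x)) / (T : ℝ) - F k x|
      generalize (∑ s ∈ Finset.range T, f k (b • a ^ s • x)) / (T : ℝ) = u
      generalize (∑ s ∈ Finset.range T, f k (a ^ s • x)) / (T : ℝ) = v
      generalize F k (b • x) = w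
      generalize F k x = z
      have e : (u + v) / 2 - (w + z) / 2 = ((u - w) + (v - z)) / 2 := by ring
      rw [e, abs_div, abs_two]
      have h2 := abs_add_le (u - w) (v - z)
      have h3 := abs_nonneg (u - w)
      have h4 := abs_nonneg (v - z)
      linarith
  -- almost invariance
  have hinv : ∀ b : A, ∃ K : ℝ, ∀ k : ℕ, ∀ᵐ x ∂μ, F k (b • x) ≤ F k x + K / 2 ^ k := by
    intro b
    obtain ⟨K, hK⟩ := hi b
    refine ⟨K, fun k => ?_⟩
    have hbm := (hE.mp b).measurable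
    refine erg2_le_of_lim (μ := μ) (c := K / 2 ^ k)
      (f := fun T x => (∑ s ∈ Finset.range T, f k (b • a ^ s • x)) / (T : ℝ))
      (g := fun T x => (∑ s ∈ Finset.range T, f k (a ^ s • x)) / (T : ℝ))
      (F := fun x => F k (b • x)) (G := F k)
      (fun T => erg2_int (erg2_avg_meas hE a ((hf1 k).comp hbm) T)
        (erg2_avg_bd a (fun x => hf2 k (b • x)) T))
      (fun T => erg2_int (erg2_avg_meas hE a (hf1 k) T) (erg2_avg_bd a (hf2 k) T))
      (erg2_int ((hF1 k).comp hbm) fun x => hF2 k (b • x)) (hFi k) ?_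
      (erg2_shift hE a b (hf1 k) (hF1 k) (hF5 k)) (hF5 k)
    intro T hT
    have hT' : (0 : ℝ) < T := by exact_mod_cast hT
    have key : ∀ᵐ x ∂μ, f k (b • x) ≤ f k x + K / 2 ^ k := by
      filter_upwards [hf3 k, hE.ae_smul b (hf3 k), hK (2 ^ k)] with x h1 h2 h3
      rw [h1, h2]
      push_cast
      rw [← add_div]
      exact div_le_div_of_nonneg_right h3 (by positivity)
    have key2 : ∀ᵐ x ∂μ, ∀ s : ℕ, f k (b • a ^ s • x) ≤ f k (a ^ s • x) + K / 2 ^ k :=
      ae_all_iff.2 fun s => hE.ae_smul (a ^ s) key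
    filter_upwards [key2] with x hx
    rw [div_add' _ _ _ hT'.ne']
    refine div_le_div_of_nonneg_right ?_ hT'.le
    refine (Finset.sum_le_sum fun s _ => hx s).trans ?_
    rw [Finset.sum_add_distrib, Finset.sum_const, Finset.card_range, nsmul_eq_mul, mul_comm]
  -- the limit
  have hanti : ∀ᵐ x ∂μ, Antitone fun k => F k x := by
    filter_upwards [ae_all_iff.2 hmono] with x hx
    exact antitone_nat_of_succ_le hx
  set Φ : X → ℝ := fun x => ⨅ k, F k x with hΦ
  have hΦm : Measurable Φ := Measurable.iInf hF1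
  have hbdd : ∀ x, BddBelow (Set.range fun k => F k x) := fun x =>
    ⟨-(2 * C), by rintro _ ⟨k, rfl⟩; exact (abs_le.1 (hF2 k x)).1⟩
  have hlim : ∀ᵐ x ∂μ, Tendsto (fun k => F k x) atTop (𝓝 (Φ x)) := by
    filter_upwards [hanti] with x hx
    exact tendsto_atTop_ciInf hx (hbdd x)
  have hdom : Tendsto (fun k => ∫ x, F k x ∂μ) atTop (𝓝 (∫ x, Φ x ∂μ)) :=
    tendsto_integral_of_dominated_convergence (fun _ => 2 * C)
      (fun k => (hF1 k).aestronglyMeasurable) (integrable_const _)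
      (fun k => ae_of_all _ fun x => by rw [Real.norm_eq_abs]; exact hF2 k x) hlim
  have hpow : Tendsto (fun k : ℕ => 2 ^ k) atTop atTop := tendsto_pow_atTop_atTop_of_one_lt one_lt_two
  have hκ2 : Tendsto (fun k => ∫ x, F k x ∂μ) atTop (𝓝 κ) := by
    refine (hκ.comp hpow).congr fun k => ?_
    rw [hF4 k]
    rfl
  have hΦκ : ∫ x, Φ x ∂μ = κ := tendsto_nhds_unique hdom hκ2
  have hΦinv : ∀ b : A, ∀ᵐ x ∂μ, Φ (b • x) ≤ Φ x := by
    intro b
    obtain ⟨K, hK⟩ := hinv b
    filter_upwards [hlim, hE.ae_smul b hlim, ae_all_iff.2 hK] with x h1 h2 h3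
    have h4 : Tendsto (fun k : ℕ => F k x + K / 2 ^ k) atTop (𝓝 (Φ x + 0)) := by
      refine h1.add ?_
      have := (tendsto_pow_atTop_nhds_zero_of_lt_one (r := (1 / 2 : ℝ)) (by norm_num)
        (by norm_num)).const_mul K
      rw [mul_zero] at this
      refine this.congr fun k => ?_
      rw [one_div, inv_pow, div_eq_mul_inv]
    rw [add_zero] at h4
    exact le_of_tendsto_of_tendsto' h2 h4 h3
  have hΦinv' : ∀ b : A, ∀ᵐ x ∂μ, Φ (b • x) = Φ x := by
    intro b
    filter_upwards [hΦinv b, hE.ae_smul b (hΦinv b⁻¹)] with x h1 h2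
    rw [inv_smul_smul] at h2
    exact le_antisymm h1 h2
  obtain ⟨c', hc'⟩ := hE.ae_const hΦm hΦinv'
  have hc'κ : c' = κ := by
    rw [← hΦκ, integral_congr_ae hc']
    simp
  have hL1 : Tendsto (fun k => ∫ x, |F k x - κ| ∂μ) atTop (𝓝 0) := by
    have h1 : Tendsto (fun k => ∫ x, |F k x - κ| ∂μ) atTop (𝓝 (∫ _x : X, (0 : ℝ) ∂μ)) := by
      refine tendsto_integral_of_dominated_convergence (fun _ => 2 * C + |κ|)
        (fun k => ((hF1 k).sub measurable_const).abs.aestronglyMeasurable) (integrable_const _)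
        (fun k => ae_of_all _ fun x => ?_) ?_
      · rw [Real.norm_eq_abs, abs_abs]
        exact (abs_sub _ _).trans (by linarith [hF2 k x])
      · filter_upwards [hlim, hc'] with x h1 h2
        rw [h2, hc'κ] at h1
        have h3 := (h1.sub_const κ).abs
        rwa [sub_self, abs_zero] at h3
    rwa [integral_zero] at h1
  -- the block inequality
  have hblock : ∀ k : ℕ, ∃ K : ℝ, ∀ t : ℕ, ∀ᵐ x ∂μ,
      L t x ≤ K + ∑ s ∈ Finset.range t, f k (a ^ s • x) := by
    intro k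
    set q : ℕ := 2 ^ k with hq
    have hq1 : 1 ≤ q := hp k
    have hq0 : (0 : ℝ) < q := by exact_mod_cast hq1
    have hW : ∀ t : ℕ, ∀ᵐ x ∂μ, ∑ j ∈ Finset.range q, L (t + j) x ≤
        ∑ j ∈ Finset.range q, L j x + ∑ s ∈ Finset.range t, L q (a ^ s • x) := by
      intro t
      induction t with
      | zero => exact ae_of_all _ fun x => by simp
      | succ t ih =>
        filter_upwards [ih, hs q t] with x h1 h2
        have e1 : ∑ j ∈ Finset.range q, L (t + 1 + j) x + L t x =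
            ∑ j ∈ Finset.range q, L (t + j) x + L (t + q) x := by
          rw [← Finset.sum_range_succ (fun j => L (t + j) x) q, Finset.sum_range_succ']
          simp only [add_zero]
          congr 1
          exact Finset.sum_congr rfl fun j _ => by rw [add_assoc, add_comm 1 j]
        rw [Finset.sum_range_succ (fun s => L q (a ^ s • x)) t]
        rw [add_comm q t] at h2
        linarith
    refine ⟨(∑ j ∈ Finset.range q, C * (j + 1) + ∑ j ∈ Finset.range q, C * (j + 1)) / q,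
      fun t => ?_⟩
    have hf3' : ∀ᵐ x ∂μ, ∀ s : ℕ, f k (a ^ s • x) = L q (a ^ s • x) / q :=
      ae_all_iff.2 fun s => hE.ae_smul (a ^ s) (hf3 k)
    filter_upwards [hW t, ae_all_iff.2 (hr t), ae_all_iff.2 hb, hf3'] with x h1 h2 h3 h4
    have e1 : ∑ s ∈ Finset.range t, f k (a ^ s • x) =
        (∑ s ∈ Finset.range t, L q (a ^ s • x)) / q := by
      rw [Finset.sum_div]
      exact Finset.sum_congr rfl fun s _ => h4 s
    rw [e1, ← add_div, le_div_iff₀ hq0]
    have e2 : L t x * q ≤ ∑ j ∈ Finset.range q, (L (t + j) x + C * (j + 1)) := by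
      have : L t x * q = ∑ _j ∈ Finset.range q, L t x := by
        rw [Finset.sum_const, Finset.card_range, nsmul_eq_mul, mul_comm]
      rw [this]
      exact Finset.sum_le_sum fun j _ => h2 j
    rw [Finset.sum_add_distrib] at e2
    have e3 : ∑ j ∈ Finset.range q, L j x ≤ ∑ j ∈ Finset.range q, C * ((j : ℝ) + 1) :=
      Finset.sum_le_sum fun j _ => (le_abs_self _).trans (h3 j)
    linarith
  -- conclusion
  rw [Metric.tendsto_atTop]
  intro δ hδ
  have hη : 0 < δ * ε / 8 := by positivity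
  obtain ⟨k, hk⟩ := ((tendsto_order.1 hL1).2 (δ * ε / 8) hη).exists
  obtain ⟨K, hK⟩ := hblock k
  have hT1 := (tendsto_order.1 (hF5 k)).2 (δ * ε / 8) hη
  obtain ⟨N, hN⟩ := exists_nat_gt (2 * |K| / ε)
  obtain ⟨T₀, hT₀⟩ := eventually_atTop.1 hT1
  refine ⟨max (max N T₀) 1, fun t ht => ?_⟩
  have ht1 : 1 ≤ t := (le_max_right _ _).trans ht
  have htN : N ≤ t := (le_max_left _ _).trans ((le_max_left _ _).trans ht)
  have htT : T₀ ≤ t := (le_max_right _ _).trans ((le_max_left _ _).trans ht)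
  have ht0 : (0 : ℝ) < t := by exact_mod_cast ht1
  rw [Real.dist_eq, sub_zero, abs_of_nonneg measureReal_nonneg]
  have hKt : |K| ≤ ε / 2 * t := by
    have h1 : 2 * |K| / ε < t := hN.trans_le (by exact_mod_cast htN)
    rw [div_lt_iff₀ hε] at h1
    linarith
  have i3 : Integrable (fun x => |(∑ s ∈ Finset.range t, f k (a ^ s • x)) / (t : ℝ) - F k x|) μ :=
    ((erg2_int (erg2_avg_meas hE a (hf1 k) t) (erg2_avg_bd a (hf2 k) t)).sub (hFi k)).abs
  have i4 : Integrable (fun x => |F k x - κ|) μ := ((hFi k).sub (integrable_const κ)).abs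
  have hmk := mul_meas_ge_le_integral_of_nonneg (μ := μ)
    (f := fun x => |(∑ s ∈ Finset.range t, f k (a ^ s • x)) / (t : ℝ) - F k x| + |F k x - κ|)
    (ae_of_all _ fun x => add_nonneg (abs_nonneg _) (abs_nonneg _)) (i3.add i4) (ε / 2)
  have hsub : μ.real {x | (κ + ε) * t < L t x} ≤ μ.real {x | ε / 2 ≤
      |(∑ s ∈ Finset.range t, f k (a ^ s • x)) / (t : ℝ) - F k x| + |F k x - κ|} := by
    refine ENNReal.toReal_mono (measure_ne_top _ _) (measure_mono_ae ?_)
    filter_upwards [hK t] with x hx hx2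
    have hx3 : (κ + ε) * t < L t x := hx2
    change ε / 2 ≤ |(∑ s ∈ Finset.range t, f k (a ^ s • x)) / (t : ℝ) - F k x| + |F k x - κ|
    have h1 : κ + ε / 2 ≤ (∑ s ∈ Finset.range t, f k (a ^ s • x)) / (t : ℝ) := by
      rw [le_div_iff₀ ht0]
      have h2 := le_abs_self K
      nlinarith
    have h2 := le_abs_self ((∑ s ∈ Finset.range t, f k (a ^ s • x)) / (t : ℝ) - F k x)
    have h3 := le_abs_self (F k x - κ)
    linarith
  rw [integral_add i3 i4] at hmk
  have h5 := hT₀ t htT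
  have h6 : ε / 2 * μ.real {x | ε / 2 ≤
      |(∑ s ∈ Finset.range t, f k (a ^ s • x)) / (t : ℝ) - F k x| + |F k x - κ|} <
      δ * ε / 4 := by
    refine hmk.trans_lt ?_
    linarith
  have h7 : μ.real {x | ε / 2 ≤
      |(∑ s ∈ Finset.range t, f k (a ^ s • x)) / (t : ℝ) - F k x| + |F k x - κ|} < δ / 2 := by
    by_contra h8
    push Not at h8
    nlinarith
  linarith

/-- The positivity and the bound. -/
private theorem erg2_fn_pos {A X ι : Type} [CommGroup A] [MulAction A X] [Fintype ι]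
    [DecidableEq ι] [MeasurableSpace X] {μ : Measure X} (hE : Sys A X μ) (c : Coc A X ι μ)
    (h0 : ¬ ∀ᵐ x ∂μ, c.D 1 x = 0) (a : A) : ∃ C : ℝ, 1 ≤ C ∧ ∀ t : ℕ, ∀ᵐ x ∂μ,
      0 < fn (c.D (a ^ t) x) ∧ |Real.log (fn (c.D (a ^ t) x))| ≤ Real.log C * (t + 1) := by
  have hne : ∀ᵐ x ∂μ, c.D 1 x ≠ 0 := (Coc.zero_or_ne_zero hE c).resolve_left h0
  obtain ⟨C₁, hC1, h1⟩ := Coc.pow_bd hE c a
  obtain ⟨C₂, hC2, h2⟩ := Coc.pow_bd hE c a⁻¹
  refine ⟨max C₁ C₂, hC1.trans (le_max_left _ _), fun t => ?_⟩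
  filter_upwards [hne, c.symm, c.D_one_idem hE, h1 t, hE.ae_smul (a ^ t) (h2 t),
    c.D_inv_mul hE (a ^ t)] with x hx1 hx2 hx3 hx4 hx5 hx6
  have e1 : 1 ≤ fn (c.D 1 x) := one_le_fn_of_proj hx2 hx3 hx1
  rw [inv_pow] at hx5
  have e2 : 1 ≤ C₂ ^ (t + 1) * fn (c.D (a ^ t) x) := by
    refine e1.trans ?_
    rw [← hx6]
    refine (fn_mul_le _ _).trans ?_
    exact mul_le_mul_of_nonneg_right hx5 (fn_nonneg _)
  have hC2p : 0 < C₂ ^ (t + 1) := by positivity
  have hpos : 0 < fn (c.D (a ^ t) x) := by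
    by_contra hcon
    push Not at hcon
    have := mul_nonpos_of_nonneg_of_nonpos hC2p.le hcon
    linarith
  refine ⟨hpos, ?_⟩
  have ht0 : (0 : ℝ) ≤ (t : ℝ) + 1 := by positivity
  have l1 : Real.log C₁ ≤ Real.log (max C₁ C₂) :=
    Real.log_le_log (by linarith) (le_max_left _ _)
  have l2 : Real.log C₂ ≤ Real.log (max C₁ C₂) :=
    Real.log_le_log (by linarith) (le_max_right _ _)
  rw [abs_le]
  constructor
  · have e3 : 0 ≤ Real.log (C₂ ^ (t + 1) * fn (c.D (a ^ t) x)) := Real.log_nonneg e2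
    rw [Real.log_mul hC2p.ne' hpos.ne', Real.log_pow] at e3
    push_cast at e3
    nlinarith
  · have e3 : Real.log (fn (c.D (a ^ t) x)) ≤ Real.log (C₁ ^ (t + 1)) :=
      Real.log_le_log hpos hx4
    rw [Real.log_pow] at e3
    push_cast at e3
    nlinarith

namespace Coc

variable {A X ι : Type} [CommGroup A] [MulAction A X] [Fintype ι] [DecidableEq ι]
  [MeasurableSpace X] {μ : Measure X}

theorem log_bd (hE : Sys A X μ) (c : Coc A X ι μ) (h0 : ¬ ∀ᵐ x ∂μ, c.D 1 x = 0) (a : A) :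
    ∃ C : ℝ, 0 < C ∧ ∀ t : ℕ, ∀ᵐ x ∂μ, |Real.log (fn (c.D (a ^ t) x))| ≤ C * (t + 1) := by
  obtain ⟨C, hC, h⟩ := erg2_fn_pos hE c h0 a
  have hl : 0 ≤ Real.log C := Real.log_nonneg hC
  refine ⟨Real.log C + 1, by linarith, fun t => ?_⟩
  filter_upwards [h t] with x hx
  refine hx.2.trans ?_
  have ht0 : (0 : ℝ) ≤ (t : ℝ) + 1 := by positivity
  nlinarith

theorem exists_kappa (hE : Sys A X μ) (c : Coc A X ι μ) (h0 : ¬ ∀ᵐ x ∂μ, c.D 1 x = 0) (a : A) :
    ∃ κ : ℝ, (∀ t : ℕ, κ * t ≤ ∫ x, Real.log (fn (c.D (a ^ t) x)) ∂μ) ∧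
      Tendsto (fun t : ℕ => (∫ x, Real.log (fn (c.D (a ^ t) x)) ∂μ) / t) atTop (𝓝 κ) ∧
      ∀ ε : ℝ, 0 < ε → c.Le a (κ + ε) := by
  have := hE.prob
  have hne : ∀ᵐ x ∂μ, c.D 1 x ≠ 0 := (zero_or_ne_zero hE c).resolve_left h0
  obtain ⟨C, hC, hb⟩ := log_bd hE c h0 a
  have hpos : ∀ b : A, ∀ᵐ x ∂μ, 0 < fn (c.D b x) := by
    intro b
    obtain ⟨C', hC', h'⟩ := erg2_fn_pos hE c h0 b
    filter_upwards [h' 1] with x hx
    rw [pow_one] at hx
    exact hx.1
  have hm : ∀ t : ℕ, Measurable fun x => Real.log (fn (c.D (a ^ t) x)) := fun t =>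
    Real.measurable_log.comp (c.meas (a ^ t)).fn
  have hint : ∀ t : ℕ, Integrable (fun x => Real.log (fn (c.D (a ^ t) x))) μ := fun t =>
    Integrable.of_bound (hm t).aestronglyMeasurable (C * (t + 1)) (by
      filter_upwards [hb t] with x hx
      rwa [Real.norm_eq_abs])
  have hs : ∀ s t : ℕ, ∀ᵐ x ∂μ, Real.log (fn (c.D (a ^ (s + t)) x)) ≤
      Real.log (fn (c.D (a ^ s) (a ^ t • x))) + Real.log (fn (c.D (a ^ t) x)) := by
    intro s t
    filter_upwards [c.mul (a ^ s) (a ^ t), hpos (a ^ (s + t)), hE.ae_smul (a ^ t) (hpos (a ^ s)),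
      hpos (a ^ t)] with x h1 h2 h3 h4
    rw [← Real.log_mul h3.ne' h4.ne']
    refine Real.log_le_log h2 ?_
    rw [pow_add, h1]
    exact fn_mul_le _ _
  obtain ⟨C₂, hC2, hb2⟩ := erg2_fn_pos hE c h0 a⁻¹
  have hr0 : ∀ t j : ℕ, ∀ᵐ x ∂μ, Real.log (fn (c.D (a ^ t) x)) ≤
      Real.log (fn (c.D (a ^ (t + j)) x)) + Real.log C₂ * (j + 1) := by
    intro t j
    filter_upwards [c.mul ((a⁻¹) ^ j) (a ^ (t + j)), hpos (a ^ (t + j)), hpos (a ^ t),
      hE.ae_smul (a ^ (t + j)) (hb2 j)] with x h1 h2 h3 h4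
    have e1 : (a⁻¹) ^ j * a ^ (t + j) = a ^ t := by
      rw [pow_add, mul_comm (a ^ t), ← mul_assoc, inv_pow, inv_mul_cancel, one_mul]
    rw [e1] at h1
    have e2 : Real.log (fn (c.D (a ^ t) x)) ≤
        Real.log (fn (c.D (a⁻¹ ^ j) (a ^ (t + j) • x)) * fn (c.D (a ^ (t + j)) x)) := by
      refine Real.log_le_log h3 ?_
      rw [h1]
      exact fn_mul_le _ _
    rw [Real.log_mul h4.1.ne' h2.ne'] at e2
    have e3 := (abs_le.1 h4.2).2
    linarith
  have hi : ∀ b : A, ∃ K : ℝ, ∀ q : ℕ, ∀ᵐ x ∂μ, Real.log (fn (c.D (a ^ q) (b • x))) ≤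
      Real.log (fn (c.D (a ^ q) x)) + K := by
    intro b
    obtain ⟨B, hB, hB1, hB2⟩ := c.exists_bd b
    refine ⟨Real.log (B * B), fun q => ?_⟩
    filter_upwards [c.mul (a ^ q) b, c.mul b (a ^ q), hE.ae_smul (a ^ q) hB1,
      hE.ae_smul b hB2, c.D_mul_inv hE b, hE.ae_smul b (c.D_mul_one hE (a ^ q)),
      hpos (a ^ q), hE.ae_smul b (hpos (a ^ q))] with x h1 h2 h3 h4 h5 h6 h7 h8
    have e1 : c.D (a ^ q) (b • x) = c.D b (a ^ q • x) * c.D (a ^ q) x * c.D b⁻¹ (b • x) := by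
      rw [← h2, mul_comm b, h1, Matrix.mul_assoc, h5, h6]
    have hBB : (0 : ℝ) < B * B := by positivity
    rw [add_comm, ← Real.log_mul hBB.ne' h7.ne']
    refine Real.log_le_log h8 ?_
    rw [e1]
    refine (fn_mul_le _ _).trans ?_
    have e2 : fn (c.D b (a ^ q • x) * c.D (a ^ q) x) ≤ B * fn (c.D (a ^ q) x) :=
      (fn_mul_le _ _).trans (mul_le_mul_of_nonneg_right h3 (fn_nonneg _))
    refine (mul_le_mul e2 h4 (fn_nonneg _) (mul_nonneg (by linarith) (fn_nonneg _))).trans ?_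
    exact le_of_eq (by ring)
  have hsub : Subadditive fun t : ℕ => ∫ x, Real.log (fn (c.D (a ^ t) x)) ∂μ := by
    intro s t
    have h1 : ∫ x, Real.log (fn (c.D (a ^ s) (a ^ t • x))) ∂μ =
        ∫ x, Real.log (fn (c.D (a ^ s) x)) ∂μ := erg2_comp hE (a ^ t) (hm s)
    have h2 : Integrable (fun x => Real.log (fn (c.D (a ^ s) (a ^ t • x)))) μ :=
      (hE.mp (a ^ t)).integrable_comp_of_integrable (hint s)
    change ∫ x, Real.log (fn (c.D (a ^ (s + t)) x)) ∂μ ≤
      ∫ x, Real.log (fn (c.D (a ^ s) x)) ∂μ + ∫ x, Real.log (fn (c.D (a ^ t) x)) ∂μ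
    rw [← h1, ← integral_add h2 (hint t)]
    exact integral_mono_ae (hint _) (h2.add (hint t)) (hs s t)
  have hlow : ∀ t : ℕ, -(C * (t + 1)) ≤ ∫ x, Real.log (fn (c.D (a ^ t) x)) ∂μ := by
    intro t
    have h1 : ∫ _x : X, -(C * ((t : ℝ) + 1)) ∂μ ≤ ∫ x, Real.log (fn (c.D (a ^ t) x)) ∂μ := by
      refine integral_mono_ae (integrable_const _) (hint t) ?_
      filter_upwards [hb t] with x hx
      exact (abs_le.1 hx).1
    simpa using h1
  have hbdd : BddBelow (Set.range fun t : ℕ =>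
      (∫ x, Real.log (fn (c.D (a ^ t) x)) ∂μ) / t) := by
    refine ⟨-(2 * C), ?_⟩
    rintro _ ⟨t, rfl⟩
    rcases Nat.eq_zero_or_pos t with rfl | ht
    · simp only [Nat.cast_zero, div_zero]
      linarith
    · have ht' : (1 : ℝ) ≤ t := by exact_mod_cast ht
      change -(2 * C) ≤ (∫ x, Real.log (fn (c.D (a ^ t) x)) ∂μ) / t
      rw [le_div_iff₀ (by linarith)]
      refine le_trans ?_ (hlow t)
      nlinarith
  have hlim := hsub.tendsto_lim hbdd
  refine ⟨hsub.lim, fun t => ?_, hlim, fun ε hε => ?_⟩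
  · rcases Nat.eq_zero_or_pos t with rfl | ht
    · rw [Nat.cast_zero, mul_zero]
      refine integral_nonneg_of_ae ?_
      filter_upwards [hne, c.symm, c.D_one_idem hE] with x h1 h2 h3
      change 0 ≤ Real.log (fn (c.D (a ^ 0) x))
      rw [pow_zero]
      exact Real.log_nonneg (one_le_fn_of_proj h2 h3 h1)
    · have ht' : (0 : ℝ) < t := by exact_mod_cast ht
      have h1 := hsub.lim_le_div hbdd ht.ne'
      exact (le_div_iff₀ ht').1 h1
  · have hmain := erg2_kingman hE a (L := fun t x => Real.log (fn (c.D (a ^ t) x))) hm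
      (C := max C (Real.log C₂)) (hC.trans_le (le_max_left _ _)) (fun t => ?_) hs
      (fun t j => ?_) hi hlim hε
    · unfold Le WP
      rw [← ENNReal.tendsto_toReal_zero_iff (fun t => measure_ne_top _ _)]
      refine squeeze_zero (fun t => ENNReal.toReal_nonneg) (fun t => ?_) hmain
      refine ENNReal.toReal_mono (measure_ne_top _ _) (measure_mono_ae ?_)
      filter_upwards [hpos (a ^ t)] with x hx hx2
      have hx3 : Real.exp ((hsub.lim + ε) * t) < fn (c.D (a ^ t) x) := hx2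
      change (hsub.lim + ε) * t < Real.log (fn (c.D (a ^ t) x))
      rwa [Real.lt_log_iff_exp_lt hx]
    · filter_upwards [hb t] with x hx
      refine hx.trans ?_
      exact mul_le_mul_of_nonneg_right (le_max_left _ _) (by positivity)
    · filter_upwards [hr0 t j] with x hx
      refine hx.trans ?_
      have : Real.log C₂ * ((j : ℝ) + 1) ≤ max C (Real.log C₂) * (j + 1) :=
        mul_le_mul_of_nonneg_right (le_max_right _ _) (by positivity)
      linarith

end Coc

end Pool.Agent.H23.DM
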