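import Mathlib
import Pool.Agent.H23.DM.La

/-!
MODULE Wl1 (dimension theorem, Part 2.4).  Weak limits of bounded sequences along an ultrafilter.

For `g ∈ L²(μ)` (or `L¹`) the bounded real sequence `∫ f n * g` has a limit `ℓ g` along `𝒰`; `ℓ` is
linear and `|ℓ g| ≤ C ∫ |g|`; on `L²` it is represented by some `F₀ ∈ L²` (Riesz); `|F₀| ≤ C` a.e.
(test with indicators); truncate.  The convergence for `g ∈ L²` extends to integrable `g` by density
(both sides are `≤ C ∫ |g|`).
-/

open MeasureTheory Filter Matrix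
open scoped Topology

namespace Pool.Agent.H23.DM

private theorem wl1_trunc_le (M t : ℝ) (hM : 0 ≤ M) : |t - max (-M) (min M t)| ≤ |t| := by
  rcases le_total M t with h | h
  · rw [min_eq_left h, max_eq_right (by linarith), abs_of_nonneg (by linarith),
      abs_of_nonneg (by linarith)]
    linarith
  · rw [min_eq_right h]
    rcases le_total (-M) t with h2 | h2
    · rw [max_eq_right h2]; simp
    · rw [max_eq_left h2, abs_of_nonpos (by linarith), abs_of_nonpos (by linarith)]
      linarith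

private theorem wl1_trunc_abs (M t : ℝ) (hM : 0 ≤ M) : |max (-M) (min M t)| ≤ M := by
  rw [abs_le]
  exact ⟨le_max_left _ _, max_le (by linarith) (min_le_left _ _)⟩

private theorem wl1_l2 {X : Type} [MeasurableSpace X] (μ : Measure X) [IsFiniteMeasure μ]
    (U : Ultrafilter ℕ) (f : ℕ → X → ℝ) (hf : ∀ n, Measurable (f n)) {C : ℝ}
    (hC : ∀ n x, |f n x| ≤ C) :
    ∃ F : X → ℝ, MemLp F 2 μ ∧ ∀ g : X → ℝ, MemLp g 2 μ →
      Tendsto (fun n => ∫ x, f n x * g x ∂μ) U (𝓝 (∫ x, F x * g x ∂μ)) := by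
  have hm : ∀ n, MemLp (f n) 2 μ := fun n =>
    MemLp.of_bound (hf n).aestronglyMeasurable C (ae_of_all _ fun x => hC n x)
  let v : ℕ → Lp ℝ 2 μ := fun n => (hm n).toLp (f n)
  have hv : ∀ n, ‖v n‖ ≤ measureUnivNNReal μ ^ (2 : ENNReal).toReal⁻¹ * |C| := by
    intro n
    refine Lp.norm_le_of_ae_bound (abs_nonneg _) ?_
    filter_upwards [(hm n).coeFn_toLp] with x hx
    rw [hx]
    exact (hC n x).trans (le_abs_self _)
  set R : ℝ := measureUnivNNReal μ ^ (2 : ENNReal).toReal⁻¹ * |C| with hR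
  let φ : ℕ → WeakDual ℝ (Lp ℝ 2 μ) := fun n =>
    StrongDual.toWeakDual (InnerProductSpace.toDual ℝ (Lp ℝ 2 μ) (v n))
  obtain ⟨l, -, hlim⟩ := (WeakDual.isCompact_closedBall (𝕜 := ℝ)
    (0 : StrongDual ℝ (Lp ℝ 2 μ)) R).ultrafilter_le_nhds (U.map φ) (by
      rw [Ultrafilter.coe_map, le_principal_iff, mem_map]
      refine Filter.univ_mem' fun n => ?_
      change InnerProductSpace.toDual ℝ (Lp ℝ 2 μ) (v n) ∈ Metric.closedBall 0 R
      rw [mem_closedBall_zero_iff, LinearIsometryEquiv.norm_map]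
      exact hv n)
  let w : Lp ℝ 2 μ := (InnerProductSpace.toDual ℝ (Lp ℝ 2 μ)).symm (WeakDual.toStrongDual l)
  refine ⟨w, Lp.memLp w, ?_⟩
  intro g hg
  have h1 : Tendsto (fun n => φ n (hg.toLp g)) U (𝓝 (l (hg.toLp g))) :=
    ((WeakDual.eval_continuous (hg.toLp g)).tendsto l).comp hlim
  have h2 : ∀ n, φ n (hg.toLp g) = ∫ x, f n x * g x ∂μ := by
    intro n
    change InnerProductSpace.toDual ℝ (Lp ℝ 2 μ) (v n) (hg.toLp g) = _
    rw [InnerProductSpace.toDual_apply_apply, L2.inner_def]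
    refine integral_congr_ae ?_
    filter_upwards [(hm n).coeFn_toLp, hg.coeFn_toLp] with x hx hx2
    simp only [v]
    rw [hx, hx2]
    simp [mul_comm]
  have h3 : l (hg.toLp g) = ∫ x, w x * g x ∂μ := by
    have : WeakDual.toStrongDual l = InnerProductSpace.toDual ℝ (Lp ℝ 2 μ) w := by
      simp [w]
    change WeakDual.toStrongDual l (hg.toLp g) = _
    rw [this, InnerProductSpace.toDual_apply_apply, L2.inner_def]
    refine integral_congr_ae ?_
    filter_upwards [hg.coeFn_toLp] with x hx2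
    rw [hx2]
    simp [mul_comm]
  rw [← h3]
  exact h1.congr h2

private theorem wl1_le {X : Type} [MeasurableSpace X] (μ : Measure X) [IsFiniteMeasure μ]
    (U : Ultrafilter ℕ) (f : ℕ → X → ℝ) (hf : ∀ n, Measurable (f n)) {C : ℝ}
    (hC : ∀ n x, |f n x| ≤ C) (F : X → ℝ) (hF : MemLp F 2 μ)
    (h : ∀ g : X → ℝ, MemLp g 2 μ →
      Tendsto (fun n => ∫ x, f n x * g x ∂μ) U (𝓝 (∫ x, F x * g x ∂μ))) :
    ∀ᵐ x ∂μ, F x ≤ C := by
  set G : X → ℝ := hF.1.mk F with hG
  have hGm : Measurable G := hF.1.stronglyMeasurable_mk.measurable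
  have hGF : F =ᵐ[μ] G := hF.1.ae_eq_mk
  set A : Set X := {x | C < G x} with hA
  have hAm : MeasurableSet A := measurableSet_lt measurable_const hGm
  have hg : MemLp (A.indicator (fun _ => (1 : ℝ))) 2 μ := (memLp_const 1).indicator hAm
  have h1 := h _ hg
  have hFi : Integrable F μ := hF.integrable (by norm_num)
  have hGi : Integrable G μ := hFi.congr hGF
  have h2 : ∀ n, ∫ x, f n x * A.indicator (fun _ => (1 : ℝ)) x ∂μ ≤ ∫ x in A, C ∂μ := by
    intro n
    have e : (fun x => f n x * A.indicator (fun _ => (1 : ℝ)) x) = A.indicator (f n) := by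
      ext x
      by_cases hx : x ∈ A <;> simp [hx]
    rw [e, integral_indicator hAm]
    exact integral_mono (Integrable.of_bound (hf n).aestronglyMeasurable C
      (ae_of_all _ fun x => hC n x)) (integrable_const _) fun x => (le_abs_self _).trans (hC n x)
  have h3 : ∫ x, F x * A.indicator (fun _ => (1 : ℝ)) x ∂μ ≤ ∫ x in A, C ∂μ :=
    le_of_tendsto h1 (Eventually.of_forall h2)
  have e : ∫ x, F x * A.indicator (fun _ => (1 : ℝ)) x ∂μ = ∫ x in A, G x ∂μ := by
    rw [← integral_indicator hAm]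
    refine integral_congr_ae ?_
    filter_upwards [hGF] with x hx
    by_cases hxA : x ∈ A <;> simp [hxA, hx]
  rw [e] at h3
  have h4 : ∫ x in A, (G x - C) ∂μ ≤ 0 := by
    rw [integral_sub hGi.integrableOn (integrable_const _)]
    linarith
  have h5 : 0 ≤ᵐ[μ.restrict A] fun x => G x - C := by
    filter_upwards [ae_restrict_mem hAm] with x hx
    have : C < G x := hx
    simp only [Pi.zero_apply]
    linarith
  have h6 : ∫ x in A, (G x - C) ∂μ = 0 := le_antisymm h4 (integral_nonneg_of_ae h5)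
  have h7 : (fun x => G x - C) =ᵐ[μ.restrict A] 0 :=
    (integral_eq_zero_iff_of_nonneg_ae h5
      (hGi.integrableOn.sub (integrable_const _))).1 h6
  have h8 : ∀ᵐ x ∂μ, x ∈ A → G x - C = 0 := (ae_restrict_iff' hAm).1 h7
  filter_upwards [h8, hGF] with x hx hx2
  by_contra hc
  have hxA : x ∈ A := by
    change C < G x
    rw [← hx2]
    exact not_le.1 hc
  have := hx hxA
  have h9 : C < G x := hxA
  linarith

theorem exists_wlim {X : Type} [MeasurableSpace X] (μ : Measure X) [IsFiniteMeasure μ]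
    (U : Ultrafilter ℕ) (f : ℕ → X → ℝ) (hf : ∀ n, Measurable (f n)) {C : ℝ}
    (hC : ∀ n x, |f n x| ≤ C) :
    ∃ F : X → ℝ, Measurable F ∧ (∀ x, |F x| ≤ C) ∧ ∀ g : X → ℝ, Integrable g μ →
      Tendsto (fun n => ∫ x, f n x * g x ∂μ) U (𝓝 (∫ x, F x * g x ∂μ)) := by
  obtain ⟨F0, hF0, hlim⟩ := wl1_l2 μ U f hf hC
  have hup := wl1_le μ U f hf hC F0 hF0 hlim
  have hlo : ∀ᵐ x ∂μ, (-F0) x ≤ C := by
    refine wl1_le μ U (fun n x => -f n x) (fun n => (hf n).neg) (C := C)
      (fun n x => by rw [abs_neg]; exact hC n x) (-F0) hF0.neg ?_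
    intro g hg
    have := (hlim g hg).neg
    simp only [← integral_neg] at this
    simpa [neg_mul] using this
  set G : X → ℝ := hF0.1.mk F0 with hG
  have hGm : Measurable G := hF0.1.stronglyMeasurable_mk.measurable
  have hGF : F0 =ᵐ[μ] G := hF0.1.ae_eq_mk
  let F : X → ℝ := fun x => max (-C) (min C (G x))
  have hFm : Measurable F := measurable_const.max (measurable_const.min hGm)
  have hFC : ∀ x, |F x| ≤ C := by
    intro x
    exact wl1_trunc_abs C (G x) ((abs_nonneg _).trans (hC 0 x))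
  have hFF0 : F0 =ᵐ[μ] F := by
    filter_upwards [hup, hlo, hGF] with x h1 h2 h3
    simp only [F]
    rw [← h3, min_eq_right h1, max_eq_right]
    simp only [Pi.neg_apply] at h2
    linarith
  refine ⟨F, hFm, hFC, ?_⟩
  intro g hg
  have hlimF : ∀ g : X → ℝ, MemLp g 2 μ →
      Tendsto (fun n => ∫ x, f n x * g x ∂μ) U (𝓝 (∫ x, F x * g x ∂μ)) := by
    intro g hg
    have e : ∫ x, F x * g x ∂μ = ∫ x, F0 x * g x ∂μ := by
      refine integral_congr_ae ?_
      filter_upwards [hFF0] with x hx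
      rw [hx]
    rw [e]
    exact hlim g hg
  rcases isEmpty_or_nonempty X with hX | ⟨⟨x0⟩⟩
  · have e : ∀ h : X → ℝ, ∫ x, h x ∂μ = 0 := by
      intro h
      rw [show μ = 0 from Measure.eq_zero_of_isEmpty μ]
      simp
    simp only [e]
    exact tendsto_const_nhds
  have hC0 : 0 ≤ C := (abs_nonneg _).trans (hC 0 x0)
  -- truncations of g
  let T : ℕ → X → ℝ := fun M x => max (-(M : ℝ)) (min (M : ℝ) (g x))
  have hTm : ∀ M, AEStronglyMeasurable (T M) μ := by
    intro M
    exact aestronglyMeasurable_const.sup (aestronglyMeasurable_const.inf hg.1)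
  have hT2 : ∀ M, MemLp (T M) 2 μ := fun M =>
    MemLp.of_bound (hTm M) (M : ℝ) (ae_of_all _ fun x => wl1_trunc_abs _ _ (Nat.cast_nonneg M))
  have hTi : ∀ M, Integrable (T M) μ := fun M => (hT2 M).integrable (by norm_num)
  have hT0 : Tendsto (fun M => ∫ x, |g x - T M x| ∂μ) atTop (𝓝 0) := by
    have h := tendsto_integral_of_dominated_convergence (μ := μ)
      (F := fun M x => |g x - T M x|) (f := fun _ => (0 : ℝ)) (fun x => |g x|)
      (fun M => (hg.1.sub (hTm M)).norm) hg.abs
      (fun M => ae_of_all _ fun x => by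
        rw [Real.norm_eq_abs, abs_abs]
        exact wl1_trunc_le _ _ (Nat.cast_nonneg M))
      (ae_of_all _ fun x => by
        obtain ⟨N, hN⟩ := exists_nat_ge |g x|
        refine tendsto_const_nhds.congr' ?_
        filter_upwards [eventually_ge_atTop N] with M hM
        have hM2 : |g x| ≤ (M : ℝ) := hN.trans (by exact_mod_cast hM)
        have h3 := abs_le.1 hM2
        simp only [T]
        rw [min_eq_right h3.2, max_eq_right h3.1]
        simp)
    simpa using h
  rw [Metric.tendsto_nhds]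
  intro e he
  have hK : 0 < e / (3 * (C + 1)) := by positivity
  obtain ⟨M, hM⟩ := ((tendsto_order.1 hT0).2 _ hK).exists
  have h1 := (Metric.tendsto_nhds.1 (hlimF (T M) (hT2 M))) (e / 3) (by positivity)
  have hbd : ∀ h : X → ℝ, Measurable h → (∀ x, |h x| ≤ C) →
      |∫ x, h x * g x ∂μ - ∫ x, h x * T M x ∂μ| ≤ C * ∫ x, |g x - T M x| ∂μ := by
    intro h hh hhC
    have i1 : Integrable (fun x => h x * g x) μ :=
      hg.bdd_mul (c := C) hh.aestronglyMeasurable (ae_of_all _ fun x => hhC x)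
    have i2 : Integrable (fun x => h x * T M x) μ :=
      (hTi M).bdd_mul (c := C) hh.aestronglyMeasurable (ae_of_all _ fun x => hhC x)
    rw [← integral_sub i1 i2, ← integral_const_mul]
    refine (abs_integral_le_integral_abs).trans (integral_mono (i1.sub i2).abs
      ((hg.sub (hTi M)).abs.const_mul C) fun x => ?_)
    beta_reduce
    rw [← mul_sub, abs_mul]
    exact mul_le_mul_of_nonneg_right (hhC x) (abs_nonneg _)
  have hsm : C * ∫ x, |g x - T M x| ∂μ < e / 3 := by
    have h0 : (0 : ℝ) ≤ ∫ x, |g x - T M x| ∂μ := integral_nonneg fun x => abs_nonneg _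
    calc C * ∫ x, |g x - T M x| ∂μ ≤ (C + 1) * ∫ x, |g x - T M x| ∂μ := by
          apply mul_le_mul_of_nonneg_right _ h0; linarith
      _ < (C + 1) * (e / (3 * (C + 1))) := by
          apply mul_lt_mul_of_pos_left hM; linarith
      _ = e / 3 := by field_simp
  filter_upwards [h1] with n hn
  have a1 := hbd (f n) (hf n) (hC n)
  have a2 := hbd F hFm hFC
  rw [Real.dist_eq] at hn ⊢
  have a1' := abs_le.1 (a1.trans hsm.le)
  have a2' := abs_le.1 (a2.trans hsm.le)
  have a1s := abs_lt.1 (lt_of_le_of_lt a1 hsm)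
  have a2s := abs_lt.1 (lt_of_le_of_lt a2 hsm)
  have hns := abs_lt.1 hn
  rw [abs_lt]
  constructor <;> linarith [a1s.1, a1s.2, a2s.1, a2s.2, hns.1, hns.2]

end Pool.Agent.H23.DM
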