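import Mathlib
import Pool.Agent.H23.DM.Erg2
import Pool.Agent.H23.DM.Wl1

/-!
The fast subbundle, definitions (dimension theorem, Part 2.4, helper23).

With `y = (a^s)⁻¹ • x`: `NN a s x = D (a^s) y * (D (a^s) y)ᵀ / fn (D (a^s) y) ^ 2`, a positive
semidefinite matrix of trace one.  `bad a κ δ t s` is the set where the trace of
`D (a⁻¹^t) x * NN a s x * (D (a⁻¹^t) x)ᵀ` is larger than `exp (-2 (κ - δ) t)`.
-/

open MeasureTheory Filter Matrix
open scoped Topology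

namespace Pool.Agent.H23.DM

namespace Coc

noncomputable section

variable {A X ι : Type} [CommGroup A] [MulAction A X] [Fintype ι] [DecidableEq ι]
  [MeasurableSpace X] {μ : Measure X}

/-- The normalised matrices. -/
def NN (c : Coc A X ι μ) (a : A) (s : ℕ) (x : X) : Matrix ι ι ℝ :=
  ((fn (c.D (a ^ s) ((a ^ s)⁻¹ • x)))⁻¹ ^ 2) •
    (c.D (a ^ s) ((a ^ s)⁻¹ • x) * (c.D (a ^ s) ((a ^ s)⁻¹ • x))ᵀ)

/-- The bad sets. -/
def bad (c : Coc A X ι μ) (a : A) (κ δ : ℝ) (t s : ℕ) : Set X :=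
  {x | Real.exp (-(2 * (κ - δ) * t)) <
    trace (c.D (a⁻¹ ^ t) x * c.NN a s x * (c.D (a⁻¹ ^ t) x)ᵀ)}

end

end Coc

end Pool.Agent.H23.DM
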