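import Mathlib
import Pool.Agent.H23.DM.Fs0

/-!
MODULE Fs1 (dimension theorem, Part 2.4).  Properties of `NN`.

Write `y = (a^s)⁻¹ x`, `M = D (a^s) y`.  `fn M ^ 2 = trace (M Mᵀ)` and `M ≠ 0` a.e. (`D 1 y =
D (a^s)⁻¹ x * M`, `h0`).  `NN_equiv`: with `z = y`, `z' = b y = (a^s)⁻¹ (b x)`:
`D b x * D (a^s) z = D (a^s) z' * D b z`, so `D b x M Mᵀ (D b x)ᵀ = D (a^s) z' (D b z (D b z)ᵀ)
(D (a^s) z')ᵀ ≤ C² D (a^s) z' (D (a^s) z')ᵀ` (`C` a bound for `D b`, `D b⁻¹`), and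
`fn (D (a^s) z') = fn (D b x * D (a^s) z * D b⁻¹ z') ≤ C² fn (D (a^s) z)`.
`NN_back`: `D (a⁻¹^t) x * D (a^s) y = D (a^(s-t)) y`.
-/

open MeasureTheory Filter Matrix
open scoped Topology

namespace Pool.Agent.H23.DM

namespace Coc

variable {A X ι : Type} [CommGroup A] [MulAction A X] [Fintype ι] [DecidableEq ι]
  [MeasurableSpace X] {μ : Measure X}

/-- The matrix `M = D (a^s) ((a^s)⁻¹ x)`. -/
private def fs1M (c : Coc A X ι μ) (a : A) (s : ℕ) (x : X) : Matrix ι ι ℝ :=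
  c.D (a ^ s) ((a ^ s)⁻¹ • x)

private theorem fs1_NN (c : Coc A X ι μ) (a : A) (s : ℕ) (x : X) :
    c.NN a s x = ((fn (c.fs1M a s x))⁻¹ ^ 2) • (c.fs1M a s x * (c.fs1M a s x)ᵀ) := rfl

omit [DecidableEq ι] in
private theorem fs1_qf (M : Matrix ι ι ℝ) (r : ℝ) (v : ι → ℝ) :
    qf (r • (M * Mᵀ)) v = r * vn (Mᵀ *ᵥ v) ^ 2 := by
  have h1 : vn (Mᵀ *ᵥ v) ^ 2 = (Mᵀ *ᵥ v) ⬝ᵥ (Mᵀ *ᵥ v) := by
    unfold vn
    rw [Real.sq_sqrt (Finset.sum_nonneg fun i _ => sq_nonneg _)]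
    unfold dotProduct
    exact Finset.sum_congr rfl fun i _ => sq _
  unfold qf
  rw [smul_mulVec, dotProduct_smul, smul_eq_mul, h1, ← mulVec_mulVec, dotProduct_mulVec,
    ← mulVec_transpose]

private theorem fs1_M_meas (hE : Sys A X μ) (c : Coc A X ι μ) (a : A) (s : ℕ) :
    MM (c.fs1M a s) := by
  have h1 : Measurable fun x : X => (a ^ s)⁻¹ • x := (hE.mp ((a ^ s)⁻¹)).measurable
  exact (c.meas (a ^ s)).comp h1

theorem NN_meas (hE : Sys A X μ) (c : Coc A X ι μ) (a : A) (s : ℕ) : MM (c.NN a s) := by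
  have hM := c.fs1_M_meas hE a s
  intro i j
  have h1 := (hM.mul hM.transpose) i j
  exact (hM.fn.inv.pow_const 2).mul h1

theorem bad_meas (hE : Sys A X μ) (c : Coc A X ι μ) (a : A) (κ δ : ℝ) (t s : ℕ) :
    MeasurableSet (c.bad a κ δ t s) := by
  have h1 : MM fun x => c.D (a⁻¹ ^ t) x * c.NN a s x * (c.D (a⁻¹ ^ t) x)ᵀ :=
    ((c.meas (a⁻¹ ^ t)).mul (c.NN_meas hE a s)).mul (c.meas (a⁻¹ ^ t)).transpose
  exact measurableSet_lt measurable_const h1.trace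

theorem NN_symm (c : Coc A X ι μ) (a : A) (s : ℕ) (x : X) : (c.NN a s x)ᵀ = c.NN a s x := by
  rw [fs1_NN, transpose_smul, transpose_mul, transpose_transpose]

theorem NN_nonneg (c : Coc A X ι μ) (a : A) (s : ℕ) (x : X) (v : ι → ℝ) :
    0 ≤ qf (c.NN a s x) v := by
  rw [fs1_NN, fs1_qf]
  positivity

theorem NN_entry (c : Coc A X ι μ) (a : A) (s : ℕ) (x : X) (i j : ι) :
    |c.NN a s x i j| ≤ 1 := by
  rw [fs1_NN, Matrix.smul_apply, smul_eq_mul, abs_mul, abs_of_nonneg (sq_nonneg _)]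
  have h1 : |(c.fs1M a s x * (c.fs1M a s x)ᵀ) i j| ≤ fn (c.fs1M a s x) ^ 2 := by
    refine (abs_entry_le_fn _ i j).trans ((fn_mul_le _ _).trans ?_)
    rw [fn_transpose, sq]
  by_cases h0 : fn (c.fs1M a s x) = 0
  · rw [h0, _root_.inv_zero, zero_pow two_ne_zero, zero_mul]
    exact zero_le_one
  · calc (fn (c.fs1M a s x))⁻¹ ^ 2 * |(c.fs1M a s x * (c.fs1M a s x)ᵀ) i j|
        ≤ (fn (c.fs1M a s x))⁻¹ ^ 2 * fn (c.fs1M a s x) ^ 2 :=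
          mul_le_mul_of_nonneg_left h1 (sq_nonneg _)
      _ = 1 := by rw [← mul_pow, inv_mul_cancel₀ h0, one_pow]

theorem NN_trace (hE : Sys A X μ) (c : Coc A X ι μ) (h0 : ∀ᵐ x ∂μ, c.D 1 x ≠ 0) (a : A) (s : ℕ) :
    ∀ᵐ x ∂μ, trace (c.NN a s x) = 1 := by
  filter_upwards [hE.ae_smul ((a ^ s)⁻¹) (c.D_inv_mul hE (a ^ s)), hE.ae_smul ((a ^ s)⁻¹) h0]
    with x h1 h2
  have h3 : fn (c.fs1M a s x) ≠ 0 := by
    intro h
    apply h2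
    have h4 : c.D (a ^ s) ((a ^ s)⁻¹ • x) = 0 := fn_eq_zero.1 h
    rw [← h1, h4, Matrix.mul_zero]
  rw [fs1_NN, trace_smul, smul_eq_mul, ← fn_sq_trace, ← mul_pow, inv_mul_cancel₀ h3, one_pow]

theorem NN_one (hE : Sys A X μ) (c : Coc A X ι μ) (a : A) (s : ℕ) :
    ∀ᵐ x ∂μ, c.D 1 x * c.NN a s x = c.NN a s x := by
  filter_upwards [hE.ae_smul ((a ^ s)⁻¹) (c.D_one_mul hE (a ^ s))] with x h1
  rw [smul_inv_smul] at h1
  have h2 : c.D 1 x * c.fs1M a s x = c.fs1M a s x := h1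
  rw [fs1_NN, Matrix.mul_smul, ← Matrix.mul_assoc, h2]

theorem NN_equiv (hE : Sys A X μ) (c : Coc A X ι μ) (h0 : ∀ᵐ x ∂μ, c.D 1 x ≠ 0) (a b : A) :
    ∃ K : ℝ, 0 ≤ K ∧ ∀ s : ℕ, ∀ᵐ x ∂μ, ∀ v : ι → ℝ,
      qf (c.D b x * c.NN a s x * (c.D b x)ᵀ) v ≤ K * qf (c.NN a s (b • x)) v := by
  have _h0 := h0
  obtain ⟨C, hC1, hC2, hC3⟩ := c.exists_bd b
  refine ⟨C ^ 6, by positivity, fun s => ?_⟩
  have e1 := c.mul b (a ^ s)
  have e2 := c.mul (a ^ s) b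
  filter_upwards [hC2, hE.ae_smul ((a ^ s)⁻¹) hC2,
    hE.ae_smul ((a ^ s)⁻¹) (hE.ae_smul b hC3), hE.ae_smul ((a ^ s)⁻¹) e1,
    hE.ae_smul ((a ^ s)⁻¹) e2, hE.ae_smul ((a ^ s)⁻¹) (c.D_mul_inv hE b),
    hE.ae_smul ((a ^ s)⁻¹) (hE.ae_smul b (c.D_mul_one hE (a ^ s)))] with x g1 g2 g3 g4 g5 g6 g7 v
  have hy : (a ^ s)⁻¹ • b • x = b • (a ^ s)⁻¹ • x := by
    rw [smul_smul, smul_smul, mul_comm]
  rw [smul_inv_smul] at g4
  -- `D b x * M = M' * D b y`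
  have k1 : c.D b x * c.fs1M a s x = c.fs1M a s (b • x) * c.D b ((a ^ s)⁻¹ • x) := by
    unfold fs1M
    rw [hy, ← g5, mul_comm (a ^ s) b, g4]
  have k2 : c.fs1M a s (b • x) =
      c.D b x * c.fs1M a s x * c.D b⁻¹ (b • (a ^ s)⁻¹ • x) := by
    rw [k1, Matrix.mul_assoc, g6]
    unfold fs1M
    rw [hy, g7]
  have k3 : fn (c.fs1M a s (b • x)) ≤ C ^ 2 * fn (c.fs1M a s x) := by
    calc fn (c.fs1M a s (b • x)) ≤ fn (c.D b x * c.fs1M a s x) *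
        fn (c.D b⁻¹ (b • (a ^ s)⁻¹ • x)) := by
          conv_lhs => rw [k2]
          exact fn_mul_le _ _
      _ ≤ (C * fn (c.fs1M a s x)) * C :=
          mul_le_mul ((fn_mul_le _ _).trans (mul_le_mul_of_nonneg_right g1 (fn_nonneg _))) g3
            (fn_nonneg _) (mul_nonneg (by linarith) (fn_nonneg _))
      _ = C ^ 2 * fn (c.fs1M a s x) := by ring
  have k4 : c.D b x * c.NN a s x * (c.D b x)ᵀ = ((fn (c.fs1M a s x))⁻¹ ^ 2) •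
      ((c.fs1M a s (b • x) * c.D b ((a ^ s)⁻¹ • x)) *
        (c.fs1M a s (b • x) * c.D b ((a ^ s)⁻¹ • x))ᵀ) := by
    rw [fs1_NN, Matrix.mul_smul, Matrix.smul_mul, ← k1, transpose_mul]
    congr 1
    rw [Matrix.mul_assoc, Matrix.mul_assoc, Matrix.mul_assoc]
  rw [k4, fs1_NN, fs1_qf, fs1_qf, transpose_mul, ← mulVec_mulVec]
  have k5 : vn ((c.D b ((a ^ s)⁻¹ • x))ᵀ *ᵥ ((c.fs1M a s (b • x))ᵀ *ᵥ v)) ≤
      C * vn ((c.fs1M a s (b • x))ᵀ *ᵥ v) := by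
    refine (vn_mulVec_le _ _).trans ?_
    rw [fn_transpose]
    exact mul_le_mul_of_nonneg_right g2 (vn_nonneg _)
  have k6 := pow_le_pow_left₀ (vn_nonneg _) k5 2
  by_cases hz : fn (c.fs1M a s (b • x)) = 0
  · have hz' : c.fs1M a s (b • x) = 0 := fn_eq_zero.1 hz
    have hv : vn (0 : ι → ℝ) = 0 := vn_eq_zero.2 rfl
    rw [hz', transpose_zero, zero_mulVec, mulVec_zero, hv]
    simp
  · have hp : 0 < fn (c.fs1M a s (b • x)) := lt_of_le_of_ne (fn_nonneg _) (Ne.symm hz)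
    have hq : 0 < fn (c.fs1M a s x) := by
      rcases (fn_nonneg (c.fs1M a s x)).eq_or_lt with h | h
      · rw [← h, mul_zero] at k3
        linarith
      · exact h
    have k7 : (fn (c.fs1M a s x))⁻¹ ^ 2 ≤ C ^ 4 * (fn (c.fs1M a s (b • x)))⁻¹ ^ 2 := by
      rw [inv_pow, inv_pow, ← div_eq_mul_inv, ← one_div, div_le_div_iff₀ (by positivity)
        (by positivity), one_mul]
      calc fn (c.fs1M a s (b • x)) ^ 2 ≤ (C ^ 2 * fn (c.fs1M a s x)) ^ 2 :=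
            pow_le_pow_left₀ hp.le k3 2
        _ = C ^ 4 * fn (c.fs1M a s x) ^ 2 := by ring
    calc (fn (c.fs1M a s x))⁻¹ ^ 2 *
          vn ((c.D b ((a ^ s)⁻¹ • x))ᵀ *ᵥ ((c.fs1M a s (b • x))ᵀ *ᵥ v)) ^ 2
        ≤ (C ^ 4 * (fn (c.fs1M a s (b • x)))⁻¹ ^ 2) *
          (C * vn ((c.fs1M a s (b • x))ᵀ *ᵥ v)) ^ 2 :=
          mul_le_mul k7 k6 (sq_nonneg _) (by positivity)
      _ = C ^ 6 * ((fn (c.fs1M a s (b • x)))⁻¹ ^ 2 *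
          vn ((c.fs1M a s (b • x))ᵀ *ᵥ v) ^ 2) := by ring

theorem NN_back (hE : Sys A X μ) (c : Coc A X ι μ) (a : A) {t s : ℕ} (hts : t ≤ s) :
    ∀ᵐ x ∂μ, trace (c.D (a⁻¹ ^ t) x * c.NN a s x * (c.D (a⁻¹ ^ t) x)ᵀ) =
      (fn (c.D (a ^ (s - t)) ((a ^ s)⁻¹ • x)) / fn (c.D (a ^ s) ((a ^ s)⁻¹ • x))) ^ 2 := by
  filter_upwards [hE.ae_smul ((a ^ s)⁻¹) (c.mul (a⁻¹ ^ t) (a ^ s))] with x h1
  rw [smul_inv_smul] at h1
  have h2 : a⁻¹ ^ t * a ^ s = a ^ (s - t) := by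
    rw [inv_pow, ← pow_sub_mul_pow a hts, ← mul_comm (a ^ t), inv_mul_cancel_left]
  rw [h2] at h1
  have h3 : c.D (a⁻¹ ^ t) x * c.NN a s x * (c.D (a⁻¹ ^ t) x)ᵀ =
      ((fn (c.fs1M a s x))⁻¹ ^ 2) • (c.D (a ^ (s - t)) ((a ^ s)⁻¹ • x) *
        (c.D (a ^ (s - t)) ((a ^ s)⁻¹ • x))ᵀ) := by
    rw [fs1_NN, Matrix.mul_smul, Matrix.smul_mul, h1]
    congr 1
    unfold fs1M
    rw [transpose_mul, Matrix.mul_assoc, Matrix.mul_assoc, Matrix.mul_assoc]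
  rw [h3, trace_smul, smul_eq_mul, ← fn_sq_trace, div_pow, inv_pow]
  unfold fs1M
  rw [div_eq_mul_inv, mul_comm]

end Coc

end Pool.Agent.H23.DM
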