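import Mathlib
import Pool.Agent.H23.DM.Fs1

/-!
MODULE Fs2 (dimension theorem, Part 2.4).  Concentration.

`L s x = log (fn (D (a^s) x))`, `|L s| ≤ C (s+1)` (`log_bd`).  For `t ≤ s` the set `bad a κ δ t s` is
a.e. `{Δ_{s,t} < (κ-δ) t}`, `Δ_{s,t}(x) = L s y - L (s-t) y`, `y = (a^s)⁻¹ x` (`NN_back`).
* `∑_{t≤s<T} ∫ Δ_{s,t} = ∑_{T-t≤s<T} ∫ L s - ∑_{s<t} ∫ L s ≥ t κ (T-t) - C t (t+1)` (stationarity).
* `Δ_{s,t}(x) ≤ L t (a^(-t) x)` (submultiplicativity), which is `≤ (κ+ε) t` outside a set of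
  measure `η_t → 0` (`hLe`), and `≤ C (t+1)` always.
* So `∑_s ∫ ((κ+ε) t - Δ)⁺ ≤ ∑_s [∫ ((κ+ε) t - Δ) + C (t+1) η_t] ≤ T (ε t + C (t+1) η_t) + O_t(1)`
  and by Markov `∑_s μ{Δ < (κ-δ) t} ≤ T (ε t + C (t+1) η_t)/(δ t) + O_t(1)`.
Choose `ε = δ η / 8`, then `t₀` with `C (t+1) η_t ≤ δ η t / 8`, then `T` large.
-/

open MeasureTheory Filter Matrix
open scoped Topology

namespace Pool.Agent.H23.DM

namespace Coc

variable {A X ι : Type} [CommGroup A] [MulAction A X] [Fintype ι] [DecidableEq ι]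
  [MeasurableSpace X] {μ : Measure X}

private theorem fs2_pos (hE : Sys A X μ) (c : Coc A X ι μ) (h0 : ∀ᵐ x ∂μ, c.D 1 x ≠ 0) (g : A) :
    ∀ᵐ x ∂μ, 0 < fn (c.D g x) := by
  filter_upwards [h0, c.D_inv_mul hE g] with x h1 h2
  rcases (fn_nonneg (c.D g x)).eq_or_lt with h3 | h3
  · exfalso
    apply h1
    have h4 := fn_eq_zero.1 h3.symm
    rw [← h2, h4, Matrix.mul_zero]
  · exact h3

private theorem fs2_int (hE : Sys A X μ) (g : A) {f : X → ℝ} (hf : Measurable f) :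
    ∫ x, f (g • x) ∂μ = ∫ x, f x ∂μ := by
  have h := integral_map (μ := μ) (φ := fun x : X => g • x) (hE.mp g).measurable.aemeasurable
    (f := f) hf.aestronglyMeasurable
  rw [(hE.mp g).map_eq] at h
  exact h.symm

private theorem fs2_grp (a : A) {t s : ℕ} (hts : t ≤ s) (x : X) :
    a ^ (s - t) • ((a ^ s)⁻¹ • x) = (a ^ t)⁻¹ • x := by
  have h1 : a ^ s = a ^ t * a ^ (s - t) := by rw [← pow_add, Nat.add_sub_cancel' hts]
  rw [← mul_smul]
  congr 1
  rw [h1, _root_.mul_inv_rev, ← mul_assoc, mul_inv_cancel, one_mul]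

private theorem fs2_sub (hE : Sys A X μ) (c : Coc A X ι μ) (h0 : ∀ᵐ x ∂μ, c.D 1 x ≠ 0) (a : A)
    {t s : ℕ} (hts : t ≤ s) : ∀ᵐ x ∂μ,
    Real.log (fn (c.D (a ^ s) ((a ^ s)⁻¹ • x))) ≤ Real.log (fn (c.D (a ^ t) ((a ^ t)⁻¹ • x))) +
      Real.log (fn (c.D (a ^ (s - t)) ((a ^ s)⁻¹ • x))) := by
  filter_upwards [hE.ae_smul (a ^ s)⁻¹ (c.mul (a ^ t) (a ^ (s - t))),
    hE.ae_smul (a ^ s)⁻¹ (fs2_pos hE c h0 (a ^ s)), hE.ae_smul (a ^ t)⁻¹ (fs2_pos hE c h0 (a ^ t)),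
    hE.ae_smul (a ^ s)⁻¹ (fs2_pos hE c h0 (a ^ (s - t)))] with x h1 h2 h3 h4
  rw [← pow_add, Nat.add_sub_cancel' hts, fs2_grp a hts] at h1
  rw [← Real.log_mul h3.ne' h4.ne']
  refine Real.log_le_log h2 ?_
  rw [h1]
  exact fn_mul_le _ _

private theorem fs2_bad (hE : Sys A X μ) (c : Coc A X ι μ) (h0 : ∀ᵐ x ∂μ, c.D 1 x ≠ 0) (a : A)
    (κ δ : ℝ) {t s : ℕ} (hts : t ≤ s) : ∀ᵐ x ∂μ, x ∈ c.bad a κ δ t s →
    Real.log (fn (c.D (a ^ s) ((a ^ s)⁻¹ • x))) -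
      Real.log (fn (c.D (a ^ (s - t)) ((a ^ s)⁻¹ • x))) < (κ - δ) * t := by
  filter_upwards [NN_back hE c a hts, hE.ae_smul (a ^ s)⁻¹ (fs2_pos hE c h0 (a ^ s)),
    hE.ae_smul (a ^ s)⁻¹ (fs2_pos hE c h0 (a ^ (s - t)))] with x h1 h2 h3
  intro hx
  change Real.exp (-(2 * (κ - δ) * t)) <
    trace (c.D (a⁻¹ ^ t) x * c.NN a s x * (c.D (a⁻¹ ^ t) x)ᵀ) at hx
  rw [h1] at hx
  have h4 := Real.log_lt_log (Real.exp_pos _) hx
  rw [Real.log_exp, Real.log_pow, Real.log_div h3.ne' h2.ne'] at h4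
  push_cast at h4
  linarith

private theorem fs2_markov (hE : Sys A X μ) (c : Coc A X ι μ) (h0 : ∀ᵐ x ∂μ, c.D 1 x ≠ 0) (a : A)
    (hint : ∀ s : ℕ, Integrable (fun x => Real.log (fn (c.D (a ^ s) x))) μ) {κ ε δ : ℝ}
    (hε : 0 ≤ ε) (hδ : 0 ≤ δ) {t s : ℕ} (hts : t ≤ s) :
    δ * t * μ.real (c.bad a κ δ t s) ≤ (κ + ε) * t -
      ∫ x, Real.log (fn (c.D (a ^ s) x)) ∂μ + ∫ x, Real.log (fn (c.D (a ^ (s - t)) x)) ∂μ +
      ∫ x, max 0 (Real.log (fn (c.D (a ^ t) x)) - (κ + ε) * t) ∂μ := by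
  have := hE.prob
  have hLm : ∀ k : ℕ, Measurable fun x => Real.log (fn (c.D (a ^ k) x)) := fun k =>
    Real.measurable_log.comp (c.meas _).fn
  have hGm : Measurable fun x => max 0 (Real.log (fn (c.D (a ^ t) x)) - (κ + ε) * t) :=
    measurable_const.max ((hLm t).sub measurable_const)
  have hGi : Integrable (fun x => max 0 (Real.log (fn (c.D (a ^ t) x)) - (κ + ε) * t)) μ := by
    have h1 : Integrable (fun x => Real.log (fn (c.D (a ^ t) x)) - (κ + ε) * t) μ :=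
      (hint t).sub (integrable_const _)
    refine h1.norm.mono' hGm.aestronglyMeasurable (Eventually.of_forall fun x => ?_)
    rw [Real.norm_of_nonneg (le_max_left _ _), Real.norm_eq_abs]
    exact max_le (abs_nonneg _) (le_abs_self _)
  have i1 : Integrable (fun x => Real.log (fn (c.D (a ^ s) ((a ^ s)⁻¹ • x)))) μ :=
    (hE.mp (a ^ s)⁻¹).integrable_comp_of_integrable (hint s)
  have i2 : Integrable (fun x => Real.log (fn (c.D (a ^ (s - t)) ((a ^ s)⁻¹ • x)))) μ :=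
    (hE.mp (a ^ s)⁻¹).integrable_comp_of_integrable (hint (s - t))
  have i3 : Integrable (fun x => max 0
      (Real.log (fn (c.D (a ^ t) ((a ^ t)⁻¹ • x))) - (κ + ε) * t)) μ :=
    (hE.mp (a ^ t)⁻¹).integrable_comp_of_integrable hGi
  have i0 : Integrable (fun _ : X => (κ + ε) * (t : ℝ)) μ := integrable_const _
  have hI := ((i0.sub i1).add i2).add i3
  have hnn : 0 ≤ᵐ[μ] fun x => (κ + ε) * t - Real.log (fn (c.D (a ^ s) ((a ^ s)⁻¹ • x))) +
      Real.log (fn (c.D (a ^ (s - t)) ((a ^ s)⁻¹ • x))) + max 0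
      (Real.log (fn (c.D (a ^ t) ((a ^ t)⁻¹ • x))) - (κ + ε) * t) := by
    filter_upwards [fs2_sub hE c h0 a hts] with x h1
    have h2 := le_max_right (0 : ℝ) (Real.log (fn (c.D (a ^ t) ((a ^ t)⁻¹ • x))) - (κ + ε) * t)
    change (0 : ℝ) ≤ (κ + ε) * t - Real.log (fn (c.D (a ^ s) ((a ^ s)⁻¹ • x))) +
      Real.log (fn (c.D (a ^ (s - t)) ((a ^ s)⁻¹ • x))) + max 0
      (Real.log (fn (c.D (a ^ t) ((a ^ t)⁻¹ • x))) - (κ + ε) * t)
    linarith
  have hM := mul_meas_ge_le_integral_of_nonneg hnn hI (δ * t)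
  have hval : ∫ x, ((κ + ε) * t - Real.log (fn (c.D (a ^ s) ((a ^ s)⁻¹ • x))) +
      Real.log (fn (c.D (a ^ (s - t)) ((a ^ s)⁻¹ • x))) + max 0
      (Real.log (fn (c.D (a ^ t) ((a ^ t)⁻¹ • x))) - (κ + ε) * t)) ∂μ = (κ + ε) * t -
      ∫ x, Real.log (fn (c.D (a ^ s) x)) ∂μ + ∫ x, Real.log (fn (c.D (a ^ (s - t)) x)) ∂μ +
      ∫ x, max 0 (Real.log (fn (c.D (a ^ t) x)) - (κ + ε) * t) ∂μ := by
    have e1 := integral_add ((i0.sub i1).add i2) i3
    have e2 := integral_add (i0.sub i1) i2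
    have e3 := integral_sub i0 i1
    have e4 := fs2_int hE (a ^ s)⁻¹ (hLm s)
    have e5 := fs2_int hE (a ^ s)⁻¹ (hLm (s - t))
    have e6 := fs2_int hE (a ^ t)⁻¹ hGm
    simp only [Pi.add_apply, Pi.sub_apply] at e1 e2 e3
    rw [e1, e2, e3, e4, e5, e6, integral_const, probReal_univ, one_smul]
  rw [← hval]
  refine le_trans ?_ hM
  refine mul_le_mul_of_nonneg_left ?_ (mul_nonneg hδ (Nat.cast_nonneg _))
  refine ENNReal.toReal_mono (measure_ne_top _ _) (measure_mono_ae ?_)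
  filter_upwards [fs2_bad hE c h0 a κ δ hts] with x h1
  intro hx
  have h2 := h1 hx
  have h3 := le_max_left (0 : ℝ) (Real.log (fn (c.D (a ^ t) ((a ^ t)⁻¹ • x))) - (κ + ε) * t)
  change δ * t ≤ (κ + ε) * t - Real.log (fn (c.D (a ^ s) ((a ^ s)⁻¹ • x))) +
      Real.log (fn (c.D (a ^ (s - t)) ((a ^ s)⁻¹ • x))) + max 0
      (Real.log (fn (c.D (a ^ t) ((a ^ t)⁻¹ • x))) - (κ + ε) * t)
  have h4 : 0 ≤ ε * (t : ℝ) := mul_nonneg hε (Nat.cast_nonneg _)
  linarith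

private theorem fs2_G (hE : Sys A X μ) (c : Coc A X ι μ) (a : A) {C κ' : ℝ}
    (hC : 0 ≤ C) (hκ' : 0 ≤ κ') (t : ℕ)
    (hb : ∀ᵐ x ∂μ, |Real.log (fn (c.D (a ^ t) x))| ≤ C * (t + 1)) :
    ∫ x, max 0 (Real.log (fn (c.D (a ^ t) x)) - κ' * t) ∂μ ≤
      C * (t + 1) * μ.real {x | Real.exp (κ' * t) < fn (c.D (a ^ t) x)} := by
  have := hE.prob
  have hLm : Measurable fun x => Real.log (fn (c.D (a ^ t) x)) :=
    Real.measurable_log.comp (c.meas _).fn
  have hms : MeasurableSet {x | Real.exp (κ' * t) < fn (c.D (a ^ t) x)} :=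
    measurableSet_lt measurable_const (c.meas _).fn
  have h1 := integral_indicator_const (μ := μ) (C * ((t : ℝ) + 1)) hms
  rw [smul_eq_mul] at h1
  rw [mul_comm (C * ((t : ℝ) + 1)), ← h1]
  have hct : 0 ≤ C * ((t : ℝ) + 1) := mul_nonneg hC (by positivity)
  refine integral_mono_ae ?_ ((integrable_const _).indicator hms) ?_
  · refine Integrable.of_bound
      (measurable_const.max (hLm.sub measurable_const)).aestronglyMeasurable
      (C * (t + 1) + κ' * t) ?_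
    filter_upwards [hb] with x hx
    rw [Real.norm_of_nonneg (le_max_left _ _)]
    have h2 := le_abs_self (Real.log (fn (c.D (a ^ t) x)))
    have h3 : 0 ≤ κ' * (t : ℝ) := mul_nonneg hκ' (Nat.cast_nonneg _)
    exact max_le (by linarith) (by linarith)
  · filter_upwards [hb] with x hx
    have h3 : 0 ≤ κ' * (t : ℝ) := mul_nonneg hκ' (Nat.cast_nonneg _)
    by_cases hxs : x ∈ {x | Real.exp (κ' * t) < fn (c.D (a ^ t) x)}
    · change max 0 (Real.log (fn (c.D (a ^ t) x)) - κ' * t) ≤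
        Set.indicator {x | Real.exp (κ' * t) < fn (c.D (a ^ t) x)} (fun _ => C * ((t : ℝ) + 1)) x
      rw [Set.indicator_of_mem hxs]
      have h2 := le_abs_self (Real.log (fn (c.D (a ^ t) x)))
      exact max_le hct (by linarith)
    · change max 0 (Real.log (fn (c.D (a ^ t) x)) - κ' * t) ≤
        Set.indicator {x | Real.exp (κ' * t) < fn (c.D (a ^ t) x)} (fun _ => C * ((t : ℝ) + 1)) x
      rw [Set.indicator_of_notMem hxs]
      have h4 : fn (c.D (a ^ t) x) ≤ Real.exp (κ' * t) := not_lt.1 hxs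
      refine max_le le_rfl ?_
      rcases (fn_nonneg (c.D (a ^ t) x)).eq_or_lt with h5 | h5
      · rw [← h5, Real.log_zero]
        linarith
      · have h6 := Real.log_le_log h5 h4
        rw [Real.log_exp] at h6
        linarith

private theorem fs2_tele (l : ℕ → ℝ) (t n : ℕ) :
    ∑ i ∈ Finset.range n, (l (t + i) - l i) = ∑ j ∈ Finset.range t, (l (n + j) - l j) := by
  have h1 := Finset.sum_range_add l t n
  have h2 := Finset.sum_range_add l n t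
  rw [add_comm n t] at h2
  rw [Finset.sum_sub_distrib, Finset.sum_sub_distrib]
  linarith

private theorem fs2_sum {l : ℕ → ℝ} {C κ : ℝ} (hC : 0 ≤ C) (hκ : 0 ≤ κ)
    (hlow : ∀ t : ℕ, κ * t ≤ l t) (hup : ∀ t : ℕ, l t ≤ C * (t + 1)) (t n : ℕ) :
    κ * t * n - C * (t * (t + 1)) ≤ ∑ i ∈ Finset.range n, (l (t + i) - l i) := by
  rw [fs2_tele]
  have h1 : ∀ j ∈ Finset.range t, κ * n - C * (t + 1) ≤ l (n + j) - l j := by
    intro j hj
    have h2 := hlow (n + j)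
    have h3 := hup j
    have h4 : (j : ℝ) ≤ t := by exact_mod_cast (Finset.mem_range.1 hj).le
    have h5 : 0 ≤ κ * (j : ℝ) := mul_nonneg hκ (Nat.cast_nonneg _)
    have h6 : C * ((j : ℝ) + 1) ≤ C * (t + 1) := mul_le_mul_of_nonneg_left (by linarith) hC
    push_cast at h2
    linarith
  have h2 := Finset.sum_le_sum h1
  rw [Finset.sum_const, Finset.card_range, nsmul_eq_mul] at h2
  refine le_trans (le_of_eq ?_) h2
  ring

theorem bad_small (hE : Sys A X μ) (c : Coc A X ι μ) (h0 : ¬ ∀ᵐ x ∂μ, c.D 1 x = 0) (a : A)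
    {κ : ℝ} (hκ : 0 < κ) (hlow : ∀ t : ℕ, κ * t ≤ ∫ x, Real.log (fn (c.D (a ^ t) x)) ∂μ)
    (hLe : ∀ ε : ℝ, 0 < ε → c.Le a (κ + ε)) {δ η : ℝ} (hδ : 0 < δ) (hη : 0 < η) :
    ∃ t₀ : ℕ, ∀ t : ℕ, t₀ ≤ t → ∀ᶠ T : ℕ in atTop,
      ∑ s ∈ Finset.range T, μ.real (c.bad a κ δ t s) ≤ η * T := by
  have := hE.prob
  obtain ⟨C, hC0, hC⟩ := c.log_bd hE h0 a
  have h0' : ∀ᵐ x ∂μ, c.D 1 x ≠ 0 := (zero_or_ne_zero hE c).resolve_left h0
  have hLm : ∀ k : ℕ, Measurable fun x => Real.log (fn (c.D (a ^ k) x)) := fun k =>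
    Real.measurable_log.comp (c.meas _).fn
  have hint : ∀ k : ℕ, Integrable (fun x => Real.log (fn (c.D (a ^ k) x))) μ := by
    intro k
    refine Integrable.of_bound (hLm k).aestronglyMeasurable (C * (k + 1)) ?_
    filter_upwards [hC k] with x hx
    rw [Real.norm_eq_abs]
    exact hx
  set l : ℕ → ℝ := fun k => ∫ x, Real.log (fn (c.D (a ^ k) x)) ∂μ with hl
  have hup : ∀ k : ℕ, l k ≤ C * (k + 1) := by
    intro k
    have h1 : ∫ x, Real.log (fn (c.D (a ^ k) x)) ∂μ ≤ ∫ _ : X, C * ((k : ℝ) + 1) ∂μ := by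
      refine integral_mono_ae (hint k) (integrable_const _) ?_
      filter_upwards [hC k] with x hx
      exact (le_abs_self _).trans hx
    rw [integral_const, probReal_univ, one_smul] at h1
    exact h1
  set ε : ℝ := δ * η / 4 with hε
  have hε0 : 0 < ε := by positivity
  have hη0 : 0 < δ * η / (8 * C) := by positivity
  have hev : ∀ᶠ t : ℕ in atTop, μ.real {x | Real.exp ((κ + ε) * t) < fn (c.D (a ^ t) x)} ≤
      δ * η / (8 * C) := by
    have h1 : Tendsto (fun t : ℕ => μ.real {x | Real.exp ((κ + ε) * t) < fn (c.D (a ^ t) x)})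
        atTop (𝓝 0) := by
      have h2 := (ENNReal.tendsto_toReal ENNReal.zero_ne_top).comp (hLe ε hε0)
      exact h2
    exact (h1.eventually_lt_const hη0).mono fun t ht => ht.le
  obtain ⟨t₁, ht₁⟩ := eventually_atTop.1 hev
  refine ⟨max t₁ 1, fun t ht => ?_⟩
  have ht1 : t₁ ≤ t := (le_max_left _ _).trans ht
  have ht2 : 1 ≤ t := (le_max_right _ _).trans ht
  have htR : (1 : ℝ) ≤ t := by exact_mod_cast ht2
  have hG := fs2_G hE c a hC0.le (add_pos hκ hε0).le t (hC t)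
  have hG2 : ∫ x, max 0 (Real.log (fn (c.D (a ^ t) x)) - (κ + ε) * t) ∂μ ≤ δ * η / 4 * t := by
    refine hG.trans ?_
    have h1 := ht₁ t ht1
    have h2 : C * ((t : ℝ) + 1) ≤ C * (2 * t) := mul_le_mul_of_nonneg_left (by linarith) hC0.le
    have h3 : C * (2 * (t : ℝ)) * (δ * η / (8 * C)) = δ * η / 4 * t := by
      field_simp
      ring
    rw [← h3]
    exact mul_le_mul h2 h1 measureReal_nonneg (by positivity)
  have hmain : ∀ n : ℕ, δ * t * ∑ i ∈ Finset.range n, μ.real (c.bad a κ δ t (t + i)) ≤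
      n * (δ * η / 2 * t) + C * (t * (t + 1)) := by
    intro n
    have h1 : ∀ i ∈ Finset.range n, δ * t * μ.real (c.bad a κ δ t (t + i)) ≤
        ((κ + ε) * t + δ * η / 4 * t) - (l (t + i) - l i) := by
      intro i _
      have h2 := fs2_markov hE c h0' a hint hε0.le hδ.le (κ := κ) (t := t) (s := t + i)
        (Nat.le_add_right t i)
      rw [Nat.add_sub_cancel_left] at h2
      have h3 : l (t + i) = ∫ x, Real.log (fn (c.D (a ^ (t + i)) x)) ∂μ := rfl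
      have h4 : l i = ∫ x, Real.log (fn (c.D (a ^ i) x)) ∂μ := rfl
      rw [h3, h4]
      linarith
    have h2 := Finset.sum_le_sum h1
    rw [← Finset.mul_sum, Finset.sum_sub_distrib, Finset.sum_const, Finset.card_range,
      nsmul_eq_mul] at h2
    have h3 := fs2_sum hC0.le hκ.le hlow hup t n
    refine h2.trans ?_
    have h4 : (n : ℝ) * ((κ + ε) * t + δ * η / 4 * t) = κ * t * n + n * (δ * η / 2 * t) := by
      rw [hε]; ring
    rw [h4]
    linarith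
  have hbig : ∀ᶠ T : ℕ in atTop, (t : ℝ) + C * (t + 1) / δ ≤ η / 2 * (T : ℝ) := by
    have := (tendsto_natCast_atTop_atTop (R := ℝ)).const_mul_atTop (half_pos hη)
    exact this.eventually_ge_atTop _
  filter_upwards [hbig, eventually_ge_atTop t] with T hT1 hT2
  obtain ⟨n, rfl⟩ := Nat.exists_eq_add_of_le hT2
  rw [Finset.sum_range_add]
  have h5 : ∑ s ∈ Finset.range t, μ.real (c.bad a κ δ t s) ≤ t := by
    have h6 : ∀ s ∈ Finset.range t, μ.real (c.bad a κ δ t s) ≤ 1 := fun s _ => measureReal_le_one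
    have h7 := Finset.sum_le_sum h6
    rw [Finset.sum_const, Finset.card_range, nsmul_eq_mul, mul_one] at h7
    exact h7
  have h8 : ∑ i ∈ Finset.range n, μ.real (c.bad a κ δ t (t + i)) ≤
      n * (η / 2) + C * (t + 1) / δ := by
    have h9 := hmain n
    have hdt : 0 < δ * (t : ℝ) := mul_pos hδ (by linarith)
    refine le_of_mul_le_mul_left (h9.trans (le_of_eq ?_)) hdt
    field_simp
  push_cast at hT1 ⊢
  have h10 : (n : ℝ) * (η / 2) + η / 2 * (t + n) ≤ η * (t + n) := by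
    nlinarith [mul_nonneg hη.le (Nat.cast_nonneg (α := ℝ) t)]
  linarith

end Coc

end Pool.Agent.H23.DM
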