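import Mathlib
import Pool.Agent.H23.DM.Fs1

/-!
MODULE Fs3 (dimension theorem, Part 2.4).  The weak limit `C` of the averages of `NN a s`.

Fix the ultrafilter `U = hyperfilter ℕ` (`≤ atTop`).  Entries of `(1/T) ∑_{s<T} NN a s` are bounded
by `1` (`NN_entry`): `exists_wlim` gives `C i j`; the same for
`(1/T) ∑_{s<T} NN a s * indicator (bad a κ δ t s)ᶜ` gives `C' = C'_t`, for every `t`.
* Linear relations and inequalities pass to the limit: test with `g ≥ 0` bounded (indicators of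
  measurable sets) times fixed vectors; a statement for all `v` follows from rational vectors by continuity.
* Symmetric: replace `C` by `(C + Cᵀ)/2` to have it everywhere.
* Equivariance: `∫ g(x) NN a s (b x) = ∫ g(b⁻¹ x) NN a s x`, entries of `D b` are bounded measurable.
* `trace (D (a⁻¹^t) C' (D (a⁻¹^t))ᵀ) ≤ exp (-(2 (κ-δ) t))` because the integrands satisfy it on
  `(bad)ᶜ`; `∫ trace (C - C') = lim (1/T) ∑ ∫_{bad} trace (NN a s) ≤ η` since `trace (NN a s) = 1`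
  a.e.
-/

open MeasureTheory Filter Matrix
open scoped Topology

namespace Pool.Agent.H23.DM

namespace Coc

variable {A X ι : Type} [CommGroup A] [MulAction A X] [Fintype ι] [DecidableEq ι]
  [MeasurableSpace X] {μ : Measure X}

/-- The sequence `f` of functions, bounded and measurable, converges weakly along `U` to `F`. -/
private def fs3W (μ : Measure X) (U : Ultrafilter ℕ) (f : ℕ → X → ℝ) (F : X → ℝ) : Prop :=
  (∀ n, Measurable (f n)) ∧ (∀ n, ∃ K : ℝ, ∀ᵐ x ∂μ, |f n x| ≤ K) ∧ Measurable F ∧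
    (∃ K : ℝ, ∀ᵐ x ∂μ, |F x| ≤ K) ∧ ∀ g : X → ℝ, Integrable g μ →
      Tendsto (fun n => ∫ x, f n x * g x ∂μ) U (𝓝 (∫ x, F x * g x ∂μ))

private theorem fs3_int {f g : X → ℝ} (hf : Measurable f) (hK : ∃ K : ℝ, ∀ᵐ x ∂μ, |f x| ≤ K)
    (hg : Integrable g μ) : Integrable (fun x => f x * g x) μ := by
  obtain ⟨K, hK⟩ := hK
  exact hg.bdd_mul (c := K) hf.aestronglyMeasurable hK

private theorem fs3_bd_add {f g : X → ℝ} (hf : ∃ K : ℝ, ∀ᵐ x ∂μ, |f x| ≤ K)
    (hg : ∃ K : ℝ, ∀ᵐ x ∂μ, |g x| ≤ K) : ∃ K : ℝ, ∀ᵐ x ∂μ, |f x + g x| ≤ K := by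
  obtain ⟨K, hK⟩ := hf
  obtain ⟨L, hL⟩ := hg
  refine ⟨K + L, ?_⟩
  filter_upwards [hK, hL] with x h1 h2
  exact (abs_add_le _ _).trans (add_le_add h1 h2)

private theorem fs3_bd_mul {f g : X → ℝ} (hf : ∃ K : ℝ, ∀ᵐ x ∂μ, |f x| ≤ K)
    (hg : ∃ K : ℝ, ∀ᵐ x ∂μ, |g x| ≤ K) : ∃ K : ℝ, ∀ᵐ x ∂μ, |f x * g x| ≤ K := by
  obtain ⟨K, hK⟩ := hf
  obtain ⟨L, hL⟩ := hg
  refine ⟨K * L, ?_⟩
  filter_upwards [hK, hL] with x h1 h2
  rw [abs_mul]
  exact mul_le_mul h1 h2 (abs_nonneg _) ((abs_nonneg _).trans h1)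

private theorem fs3W_add {U : Ultrafilter ℕ} {f g : ℕ → X → ℝ} {F G : X → ℝ}
    (hf : fs3W μ U f F) (hg : fs3W μ U g G) :
    fs3W μ U (fun n x => f n x + g n x) (fun x => F x + G x) := by
  obtain ⟨f1, f2, f3, f4, f5⟩ := hf
  obtain ⟨g1, g2, g3, g4, g5⟩ := hg
  refine ⟨fun n => (f1 n).add (g1 n), fun n => fs3_bd_add (f2 n) (g2 n), f3.add g3,
    fs3_bd_add f4 g4, fun k hk => ?_⟩
  have h1 := (f5 k hk).add (g5 k hk)
  have e : ∀ n, ∫ x, (f n x + g n x) * k x ∂μ = ∫ x, f n x * k x ∂μ + ∫ x, g n x * k x ∂μ := by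
    intro n
    rw [← integral_add (fs3_int (f1 n) (f2 n) hk) (fs3_int (g1 n) (g2 n) hk)]
    exact integral_congr_ae (ae_of_all _ fun x => add_mul _ _ _)
  have e' : ∫ x, (F x + G x) * k x ∂μ = ∫ x, F x * k x ∂μ + ∫ x, G x * k x ∂μ := by
    rw [← integral_add (fs3_int f3 f4 hk) (fs3_int g3 g4 hk)]
    exact integral_congr_ae (ae_of_all _ fun x => add_mul _ _ _)
  simp only [e, e']
  exact h1

private theorem fs3W_zero {U : Ultrafilter ℕ} : fs3W μ U (fun _ _ => 0) (fun _ => 0) := by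
  refine ⟨fun n => measurable_const, fun n => ⟨0, ae_of_all _ fun x => by simp⟩, measurable_const,
    ⟨0, ae_of_all _ fun x => by simp⟩, fun k hk => ?_⟩
  exact tendsto_const_nhds

private theorem fs3W_sum {U : Ultrafilter ℕ} {κ : Type} (s : Finset κ) {f : κ → ℕ → X → ℝ}
    {F : κ → X → ℝ} (h : ∀ i, fs3W μ U (f i) (F i)) :
    fs3W μ U (fun n x => ∑ i ∈ s, f i n x) (fun x => ∑ i ∈ s, F i x) := by
  classical
  induction s using Finset.induction_on with
  | empty => simpa using (fs3W_zero (μ := μ) (U := U))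
  | insert i s hi ih =>
    have := fs3W_add (h i) ih
    simpa only [Finset.sum_insert hi] using this

private theorem fs3W_mul {U : Ultrafilter ℕ} {f : ℕ → X → ℝ} {F b : X → ℝ}
    (hf : fs3W μ U f F) (hb : Measurable b) (hK : ∃ K : ℝ, ∀ᵐ x ∂μ, |b x| ≤ K) :
    fs3W μ U (fun n x => b x * f n x) (fun x => b x * F x) := by
  obtain ⟨f1, f2, f3, f4, f5⟩ := hf
  refine ⟨fun n => hb.mul (f1 n), fun n => fs3_bd_mul hK (f2 n), hb.mul f3,
    fs3_bd_mul hK f4, fun k hk => ?_⟩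
  have h1 := f5 (fun x => b x * k x) (fs3_int hb hK hk)
  have e : ∀ n, ∫ x, (b x * f n x) * k x ∂μ = ∫ x, f n x * (b x * k x) ∂μ := fun n =>
    integral_congr_ae (ae_of_all _ fun x => by ring)
  have e' : ∫ x, (b x * F x) * k x ∂μ = ∫ x, F x * (b x * k x) ∂μ :=
    integral_congr_ae (ae_of_all _ fun x => by ring)
  simp only [e, e']
  exact h1

private theorem fs3W_const {U : Ultrafilter ℕ} {f : ℕ → X → ℝ} {F : X → ℝ}
    (hf : fs3W μ U f F) (r : ℝ) : fs3W μ U (fun n x => r * f n x) (fun x => r * F x) :=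
  fs3W_mul hf measurable_const ⟨|r|, ae_of_all _ fun _ => le_rfl⟩

private theorem fs3W_one [IsProbabilityMeasure μ] {U : Ultrafilter ℕ} (r : ℝ) :
    fs3W μ U (fun _ _ => r) (fun _ => r) :=
  ⟨fun n => measurable_const, fun n => ⟨|r|, ae_of_all _ fun x => le_rfl⟩, measurable_const,
    ⟨|r|, ae_of_all _ fun x => le_rfl⟩, fun k hk => tendsto_const_nhds⟩

private theorem fs3W_comp (hE : Sys A X μ) {U : Ultrafilter ℕ} {f : ℕ → X → ℝ} {F : X → ℝ}
    (hf : fs3W μ U f F) (b : A) :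
    fs3W μ U (fun n x => f n (b • x)) (fun x => F (b • x)) := by
  obtain ⟨f1, f2, f3, f4, f5⟩ := hf
  have hb : Measurable fun x : X => b • x := (hE.mp b).measurable
  have hbi : Measurable fun x : X => b⁻¹ • x := (hE.mp b⁻¹).measurable
  refine ⟨fun n => (f1 n).comp hb, fun n => ?_, f3.comp hb, ?_, fun k hk => ?_⟩
  · obtain ⟨K, hK⟩ := f2 n
    exact ⟨K, hE.ae_smul b hK⟩
  · obtain ⟨K, hK⟩ := f4
    exact ⟨K, hE.ae_smul b hK⟩
  · have hk' : Integrable (fun x => k (b⁻¹ • x)) μ := (hE.mp b⁻¹).integrable_comp_of_integrable hk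
    have h1 := f5 _ hk'
    have e : ∀ h : X → ℝ, Measurable h → ∫ x, h (b • x) * k x ∂μ =
        ∫ x, h x * k (b⁻¹ • x) ∂μ := by
      intro h hh
      have hm : AEStronglyMeasurable (fun x => h x * k (b⁻¹ • x)) μ :=
        hh.aestronglyMeasurable.mul hk'.aestronglyMeasurable
      have h2 : ∫ x, h x * k (b⁻¹ • x) ∂(Measure.map (fun x : X => b • x) μ) =
          ∫ x, h (b • x) * k (b⁻¹ • b • x) ∂μ := by
        refine integral_map hb.aemeasurable ?_
        rw [(hE.mp b).map_eq]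
        exact hm
      rw [(hE.mp b).map_eq] at h2
      rw [h2]
      refine integral_congr_ae (ae_of_all _ fun x => ?_)
      simp only [inv_smul_smul]
    simp only [e _ (f1 _), e _ f3]
    exact h1

private theorem fs3W_le [IsProbabilityMeasure μ] {U : Ultrafilter ℕ} {f g : ℕ → X → ℝ}
    {F G : X → ℝ} (hf : fs3W μ U f F) (hg : fs3W μ U g G)
    (h : ∀ᶠ n in (U : Filter ℕ), ∀ᵐ x ∂μ, f n x ≤ g n x) : ∀ᵐ x ∂μ, F x ≤ G x := by
  obtain ⟨f1, f2, f3, f4, f5⟩ := hf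
  obtain ⟨g1, g2, g3, g4, g5⟩ := hg
  have hi : ∀ {k : X → ℝ}, Measurable k → (∃ K : ℝ, ∀ᵐ x ∂μ, |k x| ≤ K) → Integrable k μ := by
    intro k hk hK
    have := fs3_int hk hK (integrable_const (1 : ℝ))
    simpa using this
  refine ae_le_of_forall_setIntegral_le (hi f3 f4) (hi g3 g4) fun s hs _ => ?_
  have hk : Integrable (s.indicator fun _ => (1 : ℝ)) μ := (integrable_const 1).indicator hs
  have e : ∀ k : X → ℝ, ∫ x, k x * s.indicator (fun _ => (1 : ℝ)) x ∂μ = ∫ x in s, k x ∂μ := by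
    intro k
    rw [← integral_indicator hs]
    refine integral_congr_ae (ae_of_all _ fun x => ?_)
    by_cases hx : x ∈ s <;> simp [hx]
  rw [← e F, ← e G]
  refine le_of_tendsto_of_tendsto (f5 _ hk) (g5 _ hk) ?_
  filter_upwards [h] with n hn
  refine integral_mono_ae (fs3_int (f1 n) (f2 n) hk) (fs3_int (g1 n) (g2 n) hk) ?_
  filter_upwards [hn] with x hx
  exact mul_le_mul_of_nonneg_right hx (Set.indicator_nonneg (fun _ _ => zero_le_one) _)

/-- Weak convergence of matrix valued functions. -/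
private def fs3WM (μ : Measure X) (U : Ultrafilter ℕ) (M : ℕ → X → Matrix ι ι ℝ)
    (L : X → Matrix ι ι ℝ) : Prop :=
  ∀ i j, fs3W μ U (fun n x => M n x i j) (fun x => L x i j)

omit [DecidableEq ι] in
private theorem fs3_qf (M : Matrix ι ι ℝ) (v : ι → ℝ) :
    qf M v = ∑ i, ∑ j, v i * v j * M i j := by
  unfold qf mulVec dotProduct
  refine Finset.sum_congr rfl fun i _ => ?_
  rw [Finset.mul_sum]
  exact Finset.sum_congr rfl fun j _ => by ring

omit [DecidableEq ι] in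
private theorem fs3WM_qf {U : Ultrafilter ℕ} {M : ℕ → X → Matrix ι ι ℝ} {L : X → Matrix ι ι ℝ}
    (h : fs3WM μ U M L) (v : ι → ℝ) :
    fs3W μ U (fun n x => qf (M n x) v) (fun x => qf (L x) v) := by
  have := fs3W_sum Finset.univ fun i => fs3W_sum Finset.univ fun j =>
    fs3W_const (h i j) (v i * v j)
  simpa only [fs3_qf] using this

omit [DecidableEq ι] in
private theorem fs3WM_trace {U : Ultrafilter ℕ} {M : ℕ → X → Matrix ι ι ℝ}
    {L : X → Matrix ι ι ℝ} (h : fs3WM μ U M L) :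
    fs3W μ U (fun n x => trace (M n x)) (fun x => trace (L x)) := by
  have := fs3W_sum Finset.univ fun i => h i i
  simpa only [trace, diag_apply] using this

omit [DecidableEq ι] in
private theorem fs3_ent {B : X → Matrix ι ι ℝ} (hK : ∃ K : ℝ, ∀ᵐ x ∂μ, fn (B x) ≤ K) (i j : ι) :
    ∃ K : ℝ, ∀ᵐ x ∂μ, |B x i j| ≤ K := by
  obtain ⟨K, hK⟩ := hK
  refine ⟨K, ?_⟩
  filter_upwards [hK] with x hx
  exact (abs_entry_le_fn _ i j).trans hx

omit [DecidableEq ι] in
private theorem fs3WM_left {U : Ultrafilter ℕ} {M : ℕ → X → Matrix ι ι ℝ}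
    {L : X → Matrix ι ι ℝ} (h : fs3WM μ U M L) {B : X → Matrix ι ι ℝ} (hB : MM B)
    (hK : ∃ K : ℝ, ∀ᵐ x ∂μ, fn (B x) ≤ K) :
    fs3WM μ U (fun n x => B x * M n x) (fun x => B x * L x) := by
  intro i j
  have := fs3W_sum Finset.univ fun k => fs3W_mul (h k j) (hB i k) (fs3_ent hK i k)
  simpa only [Matrix.mul_apply] using this

omit [DecidableEq ι] in
private theorem fs3WM_right {U : Ultrafilter ℕ} {M : ℕ → X → Matrix ι ι ℝ}
    {L : X → Matrix ι ι ℝ} (h : fs3WM μ U M L) {B : X → Matrix ι ι ℝ} (hB : MM B)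
    (hK : ∃ K : ℝ, ∀ᵐ x ∂μ, fn (B x) ≤ K) :
    fs3WM μ U (fun n x => M n x * (B x)ᵀ) (fun x => L x * (B x)ᵀ) := by
  intro i j
  have := fs3W_sum Finset.univ fun k => fs3W_mul (h i k) (hB j k) (fs3_ent hK j k)
  simpa only [Matrix.mul_apply, transpose_apply, mul_comm] using this

omit [DecidableEq ι] in
private theorem fs3WM_comp (hE : Sys A X μ) {U : Ultrafilter ℕ} {M : ℕ → X → Matrix ι ι ℝ}
    {L : X → Matrix ι ι ℝ} (h : fs3WM μ U M L) (b : A) :
    fs3WM μ U (fun n x => M n (b • x)) (fun x => L (b • x)) :=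
  fun i j => fs3W_comp hE (h i j) b

omit [DecidableEq ι] in
/-- Passing from rational vectors to real ones. -/
private theorem fs3_all {P Q : X → Matrix ι ι ℝ} {K : ℝ}
    (h : ∀ v : ι → ℝ, ∀ᵐ x ∂μ, qf (P x) v ≤ K * qf (Q x) v) :
    ∀ᵐ x ∂μ, ∀ v : ι → ℝ, qf (P x) v ≤ K * qf (Q x) v := by
  have h1 : ∀ᵐ x ∂μ, ∀ q : ι → ℚ, qf (P x) (fun i => (q i : ℝ)) ≤
      K * qf (Q x) (fun i => (q i : ℝ)) := ae_all_iff.2 fun q => h _
  filter_upwards [h1] with x hx v
  have hc : ∀ R : Matrix ι ι ℝ, Continuous fun v : ι → ℝ => qf R v := by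
    intro R
    simp only [fs3_qf]
    fun_prop
  have hcl : IsClosed {v : ι → ℝ | qf (P x) v ≤ K * qf (Q x) v} :=
    isClosed_le (hc _) (continuous_const.mul (hc _))
  have hd : DenseRange fun q : ι → ℚ => fun i => (q i : ℝ) :=
    DenseRange.piMap fun _ => Rat.denseRange_cast
  exact hd.induction_on (p := fun v => qf (P x) v ≤ K * qf (Q x) v) v hcl hx

omit [DecidableEq ι] in
private theorem fs3WM_le [IsProbabilityMeasure μ] {U : Ultrafilter ℕ}
    {M N : ℕ → X → Matrix ι ι ℝ} {P Q : X → Matrix ι ι ℝ} {K : ℝ} (hM : fs3WM μ U M P)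
    (hN : fs3WM μ U N Q)
    (h : ∀ v : ι → ℝ, ∀ n, ∀ᵐ x ∂μ, qf (M n x) v ≤ K * qf (N n x) v) :
    ∀ᵐ x ∂μ, ∀ v : ι → ℝ, qf (P x) v ≤ K * qf (Q x) v :=
  fs3_all fun v => fs3W_le (fs3WM_qf hM v) (fs3W_const (fs3WM_qf hN v) K)
    (Eventually.of_forall fun n => h v n)

/-- Averages. -/
private noncomputable def fs3A (N : ℕ → X → Matrix ι ι ℝ) (T : ℕ) (x : X) : Matrix ι ι ℝ :=
  (T : ℝ)⁻¹ • ∑ s ∈ Finset.range T, N s x

omit [Fintype ι] [DecidableEq ι] in
private theorem fs3A_apply (N : ℕ → X → Matrix ι ι ℝ) (T : ℕ) (x : X) (i j : ι) :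
    fs3A N T x i j = (T : ℝ)⁻¹ * ∑ s ∈ Finset.range T, N s x i j := by
  unfold fs3A
  rw [Matrix.smul_apply, smul_eq_mul, Matrix.sum_apply]

private theorem fs3_avg_le {u : ℕ → ℝ} {K : ℝ} (hK : 0 ≤ K) (h : ∀ s, u s ≤ K) (T : ℕ) :
    (T : ℝ)⁻¹ * ∑ s ∈ Finset.range T, u s ≤ K := by
  rcases Nat.eq_zero_or_pos T with rfl | hT
  · simpa using hK
  · have hT' : (0 : ℝ) < T := by exact_mod_cast hT
    rw [inv_mul_le_iff₀ hT']
    calc ∑ s ∈ Finset.range T, u s ≤ ∑ _s ∈ Finset.range T, K := Finset.sum_le_sum fun s _ => h s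
      _ = T * K := by rw [Finset.sum_const, Finset.card_range, nsmul_eq_mul]

omit [Fintype ι] [DecidableEq ι] in
private theorem fs3A_abs {N : ℕ → X → Matrix ι ι ℝ} (hN : ∀ s x i j, |N s x i j| ≤ 1) (T : ℕ)
    (x : X) (i j : ι) : |fs3A N T x i j| ≤ 1 := by
  rw [fs3A_apply, abs_mul, abs_of_nonneg (by positivity : (0 : ℝ) ≤ (T : ℝ)⁻¹)]
  refine le_trans (mul_le_mul_of_nonneg_left (Finset.abs_sum_le_sum_abs _ _) (by positivity)) ?_
  exact fs3_avg_le zero_le_one (fun s => hN s x i j) T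

omit [DecidableEq ι] in
private theorem fs3A_meas {N : ℕ → X → Matrix ι ι ℝ} (hN : ∀ s, MM (N s)) (T : ℕ) :
    MM (fs3A N T) := by
  intro i j
  have h1 : Measurable fun x => (T : ℝ)⁻¹ * ∑ s ∈ Finset.range T, N s x i j :=
    measurable_const.mul (Finset.measurable_sum _ fun s _ => hN s i j)
  simpa only [fs3A_apply] using h1

omit [DecidableEq ι] in
/-- The symmetric weak limit. -/
private theorem fs3_exists [IsProbabilityMeasure μ] (U : Ultrafilter ℕ)
    {N : ℕ → X → Matrix ι ι ℝ} (hN : ∀ s, MM (N s)) (h1 : ∀ s x i j, |N s x i j| ≤ 1)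
    (hs : ∀ s x, (N s x)ᵀ = N s x) :
    ∃ L : X → Matrix ι ι ℝ, MM L ∧ (∀ x, (L x)ᵀ = L x) ∧ fs3WM μ U (fs3A N) L := by
  have key : ∀ i j, ∃ F : X → ℝ, fs3W μ U (fun n x => fs3A N n x i j) F := by
    intro i j
    obtain ⟨F, hF1, hF2, hF3⟩ := exists_wlim μ U (fun n x => fs3A N n x i j)
      (fun n => fs3A_meas hN n i j) (C := 1) fun n x => fs3A_abs h1 n x i j
    exact ⟨F, fun n => fs3A_meas hN n i j, fun n => ⟨1, ae_of_all _ fun x => fs3A_abs h1 n x i j⟩,
      hF1, ⟨1, ae_of_all _ hF2⟩, hF3⟩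
  choose F hF using key
  refine ⟨fun x => Matrix.of fun i j => (1 / 2 : ℝ) * (F i j x + F j i x), ?_, ?_, ?_⟩
  · intro i j
    exact measurable_const.mul ((hF i j).2.2.1.add (hF j i).2.2.1)
  · intro x
    ext i j
    simp only [transpose_apply, Matrix.of_apply, add_comm]
  · intro i j
    have h2 := fs3W_const (fs3W_add (hF i j) (hF j i)) (1 / 2 : ℝ)
    have e : (fun n x => (1 / 2 : ℝ) * (fs3A N n x i j + fs3A N n x j i)) =
        fun n x => fs3A N n x i j := by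
      funext n x
      have e1 : fs3A N n x j i = fs3A N n x i j := by
        rw [fs3A_apply, fs3A_apply]
        congr 1
        refine Finset.sum_congr rfl fun s _ => ?_
        conv_rhs => rw [← hs s x]
        rfl
      rw [e1]
      ring
    rw [e] at h2
    exact h2

omit [DecidableEq ι] in
private theorem fs3_qf_avg (N : ℕ → X → Matrix ι ι ℝ) (T : ℕ) (x : X) (v : ι → ℝ) :
    qf (fs3A N T x) v = (T : ℝ)⁻¹ * ∑ s ∈ Finset.range T, qf (N s x) v := by
  unfold fs3A qf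
  rw [smul_mulVec, dotProduct_smul, smul_eq_mul, Matrix.sum_mulVec, dotProduct_sum]

omit [DecidableEq ι] in
private theorem fs3_conj_avg (N : ℕ → X → Matrix ι ι ℝ) (T : ℕ) (x : X) (B : Matrix ι ι ℝ) :
    B * fs3A N T x * Bᵀ = fs3A (fun s x => B * N s x * Bᵀ) T x := by
  unfold fs3A
  rw [Matrix.mul_smul, Matrix.smul_mul, Matrix.mul_sum, Matrix.sum_mul]

omit [DecidableEq ι] in
private theorem fs3_trace_avg (N : ℕ → X → Matrix ι ι ℝ) (T : ℕ) (x : X) :
    trace (fs3A N T x) = (T : ℝ)⁻¹ * ∑ s ∈ Finset.range T, trace (N s x) := by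
  unfold fs3A
  rw [trace_smul, smul_eq_mul, trace_sum]

theorem exists_C (hE : Sys A X μ) (c : Coc A X ι μ) (h0 : ∀ᵐ x ∂μ, c.D 1 x ≠ 0) (a : A)
    (κ δ : ℝ) :
    ∃ C : X → Matrix ι ι ℝ, MM C ∧ (∀ x, (C x)ᵀ = C x) ∧ (∀ᵐ x ∂μ, ∀ v, 0 ≤ qf (C x) v) ∧
      (∀ᵐ x ∂μ, trace (C x) = 1) ∧ (∀ᵐ x ∂μ, c.D 1 x * C x = C x) ∧
      (∀ b : A, ∃ K : ℝ, ∀ᵐ x ∂μ, ∀ v : ι → ℝ,
        qf (c.D b x * C x * (c.D b x)ᵀ) v ≤ K * qf (C (b • x)) v) ∧
      ∀ t : ℕ, ∃ C' : X → Matrix ι ι ℝ, MM C' ∧ (∀ x, (C' x)ᵀ = C' x) ∧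
        (∀ᵐ x ∂μ, ∀ v, 0 ≤ qf (C' x) v ∧ qf (C' x) v ≤ qf (C x) v) ∧
        (∀ᵐ x ∂μ, trace (c.D (a⁻¹ ^ t) x * C' x * (c.D (a⁻¹ ^ t) x)ᵀ) ≤
          Real.exp (-(2 * (κ - δ) * t))) ∧
        ∀ η : ℝ, (∀ᶠ T : ℕ in atTop,
          ∑ s ∈ Finset.range T, μ.real (c.bad a κ δ t s) ≤ η * T) →
          ∫ x, (trace (C x) - trace (C' x)) ∂μ ≤ η := by
  classical
  have hP : IsProbabilityMeasure μ := hE.prob
  obtain ⟨C, hC1, hC2, hC3⟩ := fs3_exists (μ := μ) (hyperfilter ℕ) (N := c.NN a)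
    (fun s => c.NN_meas hE a s) (fun s x i j => c.NN_entry a s x i j) (fun s x => c.NN_symm a s x)
  have hz : fs3WM μ (hyperfilter ℕ) (fun (_ : ℕ) (_ : X) => (0 : Matrix ι ι ℝ)) (fun _ => 0) :=
    fun i j => fs3W_zero
  have hev : ∀ᶠ T : ℕ in (hyperfilter ℕ : Filter ℕ), 1 ≤ T :=
    Nat.hyperfilter_le_atTop (eventually_ge_atTop 1)
  have hq0 : ∀ v : ι → ℝ, qf (0 : Matrix ι ι ℝ) v = 0 := fun v => by simp [qf]
  refine ⟨C, hC1, hC2, ?_, ?_, ?_, ?_, ?_⟩
  · have h1 := fs3WM_le (K := 1) hz hC3 fun v n => ae_of_all _ fun x => by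
      rw [hq0, one_mul, fs3_qf_avg]
      exact mul_nonneg (by positivity) (Finset.sum_nonneg fun s _ => c.NN_nonneg a s x v)
    filter_upwards [h1] with x hx v
    have := hx v
    rwa [hq0, one_mul] at this
  · have h1 : ∀ᵐ x ∂μ, ∀ s : ℕ, trace (c.NN a s x) = 1 := ae_all_iff.2 fun s => c.NN_trace hE h0 a s
    have h2 : ∀ᶠ T : ℕ in (hyperfilter ℕ : Filter ℕ), ∀ᵐ x ∂μ, trace (fs3A (c.NN a) T x) = 1 := by
      filter_upwards [hev] with T hT
      filter_upwards [h1] with x hx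
      rw [fs3_trace_avg]
      have hT' : (T : ℝ) ≠ 0 := by
        have : T ≠ 0 := by omega
        exact_mod_cast this
      simp only [hx, Finset.sum_const, Finset.card_range, nsmul_eq_mul, mul_one]
      exact inv_mul_cancel₀ hT'
    have h3 := fs3W_le (fs3WM_trace hC3) (fs3W_one 1) (h2.mono fun T hT => hT.mono fun x hx => hx.le)
    have h4 := fs3W_le (fs3W_one 1) (fs3WM_trace hC3) (h2.mono fun T hT => hT.mono fun x hx => hx.ge)
    filter_upwards [h3, h4] with x h5 h6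
    exact le_antisymm h5 h6
  · have h1 : ∀ᵐ x ∂μ, ∀ s : ℕ, c.D 1 x * c.NN a s x = c.NN a s x :=
      ae_all_iff.2 fun s => c.NN_one hE a s
    have h2 : ∀ T : ℕ, ∀ᵐ x ∂μ, c.D 1 x * fs3A (c.NN a) T x = fs3A (c.NN a) T x := by
      intro T
      filter_upwards [h1] with x hx
      unfold fs3A
      rw [Matrix.mul_smul, Matrix.mul_sum]
      congr 1
      exact Finset.sum_congr rfl fun s _ => hx s
    have h3 := fs3WM_left hC3 (c.meas 1) (c.bdd 1)
    have h4 : ∀ᵐ x ∂μ, ∀ i j : ι, (c.D 1 x * C x) i j = C x i j := by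
      refine ae_all_iff.2 fun i => ae_all_iff.2 fun j => ?_
      have h5 := fs3W_le (h3 i j) (hC3 i j) (Eventually.of_forall fun T =>
        (h2 T).mono fun x hx => (congrFun (congrFun hx i) j).le)
      have h6 := fs3W_le (hC3 i j) (h3 i j) (Eventually.of_forall fun T =>
        (h2 T).mono fun x hx => (congrFun (congrFun hx i) j).ge)
      filter_upwards [h5, h6] with x h7 h8
      exact le_antisymm h7 h8
    filter_upwards [h4] with x hx
    ext i j
    exact hx i j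
  · intro b
    obtain ⟨K, hK0, hK⟩ := c.NN_equiv hE h0 a b
    refine ⟨K, ?_⟩
    have h1 : ∀ᵐ x ∂μ, ∀ s : ℕ, ∀ v : ι → ℝ,
        qf (c.D b x * c.NN a s x * (c.D b x)ᵀ) v ≤ K * qf (c.NN a s (b • x)) v := ae_all_iff.2 hK
    refine fs3WM_le (fs3WM_right (fs3WM_left hC3 (c.meas b) (c.bdd b)) (c.meas b) (c.bdd b))
      (fs3WM_comp hE hC3 b) fun v T => ?_
    filter_upwards [h1] with x hx
    rw [fs3_conj_avg, fs3_qf_avg, fs3_qf_avg, mul_left_comm]
    refine mul_le_mul_of_nonneg_left ?_ (by positivity)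
    rw [Finset.mul_sum]
    exact Finset.sum_le_sum fun s _ => hx s v
  · intro t
    set N' : ℕ → X → Matrix ι ι ℝ := fun s x => if x ∈ c.bad a κ δ t s then 0 else c.NN a s x
      with hN'
    have hN1 : ∀ s, MM (N' s) := by
      intro s i j
      have e : (fun x => N' s x i j) = fun x => if x ∈ c.bad a κ δ t s then 0 else
          c.NN a s x i j := by
        funext x
        simp only [hN']
        split_ifs <;> rfl
      rw [e]
      exact Measurable.ite (c.bad_meas hE a κ δ t s) measurable_const (c.NN_meas hE a s i j)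
    have hN2 : ∀ s x i j, |N' s x i j| ≤ 1 := by
      intro s x i j
      simp only [hN']
      split_ifs
      · simp
      · exact c.NN_entry a s x i j
    have hN3 : ∀ s x, (N' s x)ᵀ = N' s x := by
      intro s x
      simp only [hN']
      split_ifs
      · exact transpose_zero
      · exact c.NN_symm a s x
    obtain ⟨C', hC'1, hC'2, hC'3⟩ := fs3_exists (μ := μ) (hyperfilter ℕ) hN1 hN2 hN3
    refine ⟨C', hC'1, hC'2, ?_, ?_, ?_⟩
    · have h1 := fs3WM_le (K := 1) hz hC'3 fun v n => ae_of_all _ fun x => by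
        rw [hq0, one_mul, fs3_qf_avg]
        refine mul_nonneg (by positivity) (Finset.sum_nonneg fun s _ => ?_)
        simp only [hN']
        split_ifs
        · rw [hq0]
        · exact c.NN_nonneg a s x v
      have h2 := fs3WM_le (K := 1) hC'3 hC3 fun v n => ae_of_all _ fun x => by
        rw [one_mul, fs3_qf_avg, fs3_qf_avg]
        refine mul_le_mul_of_nonneg_left (Finset.sum_le_sum fun s _ => ?_) (by positivity)
        simp only [hN']
        split_ifs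
        · rw [hq0]
          exact c.NN_nonneg a s x v
        · exact le_rfl
      filter_upwards [h1, h2] with x h3 h4 v
      have h5 := h3 v
      have h6 := h4 v
      rw [hq0, one_mul] at h5
      rw [one_mul] at h6
      exact ⟨h5, h6⟩
    · have h1 := fs3WM_trace (fs3WM_right (fs3WM_left hC'3 (c.meas (a⁻¹ ^ t)) (c.bdd (a⁻¹ ^ t)))
        (c.meas (a⁻¹ ^ t)) (c.bdd (a⁻¹ ^ t)))
      refine fs3W_le h1 (fs3W_one _) (Eventually.of_forall fun T => ae_of_all _ fun x => ?_)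
      rw [fs3_conj_avg, fs3_trace_avg]
      refine fs3_avg_le (Real.exp_pos _).le (fun s => ?_) T
      simp only [hN']
      split_ifs with hb
      · rw [Matrix.mul_zero, Matrix.zero_mul, trace_zero]
        exact (Real.exp_pos _).le
      · exact not_lt.1 hb
    · intro η hη
      have i1 := (fs3WM_trace hC3).2.2.2.2 (fun _ => 1) (integrable_const 1)
      have i2 := (fs3WM_trace hC'3).2.2.2.2 (fun _ => 1) (integrable_const 1)
      simp only [mul_one] at i1 i2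
      have hint : ∀ {k : X → ℝ}, Measurable k → (∃ K : ℝ, ∀ᵐ x ∂μ, |k x| ≤ K) →
          Integrable k μ := by
        intro k hk hK
        have := fs3_int hk hK (integrable_const (1 : ℝ))
        simpa using this
      have w1 := fs3WM_trace hC3
      have w2 := fs3WM_trace hC'3
      have i3 := i1.sub i2
      rw [integral_sub (hint w1.2.2.1 w1.2.2.2.1) (hint w2.2.2.1 w2.2.2.2.1)]
      refine le_of_tendsto i3 ?_
      have hη' : ∀ᶠ T : ℕ in (hyperfilter ℕ : Filter ℕ),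
          ∑ s ∈ Finset.range T, μ.real (c.bad a κ δ t s) ≤ η * T := Nat.hyperfilter_le_atTop hη
      have htr : ∀ᵐ x ∂μ, ∀ s : ℕ, trace (c.NN a s x) = 1 :=
        ae_all_iff.2 fun s => c.NN_trace hE h0 a s
      filter_upwards [hev, hη'] with T hT hT2
      have hT' : (0 : ℝ) < T := by
        have : 0 < T := by omega
        exact_mod_cast this
      rw [← integral_sub (hint (w1.1 T) (w1.2.1 T)) (hint (w2.1 T) (w2.2.1 T))]
      have e1 : ∀ᵐ x ∂μ, trace (fs3A (c.NN a) T x) - trace (fs3A N' T x) =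
          (T : ℝ)⁻¹ * ∑ s ∈ Finset.range T, (c.bad a κ δ t s).indicator (fun _ => (1 : ℝ)) x := by
        filter_upwards [htr] with x hx
        rw [fs3_trace_avg, fs3_trace_avg, ← mul_sub, ← Finset.sum_sub_distrib]
        congr 1
        refine Finset.sum_congr rfl fun s _ => ?_
        simp only [hN']
        by_cases hb : x ∈ c.bad a κ δ t s
        · rw [if_pos hb, Set.indicator_of_mem hb, trace_zero, hx s, sub_zero]
        · rw [if_neg hb, Set.indicator_of_notMem hb, sub_self]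
      rw [integral_congr_ae e1, integral_const_mul, integral_finsetSum _ fun s _ =>
        (integrable_const (1 : ℝ)).indicator (c.bad_meas hE a κ δ t s)]
      have e2 : ∀ s, ∫ x, (c.bad a κ δ t s).indicator (fun _ => (1 : ℝ)) x ∂μ =
          μ.real (c.bad a κ δ t s) := by
        intro s
        rw [integral_indicator (c.bad_meas hE a κ δ t s)]
        simp
      simp only [e2]
      rw [inv_mul_le_iff₀ hT', mul_comm]
      exact hT2

end Coc

end Pool.Agent.H23.DM
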