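import Mathlib
import Pool.Agent.H23.DM.Fs2
import Pool.Agent.H23.DM.Fs3
import Pool.Agent.H23.DM.Le2

/-!
MODULE Fs4 (dimension theorem, Part 2.4).  The fast subbundle.

Not `Up a`: `c` is not a.e. zero (else `fn = 0`), `exists_kappa` gives `κ`, and `κ > 0` (if `κ ≤ 0`
then `Le a (κ + ε)` and `Le_mono` give `Up a`).  `δ = κ/4`.  `exists_C`; `W = rp (C x)`:
`rp_of_le` gives the equivariance (`C (b x)` is symmetric `≥ 0`), `D 1 C = C` gives `le`,
`trace C = 1` gives `W ≠ 0`.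
`Dn`: for `η > 0`, `t ≥ t₀(η)` (`bad_small`): `∫ trace (C - C'_t) ≤ η`.  The sets
`S_k = {x | ∀ v, (1/k) qf (W x) v ≤ qf (C x) v}` (rational `v`) increase to a set of full measure
(`exists_sigma`).  On `S_k ∩ {trace (C - C') ≤ 1/(2k)}`: `proj_le_of_ge` with `s = 1/k`,
`t = 1/(2k)` (`qf (C - C') v ≤ trace (C - C') (v ⬝ᵥ v)`, positive semidefinite) gives
`fn (D (a⁻¹^t) W) ^ 2 ≤ 2 k exp (-(3/2) κ t)`, at most `exp (- κ t)` for `t` large.  Markov:
`μ {trace (C - C') > 1/(2k)} ≤ 2 k η`.  First `k`, then `η`, then `t`.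
-/

open MeasureTheory Filter Matrix
open scoped Topology

namespace Pool.Agent.H23.DM

namespace Coc

variable {A X ι : Type} [CommGroup A] [MulAction A X] [Fintype ι] [DecidableEq ι]
  [MeasurableSpace X] {μ : Measure X}

private theorem fs4_qf_mul (B : Matrix ι ι ℝ) (v : ι → ℝ) :
    qf (Bᵀ * B) v = vn (B *ᵥ v) ^ 2 := by
  have h1 : vn (B *ᵥ v) ^ 2 = (B *ᵥ v) ⬝ᵥ (B *ᵥ v) := by
    unfold vn dotProduct
    rw [Real.sq_sqrt (Finset.sum_nonneg fun i _ => sq_nonneg _)]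
    exact Finset.sum_congr rfl fun i _ => sq _
  rw [h1]
  unfold qf
  rw [← mulVec_mulVec, dotProduct_mulVec, vecMul_transpose]

open scoped MatrixOrder in
private theorem fs4_factor {C : Matrix ι ι ℝ} (hs : Cᵀ = C) (hC : ∀ v, 0 ≤ qf C v) :
    ∃ B : Matrix ι ι ℝ, C = Bᵀ * B := by
  have h : C.PosSemidef := Matrix.PosSemidef.of_dotProduct_mulVec_nonneg
    (by rw [IsHermitian, conjTranspose_eq_transpose_of_trivial]; exact hs)
    (fun x => by
      have h1 := hC x
      unfold qf at h1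
      simpa using h1)
  obtain ⟨B, hB⟩ := CStarAlgebra.nonneg_iff_eq_star_mul_self.mp h.nonneg
  exact ⟨B, by rw [hB, star_eq_conjTranspose, conjTranspose_eq_transpose_of_trivial]⟩

private theorem fs4_qf_sub (A B : Matrix ι ι ℝ) (v : ι → ℝ) : qf (A - B) v = qf A v - qf B v := by
  unfold qf
  rw [sub_mulVec, dotProduct_sub]

/-- For a positive semidefinite matrix the trace is nonnegative and bounds the form. -/
private theorem fs4_trace {M : Matrix ι ι ℝ} (hs : Mᵀ = M) (hM : ∀ v, 0 ≤ qf M v) :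
    0 ≤ trace M ∧ ∀ v, qf M v ≤ trace M * (v ⬝ᵥ v) := by
  obtain ⟨B, hB⟩ := fs4_factor hs hM
  have h1 : trace M = fn B ^ 2 := by
    rw [hB, fn_sq_trace, Matrix.trace_mul_comm]
  refine ⟨h1 ▸ sq_nonneg _, fun v => ?_⟩
  have h2 : v ⬝ᵥ v = vn v ^ 2 := by
    unfold vn dotProduct
    rw [Real.sq_sqrt (Finset.sum_nonneg fun i _ => sq_nonneg _)]
    exact Finset.sum_congr rfl fun i _ => (sq _).symm
  rw [h1, h2, ← mul_pow]
  conv_lhs => rw [hB]
  rw [fs4_qf_mul]
  exact pow_le_pow_left₀ (vn_nonneg _) (vn_mulVec_le B v) 2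

private theorem fs4_qf_rp (C : Matrix ι ι ℝ) (v : ι → ℝ) : 0 ≤ qf (rp C) v := by
  have h := fs4_qf_mul (rp C) v
  rw [rp_symm, rp_idem] at h
  rw [h]
  exact sq_nonneg _

private theorem fs4_qf_cont (C : Matrix ι ι ℝ) : Continuous fun v : ι → ℝ => qf C v := by
  unfold qf dotProduct mulVec dotProduct
  fun_prop

private theorem fs4_qf_meas {f : X → Matrix ι ι ℝ} (hf : MM f) (v : ι → ℝ) :
    Measurable fun x => qf (f x) v := by
  unfold qf dotProduct mulVec dotProduct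
  refine Finset.measurable_sum _ fun i _ => ?_
  refine measurable_const.mul ?_
  exact Finset.measurable_sum _ fun j _ => (hf i j).mul measurable_const

/-- The bad sets for the lower bound on the range. -/
private def fs4_B (C : X → Matrix ι ι ℝ) (k : ℕ) : Set X :=
  ⋃ v : ι → ℚ, {x | qf (C x) (fun i => (v i : ℝ)) <
    1 / ((k : ℝ) + 1) * qf (rp (C x)) (fun i => (v i : ℝ))}

private theorem fs4_B_meas {C : X → Matrix ι ι ℝ} (hC : MM C) (k : ℕ) :
    MeasurableSet (fs4_B C k) := by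
  refine MeasurableSet.iUnion fun v => measurableSet_lt (fs4_qf_meas hC _) ?_
  exact measurable_const.mul (fs4_qf_meas hC.rp _)

private theorem fs4_B_anti (C : X → Matrix ι ι ℝ) : Antitone (fs4_B C) := by
  intro k l hkl x hx
  obtain ⟨v, hv⟩ := Set.mem_iUnion.1 hx
  refine Set.mem_iUnion.2 ⟨v, ?_⟩
  have h1 : (k : ℝ) ≤ l := by exact_mod_cast hkl
  have h0 : (0 : ℝ) ≤ k := Nat.cast_nonneg k
  have h2 : 1 / ((l : ℝ) + 1) ≤ 1 / ((k : ℝ) + 1) :=
    one_div_le_one_div_of_le (by linarith) (by linarith)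
  exact lt_of_lt_of_le hv (mul_le_mul_of_nonneg_right h2 (fs4_qf_rp _ _))

private theorem fs4_B_not {C : X → Matrix ι ι ℝ} {k : ℕ} {x : X} (hx : x ∉ fs4_B C k)
    (v : ι → ℝ) : 1 / ((k : ℝ) + 1) * qf (rp (C x)) v ≤ qf (C x) v := by
  have hd : DenseRange fun (v : ι → ℚ) (i : ι) => ((v i : ℚ) : ℝ) :=
    DenseRange.piMap fun _ => Rat.denseRange_cast
  refine hd.induction_on (p := fun v : ι → ℝ =>
    1 / ((k : ℝ) + 1) * qf (rp (C x)) v ≤ qf (C x) v) v ?_ ?_
  · exact isClosed_le (continuous_const.mul (fs4_qf_cont _)) (fs4_qf_cont _)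
  · intro w
    by_contra hcon
    exact hx (Set.mem_iUnion.2 ⟨w, not_le.1 hcon⟩)

private theorem fs4_B_small [IsFiniteMeasure μ] {C : X → Matrix ι ι ℝ} (hC : MM C)
    (hs : ∀ x, (C x)ᵀ = C x) (h0 : ∀ᵐ x ∂μ, ∀ v, 0 ≤ qf (C x) v) {ε : ℝ} (hε : 0 < ε) :
    ∃ k : ℕ, μ.real (fs4_B C k) < ε := by
  have h1 := tendsto_measure_iInter_atTop (μ := μ) (s := fs4_B C)
    (fun k => (fs4_B_meas hC k).nullMeasurableSet) (fs4_B_anti C) ⟨0, measure_ne_top μ _⟩
  have h2 : μ (⋂ k, fs4_B C k) = 0 := by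
    rw [measure_eq_zero_iff_ae_notMem]
    filter_upwards [h0] with x hx
    intro hmem
    obtain ⟨s, hs0, hs1⟩ := exists_sigma (hs x) hx
    obtain ⟨k, hk⟩ := exists_nat_one_div_lt hs0
    obtain ⟨v, hv⟩ := Set.mem_iUnion.1 (Set.mem_iInter.1 hmem k)
    have hv' : qf (C x) (fun i => (v i : ℝ)) <
      1 / ((k : ℝ) + 1) * qf (rp (C x)) (fun i => (v i : ℝ)) := hv
    have h3 := mul_le_mul_of_nonneg_right hk.le (fs4_qf_rp (C x) (fun i => (v i : ℝ)))
    have h4 := hs1 (fun i => (v i : ℝ))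
    linarith
  rw [h2] at h1
  have h3 : Tendsto (fun k => μ.real (fs4_B C k)) atTop (𝓝 0) := by
    have h4 := (ENNReal.tendsto_toReal_zero_iff (fun t => measure_ne_top _ _)).2 h1
    exact h4
  exact ((tendsto_order.1 h3).2 ε hε).exists

theorem exists_fast (hE : Sys A X μ) (c : Coc A X ι μ) (a : A) (h : ¬ c.Up a) :
    ∃ W : c.Sub, (¬ ∀ᵐ x ∂μ, W.Q x = 0) ∧ (c.sub hE W).Dn a := by
  have := hE.prob
  have h0 : ¬ ∀ᵐ x ∂μ, c.D 1 x = 0 := by
    intro hz
    refine h fun ε hε => ?_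
    refine Tendsto.congr' ?_ tendsto_const_nhds
    refine Eventually.of_forall fun t => ?_
    symm
    rw [measure_eq_zero_iff_ae_notMem]
    filter_upwards [hz, c.D_mul_one hE (a ^ t)] with x h1 h2
    intro h3
    have h4 : Real.exp (ε * t) < fn (c.D (a ^ t) x) := h3
    rw [← h2, h1, Matrix.mul_zero, fn_zero] at h4
    exact absurd h4 (not_lt.2 (Real.exp_pos _).le)
  have hne : ∀ᵐ x ∂μ, c.D 1 x ≠ 0 := (zero_or_ne_zero hE c).resolve_left h0
  obtain ⟨κ, hlow, -, hLe⟩ := exists_kappa hE c h0 a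
  have hκ : 0 < κ := by
    by_contra hcon
    push Not at hcon
    exact h fun ε hε => Le_mono (hLe ε hε) (by linarith)
  obtain ⟨C, hCm, hCs, hC0, hCtr, hC1, hCe, hC'⟩ := exists_C hE c hne a κ (κ / 4)
  have heq : ∀ b, ∀ᵐ x ∂μ, rp (C (b • x)) * (c.D b x * rp (C x)) = c.D b x * rp (C x) := by
    intro b
    obtain ⟨K, hK⟩ := hCe b
    filter_upwards [hK, hC0, hE.ae_smul b hC0] with x h1 h2 h3
    exact rp_of_le (hCs x) (hCs _) h2 h3 h1
  have hle : ∀ᵐ x ∂μ, c.D 1 x * rp (C x) = rp (C x) := by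
    filter_upwards [hC1] with x hx
    exact mul_rp_of_mul hx
  refine ⟨⟨fun x => rp (C x), hCm.rp, Eventually.of_forall fun x => rp_symm _,
    Eventually.of_forall fun x => rp_idem _, hle, heq⟩, ?_, κ / 2, half_pos hκ, ?_⟩
  · intro hz
    have hz' : ∀ᵐ x ∂μ, rp (C x) = 0 := hz
    obtain ⟨x, h1, h2⟩ := (hz'.and hCtr).exists
    rw [← rp_mul (C x), h1, Matrix.zero_mul, Matrix.trace_zero] at h2
    exact zero_ne_one h2
  · change WP μ fun t => {x | Real.exp (-(κ / 2) * t) < fn (c.D (a⁻¹ ^ t) x * rp (C x))}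
    unfold WP
    rw [← ENNReal.tendsto_toReal_zero_iff (fun t => measure_ne_top _ _)]
    rw [Metric.tendsto_atTop]
    intro ε hε
    obtain ⟨k, hk⟩ := fs4_B_small (μ := μ) hCm hCs hC0 (half_pos hε)
    have hk0 : (0 : ℝ) < (k : ℝ) + 1 := by positivity
    obtain ⟨t₀, ht₀⟩ := bad_small hE c h0 a hκ hlow hLe (δ := κ / 4) (by linarith)
      (η := ε / (8 * ((k : ℝ) + 1))) (by positivity)
    have hexp : Tendsto (fun t : ℕ => Real.exp (κ / 2 * t)) atTop atTop :=
      Real.tendsto_exp_atTop.comp (tendsto_natCast_atTop_atTop.const_mul_atTop (half_pos hκ))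
    obtain ⟨t₁, ht₁⟩ := eventually_atTop.1 (hexp.eventually_ge_atTop (2 * ((k : ℝ) + 1)))
    refine ⟨max t₀ t₁, fun t ht => ?_⟩
    have hbad := ht₀ t ((le_max_left _ _).trans ht)
    have hbig := ht₁ t ((le_max_right _ _).trans ht)
    obtain ⟨C', hC'm, hC's, hC'0, hC'tr, hC'i⟩ := hC' t
    have hint := hC'i _ hbad
    rw [Real.dist_eq, sub_zero, abs_of_nonneg ENNReal.toReal_nonneg]
    -- the trace of the difference
    have hdiff : ∀ᵐ x ∂μ, 0 ≤ trace (C x) - trace (C' x) ∧ trace (C x) - trace (C' x) ≤ 1 ∧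
        ∀ v, qf (C x) v - qf (C' x) v ≤ (trace (C x) - trace (C' x)) * (v ⬝ᵥ v) := by
      filter_upwards [hC'0, hCtr] with x h1 h2
      have e1 := fs4_trace (M := C x - C' x) (by rw [transpose_sub, hCs, hC's]) (fun v => by
        rw [fs4_qf_sub]
        linarith [(h1 v).2])
      have e2 := fs4_trace (M := C' x) (hC's x) (fun v => (h1 v).1)
      rw [Matrix.trace_sub] at e1
      refine ⟨e1.1, by linarith [e2.1], fun v => ?_⟩
      rw [← fs4_qf_sub]
      exact e1.2 v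
    have hgm : Measurable fun x => trace (C x) - trace (C' x) := hCm.trace.sub hC'm.trace
    have hgi : Integrable (fun x => trace (C x) - trace (C' x)) μ :=
      Integrable.of_bound hgm.aestronglyMeasurable 1 (by
        filter_upwards [hdiff] with x hx
        rw [Real.norm_eq_abs, abs_of_nonneg hx.1]
        exact hx.2.1)
    have hmk := mul_meas_ge_le_integral_of_nonneg (μ := μ)
      (f := fun x => trace (C x) - trace (C' x))
      (by filter_upwards [hdiff] with x hx; exact hx.1) hgi (1 / (2 * ((k : ℝ) + 1)))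
    set U : Set X := {x | 1 / (2 * ((k : ℝ) + 1)) ≤ trace (C x) - trace (C' x)} with hU
    have hUs : μ.real U ≤ ε / 4 := by
      have h1 : 1 / (2 * ((k : ℝ) + 1)) * μ.real U ≤ ε / (8 * ((k : ℝ) + 1)) := hmk.trans hint
      have e1 : μ.real U = (2 * ((k : ℝ) + 1)) * (1 / (2 * ((k : ℝ) + 1)) * μ.real U) := by
        field_simp
      have e2 : ε / 4 = (2 * ((k : ℝ) + 1)) * (ε / (8 * ((k : ℝ) + 1))) := by
        field_simp
        ring
      rw [e1, e2]
      exact mul_le_mul_of_nonneg_left h1 (by positivity)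
    have hsub : μ.real {x | Real.exp (-(κ / 2) * t) < fn (c.D (a⁻¹ ^ t) x * rp (C x))} ≤
        μ.real (fs4_B C k ∪ U) := by
      refine ENNReal.toReal_mono (measure_ne_top _ _) (measure_mono_ae ?_)
      filter_upwards [hdiff, hC'0, hC'tr] with x h1 h2 h3 hx
      have hx' : Real.exp (-(κ / 2) * t) < fn (c.D (a⁻¹ ^ t) x * rp (C x)) := hx
      change x ∈ fs4_B C k ∪ U
      by_contra hcon
      rw [Set.mem_union, not_or] at hcon
      obtain ⟨h4, h5⟩ := hcon
      have h6 : trace (C x) - trace (C' x) < 1 / (2 * ((k : ℝ) + 1)) := not_le.1 h5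
      have h7 := proj_le_of_ge (C := C x) (C' := C' x) (D := c.D (a⁻¹ ^ t) x)
        (s := 1 / ((k : ℝ) + 1)) (t := 1 / (2 * ((k : ℝ) + 1))) (hCs x) (hC's x)
        (fun v => (h2 v).1) (fun v => (h2 v).2) (fs4_B_not h4) (fun v => ?_) (by positivity)
        (le_of_eq (by field_simp))
      · have e1 : 2 / (1 / ((k : ℝ) + 1)) = 2 * ((k : ℝ) + 1) := by field_simp
        rw [e1] at h7
        have h8 : fn (c.D (a⁻¹ ^ t) x * rp (C x)) ^ 2 ≤ Real.exp (-(κ / 2) * t) ^ 2 := by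
          calc fn (c.D (a⁻¹ ^ t) x * rp (C x)) ^ 2
              ≤ 2 * ((k : ℝ) + 1) * trace (c.D (a⁻¹ ^ t) x * C' x * (c.D (a⁻¹ ^ t) x)ᵀ) := h7
            _ ≤ Real.exp (κ / 2 * t) * Real.exp (-(2 * (κ - κ / 4) * t)) :=
                mul_le_mul hbig h3 ?_ (Real.exp_pos _).le
            _ = Real.exp (-(κ / 2) * t) ^ 2 := by
                rw [← Real.exp_add, ← Real.exp_nat_mul]
                congr 1
                push_cast
                ring
          by_contra hneg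
          push Not at hneg
          have e2 : 2 * ((k : ℝ) + 1) * trace (c.D (a⁻¹ ^ t) x * C' x * (c.D (a⁻¹ ^ t) x)ᵀ) ≤ 0 :=
            mul_nonpos_of_nonneg_of_nonpos (by positivity) hneg.le
          have e3 : 0 < fn (c.D (a⁻¹ ^ t) x * rp (C x)) := (Real.exp_pos _).trans hx'
          have e4 : 0 < fn (c.D (a⁻¹ ^ t) x * rp (C x)) ^ 2 := by positivity
          linarith
        have h9 := (pow_le_pow_iff_left₀ (fn_nonneg _) (Real.exp_pos _).le two_ne_zero).1 h8
        exact absurd hx' (not_lt.2 h9)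
      · refine (h1.2.2 v).trans (mul_le_mul_of_nonneg_right h6.le ?_)
        unfold dotProduct
        exact Finset.sum_nonneg fun i _ => mul_self_nonneg (v i)
    have hun : μ.real (fs4_B C k ∪ U) ≤ μ.real (fs4_B C k) + μ.real U := measureReal_union_le _ _
    have hfin : μ.real {x | Real.exp (-(κ / 2) * t) < fn (c.D (a⁻¹ ^ t) x * rp (C x))} < ε := by
      linarith
    exact hfin

end Coc

end Pool.Agent.H23.DM
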