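import Mathlib
import Pool.Agent.H23.DM.Fs4
import Pool.Agent.H23.DM.Ext

/-!
MODULE Sp1 (dimension theorem, Part 2.5).  The unstable and the centre-stable subbundle.

`exists_Eu`: among the `S : c.Sub` with `(c.sub hE S).Dn a` (the zero subbundle is one: `fn = 0`)
take one of maximal rank (`Sub.exists_rank`, rank `≤ card ι`).  If `(c.quot hE S).Up a` fails,
`exists_fast` gives `W ≠ 0` in the quotient, `exists_of_quot` the subbundle `U = S + W` with
`trace U = trace S + trace W > trace S`, and `(c.sub hE U).Dn a` by `extension` for `a⁻¹` (the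
subbundle `S` of `U` by `exists_in_sub`, `sub_sub_Le`, `quot_sub_Le`): contradiction.

`exists_Ecs`: apply `exists_Eu` to `c.dual hE` and `a⁻¹`, get `F`; `T = D 1 - F` (`exists_ann`).
`(c.dual).D (a⁻¹ ^ t) (a^t x) = (D (a^t) x)ᵀ`; `(T x) (D (a^t) x)ᵀ` is the quotient cocycle of
`c.dual` by `F` for `a⁻¹^t` at `a^t x`, whose Frobenius norm is `fn (D (a^t) x * T x)`; stationarity
gives `Up`.  `c.quot hE T` for `a⁻¹^t` at `x` is `F(a^-t x) D (a⁻¹^t) x F x`, the transpose of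
`(c.dual).D (a^t) (a^-t x) * F (a^-t x)`: `(c.dual.sub F).Dn a⁻¹` gives the bound.
-/

open MeasureTheory Filter Matrix
open scoped Topology

namespace Pool.Agent.H23.DM

namespace Coc

variable {A X ι : Type} [CommGroup A] [MulAction A X] [Fintype ι] [DecidableEq ι]
  [MeasurableSpace X] {μ : Measure X}

private theorem sp1_transport (hE : Sys A X μ) {E F : ℕ → Set X} (g : ℕ → A) (hF : WP μ F)
    (hm : ∀ t, MeasurableSet (F t)) (h : ∀ t, ∀ᵐ x ∂μ, x ∈ E t → g t • x ∈ F t) : WP μ E := by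
  refine WP.mono hF (Eventually.of_forall fun t => ?_)
  have h1 : μ (E t) ≤ μ ((fun x : X => g t • x) ⁻¹' F t) := measure_mono_ae (h t)
  exact h1.trans_eq (hE.measure_preimage (g t) (hm t))

private theorem sp1_zero (hE : Sys A X μ) (c : Coc A X ι μ) {Z : c.Sub} (hZ : ∀ x, Z.Q x = 0)
    (a : A) : (c.sub hE Z).Dn a := by
  refine ⟨1, one_pos, ?_⟩
  have h1 : ∀ t : ℕ, {x | Real.exp (-1 * t) < fn ((c.sub hE Z).D (a⁻¹ ^ t) x)} = ∅ := by
    intro t
    rw [Set.eq_empty_iff_forall_notMem]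
    intro x hx
    have h2 : Real.exp (-1 * t) < fn (c.D (a⁻¹ ^ t) x * Z.Q x) := hx
    rw [hZ x, Matrix.mul_zero, fn_zero] at h2
    exact absurd h2 (not_lt.2 (Real.exp_pos _).le)
  unfold Le WP
  simp only [h1, measure_empty]
  exact tendsto_const_nhds

private theorem sp1_trace {P : Matrix ι ι ℝ} (hs : Pᵀ = P) (hi : P * P = P) (h0 : P ≠ 0) :
    1 ≤ trace P := by
  have h1 := one_le_fn_of_proj hs hi h0
  have h2 : fn P ^ 2 = trace P := by rw [fn_sq_trace, hs, hi]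
  rw [← h2]
  nlinarith

private theorem sp1_step (hE : Sys A X μ) (c : Coc A X ι μ) (a : A) (S : c.Sub)
    (hS : (c.sub hE S).Dn a) (hQ : ¬ (c.quot hE S).Up a) {r : ℕ}
    (htr : ∀ᵐ x ∂μ, trace (S.Q x) = (r : ℝ)) :
    ∃ U : c.Sub, ∃ r' : ℕ, r + 1 ≤ r' ∧ (c.sub hE U).Dn a ∧
      ∀ᵐ x ∂μ, trace (U.Q x) = (r' : ℝ) := by
  have := hE.prob
  obtain ⟨W, hW0, hW⟩ := exists_fast hE (c.quot hE S) a hQ
  obtain ⟨U, hU, hSW⟩ := exists_of_quot hE c S W
  obtain ⟨r', -, hr'⟩ := Sub.exists_rank hE U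
  refine ⟨U, r', ?_, ?_, hr'⟩
  · have h1 : ∃ᶠ x in ae μ, W.Q x ≠ 0 := fun h => hW0 (h.mono fun x hx => not_not.1 hx)
    obtain ⟨x, hx0, hx1, hx2, hx3, hx4⟩ :=
      (h1.and_eventually (htr.and (hr'.and (W.symm.and W.idem)))).exists
    have h2 := sp1_trace hx3 hx4 hx0
    rw [hU x, Matrix.trace_add, hx1] at hx2
    have h3 : (r : ℝ) + 1 ≤ r' := by linarith
    exact_mod_cast h3
  · have hUS : ∀ᵐ x ∂μ, U.Q x * S.Q x = S.Q x := by
      filter_upwards [hSW, S.idem] with x h1 h2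
      rw [hU x, Matrix.add_mul, h2, h1.2, add_zero]
    obtain ⟨S', hS'⟩ := exists_in_sub hE c U S hUS
    obtain ⟨δ, hδ, h1⟩ := hS
    obtain ⟨δ', hδ', h2⟩ := hW
    have hm : 0 < min δ δ' := lt_min hδ hδ'
    refine ⟨min δ δ' / 2, half_pos hm, ?_⟩
    have h3 : ((c.sub hE U).sub hE S').Le a⁻¹ (-min δ δ') :=
      (sub_sub_Le hE (Eventually.of_forall fun x => (hS' x).symm)).2
        (Le_mono h1 (neg_le_neg (min_le_left _ _)))
    have h4 : ((c.sub hE U).quot hE S').Le a⁻¹ (-min δ δ') :=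
      quot_sub_Le hE hU (Eventually.of_forall hS') (Le_mono h2 (neg_le_neg (min_le_right _ _)))
    exact extension hE S' (by linarith) h3 h4

theorem exists_Eu (hE : Sys A X μ) (c : Coc A X ι μ) (a : A) :
    ∃ S : c.Sub, (c.sub hE S).Dn a ∧ (c.quot hE S).Up a := by
  have := hE.prob
  by_contra hcon
  have hcon' : ∀ S : c.Sub, (c.sub hE S).Dn a → ¬ (c.quot hE S).Up a := fun S h1 h2 =>
    hcon ⟨S, h1, h2⟩
  have hcl : ∀ n : ℕ, ∃ S : c.Sub, ∃ r : ℕ, n ≤ r ∧ (c.sub hE S).Dn a ∧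
      ∀ᵐ x ∂μ, trace (S.Q x) = (r : ℝ) := by
    intro n
    induction n with
    | zero =>
      obtain ⟨Z, hZ⟩ := exists_zero c
      refine ⟨Z, 0, le_rfl, sp1_zero hE c hZ a, Eventually.of_forall fun x => ?_⟩
      rw [hZ x, Matrix.trace_zero, Nat.cast_zero]
    | succ n ih =>
      obtain ⟨S, r, hnr, hS, htr⟩ := ih
      obtain ⟨U, r', hrr, hU, htr'⟩ := sp1_step hE c a S hS (hcon' S hS) htr
      exact ⟨U, r', by omega, hU, htr'⟩
  obtain ⟨S, r, h1, -, h2⟩ := hcl (Fintype.card ι + 1)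
  obtain ⟨r', h3, h4⟩ := Sub.exists_rank hE S
  obtain ⟨x, h5, h6⟩ := (h2.and h4).exists
  rw [h5] at h6
  have h7 : r = r' := by exact_mod_cast h6
  omega

private theorem sp1_dual_one (hE : Sys A X μ) (c : Coc A X ι μ) :
    ∀ᵐ x ∂μ, (c.dual hE).D 1 x = c.D 1 x := by
  filter_upwards [c.symm] with x hx
  change (c.D (1 : A)⁻¹ ((1 : A) • x))ᵀ = c.D 1 x
  rw [inv_one, one_smul, hx]

private theorem sp1_dual_inv (hE : Sys A X μ) (c : Coc A X ι μ) (b : A) (x : X) :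
    (c.dual hE).D b⁻¹ (b • x) = (c.D b x)ᵀ := by
  change (c.D b⁻¹⁻¹ (b⁻¹ • b • x))ᵀ = (c.D b x)ᵀ
  rw [inv_inv, inv_smul_smul]

private theorem sp1_up (hE : Sys A X μ) (c : Coc A X ι μ) (F : (c.dual hE).Sub) (T : c.Sub)
    (hT : ∀ x, T.Q x = c.D 1 x - F.Q x) (b : A) :
    ∀ᵐ x ∂μ, fn (((c.dual hE).quot hE F).D b⁻¹ (b • x)) = fn ((c.sub hE T).D b x) := by
  have h1 := sp1_dual_one hE c
  filter_upwards [h1, hE.ae_smul b h1, T.symm, hE.ae_smul b T.symm, T.equiv b] with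
    x h2 h3 h4 h5 h6
  change fn (((c.dual hE).D 1 (b⁻¹ • b • x) - F.Q (b⁻¹ • b • x)) * (c.dual hE).D b⁻¹ (b • x) *
    ((c.dual hE).D 1 (b • x) - F.Q (b • x))) = fn (c.D b x * T.Q x)
  rw [inv_smul_smul, sp1_dual_inv, h2, h3, ← hT x, ← hT (b • x), ← fn_transpose,
    Matrix.transpose_mul, Matrix.transpose_mul, Matrix.transpose_transpose, h4, h5, h6]

private theorem sp1_dn (hE : Sys A X μ) (c : Coc A X ι μ) (F : (c.dual hE).Sub) (T : c.Sub)
    (hT : ∀ x, T.Q x = c.D 1 x - F.Q x) (b : A) :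
    ∀ᵐ x ∂μ, fn ((c.quot hE T).D b x) ≤ fn (((c.dual hE).sub hE F).D b⁻¹ (b • x)) := by
  filter_upwards [F.symm, F.idem, hE.ae_smul b F.symm] with x h1 h2 h3
  change fn ((c.D 1 (b • x) - T.Q (b • x)) * c.D b x * (c.D 1 x - T.Q x)) ≤
    fn ((c.dual hE).D b⁻¹ (b • x) * F.Q (b • x))
  rw [hT x, hT (b • x), sub_sub_cancel, sub_sub_cancel, sp1_dual_inv]
  refine (fn_mul_proj_le h1 h2 _).trans (le_of_eq ?_)
  rw [← fn_transpose, Matrix.transpose_mul, h3]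

theorem exists_Ecs (hE : Sys A X μ) (c : Coc A X ι μ) (a : A) :
    ∃ T : c.Sub, (c.sub hE T).Up a ∧ (c.quot hE T).Dn a := by
  obtain ⟨F, hF1, hF2⟩ := exists_Eu hE (c.dual hE) a⁻¹
  obtain ⟨T, hT⟩ := exists_ann hE c F
  refine ⟨T, ?_, ?_⟩
  · intro ε hε
    refine sp1_transport hE (fun t => a ^ t) (hF2 ε hε)
      (fun t => measurableSet_lt measurable_const (MM.fn (((c.dual hE).quot hE F).meas _))) ?_
    intro t
    filter_upwards [sp1_up hE c F T hT (a ^ t)] with x hx h1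
    have h2 : Real.exp (ε * t) < fn ((c.sub hE T).D (a ^ t) x) := h1
    change Real.exp (ε * t) < fn (((c.dual hE).quot hE F).D (a⁻¹ ^ t) (a ^ t • x))
    rw [inv_pow, hx]
    exact h2
  · obtain ⟨δ, hδ, h⟩ := hF1
    refine ⟨δ, hδ, ?_⟩
    refine sp1_transport hE (fun t => a⁻¹ ^ t) h
      (fun t => measurableSet_lt measurable_const (MM.fn (((c.dual hE).sub hE F).meas _))) ?_
    intro t
    filter_upwards [sp1_dn hE c F T hT (a⁻¹ ^ t)] with x hx h1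
    have h2 : Real.exp (-δ * t) < fn ((c.quot hE T).D (a⁻¹ ^ t) x) := h1
    change Real.exp (-δ * t) < fn (((c.dual hE).sub hE F).D (a⁻¹⁻¹ ^ t) (a⁻¹ ^ t • x))
    rw [inv_pow a⁻¹ t]
    exact h2.trans_le hx

end Coc

end Pool.Agent.H23.DM
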