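import Mathlib
import Pool.Agent.H23.DM.Sp1

/-!
MODULE Sp2 (dimension theorem, Part 2.5).  The splitting and its equivariant projections.

`Dec c R S T`: the range of `R` is the direct sum of the ranges of `S` and `T`.
`exists_split`: `S`, `T` from `exists_Eu`, `exists_Ecs`.  The intersection (`exists_inf`) is a
subbundle of both (`sub_Le_mono`): `Dn a` and `Up a`, so zero (`zero_of_Up_Dn`).  The quotient by the
sum (`exists_sup`) is `Up a` and `Dn a` (`quot_Le_mono` for `S` and for `T`), so zero, and its `D 1`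
is `D 1 - rp (S + T)`.
`exists_proj`: `oblique` with `P = D 1`: `πu = S * (S + T + (1 - D 1))⁻¹`; measurable (`MM.inv`).
Equivariance: `D b x * πu x` and `πu (b x) * D b x` agree on the range of `S x` (both `D b x`), on the
range of `T x` (both `0`) and both are unchanged by right multiplication by `D 1 x = πu + πc`.
`exists_split_sub`: apply `exists_split` to `c.sub hE U` (`exists_of_sub`, `sub_sub_Le`).
-/

open MeasureTheory Filter Matrix
open scoped Topology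

namespace Pool.Agent.H23.DM

namespace Coc

variable {A X ι : Type} [CommGroup A] [MulAction A X] [Fintype ι] [DecidableEq ι]
  [MeasurableSpace X] {μ : Measure X}

/-- The range of `R` is the direct sum of the ranges of `S` and `T`. -/
def Dec (μ : Measure X) (R S T : X → Matrix ι ι ℝ) : Prop :=
  ∀ᵐ x ∂μ, ip (S x) (T x) = 0 ∧ rp (S x + T x) = R x

theorem exists_split (hE : Sys A X μ) (c : Coc A X ι μ) (a : A) :
    ∃ S T : c.Sub, Dec μ (c.D 1) S.Q T.Q ∧ (c.sub hE S).Dn a ∧ (c.sub hE T).Up a := by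
  obtain ⟨S, hSd, hSu⟩ := exists_Eu hE c a
  obtain ⟨T, hTu, hTd⟩ := exists_Ecs hE c a
  refine ⟨S, T, ?_, hSd, hTu⟩
  obtain ⟨I, hI⟩ := exists_inf hE c S T
  obtain ⟨U, hU⟩ := exists_sup hE c S T
  have hI0 : ∀ᵐ x ∂μ, I.Q x = 0 := by
    have h1 : ∀ᵐ x ∂μ, S.Q x * I.Q x = I.Q x ∧ T.Q x * I.Q x = I.Q x := by
      filter_upwards [S.symm, S.idem, T.symm, T.idem] with x s1 s2 t1 t2
      obtain ⟨-, -, h3, h4, -⟩ := ip_spec s1 s2 t1 t2
      rw [hI x]
      exact ⟨h3, h4⟩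
    have hup : (c.sub hE I).Up a := fun ε hε =>
      sub_Le_mono hE (h1.mono fun x hx => hx.2) (hTu ε hε)
    have hdn : (c.sub hE I).Dn a := by
      obtain ⟨δ, hδ, h⟩ := hSd
      exact ⟨δ, hδ, sub_Le_mono hE (h1.mono fun x hx => hx.1) h⟩
    filter_upwards [zero_of_Up_Dn hE hup hdn, I.le] with x h2 h3
    have h4 : c.D 1 x * I.Q x = 0 := h2
    rw [← h3, h4]
  have hU0 : ∀ᵐ x ∂μ, c.D 1 x - U.Q x = 0 := by
    have h1 : ∀ᵐ x ∂μ, U.Q x * S.Q x = S.Q x ∧ U.Q x * T.Q x = T.Q x := by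
      filter_upwards [S.symm, S.idem, T.symm, T.idem] with x s1 s2 t1 t2
      rw [hU x]
      exact rp_add s1 s2 t1 t2
    have hup : (c.quot hE U).Up a := fun ε hε =>
      quot_Le_mono hE (h1.mono fun x hx => hx.1) (hSu ε hε)
    have hdn : (c.quot hE U).Dn a := by
      obtain ⟨δ, hδ, h⟩ := hTd
      exact ⟨δ, hδ, quot_Le_mono hE (h1.mono fun x hx => hx.2) h⟩
    filter_upwards [zero_of_Up_Dn hE hup hdn, c.quot_one hE U] with x h2 h3
    rw [← h3]
    exact h2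
  filter_upwards [hI0, hU0] with x h1 h2
  refine ⟨?_, ?_⟩
  · rw [← hI x, h1]
  · rw [← hU x]
    exact (sub_eq_zero.1 h2).symm

theorem exists_split_sub (hE : Sys A X μ) (c : Coc A X ι μ) (U : c.Sub) (a : A) :
    ∃ S T : c.Sub, Dec μ U.Q S.Q T.Q ∧ (c.sub hE S).Dn a ∧ (c.sub hE T).Up a := by
  obtain ⟨S', T', hD, hS, hT⟩ := exists_split hE (c.sub hE U) a
  obtain ⟨S, hS1, -⟩ := exists_of_sub hE c U S'
  obtain ⟨T, hT1, -⟩ := exists_of_sub hE c U T'
  refine ⟨S, T, ?_, ?_, ?_⟩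
  · filter_upwards [hD, U.le] with x h1 h2
    have h3 : (c.sub hE U).D 1 x = U.Q x := h2
    rw [h3] at h1
    rw [hS1 x, hT1 x]
    exact h1
  · obtain ⟨δ, hδ, h⟩ := hS
    exact ⟨δ, hδ, (sub_sub_Le hE (Filter.Eventually.of_forall hS1)).1 h⟩
  · intro ε hε
    exact (sub_sub_Le hE (Filter.Eventually.of_forall hT1)).1 (hT ε hε)

/-- The equivariant oblique projections of a splitting. -/
theorem exists_proj (hE : Sys A X μ) (c : Coc A X ι μ) {S T : c.Sub}
    (h : Dec μ (c.D 1) S.Q T.Q) :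
    ∃ πu πc : X → Matrix ι ι ℝ, MM πu ∧ MM πc ∧
      ∀ᵐ x ∂μ, πu x + πc x = c.D 1 x ∧ S.Q x * πu x = πu x ∧ πu x * S.Q x = S.Q x ∧
        T.Q x * πc x = πc x ∧ πc x * T.Q x = T.Q x ∧ πu x * T.Q x = 0 ∧ πc x * S.Q x = 0 ∧
        πu x * c.D 1 x = πu x ∧ πc x * c.D 1 x = πc x ∧
        πu x * πu x = πu x ∧ πc x * πc x = πc x := by
  have hm : MM fun x => (S.Q x + T.Q x + (1 - c.D 1 x))⁻¹ :=
    ((S.meas.add T.meas).add ((MM.const 1).sub (c.meas 1))).inv
  refine ⟨fun x => S.Q x * (S.Q x + T.Q x + (1 - c.D 1 x))⁻¹,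
    fun x => T.Q x * (S.Q x + T.Q x + (1 - c.D 1 x))⁻¹, S.meas.mul hm, T.meas.mul hm, ?_⟩
  filter_upwards [h, c.symm, c.D_one_idem hE, S.symm, S.idem, S.le, T.symm, T.idem, T.le]
    with x h1 p1 p2 s1 s2 s3 t1 t2 t3
  obtain ⟨o1, o2, o3, o4, o5, o6, o7⟩ := oblique p1 p2 s1 s2 t1 t2 s3 t3 h1.1 h1.2
  refine ⟨o1, ?_, o2, ?_, o4, o3, o5, o6, o7, ?_, ?_⟩
  · rw [← Matrix.mul_assoc, s2]
  · rw [← Matrix.mul_assoc, t2]
  · rw [← Matrix.mul_assoc, o2]
  · rw [← Matrix.mul_assoc, o4]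

/-- The oblique projections are equivariant. -/
theorem proj_equiv (hE : Sys A X μ) (c : Coc A X ι μ) {S T : c.Sub}
    {πu πc : X → Matrix ι ι ℝ}
    (h : ∀ᵐ x ∂μ, πu x + πc x = c.D 1 x ∧ S.Q x * πu x = πu x ∧ πu x * S.Q x = S.Q x ∧
        T.Q x * πc x = πc x ∧ πc x * T.Q x = T.Q x ∧ πu x * T.Q x = 0 ∧ πc x * S.Q x = 0 ∧
        πu x * c.D 1 x = πu x ∧ πc x * c.D 1 x = πc x) (b : A) :
    ∀ᵐ x ∂μ, c.D b x * πu x = πu (b • x) * c.D b x ∧
      c.D b x * πc x = πc (b • x) * c.D b x := by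
  filter_upwards [h, hE.ae_smul b h, S.equiv b, T.equiv b, c.D_mul_one hE b]
    with x hx hy hS hT hM
  obtain ⟨x1, x2, -, x4, -, -, -, -, -⟩ := hx
  obtain ⟨-, -, y3, -, y5, y6, y7, -, -⟩ := hy
  have hu : S.Q (b • x) * (c.D b x * πu x) = c.D b x * πu x := by
    rw [← x2, ← Matrix.mul_assoc (c.D b x), ← Matrix.mul_assoc (S.Q (b • x)), hS]
  have hc : T.Q (b • x) * (c.D b x * πc x) = c.D b x * πc x := by
    rw [← x4, ← Matrix.mul_assoc (c.D b x), ← Matrix.mul_assoc (T.Q (b • x)), hT]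
  have huu : πu (b • x) * (c.D b x * πu x) = c.D b x * πu x := by
    rw [← hu, ← Matrix.mul_assoc (πu (b • x)), y3]
  have huc : πu (b • x) * (c.D b x * πc x) = 0 := by
    rw [← hc, ← Matrix.mul_assoc (πu (b • x)), y6, Matrix.zero_mul]
  have hcc : πc (b • x) * (c.D b x * πc x) = c.D b x * πc x := by
    rw [← hc, ← Matrix.mul_assoc (πc (b • x)), y5]
  have hcu : πc (b • x) * (c.D b x * πu x) = 0 := by
    rw [← hu, ← Matrix.mul_assoc (πc (b • x)), y7, Matrix.zero_mul]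
  have hd : c.D b x * πu x + c.D b x * πc x = c.D b x := by
    rw [← Matrix.mul_add, x1, hM]
  constructor
  · have h1 := congrArg (fun M => πu (b • x) * M) hd
    simp only [Matrix.mul_add, huu, huc, add_zero] at h1
    exact h1
  · have h1 := congrArg (fun M => πc (b • x) * M) hd
    simp only [Matrix.mul_add, hcc, hcu, zero_add] at h1
    exact h1

end Coc

end Pool.Agent.H23.DM
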