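import Mathlib
import Pool.Agent.H23.DM.Le2

/-!
MODULE Tw (MP_d9606f, Part 2, helper93).  Twist of a cocycle by a real character; rates of a cocycle
on the range of a (not necessarily orthogonal) measurable projection.

* `Chi A`: real characters of `A`.
* `c.twist χ L`: the cocycle `exp (-(L * χ a)) • D a x`.
* `c.Rt π a r`: `fn (D (a ^ t) x * π x) ≤ exp (r t)` with probability tending to one.
-/

open MeasureTheory Filter Matrix
open scoped Topology

set_option linter.unusedSectionVars false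

namespace Pool.Agent.H23.DM

/-- Real characters. -/
structure Chi (A : Type) [Group A] where
  /-- the character -/
  f : A → ℝ
  mul : ∀ a b, f (a * b) = f a + f b

namespace Chi

variable {A : Type}

theorem one [Group A] (χ : Chi A) : χ.f 1 = 0 := by
  have h := χ.mul 1 1
  rw [mul_one] at h
  linarith

theorem inv [Group A] (χ : Chi A) (a : A) : χ.f a⁻¹ = -χ.f a := by
  have h := χ.mul a⁻¹ a
  rw [inv_mul_cancel, χ.one] at h
  linarith

theorem pow [Group A] (χ : Chi A) (a : A) (n : ℕ) : χ.f (a ^ n) = n * χ.f a := by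
  induction n with
  | zero => rw [pow_zero, χ.one]; simp
  | succ n ih => rw [pow_succ, χ.mul, ih]; push_cast; ring

end Chi

namespace Coc

noncomputable section

variable {A X ι : Type} [CommGroup A] [MulAction A X] [Fintype ι] [DecidableEq ι]
  [MeasurableSpace X] {μ : Measure X}

/-- The cocycle twisted by a real character. -/
def twist (c : Coc A X ι μ) (χ : Chi A) (L : ℝ) : Coc A X ι μ where
  D a x := Real.exp (-(L * χ.f a)) • c.D a x
  meas a := by
    intro i j
    exact (c.meas a i j).const_mul _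
  bdd a := by
    obtain ⟨C, hC⟩ := c.bdd a
    refine ⟨Real.exp (-(L * χ.f a)) * C, ?_⟩
    filter_upwards [hC] with x hx
    rw [fn_smul, abs_of_pos (Real.exp_pos _)]
    exact mul_le_mul_of_nonneg_left hx (Real.exp_pos _).le
  mul a b := by
    filter_upwards [c.mul a b] with x hx
    rw [hx, χ.mul, Matrix.smul_mul, Matrix.mul_smul, smul_smul, ← Real.exp_add]
    congr 2
    ring
  symm := by
    filter_upwards [c.symm] with x hx
    rw [Matrix.transpose_smul, hx]

theorem twist_D (c : Coc A X ι μ) (χ : Chi A) (L : ℝ) (a : A) (x : X) :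
    (c.twist χ L).D a x = Real.exp (-(L * χ.f a)) • c.D a x := rfl

theorem twist_one (c : Coc A X ι μ) (χ : Chi A) (L : ℝ) (x : X) :
    (c.twist χ L).D 1 x = c.D 1 x := by
  rw [twist_D, χ.one, mul_zero, neg_zero, Real.exp_zero, one_smul]

/-- Rates on the range of a matrix valued function. -/
def Rt (c : Coc A X ι μ) (π : X → Matrix ι ι ℝ) (a : A) (r : ℝ) : Prop :=
  WP μ fun t => {x | Real.exp (r * t) < fn (c.D (a ^ t) x * π x)}

theorem sub_Le_iff (hE : Sys A X μ) (c : Coc A X ι μ) (S : c.Sub) {a : A} {r : ℝ} :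
    (c.sub hE S).Le a r ↔ c.Rt S.Q a r := Iff.rfl

theorem twist_Rt (c : Coc A X ι μ) (χ : Chi A) (L : ℝ) {π : X → Matrix ι ι ℝ} {a : A} {r : ℝ} :
    (c.twist χ L).Rt π a r ↔ c.Rt π a (r + L * χ.f a) := by
  have h : ∀ t : ℕ, {x | Real.exp (r * t) < fn ((c.twist χ L).D (a ^ t) x * π x)} =
      {x | Real.exp ((r + L * χ.f a) * t) < fn (c.D (a ^ t) x * π x)} := by
    intro t
    ext x
    have e1 : fn ((c.twist χ L).D (a ^ t) x * π x) =
        Real.exp (-(L * χ.f (a ^ t))) * fn (c.D (a ^ t) x * π x) := by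
      rw [twist_D, Matrix.smul_mul, fn_smul, abs_of_pos (Real.exp_pos _)]
    have e2 : Real.exp ((r + L * χ.f a) * t) =
        Real.exp (r * t) * Real.exp (L * χ.f (a ^ t)) := by
      rw [← Real.exp_add, χ.pow]
      congr 1
      ring
    have e3 : Real.exp (-(L * χ.f (a ^ t))) = (Real.exp (L * χ.f (a ^ t)))⁻¹ := Real.exp_neg _
    have e4 := Real.exp_pos (L * χ.f (a ^ t))
    simp only [Set.mem_ofPred_eq]
    rw [e1, e2, e3, ← div_eq_inv_mul, lt_div_iff₀ e4]
  unfold Rt
  simp only [h]

theorem Rt_congr {c : Coc A X ι μ} {π π' : X → Matrix ι ι ℝ} (h : ∀ᵐ x ∂μ, π x = π' x) {a : A}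
    {r : ℝ} (hr : c.Rt π a r) : c.Rt π' a r := by
  refine WP.mono hr (Eventually.of_forall fun t => ?_)
  refine measure_mono_ae ?_
  filter_upwards [h] with x hx h1
  have h2 : Real.exp (r * t) < fn (c.D (a ^ t) x * π' x) := h1
  change Real.exp (r * t) < fn (c.D (a ^ t) x * π x)
  rw [hx]
  exact h2

theorem Rt_mono {c : Coc A X ι μ} {π : X → Matrix ι ι ℝ} {a : A} {r r' : ℝ} (h : c.Rt π a r)
    (hr : r ≤ r') : c.Rt π a r' := by
  refine WP.mono h (Eventually.of_forall fun t => measure_mono ?_)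
  intro x hx
  have h2 : Real.exp (r' * t) < fn (c.D (a ^ t) x * π x) := hx
  change Real.exp (r * t) < fn (c.D (a ^ t) x * π x)
  refine lt_of_le_of_lt (Real.exp_le_exp.2 ?_) h2
  exact mul_le_mul_of_nonneg_right hr (Nat.cast_nonneg t)

/-- Multiplication by a measurable matrix on the right costs nothing. -/
theorem Rt_mul_right [IsFiniteMeasure μ] {c : Coc A X ι μ} {π R : X → Matrix ι ι ℝ} (hR : MM R)
    {a : A} {r r' : ℝ} (hr : r < r') (h : c.Rt π a r) : c.Rt (fun x => π x * R x) a r' := by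
  have h1 : WP μ fun t => {x | Real.exp ((r' - r) * t) < fn (R x)} :=
    WP_of_finite hR.fn (by linarith)
  refine WP.union h h1 (Eventually.of_forall fun t => ?_)
  have h2 : {x | Real.exp (r' * t) < fn (c.D (a ^ t) x * (π x * R x))} \
      ({x | Real.exp (r * t) < fn (c.D (a ^ t) x * π x)} ∪
        {x | Real.exp ((r' - r) * t) < fn (R x)}) = ∅ := by
    refine Set.eq_empty_iff_forall_notMem.2 fun x hx => ?_
    obtain ⟨hx1, hx2⟩ := hx
    simp only [Set.mem_union, Set.mem_ofPred_eq, not_or, not_lt] at hx1 hx2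
    have h3 : fn (c.D (a ^ t) x * (π x * R x)) ≤ Real.exp (r * t) * Real.exp ((r' - r) * t) := by
      rw [← Matrix.mul_assoc]
      exact (fn_mul_le _ _).trans (mul_le_mul hx2.1 hx2.2 (fn_nonneg _) (Real.exp_pos _).le)
    rw [← Real.exp_add, show r * t + (r' - r) * t = r' * t by ring] at h3
    exact absurd hx1 (not_lt.2 h3)
  rw [h2]
  exact measure_empty

/-- The set of bad points is measurable. -/
theorem Rt_meas {c : Coc A X ι μ} {π : X → Matrix ι ι ℝ} (hπ : MM π) (a : A) (r : ℝ) (t : ℕ) :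
    MeasurableSet {x | Real.exp (r * t) < fn (c.D (a ^ t) x * π x)} :=
  measurableSet_lt measurable_const ((c.meas (a ^ t)).mul hπ).fn

/-- Stationarity: the rates hold at the points `h t x`, `h t` measure preserving. -/
theorem Rt.shift {c : Coc A X ι μ} {π : X → Matrix ι ι ℝ} (hπ : MM π) {a : A} {r : ℝ}
    (hr : c.Rt π a r) {h : ℕ → X → X} (hh : ∀ t, MeasurePreserving (h t) μ μ) :
    WP μ fun t => {x | Real.exp (r * t) < fn (c.D (a ^ t) (h t x) * π (h t x))} := by
  refine WP.mono hr (Eventually.of_forall fun t => ?_)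
  exact ((hh t).measure_preimage (Rt_meas hπ a r t).nullMeasurableSet).le

/-- The same for a measurable matrix function alone. -/
theorem WP_fn_shift [IsFiniteMeasure μ] {π : X → Matrix ι ι ℝ} (hπ : MM π) {ε : ℝ} (hε : 0 < ε)
    {h : ℕ → X → X} (hh : ∀ t, MeasurePreserving (h t) μ μ) :
    WP μ fun t => {x | Real.exp (ε * t) < fn (π (h t x))} := by
  refine WP.mono (WP_of_finite hπ.fn hε) (Eventually.of_forall fun t => ?_)
  exact ((hh t).measure_preimage (measurableSet_lt measurable_const hπ.fn).nullMeasurableSet).le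

/-- A subbundle of the twisted cocycle is a subbundle. -/
theorem exists_untwist (c : Coc A X ι μ) (χ : Chi A) (L : ℝ) (S : (c.twist χ L).Sub) :
    ∃ T : c.Sub, ∀ x, T.Q x = S.Q x := by
  refine ⟨⟨S.Q, S.meas, S.symm, S.idem, ?_, ?_⟩, fun _ => rfl⟩
  · filter_upwards [S.le] with x hx
    rwa [twist_one] at hx
  · intro a
    filter_upwards [S.equiv a] with x hx
    rw [twist_D, Matrix.smul_mul, Matrix.mul_smul] at hx
    exact smul_right_injective _ (Real.exp_pos _).ne' hx

/-- Equivariance does not see the twist. -/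
theorem twist_comm (c : Coc A X ι μ) (χ : Chi A) (L : ℝ) {π : X → Matrix ι ι ℝ} {a : A}
    (h : ∀ᵐ x ∂μ, (c.twist χ L).D a x * π x = π (a • x) * (c.twist χ L).D a x) :
    ∀ᵐ x ∂μ, c.D a x * π x = π (a • x) * c.D a x := by
  filter_upwards [h] with x hx
  rw [twist_D, Matrix.smul_mul, Matrix.mul_smul] at hx
  exact smul_right_injective _ (Real.exp_pos _).ne' hx

end

end Coc

end Pool.Agent.H23.DM
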