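import Mathlib
import Pool.Agent.H23.DM.Tw
import Pool.Agent.H23.DM.Sp2

/-!
MODULE Sp4 (MP_d9606f, Part 2, helper93).  The splitting of a cocycle into four equivariant parts with
respect to an element `b` and a threshold `L`:

* `m` (rates of `b` negative), `z` (zero), `p` (positive, at most `L`), `g` (greater than `L`).

It is obtained by applying the two-fold splitting (`Split2`, from `exists_split`) to the twisted
cocycle and `b`, then to its slow part and `b`, then to the slow part of this and `b⁻¹`.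
-/

open MeasureTheory Filter Matrix
open scoped Topology

set_option linter.unusedSectionVars false

namespace Pool.Agent.H23.DM

namespace Coc

noncomputable section

variable {A X ι : Type} [CommGroup A] [MulAction A X] [Fintype ι] [DecidableEq ι]
  [MeasurableSpace X] {μ : Measure X}

/-- An equivariant measurable projection. -/
structure Eqp (c : Coc A X ι μ) (π : X → Matrix ι ι ℝ) : Prop where
  meas : MM π
  idem : ∀ᵐ x ∂μ, π x * π x = π x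
  comm : ∀ a : A, ∀ᵐ x ∂μ, c.D a x * π x = π (a • x) * c.D a x

/-- The two-fold splitting. -/
structure Split2 (c : Coc A X ι μ) (hE : Sys A X μ) (a : A) where
  S : c.Sub
  T : c.Sub
  u : X → Matrix ι ι ℝ
  v : X → Matrix ι ι ℝ
  mu : MM u
  mv : MM v
  sum : ∀ᵐ x ∂μ, u x + v x = c.D 1 x
  Su : ∀ᵐ x ∂μ, S.Q x * u x = u x
  Tv : ∀ᵐ x ∂μ, T.Q x * v x = v x
  uS : ∀ᵐ x ∂μ, u x * S.Q x = S.Q x
  uT : ∀ᵐ x ∂μ, u x * T.Q x = 0
  vT : ∀ᵐ x ∂μ, v x * T.Q x = T.Q x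
  vS : ∀ᵐ x ∂μ, v x * S.Q x = 0
  eu : ∀ b : A, ∀ᵐ x ∂μ, c.D b x * u x = u (b • x) * c.D b x
  ev : ∀ b : A, ∀ᵐ x ∂μ, c.D b x * v x = v (b • x) * c.D b x
  dn : (c.sub hE S).Dn a
  up : (c.sub hE T).Up a

/-- The four-fold splitting. -/
structure Split4 (c : Coc A X ι μ) (b : A) (L : ℝ) where
  /-- negative part -/
  m : X → Matrix ι ι ℝ
  /-- zero part -/
  z : X → Matrix ι ι ℝ
  /-- positive part, at most `L` -/
  p : X → Matrix ι ι ℝ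
  /-- part greater than `L` -/
  g : X → Matrix ι ι ℝ
  em : c.Eqp m
  ez : c.Eqp z
  ep : c.Eqp p
  eg : c.Eqp g
  sum : ∀ᵐ x ∂μ, m x + z x + p x + g x = c.D 1 x
  mz : ∀ᵐ x ∂μ, m x * z x = 0 ∧ z x * m x = 0
  mp : ∀ᵐ x ∂μ, m x * p x = 0 ∧ p x * m x = 0
  mg : ∀ᵐ x ∂μ, m x * g x = 0 ∧ g x * m x = 0
  zp : ∀ᵐ x ∂μ, z x * p x = 0 ∧ p x * z x = 0
  zg : ∀ᵐ x ∂μ, z x * g x = 0 ∧ g x * z x = 0
  pg : ∀ᵐ x ∂μ, p x * g x = 0 ∧ g x * p x = 0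
  rm : ∃ δ : ℝ, 0 < δ ∧ c.Rt m b (-δ)
  rz : ∀ ε : ℝ, 0 < ε → c.Rt z b ε
  rz' : ∀ ε : ℝ, 0 < ε → c.Rt z b⁻¹ ε
  rp : ∃ δ : ℝ, 0 < δ ∧ c.Rt p b⁻¹ (-δ)
  rp' : ∀ ε : ℝ, 0 < ε → c.Rt p b (L + ε)
  rg : ∃ δ : ℝ, 0 < δ ∧ c.Rt g b⁻¹ (-(L + δ))
  rl : ∀ ε : ℝ, 0 < ε → c.Rt (fun x => m x + z x + p x) b (L + ε)

theorem sub_D (c : Coc A X ι μ) (hE : Sys A X μ) (S : c.Sub) (a : A) (x : X) :
    (c.sub hE S).D a x = c.D a x * S.Q x := rfl

/-- a subbundle of a subbundle -/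
private theorem sp_le (c : Coc A X ι μ) (hE : Sys A X μ) (S : c.Sub) (T : (c.sub hE S).Sub) :
    ∀ᵐ x ∂μ, S.Q x * T.Q x = T.Q x := by
  filter_upwards [S.le, T.le] with x h1 h2
  rw [sub_D, h1] at h2
  exact h2

private theorem sp_one (c : Coc A X ι μ) (hE : Sys A X μ) (S : c.Sub) :
    ∀ᵐ x ∂μ, (c.sub hE S).D 1 x = S.Q x := by
  filter_upwards [S.le] with x h1
  rw [sub_D, h1]

private theorem sub_Rt (c : Coc A X ι μ) (hE : Sys A X μ) (S : c.Sub) {π : X → Matrix ι ι ℝ}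
    (h : ∀ᵐ x ∂μ, S.Q x * π x = π x) {a : A} {r : ℝ} (hr : (c.sub hE S).Rt π a r) :
    c.Rt π a r := by
  refine WP.mono hr (Eventually.of_forall fun t => ?_)
  refine measure_mono_ae ?_
  filter_upwards [h] with x hx h1
  have h2 : Real.exp (r * t) < fn (c.D (a ^ t) x * π x) := h1
  change Real.exp (r * t) < fn ((c.sub hE S).D (a ^ t) x * π x)
  rw [sub_D, Matrix.mul_assoc, hx]
  exact h2

/-- The part `Q R` of a function with known rate. -/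
private theorem Rt_part [IsFiniteMeasure μ] {c : Coc A X ι μ} {Q π : X → Matrix ι ι ℝ} (hπ : MM π)
    (h : ∀ᵐ x ∂μ, Q x * π x = π x) {a : A} {r r' : ℝ} (hr : r < r') (hQ : c.Rt Q a r) :
    c.Rt π a r' :=
  Rt_congr h (Rt_mul_right hπ hr hQ)

private theorem sp_red {T1 V1 a b : Matrix ι ι ℝ} (h1 : V1 * T1 = T1) (h2 : T1 * b = b)
    (h3 : a * T1 = a) : a * V1 * (b * V1) = a * b * V1 := by
  calc a * V1 * (b * V1) = a * V1 * (T1 * b * V1) := by rw [h2]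
    _ = a * (V1 * T1) * b * V1 := by simp only [Matrix.mul_assoc]
    _ = a * b * V1 := by rw [h1, h3]

/-- algebra of one two-fold splitting -/
private theorem sp_alg {P S T u v : Matrix ι ι ℝ} (h : u + v = P) (hSu : S * u = u)
    (hTv : T * v = v) (huS : u * S = S) (huT : u * T = 0) (hvT : v * T = T) (hvS : v * S = 0) :
    u * u = u ∧ v * v = v ∧ u * v = 0 ∧ v * u = 0 ∧ u * P = u ∧ v * P = v := by
  have h1 : u * u = u := by
    nth_rewrite 2 [← hSu]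
    rw [← Matrix.mul_assoc, huS, hSu]
  have h2 : v * v = v := by
    nth_rewrite 2 [← hTv]
    rw [← Matrix.mul_assoc, hvT, hTv]
  have h3 : u * v = 0 := by
    rw [← hTv, ← Matrix.mul_assoc, huT, Matrix.zero_mul]
  have h4 : v * u = 0 := by
    rw [← hSu, ← Matrix.mul_assoc, hvS, Matrix.zero_mul]
  refine ⟨h1, h2, h3, h4, ?_, ?_⟩
  · rw [← h, Matrix.mul_add, h1, h3, add_zero]
  · rw [← h, Matrix.mul_add, h2, h4, zero_add]

/-- the relations of the four parts at one point -/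
private def SpRel (P T1 T2 S2 S3 T3 V1 m z p G : Matrix ι ι ℝ) : Prop :=
  m + z + p + G = P ∧ m * m = m ∧ z * z = z ∧ p * p = p ∧ G * G = G ∧
      (m * z = 0 ∧ z * m = 0) ∧ (m * p = 0 ∧ p * m = 0) ∧ (m * G = 0 ∧ G * m = 0) ∧
      (z * p = 0 ∧ p * z = 0) ∧ (z * G = 0 ∧ G * z = 0) ∧ (p * G = 0 ∧ G * p = 0) ∧
      T2 * m = m ∧ T2 * z = z ∧ T1 * p = p ∧ S3 * m = m ∧ T3 * z = z ∧ S2 * p = p ∧
      m + z + p = V1

/-- all relations at one point -/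
private theorem sp_point {P Sg T1 G V1 S2 T2 U2 V2 S3 T3 U3 V3 : Matrix ι ι ℝ}
    (a1 : G + V1 = P) (a2 : Sg * G = G) (a3 : T1 * V1 = V1) (a4 : G * Sg = Sg) (a5 : G * T1 = 0)
    (a6 : V1 * T1 = T1) (a7 : V1 * Sg = 0)
    (b0 : T1 * S2 = S2) (b0' : T1 * T2 = T2)
    (b1 : U2 + V2 = T1) (b2 : S2 * U2 = U2) (b3 : T2 * V2 = V2) (b4 : U2 * S2 = S2) (b5 : U2 * T2 = 0)
    (b6 : V2 * T2 = T2) (b7 : V2 * S2 = 0)
    (c0 : T2 * S3 = S3) (c0' : T2 * T3 = T3)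
    (c1 : U3 + V3 = T2) (c2 : S3 * U3 = U3) (c3 : T3 * V3 = V3) (c4 : U3 * S3 = S3) (c5 : U3 * T3 = 0)
    (c6 : V3 * T3 = T3) (c7 : V3 * S3 = 0) :
    SpRel P T1 T2 S2 S3 T3 V1 (U3 * V2 * V1) (V3 * V2 * V1) (U2 * V1) G := by
  obtain ⟨d1, d2, d3, d4, d5, d6⟩ := sp_alg a1 a2 a3 a4 a5 a6 a7
  obtain ⟨e1, e2, e3, e4, e5, e6⟩ := sp_alg b1 b2 b3 b4 b5 b6 b7
  obtain ⟨f1, f2, f3, f4, f5, f6⟩ := sp_alg c1 c2 c3 c4 c5 c6 c7
  have hT2U3 : T2 * U3 = U3 := by rw [← c2, ← Matrix.mul_assoc, c0]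
  have hT2V3 : T2 * V3 = V3 := by rw [← c3, ← Matrix.mul_assoc, c0']
  have hT1U3 : T1 * U3 = U3 := by rw [← hT2U3, ← Matrix.mul_assoc, b0']
  have hT1V3 : T1 * V3 = V3 := by rw [← hT2V3, ← Matrix.mul_assoc, b0']
  have hT1U2 : T1 * U2 = U2 := by rw [← b2, ← Matrix.mul_assoc, b0]
  have hT1a : T1 * (U3 * V2) = U3 * V2 := by rw [← Matrix.mul_assoc, hT1U3]
  have hT1b : T1 * (V3 * V2) = V3 * V2 := by rw [← Matrix.mul_assoc, hT1V3]
  have haT1 : U3 * V2 * T1 = U3 * V2 := by rw [Matrix.mul_assoc, e6]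
  have hbT1 : V3 * V2 * T1 = V3 * V2 := by rw [Matrix.mul_assoc, e6]
  have hV2U3 : V2 * U3 = U3 := by rw [← hT2U3, ← Matrix.mul_assoc, b6]
  have hV2V3 : V2 * V3 = V3 := by rw [← hT2V3, ← Matrix.mul_assoc, b6]
  have hU2U3 : U2 * U3 = 0 := by rw [← hT2U3, ← Matrix.mul_assoc, b5, Matrix.zero_mul]
  have hU2V3 : U2 * V3 = 0 := by rw [← hT2V3, ← Matrix.mul_assoc, b5, Matrix.zero_mul]
  have hs : U3 * V2 * V1 + V3 * V2 * V1 + U2 * V1 = V1 := by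
    rw [← Matrix.add_mul (U3 * V2), ← Matrix.add_mul U3 V3 V2, c1, b3, ← Matrix.add_mul V2 U2 V1,
      add_comm V2 U2, b1, a3]
  have hV1G : V1 * G = 0 := d4
  have key : ∀ a : Matrix ι ι ℝ, a * V1 * G = 0 := fun a => by
    rw [Matrix.mul_assoc, hV1G, Matrix.mul_zero]
  have key2 : ∀ a : Matrix ι ι ℝ, T1 * a = a → G * (a * V1) = 0 := fun a ha => by
    rw [← Matrix.mul_assoc, ← ha, ← Matrix.mul_assoc, a5, Matrix.zero_mul, Matrix.zero_mul]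
  refine ⟨?_, ?_, ?_, ?_, d1, ⟨?_, ?_⟩, ⟨?_, ?_⟩, ⟨key _, key2 _ hT1a⟩, ⟨?_, ?_⟩, ⟨key _, key2 _ hT1b⟩,
    ⟨key _, key2 _ hT1U2⟩, ?_, ?_, ?_, ?_, ?_, ?_, hs⟩
  · rw [hs, add_comm, a1]
  · rw [sp_red a6 hT1a haT1, Matrix.mul_assoc U3 V2 (U3 * V2), ← Matrix.mul_assoc V2 U3 V2, hV2U3,
      ← Matrix.mul_assoc U3 U3 V2, f1]
  · rw [sp_red a6 hT1b hbT1, Matrix.mul_assoc V3 V2 (V3 * V2), ← Matrix.mul_assoc V2 V3 V2, hV2V3,
      ← Matrix.mul_assoc V3 V3 V2, f2]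
  · rw [sp_red a6 hT1U2 e5, e1]
  · rw [sp_red a6 hT1b haT1, Matrix.mul_assoc U3 V2 (V3 * V2), ← Matrix.mul_assoc V2 V3 V2, hV2V3,
      ← Matrix.mul_assoc U3 V3 V2, f3, Matrix.zero_mul, Matrix.zero_mul]
  · rw [sp_red a6 hT1a hbT1, Matrix.mul_assoc V3 V2 (U3 * V2), ← Matrix.mul_assoc V2 U3 V2, hV2U3,
      ← Matrix.mul_assoc V3 U3 V2, f4, Matrix.zero_mul, Matrix.zero_mul]
  · rw [sp_red a6 hT1U2 haT1, Matrix.mul_assoc U3 V2 U2, e4, Matrix.mul_zero, Matrix.zero_mul]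
  · rw [sp_red a6 hT1a e5, ← Matrix.mul_assoc U2 U3 V2, hU2U3, Matrix.zero_mul, Matrix.zero_mul]
  · rw [sp_red a6 hT1U2 hbT1, Matrix.mul_assoc V3 V2 U2, e4, Matrix.mul_zero, Matrix.zero_mul]
  · rw [sp_red a6 hT1b e5, ← Matrix.mul_assoc U2 V3 V2, hU2V3, Matrix.zero_mul, Matrix.zero_mul]
  · rw [Matrix.mul_assoc U3, ← Matrix.mul_assoc T2, hT2U3]
  · rw [Matrix.mul_assoc V3, ← Matrix.mul_assoc T2, hT2V3]
  · rw [← Matrix.mul_assoc, hT1U2]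
  · rw [Matrix.mul_assoc U3, ← Matrix.mul_assoc S3, c2]
  · rw [Matrix.mul_assoc V3, ← Matrix.mul_assoc T3, c3]
  · rw [← Matrix.mul_assoc, b2]

/-- The four-fold splitting from three two-fold splittings. -/
theorem exists_split4_of (hE : Sys A X μ) (c : Coc A X ι μ) (b : A) (χ : Chi A) (hχ : χ.f b = 1)
    {L : ℝ} (s1 : (c.twist χ L).Split2 hE b) (T1 : c.Sub) (hT1 : ∀ x, T1.Q x = s1.T.Q x)
    (s2 : (c.sub hE T1).Split2 hE b) (s3 : ((c.sub hE T1).sub hE s2.T).Split2 hE b⁻¹) :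
    Nonempty (c.Split4 b L) := by
  have : IsProbabilityMeasure μ := hE.prob
  have hone1 := sp_one c hE T1
  have hone2 := sp_one (c.sub hE T1) hE s2.T
  have hS2 := sp_le c hE T1 s2.S
  have hT2 := sp_le c hE T1 s2.T
  have hS3 := sp_le (c.sub hE T1) hE s2.T s3.S
  have hT3 := sp_le (c.sub hE T1) hE s2.T s3.T
  -- the relations
  have rel : ∀ᵐ x ∂μ, SpRel (c.D 1 x) (T1.Q x) (s2.T.Q x) (s2.S.Q x) (s3.S.Q x) (s3.T.Q x) (s1.v x)
      (s3.u x * s2.v x * s1.v x) (s3.v x * s2.v x * s1.v x) (s2.u x * s1.v x) (s1.u x) := by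
    filter_upwards [s1.sum, s1.Su, s1.Tv, s1.uS, s1.uT, s1.vT, s1.vS, hS2, hT2, hone1, s2.sum, s2.Su,
      s2.Tv, s2.uS, s2.uT, s2.vT, s2.vS, hS3, hT3, hone2, s3.sum, s3.Su, s3.Tv, s3.uS, s3.uT, s3.vT,
      s3.vS] with x a1 a2 a3 a4 a5 a6 a7 b0 b0' b1' b1 b2 b3 b4 b5 b6 b7 c0 c0' c1' c1 c2 c3 c4 c5 c6 c7
    rw [twist_one] at a1
    rw [← hT1] at a3 a5 a6
    rw [b1'] at b1
    rw [c1'] at c1
    exact sp_point a1 a2 a3 a4 a5 a6 a7 b0 b0' b1 b2 b3 b4 b5 b6 b7 c0 c0' c1 c2 c3 c4 c5 c6 c7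
  -- equivariance
  have eV1 : ∀ a : A, ∀ᵐ x ∂μ, c.D a x * s1.v x = s1.v (a • x) * c.D a x := fun a =>
    twist_comm c χ L (s1.ev a)
  have eG : ∀ a : A, ∀ᵐ x ∂μ, c.D a x * s1.u x = s1.u (a • x) * c.D a x := fun a =>
    twist_comm c χ L (s1.eu a)
  have step : ∀ π : X → Matrix ι ι ℝ, (∀ᵐ x ∂μ, T1.Q x * π x = π x) → (∀ a : A, ∀ᵐ x ∂μ,
      (c.sub hE T1).D a x * π x = π (a • x) * (c.sub hE T1).D a x) → ∀ a : A, ∀ᵐ x ∂μ,
      c.D a x * (π x * s1.v x) = π (a • x) * s1.v (a • x) * c.D a x := by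
    intro π h1 h2 a
    filter_upwards [h1, h2 a, eV1 a, s1.Tv] with x g1 g2 g3 g4
    rw [sub_D, Matrix.mul_assoc, g1] at g2
    rw [← hT1] at g4
    rw [← Matrix.mul_assoc, g2, Matrix.mul_assoc (π (a • x)), Matrix.mul_assoc (c.D a x), g4, g3,
      Matrix.mul_assoc]
  have hU2T : ∀ᵐ x ∂μ, T1.Q x * s2.u x = s2.u x := by
    filter_upwards [hS2, s2.Su] with x g1 g2
    rw [← g2, ← Matrix.mul_assoc, g1]
  have hTT : ∀ π : X → Matrix ι ι ℝ, (∀ᵐ x ∂μ, s2.T.Q x * π x = π x) → (∀ a : A, ∀ᵐ x ∂μ,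
      ((c.sub hE T1).sub hE s2.T).D a x * π x = π (a • x) * ((c.sub hE T1).sub hE s2.T).D a x) →
      ∀ a : A, ∀ᵐ x ∂μ, (c.sub hE T1).D a x * (π x * s2.v x) =
        π (a • x) * s2.v (a • x) * (c.sub hE T1).D a x := by
    intro π h1 h2 a
    filter_upwards [h1, h2 a, s2.ev a, s2.Tv] with x g1 g2 g3 g4
    rw [sub_D (c.sub hE T1), Matrix.mul_assoc, g1] at g2
    rw [← Matrix.mul_assoc, g2, Matrix.mul_assoc (π (a • x)), Matrix.mul_assoc ((c.sub hE T1).D a x),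
      g4, g3, Matrix.mul_assoc]
  have hT2U3 : ∀ᵐ x ∂μ, s2.T.Q x * s3.u x = s3.u x := by
    filter_upwards [hS3, s3.Su] with x g1 g2
    rw [← g2, ← Matrix.mul_assoc, g1]
  have hT2V3 : ∀ᵐ x ∂μ, s2.T.Q x * s3.v x = s3.v x := by
    filter_upwards [hT3, s3.Tv] with x g1 g2
    rw [← g2, ← Matrix.mul_assoc, g1]
  have hT1a : ∀ᵐ x ∂μ, T1.Q x * (s3.u x * s2.v x) = s3.u x * s2.v x := by
    filter_upwards [hT2, hT2U3] with x g1 g2
    rw [← Matrix.mul_assoc, ← g2, ← Matrix.mul_assoc, g1]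
  have hT1b : ∀ᵐ x ∂μ, T1.Q x * (s3.v x * s2.v x) = s3.v x * s2.v x := by
    filter_upwards [hT2, hT2V3] with x g1 g2
    rw [← Matrix.mul_assoc, ← g2, ← Matrix.mul_assoc, g1]
  -- measurability
  have mm' : MM fun x => s3.u x * s2.v x * s1.v x := (s3.mu.mul s2.mv).mul s1.mv
  have mz' : MM fun x => s3.v x * s2.v x * s1.v x := (s3.mv.mul s2.mv).mul s1.mv
  have mp' : MM fun x => s2.u x * s1.v x := s2.mu.mul s1.mv
  -- rates
  obtain ⟨δ1, hδ1, r1⟩ := s1.dn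
  obtain ⟨δ2, hδ2, r2⟩ := s2.dn
  obtain ⟨δ3, hδ3, r3⟩ := s3.dn
  have r1' : c.Rt s1.S.Q b⁻¹ (-(L + δ1)) := by
    have h := (twist_Rt c χ L (π := s1.S.Q)).1 r1
    rw [χ.inv, hχ] at h
    refine Rt_mono h (by linarith)
  have r2' : c.Rt s2.S.Q b⁻¹ (-δ2) := sub_Rt c hE T1 hS2 r2
  have r3' : c.Rt s3.S.Q b (-δ3) := by
    have h : ((c.sub hE T1).sub hE s2.T).Rt s3.S.Q b (-δ3) := by
      have h' := r3
      rw [inv_inv] at h'
      exact h'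
    have h2 := sub_Rt (c.sub hE T1) hE s2.T hS3 h
    refine sub_Rt c hE T1 ?_ h2
    filter_upwards [hT2, hS3] with x g1 g2
    rw [← g2, ← Matrix.mul_assoc, g1]
  have q1 : ∀ ε : ℝ, 0 < ε → c.Rt s1.T.Q b (L + ε) := by
    intro ε hε
    have h := (twist_Rt c χ L (π := s1.T.Q)).1 (s1.up ε hε)
    rw [hχ] at h
    exact Rt_mono h (by linarith)
  have q2 : ∀ ε : ℝ, 0 < ε → c.Rt s2.T.Q b ε := fun ε hε => sub_Rt c hE T1 hT2 (s2.up ε hε)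
  have q3 : ∀ ε : ℝ, 0 < ε → c.Rt s3.T.Q b⁻¹ ε := by
    intro ε hε
    have h2 := sub_Rt (c.sub hE T1) hE s2.T hT3 (s3.up ε hε)
    refine sub_Rt c hE T1 ?_ h2
    filter_upwards [hT2, hT3] with x g1 g2
    rw [← g2, ← Matrix.mul_assoc, g1]
  have hlow : ∀ᵐ x ∂μ, s3.u x * s2.v x * s1.v x + s3.v x * s2.v x * s1.v x + s2.u x * s1.v x =
      s1.v x := by
    filter_upwards [rel] with x h
    exact h.2.2.2.2.2.2.2.2.2.2.2.2.2.2.2.2.2
  refine ⟨{ m := fun x => s3.u x * s2.v x * s1.v x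
            z := fun x => s3.v x * s2.v x * s1.v x
            p := fun x => s2.u x * s1.v x
            g := s1.u
            em := ⟨mm', ?_, ?_⟩
            ez := ⟨mz', ?_, ?_⟩
            ep := ⟨mp', ?_, ?_⟩
            eg := ⟨s1.mu, ?_, eG⟩
            sum := ?_, mz := ?_, mp := ?_, mg := ?_, zp := ?_, zg := ?_, pg := ?_
            rm := ?_, rz := ?_, rz' := ?_, rp := ?_, rp' := ?_, rg := ?_, rl := ?_ }⟩
  · filter_upwards [rel] with x h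
    exact h.2.1
  · exact step (fun x => s3.u x * s2.v x) hT1a (hTT s3.u hT2U3 s3.eu)
  · filter_upwards [rel] with x h
    exact h.2.2.1
  · exact step (fun x => s3.v x * s2.v x) hT1b (hTT s3.v hT2V3 s3.ev)
  · filter_upwards [rel] with x h
    exact h.2.2.2.1
  · exact step s2.u hU2T s2.eu
  · filter_upwards [rel] with x h
    exact h.2.2.2.2.1
  · filter_upwards [rel] with x h
    exact h.1
  · filter_upwards [rel] with x h
    exact h.2.2.2.2.2.1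
  · filter_upwards [rel] with x h
    exact h.2.2.2.2.2.2.1
  · filter_upwards [rel] with x h
    exact h.2.2.2.2.2.2.2.1
  · filter_upwards [rel] with x h
    exact h.2.2.2.2.2.2.2.2.1
  · filter_upwards [rel] with x h
    exact h.2.2.2.2.2.2.2.2.2.1
  · filter_upwards [rel] with x h
    exact h.2.2.2.2.2.2.2.2.2.2.1
  · refine ⟨δ3 / 2, by linarith, Rt_part mm' ?_ (by linarith) r3'⟩
    filter_upwards [rel] with x h
    exact h.2.2.2.2.2.2.2.2.2.2.2.2.2.2.1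
  · intro ε hε
    refine Rt_part mz' ?_ (by linarith) (q2 (ε / 2) (by linarith))
    filter_upwards [rel] with x h
    exact h.2.2.2.2.2.2.2.2.2.2.2.2.1
  · intro ε hε
    refine Rt_part mz' ?_ (by linarith) (q3 (ε / 2) (by linarith))
    filter_upwards [rel] with x h
    exact h.2.2.2.2.2.2.2.2.2.2.2.2.2.2.2.1
  · refine ⟨δ2 / 2, by linarith, Rt_part mp' ?_ (by linarith) r2'⟩
    filter_upwards [rel] with x h
    exact h.2.2.2.2.2.2.2.2.2.2.2.2.2.2.2.2.1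
  · intro ε hε
    refine Rt_part mp' ?_ (by linarith) (q1 (ε / 2) (by linarith))
    filter_upwards [rel] with x h
    rw [← hT1]
    exact h.2.2.2.2.2.2.2.2.2.2.2.2.2.1
  · exact ⟨δ1 / 2, by linarith, Rt_part s1.mu s1.Su (by linarith) r1'⟩
  · intro ε hε
    have h := Rt_part s1.mv s1.Tv (by linarith) (q1 (ε / 2) (by linarith)) (r' := L + ε)
    refine Rt_congr ?_ h
    filter_upwards [hlow] with x hx
    exact hx.symm

end

end Coc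

end Pool.Agent.H23.DM
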