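import Mathlib
import Pool.Agent.H23.DM.Coc
import Pool.Agent.H73.PZ.Grp
import Pool.Agent.H73.PZ.G1
import Pool.Agent.H73.PZ.G7

/-!
The group `A`, root subgroups, homogeneous spaces (MP_d9606f_gt, helper23; definitions).

* `AA p n`: the subgroup of the matrices `dg p a = diag (p ^ a_i)`, `∑ a_i = 0`; it is abelian and
  countable, it acts on every space on which `SLn p n` acts.
* `HSp p n F h`: the interface of `F = SL_n(ℚ_p) / Γ` (compact), `h` = the invariant probability
  measure: full support, orbits of the congruence groups are open, transitive.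
* `UInv p μ h`, `h : i ≠ j`: `μ` is invariant under the root group `U^{ij}`.
-/

open MeasureTheory Filter Matrix
open scoped Topology

namespace Pool.Agent.H23.DM

open Pool.Agent.H73.PZ

noncomputable section

/-- The diagonal subgroup with entries powers of `p`. -/
def AA (p : ℕ) [Fact p.Prime] (n : ℕ) : Subgroup (SLn p n) where
  carrier := {g | ∃ a : Fin n → ℤ, ∑ i, a i = 0 ∧ g = dg p a}
  mul_mem' := by
    rintro _ _ ⟨a, ha, rfl⟩ ⟨b, hb, rfl⟩
    exact ⟨fun i => a i + b i, by rw [Finset.sum_add_distrib, ha, hb, add_zero],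
      (dg_add ha hb).symm⟩
  one_mem' := ⟨fun _ => 0, by simp, dg_zero.symm⟩
  inv_mem' := by
    rintro _ ⟨a, ha, rfl⟩
    exact ⟨fun i => -a i, by rw [Finset.sum_neg_distrib, ha, neg_zero], (dg_neg ha).symm⟩

variable {p : ℕ} [Fact p.Prime] {n : ℕ}

theorem mem_AA {g : SLn p n} : g ∈ AA p n ↔ ∃ a : Fin n → ℤ, ∑ i, a i = 0 ∧ g = dg p a := Iff.rfl

theorem AA_comm {g g' : SLn p n} (h : g ∈ AA p n) (h' : g' ∈ AA p n) : g * g' = g' * g := by
  obtain ⟨a, ha, rfl⟩ := h
  obtain ⟨b, hb, rfl⟩ := h'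
  rw [← dg_add ha hb, ← dg_add hb ha]
  congr 1
  funext i
  exact add_comm _ _

instance instCommGroupAA : CommGroup (AA p n) :=
  { (inferInstance : Group (AA p n)) with
    mul_comm := fun a b => Subtype.ext (AA_comm a.2 b.2) }

instance instCountableAA : Countable (AA p n) := by
  have : Function.Surjective (fun a : {a : Fin n → ℤ // ∑ i, a i = 0} =>
      (⟨dg p a.1, a.1, a.2, rfl⟩ : AA p n)) := by
    rintro ⟨g, a, ha, rfl⟩
    exact ⟨⟨a, ha⟩, rfl⟩
  exact this.countable

/-- The element `dg p a` of `AA p n`. -/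
def mkA (p : ℕ) [Fact p.Prime] {n : ℕ} (a : Fin n → ℤ) (ha : ∑ i, a i = 0) : AA p n :=
  ⟨dg p a, a, ha, rfl⟩

/-- The exponents of the coroot element: `1` at `j`, `-1` at `i`. -/
def te {n : ℕ} (i j : Fin n) (k : Fin n) : ℤ := (if k = j then 1 else 0) - (if k = i then 1 else 0)

theorem sum_te {n : ℕ} (i j : Fin n) : ∑ k, te i j k = 0 := by
  unfold te
  rw [Finset.sum_sub_distrib]
  simp

/-- The measure `μ` is invariant under the root group `U^{ij}`. -/
def UInv (p : ℕ) [Fact p.Prime] {n : ℕ} {Y : Type} [MeasurableSpace Y] [MulAction (SLn p n) Y]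
    (μ : Measure Y) {i j : Fin n} (h : i ≠ j) : Prop :=
  ∀ x : ℚ_[p], MeasurePreserving (fun y : Y => EE h x • y) μ μ

/-- The measure `μ` is invariant under `A`. -/
def AInv (p : ℕ) [Fact p.Prime] (n : ℕ) {Y : Type} [MeasurableSpace Y] [MulAction (SLn p n) Y]
    (μ : Measure Y) : Prop := ∀ a : AA p n, MeasurePreserving (fun y : Y => a • y) μ μ

/-- The compact homogeneous space `F = G / Γ` with its invariant probability measure. -/
structure HSp (p : ℕ) [Fact p.Prime] (n : ℕ) (F : Type) [TopologicalSpace F] [MeasurableSpace F]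
    [MulAction (SLn p n) F] (h : Measure F) : Prop where
  prob : IsProbabilityMeasure h
  inv : ∀ g : SLn p n, MeasurePreserving (fun f : F => g • f) h h
  supp : ∀ U : Set F, IsOpen U → U.Nonempty → 0 < h U
  orb : ∀ (l : ℕ) (f : F), IsOpen {f' : F | ∃ k ∈ KM p n l, f' = k • f}
  trans : ∀ f f' : F, ∃ g : SLn p n, g • f = f'

end

end Pool.Agent.H23.DM
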