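import Mathlib
import Pool.Agent.H23.DM.Gsp

/-!
Part 1 of MP_d9606f_gt in kappa form, definitions (helper23).

`Y` is a compact metrisable space (`CompactSpace`, `T2Space`, `SecondCountableTopology`) with its
Borel sets.
* `Cvx N`: the set `N` of probability measures on `Y` is convex.
* `Inv1 T ν`: `ν` is invariant under the map `T`.
* `Sub1 L`: `L g y` is continuous and `L (g g') y ≤ L g (g' y) + L g' y`
  (`L g y = log (norm of the derivative of g at y)`).
* `kap L a μ = inf_T (1/T) ∫ L (a^T)`.
-/

open MeasureTheory Filter Matrix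
open scoped Topology ENNReal

namespace Pool.Agent.H23.DM

open Pool.Agent.H73.PZ

noncomputable section

/-- A convex set of probability measures. -/
def Cvx {Y : Type} [MeasurableSpace Y] (N : Set (ProbabilityMeasure Y)) : Prop :=
  ∀ (ν ν' σ : ProbabilityMeasure Y) (t : ℝ≥0∞), ν ∈ N → ν' ∈ N → t ≤ 1 →
    (σ : Measure Y) = t • (ν : Measure Y) + (1 - t) • (ν' : Measure Y) → σ ∈ N

/-- Push-forward of a probability measure under a continuous map. -/
def psh {Y Z : Type} [TopologicalSpace Y] [MeasurableSpace Y] [BorelSpace Y] [TopologicalSpace Z]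
    [MeasurableSpace Z] [BorelSpace Z] (T : Y → Z) (hT : Continuous T) (ν : ProbabilityMeasure Y) :
    ProbabilityMeasure Z := ν.map hT.measurable.aemeasurable

/-- `ν` is invariant under `T`. -/
def Inv1 {Y : Type} [MeasurableSpace Y] (T : Y → Y) (ν : ProbabilityMeasure Y) : Prop :=
  MeasurePreserving T (ν : Measure Y) (ν : Measure Y)

variable {p : ℕ} [Fact p.Prime] {n : ℕ}

/-- A continuous subadditive cocycle. -/
structure Sub1 {Y : Type} [TopologicalSpace Y] [MulAction (SLn p n) Y] (L : SLn p n → Y → ℝ) :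
    Prop where
  cont : Continuous fun q : SLn p n × Y => L q.1 q.2
  sub : ∀ g g' y, L (g * g') y ≤ L g (g' • y) + L g' y

/-- The top growth rate of `a` with respect to `μ`. -/
def kap {Y : Type} [MeasurableSpace Y] (L : SLn p n → Y → ℝ) (a : SLn p n) (μ : Measure Y) : ℝ :=
  ⨅ T : ℕ, (∫ y, L (a ^ (T + 1)) y ∂μ) / ((T : ℝ) + 1)

end

end Pool.Agent.H23.DM
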