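import Mathlib
import Pool.Agent.H23.DM.Kap

/-!
MODULE Av1 (MP_d9606f_gt, Part 1).  The Markov-Kakutani theorem for probability measures.

`fixed_one`: `ν ∈ N`, `σ_K = (1/(K+1)) ∑_{k≤K} (T^k)_* ν ∈ N` (induction on `K` with `Cvx`:
`σ_(K+1) = (K+1)/(K+2) σ_K + 1/(K+2) (T^(K+1))_* ν`); `ProbabilityMeasure Y` is compact
(`MeasureTheory` instance, Prokhorov) and metrisable/T2, take a cluster point `σ` of `σ_K` in the
closed set `N`; `|∫ f∘T dσ_K - ∫ f dσ_K| ≤ 2 ‖f‖ / (K+1)`, so `T_* σ = σ`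
(`ProbabilityMeasure` is T2 / measures are determined by integrals of continuous functions).
`MK`: for finitely many maps by induction (the fixed points of `T 1 .. T k` in `N` form a nonempty
closed convex set, stable under `T (k+1)` by commutation), for arbitrarily many by compactness
(`IsCompact.inter_iInter_nonempty` or the finite intersection property).
-/

open MeasureTheory Filter Matrix
open scoped Topology ENNReal

namespace Pool.Agent.H23.DM

variable {Y : Type} [TopologicalSpace Y] [CompactSpace Y] [T2Space Y] [SecondCountableTopology Y]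
  [MeasurableSpace Y] [BorelSpace Y]

omit [CompactSpace Y] [T2Space Y] [SecondCountableTopology Y] in
private theorem av1_inv_iff {T : Y → Y} (hT : Continuous T) (ν : ProbabilityMeasure Y) :
    Inv1 T ν ↔ psh T hT ν = ν := by
  constructor
  · intro h
    exact Subtype.ext h.map_eq
  · intro h
    exact ⟨hT.measurable, congrArg ProbabilityMeasure.toMeasure h⟩

theorem isClosed_inv {T : Y → Y} (hT : Continuous T) :
    IsClosed {ν : ProbabilityMeasure Y | Inv1 T ν} := by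
  have h : {ν : ProbabilityMeasure Y | Inv1 T ν} = {ν | psh T hT ν = ν} :=
    Set.ext fun ν => av1_inv_iff hT ν
  rw [h]
  exact isClosed_eq (ProbabilityMeasure.continuous_map hT) continuous_id

theorem cvx_inv {T : Y → Y} (hT : Continuous T) : Cvx {ν : ProbabilityMeasure Y | Inv1 T ν} := by
  intro ν ν' σ t h h' _ hσ
  have h1 : Inv1 T ν := h
  have h2 : Inv1 T ν' := h'
  refine ⟨hT.measurable, ?_⟩
  rw [hσ, Measure.map_add _ _ hT.measurable, Measure.map_smul, Measure.map_smul, h1.map_eq,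
    h2.map_eq]

theorem inv_iff_psh {T : Y → Y} (hT : Continuous T) (ν : ProbabilityMeasure Y) :
    Inv1 T ν ↔ psh T hT ν = ν := by
  exact av1_inv_iff hT ν

/-- the iterated images -/
private noncomputable def av1_it (T : Y → Y) (hT : Continuous T) (ν : ProbabilityMeasure Y) :
    ℕ → ProbabilityMeasure Y
  | 0 => ν
  | k + 1 => psh T hT (av1_it T hT ν k)

omit [CompactSpace Y] [T2Space Y] [SecondCountableTopology Y] in
private theorem av1_it_succ (T : Y → Y) (hT : Continuous T) (ν : ProbabilityMeasure Y) (k : ℕ) :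
    ((av1_it T hT ν (k + 1) : ProbabilityMeasure Y) : Measure Y) =
      Measure.map T ((av1_it T hT ν k : ProbabilityMeasure Y) : Measure Y) := rfl

omit [CompactSpace Y] [T2Space Y] [SecondCountableTopology Y] in
private theorem av1_mem {N : Set (ProbabilityMeasure Y)} {T : Y → Y} (hT : Continuous T)
    (hst : ∀ ν ∈ N, psh T hT ν ∈ N) {ν : ProbabilityMeasure Y} (hν : ν ∈ N) (k : ℕ) :
    av1_it T hT ν k ∈ N := by
  induction k with
  | zero => exact hν
  | succ k ih => exact hst _ ih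

/-- the averages -/
private noncomputable def av1_avm (T : Y → Y) (hT : Continuous T) (ν : ProbabilityMeasure Y)
    (K : ℕ) : Measure Y :=
  ((K : ℝ≥0∞) + 1)⁻¹ • ∑ k ∈ Finset.range (K + 1),
    ((av1_it T hT ν k : ProbabilityMeasure Y) : Measure Y)

private theorem av1_ne (K : ℕ) : ((K : ℝ≥0∞) + 1) ≠ 0 ∧ ((K : ℝ≥0∞) + 1) ≠ ⊤ := by
  refine ⟨?_, ?_⟩
  · exact (zero_lt_one.trans_le le_add_self).ne'
  · exact ENNReal.add_ne_top.2 ⟨ENNReal.natCast_ne_top K, ENNReal.one_ne_top⟩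

omit [CompactSpace Y] [T2Space Y] [SecondCountableTopology Y] in
private theorem av1_prob (T : Y → Y) (hT : Continuous T) (ν : ProbabilityMeasure Y) (K : ℕ) :
    IsProbabilityMeasure (av1_avm T hT ν K) := by
  refine ⟨?_⟩
  unfold av1_avm
  rw [Measure.smul_apply, Measure.finsetSum_apply]
  have h : ∑ k ∈ Finset.range (K + 1),
      ((av1_it T hT ν k : ProbabilityMeasure Y) : Measure Y) Set.univ = (K : ℝ≥0∞) + 1 := by
    rw [Finset.sum_congr rfl fun k _ => measure_univ, Finset.sum_const, Finset.card_range,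
      nsmul_eq_mul, mul_one]
    push_cast
    rfl
  rw [h, smul_eq_mul]
  exact ENNReal.inv_mul_cancel (av1_ne K).1 (av1_ne K).2

private noncomputable def av1_av (T : Y → Y) (hT : Continuous T) (ν : ProbabilityMeasure Y)
    (K : ℕ) : ProbabilityMeasure Y := ⟨av1_avm T hT ν K, av1_prob T hT ν K⟩

omit [CompactSpace Y] [T2Space Y] [SecondCountableTopology Y] in
private theorem av1_av_mem {N : Set (ProbabilityMeasure Y)} (hcv : Cvx N) {T : Y → Y}
    (hT : Continuous T) (hst : ∀ ν ∈ N, psh T hT ν ∈ N) {ν : ProbabilityMeasure Y} (hν : ν ∈ N)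
    (K : ℕ) : av1_av T hT ν K ∈ N := by
  induction K with
  | zero =>
    have h : av1_av T hT ν 0 = ν := by
      refine Subtype.ext ?_
      show av1_avm T hT ν 0 = _
      unfold av1_avm
      rw [Nat.cast_zero, zero_add, inv_one, one_smul, zero_add, Finset.sum_range_one]
      rfl
    rw [h]
    exact hν
  | succ K ih =>
    have hK := av1_ne K
    have hK' := av1_ne (K + 1)
    have e0 : (((K + 1 : ℕ) : ℝ≥0∞) + 1) = ((K : ℝ≥0∞) + 1) + 1 := by push_cast; rfl
    have e1 : (((K + 1 : ℕ) : ℝ≥0∞) + 1)⁻¹ + ((K : ℝ≥0∞) + 1) * (((K + 1 : ℕ) : ℝ≥0∞) + 1)⁻¹ = 1 := by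
      have : (((K + 1 : ℕ) : ℝ≥0∞) + 1)⁻¹ + ((K : ℝ≥0∞) + 1) * (((K + 1 : ℕ) : ℝ≥0∞) + 1)⁻¹ =
          (((K : ℝ≥0∞) + 1) + 1) * (((K + 1 : ℕ) : ℝ≥0∞) + 1)⁻¹ := by ring
      rw [this, e0]
      rw [e0] at hK'
      exact ENNReal.mul_inv_cancel hK'.1 hK'.2
    have ht : ((K : ℝ≥0∞) + 1) * (((K + 1 : ℕ) : ℝ≥0∞) + 1)⁻¹ ≤ 1 := by
      exact le_add_self.trans_eq e1
    have e2 : 1 - ((K : ℝ≥0∞) + 1) * (((K + 1 : ℕ) : ℝ≥0∞) + 1)⁻¹ =
        (((K + 1 : ℕ) : ℝ≥0∞) + 1)⁻¹ :=
      (ENNReal.eq_sub_of_add_eq (ne_top_of_le_ne_top ENNReal.one_ne_top ht) e1).symm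
    refine hcv _ _ _ (((K : ℝ≥0∞) + 1) * (((K + 1 : ℕ) : ℝ≥0∞) + 1)⁻¹) ih
      (av1_mem hT hst hν (K + 1)) ht ?_
    show av1_avm T hT ν (K + 1) = _ • av1_avm T hT ν K + _
    rw [e2]
    unfold av1_avm
    rw [Finset.sum_range_succ _ (K + 1), smul_add, smul_smul]
    congr 2
    rw [mul_comm ((K : ℝ≥0∞) + 1), mul_assoc, ENNReal.mul_inv_cancel hK.1 hK.2, mul_one]

omit [CompactSpace Y] [T2Space Y] [SecondCountableTopology Y] in
/-- the telescoping identity -/
private theorem av1_tel (T : Y → Y) (hT : Continuous T) (ν : ProbabilityMeasure Y) (K : ℕ) :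
    ((psh T hT (av1_av T hT ν K) : ProbabilityMeasure Y) : Measure Y) +
        ((K : ℝ≥0∞) + 1)⁻¹ • (ν : Measure Y) =
      ((av1_av T hT ν K : ProbabilityMeasure Y) : Measure Y) +
        ((K : ℝ≥0∞) + 1)⁻¹ • ((av1_it T hT ν (K + 1) : ProbabilityMeasure Y) : Measure Y) := by
  have h1 : ((psh T hT (av1_av T hT ν K) : ProbabilityMeasure Y) : Measure Y) =
      ((K : ℝ≥0∞) + 1)⁻¹ • ∑ k ∈ Finset.range (K + 1),
        ((av1_it T hT ν (k + 1) : ProbabilityMeasure Y) : Measure Y) := by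
    show Measure.map T (av1_avm T hT ν K) = _
    unfold av1_avm
    rw [Measure.map_smul, Measure.map_finset_sum hT.measurable.aemeasurable]
    rfl
  have h2 : ((av1_av T hT ν K : ProbabilityMeasure Y) : Measure Y) =
      ((K : ℝ≥0∞) + 1)⁻¹ • ∑ k ∈ Finset.range (K + 1),
        ((av1_it T hT ν k : ProbabilityMeasure Y) : Measure Y) := rfl
  rw [h1, h2, ← smul_add, ← smul_add, ← Finset.sum_range_succ
    (fun k => ((av1_it T hT ν k : ProbabilityMeasure Y) : Measure Y)), Finset.sum_range_succ'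
    (fun k => ((av1_it T hT ν k : ProbabilityMeasure Y) : Measure Y)) (K + 1)]
  rfl

omit [CompactSpace Y] [T2Space Y] [SecondCountableTopology Y] in
private theorem av1_int (ν : ProbabilityMeasure Y) (f : BoundedContinuousFunction Y ℝ) :
    Integrable (fun y => f y) (ν : Measure Y) := f.integrable _

omit [CompactSpace Y] [T2Space Y] [SecondCountableTopology Y] [BorelSpace Y] in
private theorem av1_norm (ν : ProbabilityMeasure Y) (f : BoundedContinuousFunction Y ℝ) :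
    |∫ y, f y ∂(ν : Measure Y)| ≤ ‖f‖ := by
  have h := norm_integral_le_of_norm_le_const (μ := (ν : Measure Y)) (f := fun y => f y)
    (Eventually.of_forall fun y => f.norm_coe_le_norm y)
  simpa using h

omit [CompactSpace Y] [T2Space Y] [SecondCountableTopology Y] in
private theorem av1_diff (T : Y → Y) (hT : Continuous T) (ν : ProbabilityMeasure Y) (K : ℕ)
    (f : BoundedContinuousFunction Y ℝ) :
    ∫ y, f y ∂((psh T hT (av1_av T hT ν K) : ProbabilityMeasure Y) : Measure Y) =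
      ∫ y, f y ∂((av1_av T hT ν K : ProbabilityMeasure Y) : Measure Y) +
      ((K : ℝ) + 1)⁻¹ * (∫ y, f y ∂((av1_it T hT ν (K + 1) : ProbabilityMeasure Y) : Measure Y) -
        ∫ y, f y ∂(ν : Measure Y)) := by
  have hc : (((K : ℝ≥0∞) + 1)⁻¹) ≠ ⊤ := ENNReal.inv_ne_top.2 (av1_ne K).1
  have h := congrArg (fun m : Measure Y => ∫ y, f y ∂m) (av1_tel T hT ν K)
  have hr : (((K : ℝ≥0∞) + 1)⁻¹).toReal = ((K : ℝ) + 1)⁻¹ := by
    rw [ENNReal.toReal_inv, ENNReal.toReal_add (ENNReal.natCast_ne_top K) ENNReal.one_ne_top,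
      ENNReal.toReal_natCast, ENNReal.toReal_one]
  beta_reduce at h
  rw [integral_add_measure (av1_int _ f) ((av1_int _ f).smul_measure hc),
    integral_add_measure (av1_int _ f) ((av1_int _ f).smul_measure hc), integral_smul_measure,
    integral_smul_measure, hr, smul_eq_mul, smul_eq_mul] at h
  linarith

theorem fixed_one {N : Set (ProbabilityMeasure Y)} (hne : N.Nonempty) (hcl : IsClosed N)
    (hcv : Cvx N) {T : Y → Y} (hT : Continuous T) (hst : ∀ ν ∈ N, psh T hT ν ∈ N) :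
    ∃ ν ∈ N, Inv1 T ν := by
  obtain ⟨ν, hν⟩ := hne
  have hmem := av1_av_mem hcv hT hst hν
  have hU : (((hyperfilter ℕ).map (av1_av T hT ν) : Ultrafilter (ProbabilityMeasure Y)) :
      Filter (ProbabilityMeasure Y)) ≤ 𝓟 N := by
    rw [le_principal_iff, Ultrafilter.coe_map, mem_map]
    exact univ_mem' hmem
  obtain ⟨σ, hσ, hlim⟩ := hcl.isCompact.ultrafilter_le_nhds _ hU
  have hl : Tendsto (av1_av T hT ν) (hyperfilter ℕ : Filter ℕ) (𝓝 σ) := hlim
  refine ⟨σ, hσ, (av1_inv_iff hT σ).2 ?_⟩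
  have h1 : Tendsto (fun K => psh T hT (av1_av T hT ν K)) (hyperfilter ℕ : Filter ℕ)
      (𝓝 (psh T hT σ)) := ((ProbabilityMeasure.continuous_map hT).tendsto σ).comp hl
  have h2 : Tendsto (fun K => psh T hT (av1_av T hT ν K)) (hyperfilter ℕ : Filter ℕ) (𝓝 σ) := by
    rw [ProbabilityMeasure.tendsto_iff_forall_integral_tendsto]
    intro f
    have h3 := (ProbabilityMeasure.tendsto_iff_forall_integral_tendsto.1 hl) f
    have h4 : Tendsto (fun K : ℕ => ((K : ℝ) + 1)⁻¹ *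
        (∫ y, f y ∂((av1_it T hT ν (K + 1) : ProbabilityMeasure Y) : Measure Y) -
          ∫ y, f y ∂(ν : Measure Y))) atTop (𝓝 0) := by
      have h5 : Tendsto (fun K : ℕ => ((K : ℝ) + 1)⁻¹ * (2 * ‖f‖)) atTop (𝓝 0) := by
        have h6 : Tendsto (fun K : ℕ => ((K : ℝ) + 1)⁻¹) atTop (𝓝 0) := by
          have := tendsto_one_div_add_atTop_nhds_zero_nat (𝕜 := ℝ)
          simpa only [one_div] using this
        simpa using h6.mul_const (2 * ‖f‖)
      refine squeeze_zero_norm (fun K => ?_) h5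
      have hK : (0 : ℝ) ≤ ((K : ℝ) + 1)⁻¹ := by positivity
      rw [norm_mul, Real.norm_eq_abs, Real.norm_eq_abs, abs_of_nonneg hK]
      refine mul_le_mul_of_nonneg_left ?_ hK
      have h7 := av1_norm (av1_it T hT ν (K + 1)) f
      have h8 := av1_norm ν f
      exact (abs_sub _ _).trans (by linarith)
    have h9 := h3.add (h4.mono_left Nat.hyperfilter_le_atTop)
    rw [add_zero] at h9
    refine h9.congr fun K => ?_
    exact (av1_diff T hT ν K f).symm
  exact tendsto_nhds_unique h1 h2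

private theorem av1_fin {N : Set (ProbabilityMeasure Y)} (hne : N.Nonempty) (hcl : IsClosed N)
    (hcv : Cvx N) {I : Type} (T : I → Y → Y) (hT : ∀ i, Continuous (T i))
    (hst : ∀ i, ∀ ν ∈ N, psh (T i) (hT i) ν ∈ N)
    (hcomm : ∀ i j, ∀ ν ∈ N, psh (T i) (hT i) (psh (T j) (hT j) ν) =
      psh (T j) (hT j) (psh (T i) (hT i) ν)) (u : Finset I) :
    (N ∩ ⋂ i ∈ u, {ν : ProbabilityMeasure Y | Inv1 (T i) ν}).Nonempty := by
  classical
  induction u using Finset.induction_on with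
  | empty =>
    obtain ⟨ν, hν⟩ := hne
    exact ⟨ν, hν, by simp⟩
  | insert i u _ ih =>
    have hc : IsClosed (N ∩ ⋂ j ∈ u, {ν : ProbabilityMeasure Y | Inv1 (T j) ν}) :=
      hcl.inter (isClosed_biInter fun j _ => isClosed_inv (hT j))
    have hv : Cvx (N ∩ ⋂ j ∈ u, {ν : ProbabilityMeasure Y | Inv1 (T j) ν}) := by
      intro ν ν' σ t h h' ht hσ
      refine ⟨hcv ν ν' σ t h.1 h'.1 ht hσ, Set.mem_iInter₂.2 fun j hj => ?_⟩
      exact cvx_inv (hT j) ν ν' σ t (Set.mem_iInter₂.1 h.2 j hj) (Set.mem_iInter₂.1 h'.2 j hj) ht hσ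
    have hs : ∀ ν ∈ N ∩ ⋂ j ∈ u, {ν : ProbabilityMeasure Y | Inv1 (T j) ν},
        psh (T i) (hT i) ν ∈ N ∩ ⋂ j ∈ u, {ν : ProbabilityMeasure Y | Inv1 (T j) ν} := by
      intro ν h
      refine ⟨hst i ν h.1, Set.mem_iInter₂.2 fun j hj => ?_⟩
      have h1 : Inv1 (T j) ν := Set.mem_iInter₂.1 h.2 j hj
      rw [av1_inv_iff (hT j)] at h1
      show Inv1 (T j) (psh (T i) (hT i) ν)
      rw [av1_inv_iff (hT j), hcomm j i ν h.1, h1]
    obtain ⟨σ, hσ, hi⟩ := fixed_one ih hc hv (hT i) hs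
    refine ⟨σ, hσ.1, Set.mem_iInter₂.2 fun j hj => ?_⟩
    rcases Finset.mem_insert.1 hj with rfl | hj
    · exact hi
    · exact Set.mem_iInter₂.1 hσ.2 j hj

theorem MK {N : Set (ProbabilityMeasure Y)} (hne : N.Nonempty) (hcl : IsClosed N)
    (hcv : Cvx N) {I : Type} (T : I → Y → Y) (hT : ∀ i, Continuous (T i))
    (hst : ∀ i, ∀ ν ∈ N, psh (T i) (hT i) ν ∈ N)
    (hcomm : ∀ i j, ∀ ν ∈ N, psh (T i) (hT i) (psh (T j) (hT j) ν) =
      psh (T j) (hT j) (psh (T i) (hT i) ν)) :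
    ∃ ν ∈ N, ∀ i, Inv1 (T i) ν := by
  obtain ⟨σ, hσ, hi⟩ := hcl.isCompact.inter_iInter_nonempty
    (fun i => {ν : ProbabilityMeasure Y | Inv1 (T i) ν}) (fun i => isClosed_inv (hT i))
    (av1_fin hne hcl hcv T hT hst hcomm)
  exact ⟨σ, hσ, fun i => Set.mem_iInter.1 hi i⟩

end Pool.Agent.H23.DM
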