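import Mathlib
import Pool.Agent.H23.DM.Kap

/-!
MODULE Kp1 (MP_d9606f_gt, Part 1).  Properties of `kap`.

`L (a^(T+1))` is continuous on the compact space `Y`, so bounded and integrable, and
`b (T+1) := ∫ L (a^(T+1)) dμ` is subadditive for `a`-invariant `μ`
(`a^(S+T) = a^S a^T`), `|b T| ≤ C T`: lower bound: `L 1 y ≤ L (a⁻¹^T) (a^T y) + L (a^T) y` and
`L (a⁻¹^T) ≤ C T` (subadditivity), so the infimum is a real infimum (`BddBelow`) and the limit
(`Subadditive`).
* `kap_le`: each term is an upper bound.  * `le_kap_iff`: `c ≤ kap ↔ ∀ T, c (T+1) ≤ ∫ L (a^(T+1))`.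
* `isClosed_kap`: intersection over `T` of closed half spaces, inside the closed set of invariant
  measures.  `cvx_kap`: integrals are affine.
* `kap_psh`: `u a = a u`: `L (a^T) (u y) ≤ L u (a^T y) + L (a^T) y + L u⁻¹ (u y)` because
  `a^T = u a^T u⁻¹`: `L (a^T) (u y) = L (u a^T u⁻¹) (u y) ≤ L u (a^T y) + L (a^T u⁻¹) (u y)`, and
  `L (a^T u⁻¹) (u y) ≤ L (a^T) y + L u⁻¹ (u y)`; so `∫ L (a^T) d(u_*μ) ≤ ∫ L (a^T) dμ + C`, divide by
  `T`; the other inequality with `u⁻¹`.
* `kap_mul_le`, `a b = b a`: `L ((ab)^T) y = L (a^T b^T) y ≤ L (a^T) (b^T y) + L (b^T) y`.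
* `kap_pow`: `kap (a^k) = k kap a` (`k ≥ 1`; limit along a subsequence).
-/

open MeasureTheory Filter Matrix
open scoped Topology ENNReal

namespace Pool.Agent.H23.DM

open Pool.Agent.H73.PZ

variable {p : ℕ} [Fact p.Prime] {n : ℕ} {Y : Type} [TopologicalSpace Y] [CompactSpace Y]
  [T2Space Y] [SecondCountableTopology Y] [MeasurableSpace Y] [BorelSpace Y]
  [MulAction (SLn p n) Y] [ContinuousSMul (SLn p n) Y] {L : SLn p n → Y → ℝ}

private theorem Kp1_cont (hL : Sub1 L) (g : SLn p n) : Continuous (fun y => L g y) :=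
  hL.cont.comp (Continuous.prodMk continuous_const continuous_id)

theorem Sub1.bdd (hL : Sub1 L) (g : SLn p n) : ∃ C : ℝ, 0 ≤ C ∧ ∀ y, |L g y| ≤ C := by
  have h : Continuous (fun y => L g y) :=
    hL.cont.comp (Continuous.prodMk continuous_const continuous_id)
  let f : BoundedContinuousFunction Y ℝ := BoundedContinuousFunction.mkOfCompact ⟨_, h⟩
  refine ⟨‖f‖, norm_nonneg _, fun y => ?_⟩
  have := f.norm_coe_le_norm y
  simpa [f] using this

theorem Sub1.integrable (hL : Sub1 L) (g : SLn p n) (μ : Measure Y) [IsFiniteMeasure μ] :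
    Integrable (fun y => L g y) μ := by
  have h : Continuous (fun y => L g y) :=
    hL.cont.comp (Continuous.prodMk continuous_const continuous_id)
  obtain ⟨C, -, hC⟩ := hL.bdd g
  exact Integrable.of_bound h.aestronglyMeasurable C (Eventually.of_forall hC)

private theorem Kp1_up (hL : Sub1 L) (g : SLn p n) {C D : ℝ} (hC : ∀ y, |L g y| ≤ C)
    (hD : ∀ y, |L 1 y| ≤ D) (T : ℕ) (y : Y) : L (g ^ T) y ≤ C * T + D := by
  induction T with
  | zero => simpa using (le_abs_self _).trans (hD y)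
  | succ T ih =>
    have h := hL.sub g (g ^ T) y
    rw [← pow_succ'] at h
    have h2 := (le_abs_self _).trans (hC (g ^ T • y))
    push_cast
    linarith

theorem Sub1.pow_bdd (hL : Sub1 L) (g : SLn p n) :
    ∃ C : ℝ, 0 ≤ C ∧ ∀ (T : ℕ) (y : Y), |L (g ^ T) y| ≤ C * (T + 1) := by
  obtain ⟨C, hC0, hC⟩ := hL.bdd g
  obtain ⟨C', hC0', hC'⟩ := hL.bdd g⁻¹
  obtain ⟨D, hD0, hD⟩ := hL.bdd 1
  refine ⟨C + C' + 2 * D, by positivity, fun T y => ?_⟩
  have h1 := Kp1_up hL g hC hD T y
  have h2 := Kp1_up hL g⁻¹ hC' hD T (g ^ T • y)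
  have h3 := hL.sub ((g⁻¹) ^ T) (g ^ T) y
  rw [inv_pow, inv_mul_cancel] at h3
  rw [inv_pow] at h2
  have h4 := neg_le_of_abs_le (hD y)
  have hT : (0 : ℝ) ≤ T := Nat.cast_nonneg T
  have e1 : 0 ≤ C * T := mul_nonneg hC0 hT
  have e2 : 0 ≤ C' * T := mul_nonneg hC0' hT
  have e3 : 0 ≤ D * T := mul_nonneg hD0 hT
  rw [abs_le]
  constructor
  · nlinarith
  · nlinarith

private theorem Kp1_bddBelow (hL : Sub1 L) (a : SLn p n) (μ : ProbabilityMeasure Y) :
    ∃ C : ℝ, ∀ T : ℕ, -C ≤ (∫ y, L (a ^ T) y ∂(μ : Measure Y)) / (T : ℝ) := by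
  obtain ⟨C, hC0, hC⟩ := hL.pow_bdd a
  refine ⟨2 * C, fun T => ?_⟩
  rcases Nat.eq_zero_or_pos T with rfl | hT
  · simp [hC0]
  have hT1 : (1 : ℝ) ≤ T := by exact_mod_cast hT
  have h1 : |∫ y, L (a ^ T) y ∂(μ : Measure Y)| ≤ C * (T + 1) := by
    have := norm_integral_le_of_norm_le_const (μ := (μ : Measure Y))
      (f := fun y => L (a ^ T) y) (C := C * (T + 1)) (Eventually.of_forall fun y => hC T y)
    simpa using this
  rw [le_div_iff₀ (by linarith)]
  have := neg_le_of_abs_le h1
  nlinarith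

theorem le_kap_iff (hL : Sub1 L) (a : SLn p n) (μ : ProbabilityMeasure Y) (c : ℝ) :
    c ≤ kap L a (μ : Measure Y) ↔
      ∀ T : ℕ, c * ((T : ℝ) + 1) ≤ ∫ y, L (a ^ (T + 1)) y ∂(μ : Measure Y) := by
  obtain ⟨C, hC⟩ := Kp1_bddBelow hL a μ
  have hb : BddBelow (Set.range fun T : ℕ =>
      (∫ y, L (a ^ (T + 1)) y ∂(μ : Measure Y)) / ((T : ℝ) + 1)) := by
    refine ⟨-C, ?_⟩
    rintro _ ⟨T, rfl⟩
    have := hC (T + 1)
    push_cast at this
    exact this
  unfold kap
  rw [le_ciInf_iff hb]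
  refine forall_congr' fun T => ?_
  rw [le_div_iff₀ (by positivity)]

private theorem Kp1_inv_pow {a : SLn p n} {μ : ProbabilityMeasure Y}
    (hμ : Inv1 (fun y => a • y) μ) (T : ℕ) : Inv1 (fun y => a ^ T • y) μ := by
  induction T with
  | zero =>
    have e : (fun y : Y => a ^ 0 • y) = id := by
      funext y
      simp
    unfold Inv1
    rw [e]
    exact MeasurePreserving.id (μ : Measure Y)
  | succ T ih =>
    have h := MeasurePreserving.comp hμ ih
    unfold Inv1
    have e : (fun y : Y => a ^ (T + 1) • y) = (fun y => a • y) ∘ (fun y => a ^ T • y) := by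
      funext y
      simp [pow_succ', mul_smul]
    rw [e]
    exact h

private theorem Kp1_int_inv (hL : Sub1 L) (g b : SLn p n) (μ : ProbabilityMeasure Y)
    (hμ : Inv1 (fun y => b • y) μ) :
    ∫ y, L g (b • y) ∂(μ : Measure Y) = ∫ y, L g y ∂(μ : Measure Y) := by
  have h1 : Measure.map (fun y => b • y) (μ : Measure Y) = (μ : Measure Y) := hμ.map_eq
  have h2 := integral_map (μ := (μ : Measure Y)) (φ := fun y : Y => b • y)
    (continuous_const_smul b).measurable.aemeasurable (f := fun y => L g y)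
    (Kp1_cont hL g).aestronglyMeasurable
  rw [h1] at h2
  exact h2.symm

private theorem Kp1_integ (hL : Sub1 L) (g b : SLn p n) (μ : Measure Y) [IsFiniteMeasure μ] :
    Integrable (fun y => L g (b • y)) μ := by
  obtain ⟨C, -, hC⟩ := hL.bdd g
  exact Integrable.of_bound
    ((Kp1_cont hL g).comp (continuous_const_smul b)).aestronglyMeasurable C
    (Eventually.of_forall fun y => hC _)

private theorem Kp1_int_mul_le (hL : Sub1 L) (g b : SLn p n) (μ : ProbabilityMeasure Y)
    (hμ : Inv1 (fun y => b • y) μ) :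
    ∫ y, L (g * b) y ∂(μ : Measure Y) ≤
      (∫ y, L g y ∂(μ : Measure Y)) + ∫ y, L b y ∂(μ : Measure Y) := by
  rw [← Kp1_int_inv hL g b μ hμ, ← integral_add (Kp1_integ hL g b _) (hL.integrable b _)]
  exact integral_mono (hL.integrable _ _)
    ((Kp1_integ hL g b _).add (hL.integrable b _)) fun y => hL.sub g b y

theorem tendsto_kap (hL : Sub1 L) (a : SLn p n) (μ : ProbabilityMeasure Y)
    (hμ : Inv1 (fun y => a • y) μ) :
    Tendsto (fun T : ℕ => (∫ y, L (a ^ T) y ∂(μ : Measure Y)) / T) atTop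
      (𝓝 (kap L a (μ : Measure Y))) := by
  have hsub : Subadditive (fun T : ℕ => ∫ y, L (a ^ T) y ∂(μ : Measure Y)) := by
    intro S T
    have := Kp1_int_mul_le hL (a ^ S) (a ^ T) μ (Kp1_inv_pow hμ T)
    rw [← pow_add] at this
    exact this
  obtain ⟨C, hC⟩ := Kp1_bddBelow hL a μ
  have hbdd : BddBelow (Set.range fun T : ℕ =>
      (∫ y, L (a ^ T) y ∂(μ : Measure Y)) / (T : ℝ)) := by
    refine ⟨-C, ?_⟩
    rintro _ ⟨T, rfl⟩
    exact hC T
  have h := hsub.tendsto_lim hbdd
  have e : hsub.lim = kap L a (μ : Measure Y) := by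
    unfold kap
    apply le_antisymm
    · apply le_ciInf
      intro T
      have := hsub.lim_le_div hbdd (n := T + 1) (Nat.succ_ne_zero T)
      push_cast at this
      exact this
    · have hb : BddBelow (Set.range fun T : ℕ =>
          (∫ y, L (a ^ (T + 1)) y ∂(μ : Measure Y)) / ((T : ℝ) + 1)) := by
        refine ⟨-C, ?_⟩
        rintro _ ⟨T, rfl⟩
        have := hC (T + 1)
        push_cast at this
        exact this
      have h2 := h.comp (tendsto_add_atTop_nat 1)
      refine ge_of_tendsto' h2 fun T => ?_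
      have := ciInf_le hb T
      simpa using this
  rw [← e]
  exact h

theorem isClosed_kap (hL : Sub1 L) (a : SLn p n) (c : ℝ) :
    IsClosed {μ : ProbabilityMeasure Y | c ≤ kap L a (μ : Measure Y)} := by
  have e : {μ : ProbabilityMeasure Y | c ≤ kap L a (μ : Measure Y)} =
      ⋂ T : ℕ, {μ : ProbabilityMeasure Y |
        c * ((T : ℝ) + 1) ≤ ∫ y, L (a ^ (T + 1)) y ∂(μ : Measure Y)} := by
    ext μ
    simp only [Set.mem_ofPred_eq, Set.mem_iInter]
    exact le_kap_iff hL a μ c
  rw [e]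
  refine isClosed_iInter fun T => ?_
  have hc : Continuous fun μ : ProbabilityMeasure Y =>
      ∫ y, L (a ^ (T + 1)) y ∂(μ : Measure Y) := by
    let f : BoundedContinuousFunction Y ℝ :=
      BoundedContinuousFunction.mkOfCompact ⟨fun y => L (a ^ (T + 1)) y, Kp1_cont hL _⟩
    have := ProbabilityMeasure.continuous_integral_boundedContinuousFunction f
    exact this
  exact isClosed_le continuous_const hc

theorem cvx_kap (hL : Sub1 L) (a : SLn p n) (c : ℝ) :
    Cvx {μ : ProbabilityMeasure Y | c ≤ kap L a (μ : Measure Y)} := by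
  intro ν ν' σ t hν hν' ht hσ
  simp only [Set.mem_ofPred_eq] at hν hν' ⊢
  rw [le_kap_iff hL] at hν hν' ⊢
  intro T
  have ht' : t ≠ ⊤ := ne_top_of_le_ne_top ENNReal.one_ne_top ht
  have e : ∫ y, L (a ^ (T + 1)) y ∂(σ : Measure Y) =
      t.toReal * (∫ y, L (a ^ (T + 1)) y ∂(ν : Measure Y)) +
      (1 - t).toReal * ∫ y, L (a ^ (T + 1)) y ∂(ν' : Measure Y) := by
    rw [hσ, integral_add_measure, integral_smul_measure, integral_smul_measure]
    · simp
    · exact (hL.integrable _ _).smul_measure ht'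
    · exact (hL.integrable _ _).smul_measure (ENNReal.sub_ne_top ENNReal.one_ne_top)
  have e2 : (1 - t).toReal = 1 - t.toReal := by
    rw [ENNReal.toReal_sub_of_le ht ENNReal.one_ne_top]
    simp
  rw [e, e2]
  have h0 : 0 ≤ t.toReal := ENNReal.toReal_nonneg
  have h1 : t.toReal ≤ 1 := by
    have := ENNReal.toReal_mono ENNReal.one_ne_top ht
    simpa using this
  have a1 := mul_le_mul_of_nonneg_left (hν T) h0
  have a2 := mul_le_mul_of_nonneg_left (hν' T) (sub_nonneg.2 h1)
  nlinarith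

private theorem Kp1_affine_int (hL : Sub1 L) (g : SLn p n) {μ ν σ : ProbabilityMeasure Y} {t : ℝ}
    (ht : 0 ≤ t) (ht1 : t ≤ 1)
    (hσ : (σ : Measure Y) = ENNReal.ofReal t • (μ : Measure Y) +
      ENNReal.ofReal (1 - t) • (ν : Measure Y)) :
    ∫ y, L g y ∂(σ : Measure Y) =
      t * (∫ y, L g y ∂(μ : Measure Y)) + (1 - t) * ∫ y, L g y ∂(ν : Measure Y) := by
  rw [hσ, integral_add_measure, integral_smul_measure, integral_smul_measure]
  · simp [ENNReal.toReal_ofReal ht, ENNReal.toReal_ofReal (sub_nonneg.2 ht1)]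
  · exact (hL.integrable _ _).smul_measure ENNReal.ofReal_ne_top
  · exact (hL.integrable _ _).smul_measure ENNReal.ofReal_ne_top

/-- `kap` is affine on invariant measures. -/
theorem kap_affine (hL : Sub1 L) (a : SLn p n) {μ ν σ : ProbabilityMeasure Y} {t : ℝ}
    (ht : 0 ≤ t) (ht1 : t ≤ 1) (hμ : Inv1 (fun y => a • y) μ) (hν : Inv1 (fun y => a • y) ν)
    (hσ : (σ : Measure Y) = ENNReal.ofReal t • (μ : Measure Y) +
      ENNReal.ofReal (1 - t) • (ν : Measure Y)) :
    kap L a (σ : Measure Y) = t * kap L a (μ : Measure Y) + (1 - t) * kap L a (ν : Measure Y) := by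
  have hσi : Inv1 (fun y => a • y) σ := by
    have hm : Measurable (fun y : Y => a • y) := (continuous_const_smul a).measurable
    refine ⟨hm, ?_⟩
    rw [hσ, Measure.map_add _ _ hm, Measure.map_smul, Measure.map_smul, hμ.map_eq, hν.map_eq]
  have h1 := tendsto_kap hL a σ hσi
  have h2 := ((tendsto_kap hL a μ hμ).const_mul t).add
    ((tendsto_kap hL a ν hν).const_mul (1 - t))
  refine tendsto_nhds_unique h1 (h2.congr fun T => ?_)
  rw [Kp1_affine_int hL _ ht ht1 hσ]
  ring

private theorem Kp1_int_psh (hL : Sub1 L) (g u : SLn p n) (μ : ProbabilityMeasure Y) :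
    ∫ y, L g y ∂(psh (fun y => u • y) (continuous_const_smul u) μ : Measure Y) =
      ∫ y, L g (u • y) ∂(μ : Measure Y) := by
  have h2 := integral_map (μ := (μ : Measure Y)) (φ := fun y : Y => u • y)
    (continuous_const_smul u).measurable.aemeasurable (f := fun y => L g y)
    (Kp1_cont hL g).aestronglyMeasurable
  exact h2

private theorem Kp1_inv_psh {a u : SLn p n} (hau : a * u = u * a) (μ : ProbabilityMeasure Y)
    (hμ : Inv1 (fun y => a • y) μ) :
    Inv1 (fun y => a • y) (psh (fun y => u • y) (continuous_const_smul u) μ) := by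
  have hm : Measurable (fun y : Y => a • y) := (continuous_const_smul a).measurable
  have hu : Measurable (fun y : Y => u • y) := (continuous_const_smul u).measurable
  refine ⟨hm, ?_⟩
  have e : ((psh (fun y => u • y) (continuous_const_smul u) μ : ProbabilityMeasure Y) : Measure Y) =
    Measure.map (fun y => u • y) (μ : Measure Y) := rfl
  rw [e, Measure.map_map hm hu]
  have e2 : ((fun y : Y => a • y) ∘ fun y => u • y) = ((fun y : Y => u • y) ∘ fun y => a • y) := by
    funext y
    simp only [Function.comp_apply, ← mul_smul, hau]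
  rw [e2, ← Measure.map_map hu hm, hμ.map_eq]

/-- Comparison of the limits when the integrals differ by a constant. -/
private theorem Kp1_cmp {f g : ℕ → ℝ} {x y C : ℝ}
    (hf : Tendsto (fun T : ℕ => f T / T) atTop (𝓝 x))
    (hg : Tendsto (fun T : ℕ => g T / T) atTop (𝓝 y)) (h : ∀ T, f T ≤ g T + C) : x ≤ y := by
  have h1 : Tendsto (fun T : ℕ => g T / T + C / (T : ℝ)) atTop (𝓝 (y + 0)) :=
    hg.add (tendsto_const_div_atTop_nhds_zero_nat C)
  rw [add_zero] at h1
  refine le_of_tendsto_of_tendsto' hf h1 fun T => ?_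
  rw [← add_div]
  exact div_le_div_of_nonneg_right (h T) (Nat.cast_nonneg T)

theorem kap_psh (hL : Sub1 L) {a u : SLn p n} (hau : a * u = u * a) (μ : ProbabilityMeasure Y)
    (hμ : Inv1 (fun y => a • y) μ) :
    kap L a (psh (fun y => u • y) (continuous_const_smul u) μ : Measure Y) =
      kap L a (μ : Measure Y) := by
  have t1 := tendsto_kap hL a _ (Kp1_inv_psh hau μ hμ)
  have t2 := tendsto_kap hL a μ hμ
  obtain ⟨C, hC0, hC⟩ := hL.bdd u
  obtain ⟨D, hD0, hD⟩ := hL.bdd u⁻¹
  have hc : ∀ T : ℕ, a ^ T * u = u * a ^ T := fun T => by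
    have : Commute a u := hau
    exact (this.pow_left T)
  apply le_antisymm
  · refine Kp1_cmp (C := C + D) t1 t2 fun T => ?_
    rw [Kp1_int_psh hL]
    have e1 : (∫ y, L (a ^ T) y ∂(μ : Measure Y)) + (C + D) =
        ∫ y, (L (a ^ T) y + (C + D)) ∂(μ : Measure Y) := by
      rw [integral_add (hL.integrable _ _) (integrable_const _)]
      simp
    rw [e1]
    refine integral_mono (Kp1_integ hL _ u _) ((hL.integrable _ _).add (integrable_const _))
      fun y => ?_
    have h1 := hL.sub u (a ^ T * u⁻¹) (u • y)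
    have h2 := hL.sub (a ^ T) u⁻¹ (u • y)
    have e2 : u * (a ^ T * u⁻¹) = a ^ T := by
      rw [← mul_assoc, ← hc T, mul_assoc, mul_inv_cancel, mul_one]
    rw [e2] at h1
    rw [inv_smul_smul] at h2
    have h3 := (le_abs_self _).trans (hC ((a ^ T * u⁻¹) • u • y))
    have h4 := (le_abs_self _).trans (hD (u • y))
    show L (a ^ T) (u • y) ≤ L (a ^ T) y + (C + D)
    linarith
  · refine Kp1_cmp (C := C + D) t2 t1 fun T => ?_
    rw [Kp1_int_psh hL]
    have e1 : (∫ y, L (a ^ T) (u • y) ∂(μ : Measure Y)) + (C + D) =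
        ∫ y, (L (a ^ T) (u • y) + (C + D)) ∂(μ : Measure Y) := by
      rw [integral_add (Kp1_integ hL _ u _) (integrable_const _)]
      simp
    rw [e1]
    refine integral_mono (hL.integrable _ _) ((Kp1_integ hL _ u _).add (integrable_const _))
      fun y => ?_
    have h1 := hL.sub u⁻¹ (a ^ T * u) y
    have h2 := hL.sub (a ^ T) u y
    have e2 : u⁻¹ * (a ^ T * u) = a ^ T := by
      rw [hc T, ← mul_assoc, inv_mul_cancel, one_mul]
    rw [e2] at h1
    have h3 := (le_abs_self _).trans (hD ((a ^ T * u) • y))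
    have h4 := (le_abs_self _).trans (hC y)
    show L (a ^ T) y ≤ L (a ^ T) (u • y) + (C + D)
    linarith

theorem kap_mul_le (hL : Sub1 L) {a b : SLn p n} (hab : a * b = b * a)
    (μ : ProbabilityMeasure Y) (ha : Inv1 (fun y => a • y) μ) (hb : Inv1 (fun y => b • y) μ) :
    kap L (a * b) (μ : Measure Y) ≤ kap L a (μ : Measure Y) + kap L b (μ : Measure Y) := by
  have hi : Inv1 (fun y => (a * b) • y) μ := by
    have h := MeasurePreserving.comp ha hb
    unfold Inv1
    have e : (fun y : Y => (a * b) • y) = (fun y => a • y) ∘ (fun y => b • y) := by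
      funext y
      simp [mul_smul]
    rw [e]
    exact h
  have t1 := tendsto_kap hL _ μ hi
  have t2 := (tendsto_kap hL a μ ha).add (tendsto_kap hL b μ hb)
  refine le_of_tendsto_of_tendsto' t1 t2 fun T => ?_
  rw [← add_div]
  refine div_le_div_of_nonneg_right ?_ (Nat.cast_nonneg T)
  have hc : Commute a b := hab
  rw [hc.mul_pow]
  exact Kp1_int_mul_le hL (a ^ T) (b ^ T) μ (Kp1_inv_pow hb T)

theorem kap_pow (hL : Sub1 L) (a : SLn p n) (μ : ProbabilityMeasure Y)
    (ha : Inv1 (fun y => a • y) μ) {k : ℕ} (hk : 1 ≤ k) :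
    kap L (a ^ k) (μ : Measure Y) = k * kap L a (μ : Measure Y) := by
  have t1 := tendsto_kap hL (a ^ k) μ (Kp1_inv_pow ha k)
  have t2 := tendsto_kap hL a μ ha
  have hk' : Tendsto (fun T : ℕ => k * T) atTop atTop :=
    tendsto_id.const_mul_atTop' (by omega)
  have t3 := (t2.comp hk').const_mul (k : ℝ)
  refine tendsto_nhds_unique t1 (t3.congr fun T => ?_)
  have hk0 : (k : ℝ) ≠ 0 := by
    have : k ≠ 0 := by omega
    exact_mod_cast this
  simp only [Function.comp_apply, pow_mul, Nat.cast_mul]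
  rw [← mul_div_assoc, mul_div_mul_left _ _ hk0]

theorem kap_one_le (hL : Sub1 L) (μ : ProbabilityMeasure Y) : kap L 1 (μ : Measure Y) ≤ 0 := by
  have hi : Inv1 (fun y => (1 : SLn p n) • y) μ := by
    have e : (fun y : Y => (1 : SLn p n) • y) = id := by
      funext y
      simp
    unfold Inv1
    rw [e]
    exact MeasurePreserving.id (μ : Measure Y)
  have t1 := tendsto_kap hL 1 μ hi
  have t2 : Tendsto (fun T : ℕ => (∫ y, L (1 : SLn p n) y ∂(μ : Measure Y)) / (T : ℝ)) atTop
      (𝓝 0) := tendsto_const_div_atTop_nhds_zero_nat _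
  refine le_of_eq (tendsto_nhds_unique t1 (t2.congr fun T => ?_))
  rw [one_pow]

end Pool.Agent.H23.DM
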