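import Mathlib
import Pool.Agent.H23.DM.Kp1
import Pool.Agent.H23.DM.Av1

/-!
MODULE Av2 (MP_d9606f_gt, Part 1.2 in kappa form).  The first measure.

`x_T` with `L (t^T) x_T ≥ c T`; `ν_T = (1/T) ∑_{s<T} δ_{t^s x_T}`; `ν` a cluster point: `t`-invariant.
For `q ≥ 1`, `a_s = L (t^s) x`: `∑_{s<T} L (t^q) (t^s x) ≥ ∑_{s<T} (a_(s+q) - a_s)
= ∑_{r<q} a_(T+r) - ∑_{r<q} a_r ≥ q a_T - D` (`a_T ≤ a_(T+r) + L (t^-r) (t^(T+r) x)`), so
`∫ L (t^q) dν_T ≥ q c - D / T`, in the limit `∫ L (t^q) dν ≥ c q` for every `q`: `kap ≥ c`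
(`le_kap_iff`).  The set of `t`-invariant `ν` with `c ≤ kap L t ν` is closed, convex, stable under
the elements of `AA p n` (`kap_psh`, commutation): `MK`.
-/

open MeasureTheory Filter Matrix
open scoped Topology ENNReal

namespace Pool.Agent.H23.DM

open Pool.Agent.H73.PZ

variable {p : ℕ} [Fact p.Prime] {n : ℕ} {Y : Type} [TopologicalSpace Y] [CompactSpace Y]
  [T2Space Y] [SecondCountableTopology Y] [MeasurableSpace Y] [BorelSpace Y]
  [MulAction (SLn p n) Y] [ContinuousSMul (SLn p n) Y] {L : SLn p n → Y → ℝ}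

private theorem av2_cont (hL : Sub1 L) (g : SLn p n) : Continuous (fun y => L g y) :=
  hL.cont.comp (Continuous.prodMk continuous_const continuous_id)

private theorem av2_comp {S T : Y → Y} (hS : Continuous S) (hT : Continuous T)
    (σ : ProbabilityMeasure Y) : psh S hS (psh T hT σ) = psh (fun y => S (T y)) (hS.comp hT) σ := by
  apply Subtype.ext
  change ((σ : Measure Y).map T).map S = (σ : Measure Y).map (fun y => S (T y))
  rw [Measure.map_map hS.measurable hT.measurable]
  rfl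

private theorem av2_congr {S T : Y → Y} (hS : Continuous S) (hT : Continuous T)
    (h : ∀ y, S y = T y) (σ : ProbabilityMeasure Y) : psh S hS σ = psh T hT σ := by
  obtain rfl : S = T := funext h
  rfl

private theorem av2_swap {g g' k k' : SLn p n} (h : g * g' = k * k') (σ : ProbabilityMeasure Y) :
    psh (fun y => g • y) (continuous_const_smul g)
      (psh (fun y => g' • y) (continuous_const_smul g') σ) =
    psh (fun y => k • y) (continuous_const_smul k)
      (psh (fun y => k' • y) (continuous_const_smul k') σ) := by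
  rw [av2_comp, av2_comp]
  refine av2_congr _ _ (fun y => ?_) σ
  rw [smul_smul, smul_smul, h]

/-- the block inequality -/
private theorem av2_block (hL : Sub1 L) (t : SLn p n) (q : ℕ) :
    ∃ D : ℝ, ∀ (T : ℕ) (x : Y),
      q * L (t ^ T) x ≤ ∑ s ∈ Finset.range T, L (t ^ q) (t ^ s • x) + D := by
  have hb : ∀ g : SLn p n, ∃ C : ℝ, 0 ≤ C ∧ ∀ y : Y, |L g y| ≤ C := fun g => hL.bdd g
  choose C hC0 hC using hb
  refine ⟨∑ r ∈ Finset.range q, (C (t ^ r)⁻¹ + C (t ^ r)), fun T x => ?_⟩
  have h1 : ∑ s ∈ Finset.range T, (L (t ^ (s + q)) x - L (t ^ s) x) ≤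
      ∑ s ∈ Finset.range T, L (t ^ q) (t ^ s • x) := by
    refine Finset.sum_le_sum fun s _ => ?_
    have h := hL.sub (t ^ q) (t ^ s) x
    rw [← pow_add, add_comm q s] at h
    linarith
  have h2 : ∑ s ∈ Finset.range T, (L (t ^ (s + q)) x - L (t ^ s) x) =
      ∑ r ∈ Finset.range q, (L (t ^ (T + r)) x - L (t ^ r) x) := by
    rw [Finset.sum_sub_distrib, Finset.sum_sub_distrib]
    have e1 := Finset.sum_range_add (fun s => L (t ^ s) x) T q
    have e2 := Finset.sum_range_add (fun s => L (t ^ s) x) q T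
    have e3 : ∑ s ∈ Finset.range T, L (t ^ (s + q)) x = ∑ s ∈ Finset.range T, L (t ^ (q + s)) x :=
      Finset.sum_congr rfl fun s _ => by rw [add_comm]
    rw [add_comm q T] at e2
    rw [e3]
    linarith
  have h3 : ∑ r ∈ Finset.range q, (L (t ^ T) x - (C (t ^ r)⁻¹ + C (t ^ r))) ≤
      ∑ r ∈ Finset.range q, (L (t ^ (T + r)) x - L (t ^ r) x) := by
    refine Finset.sum_le_sum fun r _ => ?_
    have h := hL.sub (t ^ r)⁻¹ (t ^ (T + r)) x
    have e : (t ^ r)⁻¹ * t ^ (T + r) = t ^ T := by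
      rw [add_comm T r, pow_add, inv_mul_cancel_left]
    rw [e] at h
    have h4 := (le_abs_self _).trans (hC (t ^ r)⁻¹ (t ^ (T + r) • x))
    have h5 := (le_abs_self _).trans (hC (t ^ r) x)
    linarith
  rw [Finset.sum_sub_distrib, Finset.sum_const, Finset.card_range, nsmul_eq_mul] at h3
  linarith

/-- the averages along an orbit -/
private noncomputable def av2_m (t : SLn p n) (x : ℕ → Y) (K : ℕ) : Measure Y :=
  ((K : ℝ≥0∞) + 1)⁻¹ • ∑ s ∈ Finset.range (K + 1), Measure.dirac (t ^ s • x K)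

omit [TopologicalSpace Y] [CompactSpace Y] [T2Space Y] [SecondCountableTopology Y] [BorelSpace Y]
  [ContinuousSMul (SLn p n) Y] in
private theorem av2_prob (t : SLn p n) (x : ℕ → Y) (K : ℕ) :
    IsProbabilityMeasure (av2_m t x K) := by
  refine ⟨?_⟩
  unfold av2_m
  rw [Measure.smul_apply, Measure.finsetSum_apply]
  have h : ∑ s ∈ Finset.range (K + 1), Measure.dirac (t ^ s • x K) Set.univ = (K : ℝ≥0∞) + 1 := by
    rw [Finset.sum_congr rfl fun k _ => measure_univ, Finset.sum_const, Finset.card_range,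
      nsmul_eq_mul, mul_one]
    push_cast
    rfl
  rw [h, smul_eq_mul]
  exact ENNReal.inv_mul_cancel (zero_lt_one.trans_le le_add_self).ne'
    (ENNReal.add_ne_top.2 ⟨ENNReal.natCast_ne_top K, ENNReal.one_ne_top⟩)

private noncomputable def av2_p (t : SLn p n) (x : ℕ → Y) (K : ℕ) : ProbabilityMeasure Y :=
  ⟨av2_m t x K, av2_prob t x K⟩

omit [CompactSpace Y] [T2Space Y] [ContinuousSMul (SLn p n) Y] [SecondCountableTopology Y] in
private theorem av2_int (t : SLn p n) (x : ℕ → Y) (K : ℕ) (f : BoundedContinuousFunction Y ℝ) :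
    ∫ y, f y ∂((av2_p t x K : ProbabilityMeasure Y) : Measure Y) =
      ((K : ℝ) + 1)⁻¹ * ∑ s ∈ Finset.range (K + 1), f (t ^ s • x K) := by
  change ∫ y, f y ∂(av2_m t x K) = _
  unfold av2_m
  rw [integral_smul_measure, integral_finsetSum_measure (fun i _ => f.integrable _), smul_eq_mul,
    ENNReal.toReal_inv, ENNReal.toReal_add (ENNReal.natCast_ne_top K) ENNReal.one_ne_top,
    ENNReal.toReal_natCast, ENNReal.toReal_one]
  congr 1
  refine Finset.sum_congr rfl fun s _ => ?_
  exact integral_dirac' _ _ f.continuous.stronglyMeasurable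

theorem exists_start (hL : Sub1 L) (t : AA p n) {c : ℝ}
    (h : ∀ T : ℕ, 1 ≤ T → ∃ y : Y, c * T ≤ L ((t : SLn p n) ^ T) y) :
    ∃ ν : ProbabilityMeasure Y, AInv p n (ν : Measure Y) ∧ c ≤ kap L (t : SLn p n) (ν : Measure Y) := by
  choose x hx using fun K : ℕ => h (K + 1) (Nat.succ_pos K)
  have hT : Continuous (fun y : Y => (t : SLn p n) • y) := continuous_const_smul _
  obtain ⟨σ, -, hlim⟩ := (isCompact_univ (X := ProbabilityMeasure Y)).ultrafilter_le_nhds
    ((hyperfilter ℕ).map (av2_p (t : SLn p n) x)) (by simp)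
  have hl : Tendsto (av2_p (t : SLn p n) x) (hyperfilter ℕ : Filter ℕ) (𝓝 σ) := hlim
  have hinv0 : Tendsto (fun K : ℕ => ((K : ℝ) + 1)⁻¹) atTop (𝓝 0) := by
    have := tendsto_one_div_add_atTop_nhds_zero_nat (𝕜 := ℝ)
    simpa only [one_div] using this
  have hinv : Tendsto (fun K : ℕ => ((K : ℝ) + 1)⁻¹) (hyperfilter ℕ : Filter ℕ) (𝓝 0) :=
    hinv0.mono_left Nat.hyperfilter_le_atTop
  -- invariance
  have hi : Inv1 (fun y : Y => (t : SLn p n) • y) σ := by
    rw [inv_iff_psh hT]
    have h1 : Tendsto (fun K => psh _ hT (av2_p (t : SLn p n) x K)) (hyperfilter ℕ : Filter ℕ)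
        (𝓝 (psh _ hT σ)) := ((ProbabilityMeasure.continuous_map hT).tendsto σ).comp hl
    have h2 : Tendsto (fun K => psh _ hT (av2_p (t : SLn p n) x K)) (hyperfilter ℕ : Filter ℕ)
        (𝓝 σ) := by
      rw [ProbabilityMeasure.tendsto_iff_forall_integral_tendsto]
      intro f
      have h3 := (ProbabilityMeasure.tendsto_iff_forall_integral_tendsto.1 hl) f
      have h4 : Tendsto (fun K : ℕ => ((K : ℝ) + 1)⁻¹ *
          (f ((t : SLn p n) ^ (K + 1) • x K) - f (x K))) (hyperfilter ℕ : Filter ℕ) (𝓝 0) := by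
        have h5 : Tendsto (fun K : ℕ => ((K : ℝ) + 1)⁻¹ * (2 * ‖f‖)) (hyperfilter ℕ : Filter ℕ)
            (𝓝 0) := by simpa using hinv.mul_const (2 * ‖f‖)
        refine squeeze_zero_norm (fun K => ?_) h5
        have hK : (0 : ℝ) ≤ ((K : ℝ) + 1)⁻¹ := by positivity
        rw [norm_mul, Real.norm_eq_abs, Real.norm_eq_abs, abs_of_nonneg hK]
        refine mul_le_mul_of_nonneg_left ?_ hK
        have h7 := f.norm_coe_le_norm ((t : SLn p n) ^ (K + 1) • x K)
        have h8 := f.norm_coe_le_norm (x K)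
        rw [Real.norm_eq_abs] at h7 h8
        exact (abs_sub _ _).trans (by linarith)
      have h9 := h3.add h4
      rw [add_zero] at h9
      refine h9.congr fun K => ?_
      have e1 : ∫ y, f y ∂((psh _ hT (av2_p (t : SLn p n) x K) : ProbabilityMeasure Y) : Measure Y) =
          ∫ y, f ((t : SLn p n) • y) ∂((av2_p (t : SLn p n) x K : ProbabilityMeasure Y) : Measure Y) :=
        integral_map hT.measurable.aemeasurable f.continuous.aestronglyMeasurable
      have e2 := av2_int (t : SLn p n) x K (f.compContinuous ⟨_, hT⟩)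
      rw [e1]
      change _ = ∫ y, (f.compContinuous ⟨_, hT⟩) y
        ∂((av2_p (t : SLn p n) x K : ProbabilityMeasure Y) : Measure Y)
      rw [e2, av2_int, ← mul_add]
      congr 1
      have e3 := Finset.sum_range_succ (fun s => f ((t : SLn p n) ^ s • x K)) (K + 1)
      have e4 := Finset.sum_range_succ' (fun s => f ((t : SLn p n) ^ s • x K)) (K + 1)
      have e5 : ∑ s ∈ Finset.range (K + 1), (f.compContinuous ⟨_, hT⟩) ((t : SLn p n) ^ s • x K) =
          ∑ s ∈ Finset.range (K + 1), f ((t : SLn p n) ^ (s + 1) • x K) := by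
        refine Finset.sum_congr rfl fun s _ => ?_
        change f ((t : SLn p n) • (t : SLn p n) ^ s • x K) = _
        rw [smul_smul, ← pow_succ']
      rw [e5]
      rw [pow_zero, one_smul] at e4
      linarith
    exact tendsto_nhds_unique h1 h2
  -- growth
  have hk : c ≤ kap L (t : SLn p n) (σ : Measure Y) := by
    rw [le_kap_iff hL]
    intro q
    obtain ⟨D, hD⟩ := av2_block hL (t : SLn p n) (q + 1)
    let f : BoundedContinuousFunction Y ℝ :=
      BoundedContinuousFunction.mkOfCompact ⟨fun y => L ((t : SLn p n) ^ (q + 1)) y, av2_cont hL _⟩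
    have h3 := (ProbabilityMeasure.tendsto_iff_forall_integral_tendsto.1 hl) f
    have h4 : Tendsto (fun K : ℕ => c * ((q : ℝ) + 1) - ((K : ℝ) + 1)⁻¹ * D)
        (hyperfilter ℕ : Filter ℕ) (𝓝 (c * ((q : ℝ) + 1) - 0 * D)) :=
      tendsto_const_nhds.sub (hinv.mul_const D)
    rw [zero_mul, sub_zero] at h4
    refine le_of_tendsto_of_tendsto' h4 h3 fun K => ?_
    rw [av2_int]
    have h5 := hD (K + 1) (x K)
    have h6 := hx K
    have hK : (0 : ℝ) < (K : ℝ) + 1 := by positivity
    have h7 : ((q : ℝ) + 1) * (c * ((K : ℝ) + 1)) ≤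
        ∑ s ∈ Finset.range (K + 1), f ((t : SLn p n) ^ s • x K) + D := by
      push_cast at h5 h6
      have h8 := mul_le_mul_of_nonneg_left h6 (by positivity : (0 : ℝ) ≤ (q : ℝ) + 1)
      exact h8.trans h5
    have h9 : ((K : ℝ) + 1)⁻¹ * (((q : ℝ) + 1) * (c * ((K : ℝ) + 1))) = c * ((q : ℝ) + 1) := by
      field_simp
    have h10 := mul_le_mul_of_nonneg_left h7 (inv_nonneg.2 hK.le)
    rw [h9, mul_add] at h10
    linarith
  obtain ⟨ν, hν, hν'⟩ := MK (N := {ν : ProbabilityMeasure Y |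
      Inv1 (fun y : Y => (t : SLn p n) • y) ν} ∩
      {ν : ProbabilityMeasure Y | c ≤ kap L (t : SLn p n) (ν : Measure Y)})
    ⟨σ, hi, hk⟩ ((isClosed_inv hT).inter (isClosed_kap hL _ _))
    (fun ν ν' τ s h1 h2 hs hτ => ⟨cvx_inv hT ν ν' τ s h1.1 h2.1 hs hτ,
      cvx_kap hL _ _ ν ν' τ s h1.2 h2.2 hs hτ⟩)
    (fun (a : AA p n) (y : Y) => (a : SLn p n) • y)
    (fun a => continuous_const_smul (a : SLn p n))
    (fun a ν hν => by
      have hc : (t : SLn p n) * (a : SLn p n) = (a : SLn p n) * (t : SLn p n) := AA_comm t.2 a.2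
      refine ⟨?_, ?_⟩
      · have h1 : Inv1 (fun y : Y => (t : SLn p n) • y) ν := hν.1
        change Inv1 (fun y : Y => (t : SLn p n) • y) _
        rw [inv_iff_psh hT] at h1 ⊢
        have h2 : psh _ hT (psh (fun y : Y => (a : SLn p n) • y) (continuous_const_smul _) ν) =
            psh (fun y : Y => (a : SLn p n) • y) (continuous_const_smul _) (psh _ hT ν) :=
          av2_swap hc ν
        rw [h2, h1]
      · change c ≤ kap L (t : SLn p n) _
        rw [kap_psh hL hc ν hν.1]
        exact hν.2)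
    (fun a b ν _ => av2_swap (AA_comm a.2 b.2) ν)
  exact ⟨ν, fun a => hν' a, hν.2⟩

end Pool.Agent.H23.DM
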