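import Mathlib
import Pool.Agent.H23.DM.Kp1
import Pool.Agent.H23.DM.Av1

/-!
MODULE Av3 (MP_d9606f_gt, Part 1.3).  Root averaging.

Let `N₀` be the intersection of all closed convex sets that contain `ν` and are stable under
`EE h x`, all `x`.  `MK` for the commuting maps `EE h x` gives `N₁ = {σ ∈ N₀ | UInv σ}` nonempty, closed,
convex.  For `a ∈ AA p n`: `a_* N₀ ⊆ N₀`, because `{σ | a_* σ ∈ N₀}` is closed, convex, contains `ν`
(`a_* ν = ν`) and is stable under `EE h x` (`a EE h x = EE h (p^(a_i - a_j) x) a`, `dg_conj`); and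
`a_* N₁ ⊆ N₁` (`a_* σ` is invariant under `a (EE h x) a⁻¹`).  `MK` for `AA p n` on `N₁`.
-/

open MeasureTheory Filter Matrix
open scoped Topology ENNReal

namespace Pool.Agent.H23.DM

open Pool.Agent.H73.PZ

variable {p : ℕ} [Fact p.Prime] {n : ℕ} {Y : Type} [TopologicalSpace Y] [CompactSpace Y]
  [T2Space Y] [SecondCountableTopology Y] [MeasurableSpace Y] [BorelSpace Y]
  [MulAction (SLn p n) Y] [ContinuousSMul (SLn p n) Y]

private theorem av3_comp {S T : Y → Y} (hS : Continuous S) (hT : Continuous T)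
    (σ : ProbabilityMeasure Y) : psh S hS (psh T hT σ) = psh (fun y => S (T y)) (hS.comp hT) σ := by
  apply Subtype.ext
  change ((σ : Measure Y).map T).map S = (σ : Measure Y).map (fun y => S (T y))
  rw [Measure.map_map hS.measurable hT.measurable]
  rfl

private theorem av3_congr {S T : Y → Y} (hS : Continuous S) (hT : Continuous T)
    (h : ∀ y, S y = T y) (σ : ProbabilityMeasure Y) : psh S hS σ = psh T hT σ := by
  obtain rfl : S = T := funext h
  rfl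

private theorem av3_swap {g g' k k' : SLn p n} (h : g * g' = k * k') (σ : ProbabilityMeasure Y) :
    psh (fun y => g • y) (continuous_const_smul g)
      (psh (fun y => g' • y) (continuous_const_smul g') σ) =
    psh (fun y => k • y) (continuous_const_smul k)
      (psh (fun y => k' • y) (continuous_const_smul k') σ) := by
  rw [av3_comp, av3_comp]
  refine av3_congr _ _ (fun y => ?_) σ
  rw [smul_smul, smul_smul, h]

private theorem av3_closed {N : Set (ProbabilityMeasure Y)} (hN : IsClosed N) {T : Y → Y}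
    (hT : Continuous T) : IsClosed {σ : ProbabilityMeasure Y | psh T hT σ ∈ N} :=
  hN.preimage (ProbabilityMeasure.continuous_map hT)

private theorem av3_cvx {N : Set (ProbabilityMeasure Y)} (hN : Cvx N) {T : Y → Y}
    (hT : Continuous T) : Cvx {σ : ProbabilityMeasure Y | psh T hT σ ∈ N} := by
  intro ν ν' σ t hν hν' ht hσ
  refine hN (psh T hT ν) (psh T hT ν') (psh T hT σ) t hν hν' ht ?_
  change (σ : Measure Y).map T = t • (ν : Measure Y).map T + (1 - t) • (ν' : Measure Y).map T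
  rw [hσ, Measure.map_add _ _ hT.measurable, Measure.map_smul, Measure.map_smul]

private theorem av3_ex {a : SLn p n} (ha : a ∈ AA p n) {i j : Fin n} (h : i ≠ j) :
    (∀ x : ℚ_[p], ∃ x' : ℚ_[p], a * EE h x = EE h x' * a) ∧
      ∀ x : ℚ_[p], ∃ x' : ℚ_[p], EE h x * a = a * EE h x' := by
  obtain ⟨b, hb, rfl⟩ := ha
  refine ⟨fun x => ⟨_, dg_conj hb h x⟩, fun x => ?_⟩
  have h0 : (p : ℚ_[p]) ^ (b i - b j) ≠ 0 := zpow_ne_zero _ pne
  refine ⟨((p : ℚ_[p]) ^ (b i - b j))⁻¹ * x, ?_⟩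
  rw [dg_conj hb h, ← mul_assoc, mul_inv_cancel₀ h0, one_mul]

theorem root_avg (ν : ProbabilityMeasure Y) (hν : AInv p n (ν : Measure Y)) {i j : Fin n}
    (h : i ≠ j) :
    ∃ ν' : ProbabilityMeasure Y, AInv p n (ν' : Measure Y) ∧ UInv p (ν' : Measure Y) h ∧
      ∀ N : Set (ProbabilityMeasure Y), IsClosed N → Cvx N →
        (∀ σ ∈ N, ∀ x : ℚ_[p], psh (fun y => EE h x • y) (continuous_const_smul _) σ ∈ N) →
        ν ∈ N → ν' ∈ N := by
  obtain ⟨N₀, hN₀⟩ : ∃ N₀ : Set (ProbabilityMeasure Y), ∀ σ, σ ∈ N₀ ↔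
      ∀ N : Set (ProbabilityMeasure Y), IsClosed N → Cvx N →
        (∀ σ ∈ N, ∀ x : ℚ_[p], psh (fun y => EE h x • y) (continuous_const_smul _) σ ∈ N) →
        ν ∈ N → σ ∈ N := ⟨{σ | ∀ N : Set (ProbabilityMeasure Y), IsClosed N → Cvx N →
        (∀ σ ∈ N, ∀ x : ℚ_[p], psh (fun y => EE h x • y) (continuous_const_smul _) σ ∈ N) →
        ν ∈ N → σ ∈ N}, fun σ => Iff.rfl⟩
  have hcl₀ : IsClosed N₀ := by
    have e : N₀ = ⋂ N : Set (ProbabilityMeasure Y), ⋂ (_ : IsClosed N ∧ Cvx N ∧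
        (∀ σ ∈ N, ∀ x : ℚ_[p], psh (fun y => EE h x • y) (continuous_const_smul _) σ ∈ N) ∧
        ν ∈ N), N := by
      ext σ
      rw [hN₀, Set.mem_iInter]
      constructor
      · intro h1 N
        rw [Set.mem_iInter]
        rintro ⟨h2, h3, h4, h5⟩
        exact h1 N h2 h3 h4 h5
      · intro h1 N h2 h3 h4 h5
        exact Set.mem_iInter.1 (h1 N) ⟨h2, h3, h4, h5⟩
    rw [e]
    exact isClosed_iInter fun N => isClosed_iInter fun hN => hN.1
  have hcv₀ : Cvx N₀ := by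
    intro σ σ' τ t h1 h2 ht hτ
    rw [hN₀] at h1 h2 ⊢
    intro N h3 h4 h5 h6
    exact h4 σ σ' τ t (h1 N h3 h4 h5 h6) (h2 N h3 h4 h5 h6) ht hτ
  have hst₀ : ∀ σ ∈ N₀, ∀ x : ℚ_[p],
      psh (fun y => EE h x • y) (continuous_const_smul _) σ ∈ N₀ := by
    intro σ h1 x
    rw [hN₀] at h1 ⊢
    intro N h3 h4 h5 h6
    exact h5 σ (h1 N h3 h4 h5 h6) x
  have hmem₀ : ν ∈ N₀ := (hN₀ ν).2 fun N _ _ _ h6 => h6
  have hA₀ : ∀ a : AA p n, ∀ σ ∈ N₀,
      psh (fun y => (a : SLn p n) • y) (continuous_const_smul _) σ ∈ N₀ := by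
    intro a σ h1
    rw [hN₀]
    intro N h3 h4 h5 h6
    refine (hN₀ σ).1 h1 {τ | psh (fun y => (a : SLn p n) • y) (continuous_const_smul _) τ ∈ N}
      (av3_closed h3 (continuous_const_smul (a : SLn p n)))
      (av3_cvx h4 (continuous_const_smul (a : SLn p n))) ?_ ?_
    · intro τ hτ x
      obtain ⟨x', hx'⟩ := (av3_ex a.2 h).1 x
      have h7 := h5 _ hτ x'
      rw [← av3_swap hx'] at h7
      exact h7
    · have h7 : psh (fun y => (a : SLn p n) • y) (continuous_const_smul _) ν = ν :=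
        (inv_iff_psh (continuous_const_smul (a : SLn p n)) ν).1 (hν a)
      change psh (fun y => (a : SLn p n) • y) (continuous_const_smul _) ν ∈ N
      rw [h7]
      exact h6
  obtain ⟨σ₀, hσ₀, hσ₁⟩ := MK ⟨ν, hmem₀⟩ hcl₀ hcv₀ (fun (x : ℚ_[p]) (y : Y) => EE h x • y)
    (fun x => continuous_const_smul (EE h x)) (fun x σ hσ => hst₀ σ hσ x)
    (fun x x' σ _ => av3_swap (by rw [← EE_add, ← EE_add, add_comm]) σ)
  obtain ⟨N₁, hN₁⟩ : ∃ N₁ : Set (ProbabilityMeasure Y), N₁ = N₀ ∩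
      ⋂ x : ℚ_[p], {σ | Inv1 (fun y : Y => EE h x • y) σ} := ⟨_, rfl⟩
  have hmem₁ : ∀ σ, σ ∈ N₁ ↔ σ ∈ N₀ ∧ ∀ x : ℚ_[p], Inv1 (fun y : Y => EE h x • y) σ := by
    intro σ
    rw [hN₁, Set.mem_inter_iff, Set.mem_iInter]
    rfl
  have hcl₁ : IsClosed N₁ := by
    rw [hN₁]
    exact hcl₀.inter (isClosed_iInter fun x => isClosed_inv (continuous_const_smul (EE h x)))
  have hcv₁ : Cvx N₁ := by
    intro σ σ' τ t h1 h2 ht hτ
    rw [hmem₁] at h1 h2 ⊢
    exact ⟨hcv₀ σ σ' τ t h1.1 h2.1 ht hτ, fun x =>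
      cvx_inv (continuous_const_smul (EE h x)) σ σ' τ t (h1.2 x) (h2.2 x) ht hτ⟩
  have hA₁ : ∀ a : AA p n, ∀ σ ∈ N₁,
      psh (fun y => (a : SLn p n) • y) (continuous_const_smul _) σ ∈ N₁ := by
    intro a σ h1
    rw [hmem₁] at h1 ⊢
    refine ⟨hA₀ a σ h1.1, fun x => ?_⟩
    obtain ⟨x', hx'⟩ := (av3_ex a.2 h).2 x
    rw [inv_iff_psh (continuous_const_smul (EE h x)), av3_swap hx',
      (inv_iff_psh (continuous_const_smul (EE h x')) σ).1 (h1.2 x')]
  obtain ⟨ν', hν'1, hν'2⟩ := MK ⟨σ₀, (hmem₁ σ₀).2 ⟨hσ₀, hσ₁⟩⟩ hcl₁ hcv₁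
    (fun (a : AA p n) (y : Y) => (a : SLn p n) • y)
    (fun a => continuous_const_smul (a : SLn p n)) hA₁
    (fun a b σ _ => av3_swap (AA_comm a.2 b.2) σ)
  have h8 := (hmem₁ ν').1 hν'1
  exact ⟨ν', fun a => hν'2 a, fun x => h8.2 x, (hN₀ ν').1 h8.1⟩

end Pool.Agent.H23.DM
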