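import Mathlib
import Pool.Agent.H23.DM.Av2
import Pool.Agent.H23.DM.Av3

/-!
MODULE Av4 (MP_d9606f_gt, Part 1.4 in kappa form).  Invariance under a horospherical group.

`UI μ I`: `μ` is invariant under `U^{ij}` for `i ∈ I`, `j ∉ I`.
`we e`: exponents `n - 1` at `e`, `-1` elsewhere (sum zero).  Write `κ(a) = kap L (dg p a) ν`;
`κ(a+b) ≤ κ(a) + κ(b)` (`kap_mul_le`), `κ(k a) = k κ(a)`.
* Some `κ(± we e) > 0`: `n • te i j = we j - we i`, every `a` is a sum of `te`'s, so if all
  `κ(± we e) ≤ 0` then `κ(a) ≤ 0` for all `a`, contradiction to `hν`.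
* Let `i1 ≠ e`.  Average (`root_avg`) successively over `(i1, a)`, `a ∉ {i1, e}`; each step keeps, by
  its last clause, the closed convex stable sets `{κ(± we e) ≥ c} ∩ {(we e)-invariant}` (`kap_psh`:
  `dg p (we e)` commutes with `EE (i1,a)`) and `{UInv (i1,b)}` (`EE (i1,a)`, `EE (i1,b)` commute).
* Case 1: `κ(b) > 0` for some `b` with `b i1 = b e`: average over `(i1, e)`; `I = {i1}`.
* Case 2: `κ(b) ≤ 0` for all such `b`: `± we e = ± (we i1 + we e) + (∓ we i1)` gives
  `κ(∓ we i1) > 0`; average over `(e, a)`, `a ∉ {i1, e}` (they commute with each other, with `(i1,b)`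
  for `b ≠ e`, and with `dg p (we i1)`); `I = {i1, e}`, whose complement is nonempty as `3 ≤ n`.
-/

open MeasureTheory Filter Matrix
open scoped Topology ENNReal

namespace Pool.Agent.H23.DM

open Pool.Agent.H73.PZ

variable {p : ℕ} [Fact p.Prime] {n : ℕ} {Y : Type} [TopologicalSpace Y] [CompactSpace Y]
  [T2Space Y] [SecondCountableTopology Y] [MeasurableSpace Y] [BorelSpace Y]
  [MulAction (SLn p n) Y] [ContinuousSMul (SLn p n) Y] {L : SLn p n → Y → ℝ}

/-- Invariance under the unipotent radical `U_I`. -/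
def UI (p : ℕ) [Fact p.Prime] {n : ℕ} {Y : Type} [MeasurableSpace Y] [MulAction (SLn p n) Y]
    (μ : Measure Y) (I : Set (Fin n)) : Prop :=
  ∀ (i j : Fin n) (h : i ≠ j), i ∈ I → j ∉ I → UInv p μ h

private theorem av4_EE_comm {i j k l : Fin n} (h : i ≠ j) (h' : k ≠ l) (hjk : j ≠ k) (hli : l ≠ i)
    (x y : ℚ_[p]) : EE h x * EE h' y = EE h' y * EE h x := by
  apply Subtype.ext
  rw [Matrix.SpecialLinearGroup.coe_mul, Matrix.SpecialLinearGroup.coe_mul,
    Matrix.SpecialLinearGroup.transvection_coe, Matrix.SpecialLinearGroup.transvection_coe]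
  simp only [mul_add, add_mul, mul_one, one_mul]
  rw [Matrix.single_mul_single_of_ne _ _ _ _ hjk, Matrix.single_mul_single_of_ne _ _ _ _ hli]
  abel

private theorem av4_inv_psh {u v : SLn p n} (huv : v * u = u * v) {σ : ProbabilityMeasure Y}
    (hσ : Inv1 (fun y => v • y) σ) :
    Inv1 (fun y => v • y) (psh (fun y => u • y) (continuous_const_smul u) σ) := by
  have hu : Measurable (fun y : Y => u • y) := (continuous_const_smul u).measurable
  have hv : Measurable (fun y : Y => v • y) := (continuous_const_smul v).measurable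
  refine ⟨hv, ?_⟩
  change Measure.map _ (Measure.map _ (σ : Measure Y)) = Measure.map _ (σ : Measure Y)
  rw [Measure.map_map hv hu]
  have e : (fun y : Y => v • y) ∘ (fun y : Y => u • y) =
      (fun y => u • y) ∘ (fun y => v • y) := by
    funext y
    simp only [Function.comp, smul_smul, huv]
  rw [e, ← Measure.map_map hu hv]
  have h2 := hσ.map_eq
  exact congrArg (Measure.map _) h2

private theorem av4_step (hL : Sub1 L) (σ : ProbabilityMeasure Y)
    (hσ : AInv p n (σ : Measure Y)) {i j : Fin n} (h : i ≠ j) (S : Set (SLn p n))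
    (hS : ∀ g ∈ S, ∀ x : ℚ_[p], g * EE h x = EE h x * g)
    (hσS : ∀ g ∈ S, Inv1 (fun y => g • y) σ) (W : AA p n)
    (hW : ∀ x : ℚ_[p], (W : SLn p n) * EE h x = EE h x * (W : SLn p n)) {c : ℝ}
    (hc : c ≤ kap L (W : SLn p n) (σ : Measure Y)) :
    ∃ σ' : ProbabilityMeasure Y, AInv p n (σ' : Measure Y) ∧ UInv p (σ' : Measure Y) h ∧
      (∀ g ∈ S, Inv1 (fun y => g • y) σ') ∧ c ≤ kap L (W : SLn p n) (σ' : Measure Y) := by
  obtain ⟨σ', h1, h2, h3⟩ := root_avg σ hσ h
  have hN := h3 ({μ | c ≤ kap L (W : SLn p n) (μ : Measure Y)} ∩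
    ({μ | Inv1 (fun y => (W : SLn p n) • y) μ} ∩ ⋂ g ∈ S, {μ | Inv1 (fun y => g • y) μ})) ?_ ?_ ?_ ?_
  · refine ⟨σ', h1, h2, fun g hg => ?_, hN.1⟩
    have := hN.2.2
    simp only [Set.mem_iInter] at this
    exact this g hg
  · refine (isClosed_kap hL _ _).inter ((isClosed_inv (continuous_const_smul _)).inter ?_)
    exact isClosed_biInter fun g _ => isClosed_inv (continuous_const_smul _)
  · intro μ μ' τ t hμ hμ' ht hτ
    refine ⟨cvx_kap hL _ _ μ μ' τ t hμ.1 hμ'.1 ht hτ,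
      cvx_inv (continuous_const_smul _) μ μ' τ t hμ.2.1 hμ'.2.1 ht hτ, ?_⟩
    have hm := hμ.2.2
    have hm' := hμ'.2.2
    simp only [Set.mem_iInter] at hm hm' ⊢
    exact fun g hg => cvx_inv (continuous_const_smul _) μ μ' τ t (hm g hg) (hm' g hg) ht hτ
  · intro μ hμ x
    refine ⟨?_, av4_inv_psh (hW x) hμ.2.1, ?_⟩
    · change c ≤ kap L _ _
      rw [kap_psh hL (hW x) μ hμ.2.1]
      exact hμ.1
    · have hm := hμ.2.2
      simp only [Set.mem_iInter] at hm ⊢
      exact fun g hg => av4_inv_psh (hS g hg x) (hm g hg)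
  · refine ⟨hc, hσ W, ?_⟩
    simp only [Set.mem_iInter]
    exact hσS

private theorem av4_row (hL : Sub1 L) (σ : ProbabilityMeasure Y)
    (hσ : AInv p n (σ : Measure Y)) (i : Fin n) (S : Set (SLn p n))
    (hσS : ∀ g ∈ S, Inv1 (fun y => g • y) σ) (W : AA p n) {c : ℝ}
    (hc : c ≤ kap L (W : SLn p n) (σ : Measure Y)) (J : Finset (Fin n))
    (hJ : ∀ j ∈ J, i ≠ j)
    (hS : ∀ j ∈ J, ∀ h : i ≠ j, ∀ g ∈ S, ∀ x : ℚ_[p], g * EE h x = EE h x * g)
    (hW : ∀ j ∈ J, ∀ h : i ≠ j, ∀ x : ℚ_[p],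
      (W : SLn p n) * EE h x = EE h x * (W : SLn p n)) :
    ∃ σ' : ProbabilityMeasure Y, AInv p n (σ' : Measure Y) ∧
      (∀ j ∈ J, ∀ h : i ≠ j, UInv p (σ' : Measure Y) h) ∧
      (∀ g ∈ S, Inv1 (fun y => g • y) σ') ∧ c ≤ kap L (W : SLn p n) (σ' : Measure Y) := by
  induction J using Finset.induction_on with
  | empty => exact ⟨σ, hσ, fun j hj => absurd hj (Finset.notMem_empty j), hσS, hc⟩
  | insert a J ha ih =>
    obtain ⟨σ1, h1, h2, h3, h4⟩ := ih (fun j hj => hJ j (Finset.mem_insert_of_mem hj))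
      (fun j hj => hS j (Finset.mem_insert_of_mem hj))
      (fun j hj => hW j (Finset.mem_insert_of_mem hj))
    have hia : i ≠ a := hJ a (Finset.mem_insert_self _ _)
    obtain ⟨σ2, k1, k2, k3, k4⟩ := av4_step hL σ1 h1 hia
      (S ∪ {g | ∃ j ∈ J, ∃ h : i ≠ j, ∃ x : ℚ_[p], g = EE h x})
      (by
        rintro g (hg | ⟨j, hj, h, y, rfl⟩) x
        · exact hS a (Finset.mem_insert_self _ _) hia g hg x
        · exact av4_EE_comm h hia (Ne.symm h) (Ne.symm hia) y x)
      (by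
        rintro g (hg | ⟨j, hj, h, y, rfl⟩)
        · exact h3 g hg
        · exact h2 j hj h y)
      W (hW a (Finset.mem_insert_self _ _) hia) h4
    refine ⟨σ2, k1, ?_, fun g hg => k3 g (Or.inl hg), k4⟩
    intro j hj h
    rcases Finset.mem_insert.1 hj with rfl | hj
    · exact k2
    · exact fun x => k3 _ (Or.inr ⟨j, hj, h, x, rfl⟩)

private theorem av4_K_add (hL : Sub1 L) (μ : ProbabilityMeasure Y)
    (hμ : AInv p n (μ : Measure Y)) {a b : Fin n → ℤ} (ha : ∑ i, a i = 0) (hb : ∑ i, b i = 0) :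
    kap L (dg p fun i => a i + b i) (μ : Measure Y) ≤
      kap L (dg p a) (μ : Measure Y) + kap L (dg p b) (μ : Measure Y) := by
  rw [dg_add ha hb]
  exact kap_mul_le hL (AA_comm ⟨a, ha, rfl⟩ ⟨b, hb, rfl⟩) μ (hμ ⟨_, a, ha, rfl⟩)
    (hμ ⟨_, b, hb, rfl⟩)

private theorem av4_dg_nat {a : Fin n → ℤ} (ha : ∑ i, a i = 0) (k : ℕ) :
    dg p (fun i => (k : ℤ) * a i) = dg p a ^ k := by
  induction k with
  | zero =>
    rw [pow_zero, ← dg_zero]
    congr 1
    funext i
    simp
  | succ k ih =>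
    have h1 : ∑ i, (k : ℤ) * a i = 0 := by rw [← Finset.mul_sum, ha, mul_zero]
    rw [pow_succ, ← ih, ← dg_add h1 ha]
    congr 1
    funext i
    push_cast
    ring

private theorem av4_K_nat (hL : Sub1 L) (μ : ProbabilityMeasure Y)
    (hμ : AInv p n (μ : Measure Y)) {a : Fin n → ℤ} (ha : ∑ i, a i = 0)
    (h : kap L (dg p a) (μ : Measure Y) ≤ 0) (k : ℕ) :
    kap L (dg p fun i => (k : ℤ) * a i) (μ : Measure Y) ≤ 0 := by
  rw [av4_dg_nat ha]
  rcases Nat.eq_zero_or_pos k with rfl | hk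
  · rw [pow_zero]
    exact kap_one_le hL μ
  · rw [kap_pow hL _ μ (hμ ⟨_, a, ha, rfl⟩) hk]
    exact mul_nonpos_of_nonneg_of_nonpos (Nat.cast_nonneg k) h

private theorem av4_K_sum (hL : Sub1 L) (μ : ProbabilityMeasure Y)
    (hμ : AInv p n (μ : Measure Y)) (f : Fin n → Fin n → ℤ) (hf : ∀ e, ∑ i, f e i = 0)
    (h : ∀ e, kap L (dg p (f e)) (μ : Measure Y) ≤ 0) (s : Finset (Fin n)) :
    kap L (dg p fun i => ∑ e ∈ s, f e i) (μ : Measure Y) ≤ 0 := by
  induction s using Finset.induction_on with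
  | empty =>
    simp only [Finset.sum_empty]
    rw [dg_zero]
    exact kap_one_le hL μ
  | insert a s ha ih =>
    have h1 : ∑ i, ∑ e ∈ s, f e i = 0 := by
      rw [Finset.sum_comm]
      exact Finset.sum_eq_zero fun e _ => hf e
    have h2 := av4_K_add hL μ hμ (hf a) h1
    have e : (fun i => ∑ e ∈ insert a s, f e i) = fun i => f a i + ∑ e ∈ s, f e i := by
      funext i
      rw [Finset.sum_insert ha]
    rw [e]
    linarith [h a]

/-- The exponents `n - 1` at `e`, `-1` elsewhere. -/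
private def av4_we {n : ℕ} (e k : Fin n) : ℤ := (if k = e then (n : ℤ) else 0) - 1

private theorem av4_sum_we {n : ℕ} (e : Fin n) : ∑ k, av4_we e k = 0 := by
  unfold av4_we
  rw [Finset.sum_sub_distrib]
  simp

private theorem av4_exists (hL : Sub1 L) (μ : ProbabilityMeasure Y)
    (hμ : AInv p n (μ : Measure Y)) (t : AA p n) (hν : 0 < kap L (t : SLn p n) (μ : Measure Y)) :
    ∃ (e : Fin n) (s : ℤ), 0 < kap L (dg p fun k => s * av4_we e k) (μ : Measure Y) := by
  by_contra hcon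
  push Not at hcon
  obtain ⟨g, a, ha, rfl⟩ := t
  have h1 : ∀ e, ∑ i, a e * av4_we e i = 0 := fun e => by
    rw [← Finset.mul_sum, av4_sum_we, mul_zero]
  have h2 := av4_K_sum hL μ hμ (fun e i => a e * av4_we e i) h1 (fun e => hcon e (a e))
    Finset.univ
  have e : (fun i => ∑ e, a e * av4_we e i) = fun i => (n : ℤ) * a i := by
    funext i
    unfold av4_we
    simp only [mul_sub, mul_one, Finset.sum_sub_distrib, ha, sub_zero, mul_ite, mul_zero]
    rw [Finset.sum_ite_eq Finset.univ i]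
    simp [mul_comm]
  rw [e, av4_dg_nat ha] at h2
  rcases Nat.eq_zero_or_pos n with hn | hn
  · subst hn
    have : dg p a = 1 := by
      rw [← dg_zero]
      congr 1
      funext i
      exact i.elim0
    have h3 : kap L (dg p a) (μ : Measure Y) ≤ 0 := by
      rw [this]
      exact kap_one_le hL μ
    exact absurd hν (not_lt.2 h3)
  · rw [kap_pow hL _ μ (hμ ⟨_, a, ha, rfl⟩) hn] at h2
    have h3 : (0 : ℝ) < n := by exact_mod_cast hn
    have h4 : 0 < (n : ℝ) * kap L (dg p a) (μ : Measure Y) := mul_pos h3 hν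
    exact absurd h4 (not_lt.2 h2)

private theorem av4_dg_EE {a : Fin n → ℤ} (ha : ∑ i, a i = 0) {i j : Fin n} (h : i ≠ j)
    (he : a i = a j) (x : ℚ_[p]) : dg p a * EE h x = EE h x * dg p a := by
  rw [dg_conj ha h x, he, sub_self, zpow_zero, one_mul]

theorem exists_UI (hn : 3 ≤ n) (hL : Sub1 L) (ν : ProbabilityMeasure Y)
    (hA : AInv p n (ν : Measure Y)) (t : AA p n) (hν : 0 < kap L (t : SLn p n) (ν : Measure Y)) :
    ∃ I : Set (Fin n), I.Nonempty ∧ Iᶜ.Nonempty ∧ ∃ ν' : ProbabilityMeasure Y,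
      AInv p n (ν' : Measure Y) ∧ UI p (ν' : Measure Y) I ∧
      ∃ t' : AA p n, 0 < kap L (t' : SLn p n) (ν' : Measure Y) := by
  obtain ⟨e, s, hes⟩ := av4_exists hL ν hA t hν
  have hwsum : ∀ (f : Fin n) (r : ℤ), ∑ k, r * av4_we f k = 0 := fun f r => by
    rw [← Finset.mul_sum, av4_sum_we, mul_zero]
  have hwne : ∀ {f k : Fin n}, k ≠ f → av4_we f k = -1 := fun {f k} h => by
    unfold av4_we
    rw [if_neg h]
    norm_num
  have hwself : ∀ f : Fin n, av4_we f f = (n : ℤ) - 1 := fun f => by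
    unfold av4_we
    rw [if_pos rfl]
  haveI : Nontrivial (Fin n) := Fin.nontrivial_iff_two_le.2 (by omega)
  obtain ⟨i1, hi1⟩ := exists_ne e
  -- first round: the rows `(i1, a)`, `a ∉ {i1, e}`
  obtain ⟨ν1, h1, h2, -, h4⟩ := av4_row hL ν hA i1 ∅ (fun g hg => absurd hg (Set.notMem_empty g))
    (mkA p _ (hwsum e s)) (c := kap L (dg p fun k => s * av4_we e k) (ν : Measure Y)) le_rfl
    (Finset.univ.filter fun a => i1 ≠ a ∧ a ≠ e) (fun j hj => (Finset.mem_filter.1 hj).2.1)
    (fun j _ h g hg => absurd hg (Set.notMem_empty g))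
    (fun j hj h x => av4_dg_EE (hwsum e s) h
      (by
        have hje := (Finset.mem_filter.1 hj).2.2
        simp only [hwne hi1, hwne hje]) x)
  have h4' : 0 < kap L (dg p fun k => s * av4_we e k) (ν1 : Measure Y) := lt_of_lt_of_le hes h4
  by_cases hcase : ∃ b : Fin n → ℤ, ∑ i, b i = 0 ∧ b i1 = b e ∧
      0 < kap L (dg p b) (ν1 : Measure Y)
  · obtain ⟨b, hb, hbe, hbk⟩ := hcase
    obtain ⟨ν2, k1, k2, k3, k4⟩ := av4_step hL ν1 h1 hi1
      {g | ∃ a : Fin n, a ≠ e ∧ ∃ h : i1 ≠ a, ∃ x : ℚ_[p], g = EE h x}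
      (by
        rintro g ⟨a, hae, h, y, rfl⟩ x
        exact av4_EE_comm h hi1 (Ne.symm h) (Ne.symm hi1) y x)
      (by
        rintro g ⟨a, hae, h, y, rfl⟩
        exact h2 a (Finset.mem_filter.2 ⟨Finset.mem_univ _, h, hae⟩) h y)
      (mkA p b hb) (fun x => av4_dg_EE hb hi1 hbe x)
      (c := kap L (dg p b) (ν1 : Measure Y)) le_rfl
    refine ⟨{i1}, ⟨i1, rfl⟩, ⟨e, fun h => hi1 h.symm⟩, ν2, k1, ?_, mkA p b hb,
      lt_of_lt_of_le hbk k4⟩
    intro i j h hi hj
    have hi' : i = i1 := hi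
    subst hi'
    by_cases hje : j = e
    · subst hje
      exact k2
    · exact fun x => k3 _ ⟨j, hje, h, x, rfl⟩
  · push Not at hcase
    -- `s we e = s (we i1 + we e) + (- s we i1)`
    have hk : 0 < kap L (dg p fun k => -s * av4_we i1 k) (ν1 : Measure Y) := by
      have hb : ∑ k, (s * av4_we i1 k + s * av4_we e k) = 0 := by
        rw [Finset.sum_add_distrib, hwsum, hwsum, add_zero]
      have hq := hcase (fun k => s * av4_we i1 k + s * av4_we e k) hb
        (by
          simp only [hwself, hwne hi1, hwne hi1.symm]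
          ring)
      have hadd := av4_K_add hL ν1 h1 hb (hwsum i1 (-s))
      have e1 : (fun k => s * av4_we i1 k + s * av4_we e k + -s * av4_we i1 k) =
          fun k => s * av4_we e k := by
        funext k
        ring
      rw [e1] at hadd
      linarith
    obtain ⟨ν2, k1, k2, k3, k4⟩ := av4_row hL ν1 h1 e
      {g | ∃ a : Fin n, a ≠ e ∧ ∃ h : i1 ≠ a, ∃ x : ℚ_[p], g = EE h x}
      (by
        rintro g ⟨a, hae, h, y, rfl⟩
        exact h2 a (Finset.mem_filter.2 ⟨Finset.mem_univ _, h, hae⟩) h y)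
      (mkA p _ (hwsum i1 (-s))) (c := kap L (dg p fun k => -s * av4_we i1 k) (ν1 : Measure Y))
      le_rfl (Finset.univ.filter fun a => e ≠ a ∧ a ≠ i1)
      (fun j hj => (Finset.mem_filter.1 hj).2.1)
      (by
        rintro j hj h g ⟨a, hae, h', y, rfl⟩ x
        exact av4_EE_comm h' h hae (Finset.mem_filter.1 hj).2.2 y x)
      (fun j hj h x => av4_dg_EE (hwsum i1 (-s)) h
        (by
          have hji := (Finset.mem_filter.1 hj).2.2
          simp only [hwne hi1.symm, hwne hji]) x)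
    have hex : ∃ j : Fin n, j ≠ i1 ∧ j ≠ e := by
      by_contra hcon
      push Not at hcon
      have hle : (Finset.univ : Finset (Fin n)) ⊆ {i1, e} := by
        intro j _
        by_cases hj : j = i1
        · simp [hj]
        · simp [hcon j hj]
      have := Finset.card_le_card hle
      rw [Finset.card_univ, Fintype.card_fin] at this
      have := Finset.card_le_two (a := i1) (b := e)
      omega
    obtain ⟨j0, hj1, hj2⟩ := hex
    refine ⟨{i1, e}, ⟨i1, Or.inl rfl⟩, ⟨j0, fun h => h.elim hj1 hj2⟩, ν2, k1, ?_,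
      mkA p _ (hwsum i1 (-s)), lt_of_lt_of_le hk k4⟩
    intro i j h hi hj
    have hji : j ≠ i1 := fun hh => hj (Or.inl hh)
    have hje : j ≠ e := fun hh => hj (Or.inr hh)
    rcases hi with hi | hi
    · have hi' : i = i1 := hi
      subst hi'
      exact fun x => k3 _ ⟨j, hje, h, x, rfl⟩
    · have hi' : i = e := hi
      subst hi'
      exact k2 j (Finset.mem_filter.2 ⟨Finset.mem_univ _, h, hji⟩) h

end Pool.Agent.H23.DM
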