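import Mathlib
import Pool.Agent.H23.DM.Gsp

/-!
MODULE Hq1 (MP_d9606f_gt, Part 1.5, algebra).

`I` a proper nonempty set of indices, `aI`: exponents `- |Iᶜ|` on `I`, `|I|` off `I` (sum zero);
`dg p aI` expands `U^{ij}` for `i ∈ I`, `j ∉ I`, contracts `U^{ji}`.
* `exists_factor`: for `k ∈ K_l`, `l ≥ 1`, there are `u ∈ K_l` unipotent, `u = 1 + X`, `X i j = 0`
  unless `i ∈ I`, `j ∉ I`, and `h ∈ K_l` with `k = h u`, `h i j = 0` for `i ∈ I`, `j ∉ I`.
  Block form with respect to `I, Iᶜ`: `k = [[A, B], [C, D]]`, `A ≡ 1 mod p^l` is invertible over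
  `ℤ_p` and `A⁻¹ ≡ 1`, `u = [[1, A⁻¹ B], [0, 1]]`, `h = k u⁻¹ = [[A, 0], [C, D - C A⁻¹ B]]`.
* `conj_mem`: then `dg p aI * h * (dg p aI)⁻¹ ∈ K_l` (entry `(i,j)` is multiplied by
  `p^(aI i - aI j)`, which has norm `≤ 1` unless `i ∈ I`, `j ∉ I`).
* `uni_prod`: such a `u` is the product of the commuting matrices `EE (i,j) (X i j)`, so a property
  that holds for them and is stable under products holds for `u`.
* `gen_UI`: a set of group elements closed under products containing all `EE h x` with exactly one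
  index in `I` is everything: `EE (i,i') = [EE (i,j), EE (j,i')]` (`EE_heis`), then `EE_induction`.
-/

open MeasureTheory Filter Matrix
open scoped Topology ENNReal

namespace Pool.Agent.H23.DM

open Pool.Agent.H73.PZ

variable {p : ℕ} [Fact p.Prime] {n : ℕ}

/-- The exponents of the central element. -/
noncomputable def aI {n : ℕ} (I : Set (Fin n)) [DecidablePred (· ∈ I)] (i : Fin n) : ℤ :=
  if i ∈ I then -((Finset.univ.filter (· ∉ I)).card : ℤ) else ((Finset.univ.filter (· ∈ I)).card : ℤ)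

theorem sum_aI (I : Set (Fin n)) [DecidablePred (· ∈ I)] : ∑ i, aI I i = 0 := by
  unfold aI
  rw [Finset.sum_ite, Finset.sum_const, Finset.sum_const, nsmul_eq_mul, nsmul_eq_mul]
  ring

/-- It suffices to look at the entries. -/
private theorem hq1_mem_KM {g : SLn p n} {M : ℕ}
    (h : ∀ i j, ‖g.1 i j - (1 : Matrix (Fin n) (Fin n) ℚ_[p]) i j‖ ≤ (p : ℝ) ^ (-(M : ℤ))) :
    g ∈ KM p n M := by
  refine mem_KM.2 ⟨mem_KK_iff.2 fun i j => ?_, h⟩
  have h1 : (1 : ℝ) ≤ p := by exact_mod_cast (Fact.out : p.Prime).one_lt.le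
  have hle : (p : ℝ) ^ (-(M : ℤ)) ≤ 1 := zpow_le_one_of_nonpos₀ h1 (by omega)
  have e : g.1 i j = (g.1 i j - (1 : Matrix (Fin n) (Fin n) ℚ_[p]) i j) +
      (1 : Matrix (Fin n) (Fin n) ℚ_[p]) i j := by ring
  rw [e]
  exact (IsUltrametricDist.norm_add_le_max _ _).trans
    (max_le ((h i j).trans hle) (norm_one_entry i j))

/-- A matrix over `ℤ_p` congruent to `1` modulo `p` has a unit as determinant. -/
private theorem hq1_isUnit_det {M : Matrix (Fin n) (Fin n) ℤ_[p]}
    (h : ∀ i j, PadicInt.toZMod (M i j) = (1 : Matrix (Fin n) (Fin n) (ZMod p)) i j) :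
    IsUnit M.det := by
  have e : M.map (PadicInt.toZMod (p := p)) = 1 := by
    ext i j
    exact h i j
  have h1 : PadicInt.toZMod (p := p) M.det = 1 := by
    rw [RingHom.map_det, RingHom.mapMatrix_apply, e, Matrix.det_one]
  by_contra hu
  have h2 : M.det ∈ IsLocalRing.maximalIdeal ℤ_[p] := (IsLocalRing.mem_maximalIdeal _).2 hu
  rw [← PadicInt.ker_toZMod, RingHom.mem_ker, h1] at h2
  exact one_ne_zero h2

/-- Elements of norm at most `p ^ (-l)`, `l ≥ 1`, reduce to zero. -/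
private theorem hq1_toZMod_zero {l : ℕ} (hl : 1 ≤ l) {x : ℤ_[p]}
    (hx : ‖x‖ ≤ (p : ℝ) ^ (-(l : ℤ))) : PadicInt.toZMod x = 0 := by
  have hp1 : (1 : ℝ) < p := by exact_mod_cast (Fact.out : p.Prime).one_lt
  have h1 : ‖x‖ < 1 := by
    refine lt_of_le_of_lt hx ?_
    refine zpow_lt_one_of_neg₀ hp1 (by omega)
  have h2 : x ∈ RingHom.ker (PadicInt.toZMod (p := p)) := by
    rw [PadicInt.ker_toZMod, IsLocalRing.mem_maximalIdeal, PadicInt.mem_nonunits]
    exact h1
  exact h2

/-- The determinant of a unipotent block matrix. -/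
private theorem hq1_det (I : Set (Fin n)) {M : Matrix (Fin n) (Fin n) ℚ_[p]}
    (hM : ∀ i j, ¬ (i ∈ I ∧ j ∉ I) → M i j = (1 : Matrix (Fin n) (Fin n) ℚ_[p]) i j) :
    M.det = 1 := by
  classical
  rw [Matrix.twoBlockTriangular_det M (· ∈ I)]
  · have e1 : M.toSquareBlockProp (· ∈ I) = 1 := by
      ext i j
      rw [Matrix.toSquareBlockProp_def, Matrix.of_apply, hM _ _ (fun h => h.2 j.2),
        Matrix.one_apply, Matrix.one_apply]
      simp only [Subtype.ext_iff]
    have e2 : M.toSquareBlockProp (fun i => ¬ i ∈ I) = 1 := by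
      ext i j
      rw [Matrix.toSquareBlockProp_def, Matrix.of_apply, hM _ _ (fun h => i.2 h.1),
        Matrix.one_apply, Matrix.one_apply]
      simp only [Subtype.ext_iff]
    rw [e1, e2, Matrix.det_one, Matrix.det_one, one_mul]
  · intro i hi j hj
    rw [hM i j (fun h => hi h.1), Matrix.one_apply, if_neg]
    rintro rfl
    exact hi hj

theorem exists_factor (I : Set (Fin n)) {l : ℕ} (hl : 1 ≤ l) {k : SLn p n} (hk : k ∈ KM p n l) :
    ∃ h ∈ KM p n l, ∃ u ∈ KM p n l, k = h * u ∧ (∀ i j, i ∈ I → j ∉ I → h.1 i j = 0) ∧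
      ∀ i j, ¬ (i ∈ I ∧ j ∉ I) → u.1 i j = (1 : Matrix (Fin n) (Fin n) ℚ_[p]) i j := by
  classical
  have hp1 : (1 : ℝ) ≤ p := by exact_mod_cast (Fact.out : p.Prime).one_lt.le
  have hc1 : (p : ℝ) ^ (-(l : ℤ)) ≤ 1 := zpow_le_one_of_nonpos₀ hp1 (by omega)
  have hc0 : (0 : ℝ) ≤ (p : ℝ) ^ (-(l : ℤ)) := by positivity
  have hkk := mem_KK_iff.1 (mem_KM.1 hk).1
  have hkm := (mem_KM.1 hk).2
  obtain ⟨kz, hkz⟩ : ∃ kz : Fin n → Fin n → ℤ_[p], ∀ i j, ((kz i j : ℤ_[p]) : ℚ_[p]) = k.1 i j :=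
    ⟨fun i j => ⟨k.1 i j, hkk i j⟩, fun i j => rfl⟩
  -- the block `A`, extended by the identity, over `ℤ_p`
  set A : Matrix (Fin n) (Fin n) ℤ_[p] := fun i j =>
    if i ∈ I ∧ j ∈ I then kz i j else (1 : Matrix (Fin n) (Fin n) ℤ_[p]) i j with hA
  set B : Matrix (Fin n) (Fin n) ℤ_[p] := fun i j =>
    if i ∈ I ∧ j ∉ I then kz i j else 0 with hB
  have hBn : ∀ i j, ‖B i j‖ ≤ (p : ℝ) ^ (-(l : ℤ)) := by
    intro i j
    by_cases hij : i ∈ I ∧ j ∉ I
    · have e : B i j = kz i j := if_pos hij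
      rw [e, PadicInt.norm_def, hkz]
      have hne : i ≠ j := by
        rintro rfl
        exact hij.2 hij.1
      have h2 := hkm i j
      rw [Matrix.one_apply, if_neg hne, sub_zero] at h2
      exact h2
    · have e : B i j = 0 := if_neg hij
      rw [e, norm_zero]
      exact hc0
  have hdet : IsUnit A.det := by
    apply hq1_isUnit_det
    intro i j
    by_cases hij : i ∈ I ∧ j ∈ I
    · have e : A i j = (A i j - (1 : Matrix (Fin n) (Fin n) ℤ_[p]) i j) +
          (1 : Matrix (Fin n) (Fin n) ℤ_[p]) i j := by ring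
      rw [e, map_add, hq1_toZMod_zero hl, zero_add, Matrix.one_apply, Matrix.one_apply]
      · split_ifs <;> simp
      · have h2 := hkm i j
        have e3 : A i j = kz i j := if_pos hij
        have e4 : (((1 : Matrix (Fin n) (Fin n) ℤ_[p]) i j : ℤ_[p]) : ℚ_[p]) =
            (1 : Matrix (Fin n) (Fin n) ℚ_[p]) i j := by
          rw [Matrix.one_apply, Matrix.one_apply]
          by_cases h3 : i = j
          · rw [if_pos h3, if_pos h3, PadicInt.coe_one]
          · rw [if_neg h3, if_neg h3, PadicInt.coe_zero]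
        rw [e3, PadicInt.norm_def, PadicInt.coe_sub, hkz, e4]
        exact h2
    · have e3 : A i j = (1 : Matrix (Fin n) (Fin n) ℤ_[p]) i j := if_neg hij
      rw [e3, Matrix.one_apply, Matrix.one_apply]
      split_ifs <;> simp
  set X : Matrix (Fin n) (Fin n) ℤ_[p] := A⁻¹ * B with hX
  have hAX : A * X = B := by
    rw [hX, ← Matrix.mul_assoc, Matrix.mul_nonsing_inv _ hdet, Matrix.one_mul]
  have hX0 : ∀ i j, ¬ (i ∈ I ∧ j ∉ I) → X i j = 0 := by
    intro i j hij
    by_cases hj : j ∈ I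
    · rw [hX, Matrix.mul_apply]
      refine Finset.sum_eq_zero fun m _ => ?_
      have : B m j = 0 := by
        rw [hB]
        simp [hj]
      rw [this, mul_zero]
    · have hi : i ∉ I := fun hi => hij ⟨hi, hj⟩
      have h1 : (A * X) i j = X i j := by
        rw [Matrix.mul_apply, Finset.sum_eq_single i]
        · rw [hA]
          simp [hi]
        · intro m _ hm
          rw [hA]
          simp [hi, hm.symm]
        · intro h
          exact absurd (Finset.mem_univ i) h
      rw [← h1, hAX, hB]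
      simp [hi]
  have hXn : ∀ i j, ‖X i j‖ ≤ (p : ℝ) ^ (-(l : ℤ)) := by
    intro i j
    rw [hX, Matrix.mul_apply]
    refine IsUltrametricDist.norm_sum_le_of_forall_le_of_nonneg hc0 fun m _ => ?_
    rw [norm_mul]
    calc _ ≤ (1 : ℝ) * (p : ℝ) ^ (-(l : ℤ)) :=
          mul_le_mul (PadicInt.norm_le_one _) (hBn m j) (norm_nonneg _) zero_le_one
      _ = _ := one_mul _
  -- the same over `ℚ_p`
  set Y : Matrix (Fin n) (Fin n) ℚ_[p] := fun i j => (X i j : ℚ_[p]) with hY
  have hY0 : ∀ i j, ¬ (i ∈ I ∧ j ∉ I) → Y i j = 0 := by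
    intro i j hij
    rw [hY]
    simp only [hX0 i j hij, PadicInt.coe_zero]
  have hYn : ∀ i j, ‖Y i j‖ ≤ (p : ℝ) ^ (-(l : ℤ)) := fun i j => hXn i j
  have hYY : Y * Y = 0 := by
    ext i j
    rw [Matrix.mul_apply, Matrix.zero_apply]
    refine Finset.sum_eq_zero fun m _ => ?_
    by_cases hm : m ∈ I
    · rw [hY0 i m (fun h => h.2 hm), zero_mul]
    · rw [hY0 m j (fun h => hm h.1), mul_zero]
  have hu0 : ∀ i j, ¬ (i ∈ I ∧ j ∉ I) → (1 + Y) i j = (1 : Matrix (Fin n) (Fin n) ℚ_[p]) i j := by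
    intro i j hij
    rw [Matrix.add_apply, hY0 i j hij, add_zero]
  have hv0 : ∀ i j, ¬ (i ∈ I ∧ j ∉ I) → (1 - Y) i j = (1 : Matrix (Fin n) (Fin n) ℚ_[p]) i j := by
    intro i j hij
    rw [Matrix.sub_apply, hY0 i j hij, sub_zero]
  set u : SLn p n := ⟨1 + Y, hq1_det I hu0⟩ with hu
  set v : SLn p n := ⟨1 - Y, hq1_det I hv0⟩ with hv
  have huv : u * v = 1 := by
    apply Subtype.ext
    rw [Matrix.SpecialLinearGroup.coe_mul, Matrix.SpecialLinearGroup.coe_one]
    change (1 + Y) * (1 - Y) = 1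
    rw [Matrix.mul_sub, Matrix.add_mul, Matrix.add_mul, hYY, Matrix.mul_one, Matrix.mul_one,
      Matrix.one_mul]
    abel
  have hum : u ∈ KM p n l := by
    apply hq1_mem_KM
    intro i j
    change ‖(1 + Y) i j - (1 : Matrix (Fin n) (Fin n) ℚ_[p]) i j‖ ≤ _
    rw [Matrix.add_apply, add_sub_cancel_left]
    exact hYn i j
  have hvm : v ∈ KM p n l := by
    have : v = u⁻¹ := by
      rw [eq_inv_iff_mul_eq_one]
      have h2 : u = v⁻¹ := eq_inv_of_mul_eq_one_left huv
      rw [h2, mul_inv_cancel]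
    rw [this]
    exact inv_mem hum
  refine ⟨k * v, mul_mem hk hvm, u, hum, ?_, ?_, ?_⟩
  · have h2 : u = v⁻¹ := eq_inv_of_mul_eq_one_left huv
    rw [h2, mul_assoc, mul_inv_cancel, mul_one]
  · intro i j hi hj
    have e1 : (k * v).1 i j = k.1 i j - ∑ m, k.1 i m * Y m j := by
      rw [Matrix.SpecialLinearGroup.coe_mul]
      change ((k.1 : Matrix (Fin n) (Fin n) ℚ_[p]) * (1 - Y)) i j = _
      rw [Matrix.mul_sub, Matrix.mul_one, Matrix.sub_apply, Matrix.mul_apply]
    rw [e1, sub_eq_zero]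
    have e2 : ((B i j : ℤ_[p]) : ℚ_[p]) = k.1 i j := by
      have e : B i j = kz i j := if_pos ⟨hi, hj⟩
      rw [e, hkz]
    rw [← e2, ← hAX, Matrix.mul_apply]
    rw [PadicInt.coe_sum]
    refine Finset.sum_congr rfl fun m _ => ?_
    rw [PadicInt.coe_mul]
    by_cases hm : m ∈ I
    · have : ((A i m : ℤ_[p]) : ℚ_[p]) = k.1 i m := by
        have e : A i m = kz i m := if_pos ⟨hi, hm⟩
        rw [e, hkz]
      rw [this]
    · have h3 : X m j = 0 := hX0 m j (fun h => hm h.1)
      rw [hY0 m j (fun h => hm h.1), h3]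
      simp
  · exact hu0

theorem conj_mem (I : Set (Fin n)) [DecidablePred (· ∈ I)] {l : ℕ} {h : SLn p n}
    (hh : h ∈ KM p n l) (h0 : ∀ i j, i ∈ I → j ∉ I → h.1 i j = 0) :
    dg p (aI I) * h * (dg p (aI I))⁻¹ ∈ KM p n l := by
  have hp1 : (1 : ℝ) ≤ p := by exact_mod_cast (Fact.out : p.Prime).one_lt.le
  have hc0 : (0 : ℝ) ≤ (p : ℝ) ^ (-(l : ℤ)) := by positivity
  have ha := sum_aI (n := n) I
  have hb : ∑ i, -aI I i = 0 := by rw [Finset.sum_neg_distrib, ha, neg_zero]
  apply hq1_mem_KM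
  intro i j
  have e : (dg p (aI I) * h * (dg p (aI I))⁻¹).1 i j =
      (p : ℚ_[p]) ^ (aI I i - aI I j) * h.1 i j := by
    rw [← dg_neg ha, Matrix.SpecialLinearGroup.coe_mul, Matrix.SpecialLinearGroup.coe_mul]
    change ((dg p (aI I)).1 * h.1 * (dg p (fun i => -aI I i)).1) i j = _
    rw [dg_coe ha, dg_coe hb, Matrix.mul_diagonal, Matrix.diagonal_mul, zpow_sub₀ pne,
      _root_.zpow_neg]
    ring
  rw [e]
  have hm := (mem_KM.1 hh).2 i j
  by_cases hij : i = j
  · subst hij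
    rw [sub_self, zpow_zero, one_mul]
    exact hm
  · rw [Matrix.one_apply, if_neg hij, sub_zero] at hm ⊢
    by_cases hI : i ∈ I ∧ j ∉ I
    · rw [h0 i j hI.1 hI.2, mul_zero, norm_zero]
      exact hc0
    · rw [norm_mul, norm_p_zpow]
      have h3 : (p : ℝ) ^ (-(aI I i - aI I j)) ≤ 1 := by
        refine zpow_le_one_of_nonpos₀ hp1 ?_
        unfold aI
        by_cases hi : i ∈ I
        · by_cases hj : j ∈ I
          · simp [hi, hj]
          · exact absurd ⟨hi, hj⟩ hI
        · by_cases hj : j ∈ I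
          · simp only [hi, hj, if_true, if_false]
            omega
          · simp [hi, hj]
      calc _ ≤ (1 : ℝ) * (p : ℝ) ^ (-(l : ℤ)) :=
            mul_le_mul h3 hm (norm_nonneg _) zero_le_one
        _ = _ := one_mul _

/-- Multiplying by `EE h (-x)` on the right removes the entry `(i, j)`. -/
private theorem hq1_step (I : Set (Fin n)) {u : SLn p n}
    (hu : ∀ i j, ¬ (i ∈ I ∧ j ∉ I) → u.1 i j = (1 : Matrix (Fin n) (Fin n) ℚ_[p]) i j)
    {i j : Fin n} (h : i ≠ j) (hi : i ∈ I) (x : ℚ_[p]) (a b : Fin n) :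
    (u * EE h x).1 a b = u.1 a b + if a = i ∧ b = j then x else 0 := by
  have e : (u * EE h x).1 = u.1 + u.1 * Matrix.single i j x := by
    rw [Matrix.SpecialLinearGroup.coe_mul, Matrix.SpecialLinearGroup.transvection_coe,
      Matrix.mul_add, Matrix.mul_one]
  rw [e, Matrix.add_apply]
  congr 1
  have hc : ∀ m, u.1 m i = (1 : Matrix (Fin n) (Fin n) ℚ_[p]) m i :=
    fun m => hu m i (fun h => h.2 hi)
  rw [Matrix.mul_apply, Finset.sum_eq_single i]
  · rw [hc a, Matrix.one_apply, Matrix.single_apply]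
    by_cases h1 : a = i
    · by_cases h2 : b = j
      · simp [h1, h2]
      · simp [h1, h2, Ne.symm h2]
    · simp [h1]
  · intro m _ hm
    rw [Matrix.single_apply, if_neg, mul_zero]
    intro h2
    exact hm h2.1.symm
  · intro h2
    exact absurd (Finset.mem_univ i) h2

theorem uni_prod (I : Set (Fin n)) (P : SLn p n → Prop) (h1 : P 1)
    (hE : ∀ (i j : Fin n) (h : i ≠ j), i ∈ I → j ∉ I → ∀ x : ℚ_[p], P (EE h x))
    (hm : ∀ a b, P a → P b → P (a * b)) {u : SLn p n}
    (hu : ∀ i j, ¬ (i ∈ I ∧ j ∉ I) → u.1 i j = (1 : Matrix (Fin n) (Fin n) ℚ_[p]) i j) : P u := by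
  classical
  have key : ∀ (S : Finset (Fin n × Fin n)) (u : SLn p n),
      (∀ i j, ¬ (i ∈ I ∧ j ∉ I) → u.1 i j = (1 : Matrix (Fin n) (Fin n) ℚ_[p]) i j) →
      (∀ i j, (i, j) ∉ S → u.1 i j = (1 : Matrix (Fin n) (Fin n) ℚ_[p]) i j) → P u := by
    intro S
    induction S using Finset.induction_on with
    | empty =>
      intro u _ h2
      have : u = 1 := by
        apply Subtype.ext
        rw [Matrix.SpecialLinearGroup.coe_one]
        ext i j
        exact h2 i j (Finset.notMem_empty _)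
      rw [this]
      exact h1
    | insert q S hq ih =>
      intro u hu1 hu2
      obtain ⟨i, j⟩ := q
      by_cases hij : i ∈ I ∧ j ∉ I
      · have hne : i ≠ j := by
          rintro rfl
          exact hij.2 hij.1
        have hP : P (u * EE hne (-u.1 i j)) := by
          apply ih
          · intro a b hab
            rw [hq1_step I hu1 hne hij.1, if_neg, add_zero]
            · exact hu1 a b hab
            · rintro ⟨rfl, rfl⟩
              exact hab hij
          · intro a b hab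
            rw [hq1_step I hu1 hne hij.1]
            by_cases h2 : a = i ∧ b = j
            · rw [if_pos h2]
              obtain ⟨rfl, rfl⟩ := h2
              rw [add_neg_cancel, Matrix.one_apply, if_neg hne]
            · rw [if_neg h2, add_zero]
              apply hu2 a b
              rw [Finset.mem_insert, not_or]
              refine ⟨fun h3 => h2 ?_, hab⟩
              exact ⟨congrArg Prod.fst h3, congrArg Prod.snd h3⟩
        have e : u = (u * EE hne (-u.1 i j)) * EE hne (u.1 i j) := by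
          rw [mul_assoc, ← EE_add, neg_add_cancel]
          have : EE hne (0 : ℚ_[p]) = 1 := by
            apply Subtype.ext
            rw [Matrix.SpecialLinearGroup.transvection_coe, Matrix.SpecialLinearGroup.coe_one,
              Matrix.single_zero, add_zero]
          rw [this, mul_one]
        rw [e]
        exact hm _ _ hP (hE i j hne hij.1 hij.2 _)
      · apply ih u hu1
        intro a b hab
        by_cases h2 : a = i ∧ b = j
        · obtain ⟨rfl, rfl⟩ := h2
          exact hu1 a b hij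
        · apply hu2 a b
          rw [Finset.mem_insert, not_or]
          refine ⟨fun h3 => h2 ?_, hab⟩
          exact ⟨congrArg Prod.fst h3, congrArg Prod.snd h3⟩
  exact key Finset.univ u hu (fun i j h => absurd (Finset.mem_univ _) h)

/-- An elementary matrix as a commutator. -/
private theorem hq1_comm {i j k : Fin n} (hik : i ≠ k) (hkj : k ≠ j) (hij : i ≠ j) (x : ℚ_[p]) :
    EE hij x = EE hik (-x) * (EE hkj (-1) * (EE hik x * EE hkj 1)) := by
  have h := EE_heis (p := p) hik hkj hij x 1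
  rw [mul_one] at h
  rw [h, ← EE_inv hik x, ← EE_inv hkj 1]
  group

theorem gen_UI (hn : 2 ≤ n) {I : Set (Fin n)} (hI : I.Nonempty) (hI' : Iᶜ.Nonempty)
    (P : SLn p n → Prop)
    (hE : ∀ (i j : Fin n) (h : i ≠ j), (i ∈ I ∧ j ∉ I) ∨ (i ∉ I ∧ j ∈ I) → ∀ x : ℚ_[p],
      P (EE h x)) (hm : ∀ a b, P a → P b → P (a * b)) (g : SLn p n) : P g := by
  refine EE_induction hn P (fun i j h x => ?_) hm g
  by_cases hi : i ∈ I
  · by_cases hj : j ∈ I
    · obtain ⟨k, hk⟩ := hI'
      have hk' : k ∉ I := hk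
      have hik : i ≠ k := by
        rintro rfl
        exact hk' hi
      have hkj : k ≠ j := by
        rintro rfl
        exact hk' hj
      rw [hq1_comm hik hkj h x]
      exact hm _ _ (hE _ _ _ (Or.inl ⟨hi, hk'⟩) _) (hm _ _ (hE _ _ _ (Or.inr ⟨hk', hj⟩) _)
        (hm _ _ (hE _ _ _ (Or.inl ⟨hi, hk'⟩) _) (hE _ _ _ (Or.inr ⟨hk', hj⟩) _)))
    · exact hE i j h (Or.inl ⟨hi, hj⟩) x
  · by_cases hj : j ∈ I
    · exact hE i j h (Or.inr ⟨hi, hj⟩) x
    · obtain ⟨k, hk⟩ := hI
      have hik : i ≠ k := by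
        rintro rfl
        exact hi hk
      have hkj : k ≠ j := by
        rintro rfl
        exact hj hk
      rw [hq1_comm hik hkj h x]
      exact hm _ _ (hE _ _ _ (Or.inr ⟨hi, hk⟩) _) (hm _ _ (hE _ _ _ (Or.inl ⟨hk, hj⟩) _)
        (hm _ _ (hE _ _ _ (Or.inr ⟨hi, hk⟩) _) (hE _ _ _ (Or.inl ⟨hk, hj⟩) _)))

end Pool.Agent.H23.DM
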