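import Mathlib
import Pool.Agent.H23.DM.Gsp

/-!
MODULE Hq3 (MP_d9606f_gt, Part 1.5).  Measures on `F` are determined by the orbits of the congruence
groups.

The sets `{k • f | k ∈ K_l}`, `l ≥ 1`, `f ∈ F`, and `∅` form a π-system (two of them are nested or
disjoint, since `K_(l+1) ⊆ K_l` are groups) consisting of open sets; it generates the topology and
the Borel sets: for `f ∈ U` open there is `l` with `K_l f ⊆ U` (continuity of the action at `(1, f)`,
`exists_KM_subset`), and for each `l` there are only finitely many orbits (compactness), so there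
are countably many such sets.
-/

open MeasureTheory Filter Matrix
open scoped Topology ENNReal

namespace Pool.Agent.H23.DM

open Pool.Agent.H73.PZ

variable {p : ℕ} [Fact p.Prime] {n : ℕ} {F : Type} [TopologicalSpace F] [CompactSpace F]
  [T2Space F] [SecondCountableTopology F] [MeasurableSpace F] [BorelSpace F]
  [MulAction (SLn p n) F] [ContinuousSMul (SLn p n) F]

theorem measure_ext_orb {h : Measure F} (hF : HSp p n F h) (ν ν' : Measure F)
    [IsProbabilityMeasure ν] [IsProbabilityMeasure ν']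
    (heq : ∀ (l : ℕ) (f : F), 1 ≤ l → ν {f' : F | ∃ k ∈ KM p n l, f' = k • f} =
      ν' {f' : F | ∃ k ∈ KM p n l, f' = k • f}) : ν = ν' := by
  set C : Set (Set F) := {S | ∃ (l : ℕ) (f : F), 1 ≤ l ∧
    S = {f' : F | ∃ k ∈ KM p n l, f' = k • f}} with hC
  have hopen : ∀ S ∈ C, IsOpen S := by
    rintro S ⟨l, f, -, rfl⟩
    exact hF.orb l f
  have hbasis : TopologicalSpace.IsTopologicalBasis C := by
    refine TopologicalSpace.isTopologicalBasis_of_isOpen_of_nhds hopen ?_
    intro a u ha hu
    have hc : Continuous fun g : SLn p n => g • a := continuous_id.smul continuous_const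
    have hn : (fun g : SLn p n => g • a) ⁻¹' u ∈ 𝓝 (1 : SLn p n) :=
      (hu.preimage hc).mem_nhds (by simpa using ha)
    obtain ⟨M, hM⟩ := exists_KM_subset hn
    refine ⟨_, ⟨max M 1, a, le_max_right _ _, rfl⟩,
      ⟨1, (KM p n (max M 1)).one_mem, (one_smul _ a).symm⟩, ?_⟩
    rintro f' ⟨k, hk, rfl⟩
    exact hM (KM_anti (le_max_left M 1) hk)
  have hpi : IsPiSystem C := by
    have key : ∀ (l l' : ℕ) (f f' : F), 1 ≤ l' → l ≤ l' →
        ({x : F | ∃ k ∈ KM p n l, x = k • f} ∩ {x : F | ∃ k ∈ KM p n l', x = k • f'}).Nonempty →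
        {x : F | ∃ k ∈ KM p n l, x = k • f} ∩ {x : F | ∃ k ∈ KM p n l', x = k • f'} =
          {x : F | ∃ k ∈ KM p n l', x = k • f'} := by
      rintro l l' f f' _ hll ⟨x, ⟨k, hk, hx⟩, ⟨k', hk', hx'⟩⟩
      apply Set.inter_eq_right.2
      rintro y ⟨m, hm, rfl⟩
      refine ⟨m * k'⁻¹ * k, ?_, ?_⟩
      · exact (KM p n l).mul_mem ((KM p n l).mul_mem (KM_anti hll hm)
          ((KM p n l).inv_mem (KM_anti hll hk'))) hk
      · rw [mul_smul, ← hx, hx', mul_smul, inv_smul_smul]
    rintro S ⟨l, f, hl, rfl⟩ S' ⟨l', f', hl', rfl⟩ hne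
    rcases le_total l l' with h' | h'
    · rw [key l l' f f' hl' h' hne]
      exact ⟨l', f', hl', rfl⟩
    · rw [Set.inter_comm] at hne ⊢
      rw [key l' l f' f hl h' hne]
      exact ⟨l, f, hl, rfl⟩
  have hgen : (inferInstance : MeasurableSpace F) = MeasurableSpace.generateFrom C := by
    rw [← hbasis.borel_eq_generateFrom]
    exact BorelSpace.measurable_eq
  refine ext_of_generate_finite C hgen hpi ?_ (by simp)
  rintro S ⟨l, f, hl, rfl⟩
  exact heq l f hl

end Pool.Agent.H23.DM
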