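import Mathlib
import Pool.Agent.H23.DM.Hq1
import Pool.Agent.H23.DM.Hq3

/-!
MODULE Hq2 (MP_d9606f_gt, Part 1.5).  Uniqueness of the measure on `F`.

`F` compact, `h` as in `HSp`, `l ≥ 1`.  The `K_l`-orbits form a finite partition into clopen sets
(`HSp.orb`, compactness); let `O : F → ι` be the index of the orbit (`ι` finite).
`a = dg p (aI I)`, `H = {h ∈ K_l | a h a⁻¹ ∈ K_l}` a subgroup of finite index in `K_l` (it contains
some `K_M`, `KM_conj`, and `K_l / K_M` is finite, `KM_finite`), `K_l = H * K_l⁺` (`exists_factor`,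
`conj_mem`): choose `u_1..u_q ∈ K_l⁺` representatives of `H \ K_l` (`q ≥ 1`).
For an orbit `o'` and `f ∈ F`: `N(f, o') = #{m | a u_m f ∈ o'}` depends only on the orbit of `f`:
for `k ∈ K_l`: `u_m k = h_m u_{σ m}` with `h_m ∈ H`, `σ` a permutation, and
`a h_m u f = (a h_m a⁻¹) a u f`.
`ν` and `h` are invariant under each `a u_m` (`hA`, `hU`, `uni_prod`), so
`q ν(o') = ∑_o ν(o) N(o, o')`, `q h(o') = ∑_o h(o) N(o, o')`.
`ρ(o) = ν(o)/h(o)` (`h(o) > 0`, `HSp.supp`); if `ρ(o')` is maximal and `N(o, o') > 0` then `ρ(o)` is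
maximal.  `C'` := union of the orbits with `ρ` not maximal: `K_l C' = C'`, `a u_m C' ⊆ C'`, so
`a C' ⊆ C'` (`f = k f'`...: write `1 = h u_m`), `h (a C') = h C'`, `C' \ a C'` clopen and `h`-null, so
`a C' = C'`.  So `C'` is stable under `a^(±1)` and `K_l`, so under all `EE h' x` with exactly one index
in `I` (conjugate `EE (small)` by powers of `a`), so under `G` (`gen_UI`), `HSp.trans`: `C' = ∅`.
Hence `ρ` is constant, `= 1`: `ν = h` on all `K_l`-orbits, all `l`.
`measure_ext_orb` (module Hq3) ends the proof.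
-/

open MeasureTheory Filter Matrix
open scoped Topology ENNReal

namespace Pool.Agent.H23.DM

open Pool.Agent.H73.PZ

/-- Counting cosets: the main identity. -/
private theorem Hq2_count {G F' Ω : Type} [Group G] [MulAction G F'] [MeasurableSpace F']
    [Fintype Ω] (K : Subgroup G) (a : G) (H : Subgroup K) [Fintype (K ⧸ H)]
    (hH : ∀ k : K, k ∈ H → a * k * a⁻¹ ∈ K)
    (π : F' → Ω) (hs : Function.Surjective π) (hπ : ∀ o, MeasurableSet (π ⁻¹' {o}))
    (hK : ∀ k ∈ K, ∀ f, π (k • f) = π f) (hKo : ∀ f f', π f = π f' → ∃ k ∈ K, f' = k • f)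
    (hm : ∀ g : G, Measurable fun f : F' => g • f) (o' : Ω) :
    ∃ N : Ω → ℝ≥0∞, (∀ o, N o ≠ ⊤) ∧ (∀ f, (∃ k ∈ K, π ((a * k) • f) = o') → N (π f) ≠ 0) ∧
      ∀ μ : Measure F', (∀ k ∈ K, μ {f | π ((a * k) • f) = o'} = μ (π ⁻¹' {o'})) →
        ∑ o, N o * μ (π ⁻¹' {o}) = (Fintype.card (K ⧸ H) : ℝ≥0∞) * μ (π ⁻¹' {o'}) := by
  classical
  -- the indicator functions
  let T : K ⧸ H → Set F' := fun c => {f | π ((a * ((c.out : K)⁻¹ : K)) • f) = o'}
  let N0 : F' → ℝ≥0∞ := fun f => ∑ c, (T c).indicator 1 f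
  have hTm : ∀ c, MeasurableSet (T c) := fun c => hm _ (hπ o')
  -- independence of the representative
  have hrep : ∀ (k : K) (f : F'), f ∈ T (k : K ⧸ H) ↔ π ((a * ((k : K)⁻¹ : K)) • f) = o' := by
    intro k f
    have h1 : (((k : K ⧸ H).out : K) : K ⧸ H) = (k : K ⧸ H) := QuotientGroup.out_eq' _
    have h2 : ((k : K ⧸ H).out)⁻¹ * k ∈ H := QuotientGroup.eq.1 h1
    obtain ⟨r, hr⟩ : ∃ r : K, r = (k : K ⧸ H).out := ⟨_, rfl⟩
    rw [← hr] at h2
    have h3 := hH _ h2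
    have h4 : a * ((r⁻¹ : K) : G) = (a * ((r⁻¹ * k : K) : G) * a⁻¹) * (a * ((k⁻¹ : K) : G)) := by
      push_cast
      group
    change π ((a * ((((k : K ⧸ H).out : K)⁻¹ : K) : G)) • f) = o' ↔ _
    rw [← hr, h4, mul_smul, hK _ h3]
  -- invariance of the counting function
  have hinv : ∀ k ∈ K, ∀ f, N0 (k • f) = N0 f := by
    intro k hk f
    change ∑ c, (T c).indicator 1 (k • f) = ∑ c, (T c).indicator 1 f
    refine Fintype.sum_equiv (MulAction.toPerm (⟨k, hk⟩ : K)⁻¹) _ _ fun c => ?_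
    obtain ⟨r, rfl⟩ := QuotientGroup.mk_surjective c
    have h1 : (MulAction.toPerm (⟨k, hk⟩ : K)⁻¹) ((r : K) : K ⧸ H) =
        (((⟨k, hk⟩ : K)⁻¹ * r : K) : K ⧸ H) := rfl
    rw [h1]
    have h2 : k • f ∈ T (r : K ⧸ H) ↔ f ∈ T (((⟨k, hk⟩ : K)⁻¹ * r : K) : K ⧸ H) := by
      rw [hrep, hrep, smul_smul]
      have : a * ((r⁻¹ : K) : G) * k = a * ((((⟨k, hk⟩ : K)⁻¹ * r)⁻¹ : K) : G) := by
        push_cast
        group
      rw [this]
    by_cases h : k • f ∈ T (r : K ⧸ H)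
    · rw [Set.indicator_of_mem h, Set.indicator_of_mem (h2.1 h)]
      rfl
    · rw [Set.indicator_of_notMem h, Set.indicator_of_notMem (fun h' => h (h2.2 h'))]
  have hN : ∀ f, N0 (Function.surjInv hs (π f)) = N0 f := by
    intro f
    obtain ⟨k, hk, hkf⟩ := hKo f (Function.surjInv hs (π f)) (Function.surjInv_eq hs (π f)).symm
    rw [hkf, hinv k hk]
  refine ⟨fun o => N0 (Function.surjInv hs o), fun o => ?_, ?_, ?_⟩
  · refine ENNReal.sum_ne_top.2 fun c _ => ?_
    by_cases h : Function.surjInv hs o ∈ T c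
    · rw [Set.indicator_of_mem h]
      exact ENNReal.one_ne_top
    · rw [Set.indicator_of_notMem h]
      exact ENNReal.zero_ne_top
  · rintro f ⟨k, hk, hkf⟩ h0
    change N0 (Function.surjInv hs (π f)) = 0 at h0
    rw [hN] at h0
    have h1 := (Finset.sum_eq_zero_iff.1 h0) (((⟨k, hk⟩ : K)⁻¹ : K) : K ⧸ H) (Finset.mem_univ _)
    have h2 : f ∈ T ((((⟨k, hk⟩ : K)⁻¹ : K)) : K ⧸ H) := by
      rw [hrep, inv_inv]
      exact hkf
    rw [Set.indicator_of_mem h2] at h1
    exact one_ne_zero h1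
  · intro μ hμ
    have h1 : ∫⁻ f, N0 f ∂μ = ∑ c, μ (T c) := by
      change ∫⁻ f, ∑ c, (T c).indicator 1 f ∂μ = _
      rw [lintegral_finsetSum _ fun c _ => measurable_one.indicator (hTm c)]
      exact Finset.sum_congr rfl fun c _ => lintegral_indicator_one (hTm c)
    have h2 : ∀ c, μ (T c) = μ (π ⁻¹' {o'}) := fun c => hμ _ (SetLike.coe_mem _)
    have h3 : ∀ f, N0 f = ∑ o, (π ⁻¹' {o}).indicator
        (fun _ => N0 (Function.surjInv hs o)) f := by
      intro f
      rw [Finset.sum_eq_single (π f)]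
      · rw [Set.indicator_of_mem (by rfl), hN]
      · intro o _ ho
        exact Set.indicator_of_notMem (fun h => ho (by exact (Set.mem_singleton_iff.1 h).symm)) _
      · intro h
        exact absurd (Finset.mem_univ _) h
    have h4 : ∫⁻ f, N0 f ∂μ = ∑ o, N0 (Function.surjInv hs o) * μ (π ⁻¹' {o}) := by
      rw [lintegral_congr h3, lintegral_finsetSum _ fun o _ =>
        measurable_const.indicator (hπ o)]
      exact Finset.sum_congr rfl fun o _ => lintegral_indicator_const (hπ o) _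
    rw [← h4, h1, Finset.sum_congr rfl fun c _ => h2 c, Finset.sum_const, Finset.card_univ,
      nsmul_eq_mul]

/-- Where the extremal ratio propagates. -/
private theorem Hq2_step {G F' Ω : Type} [Group G] [MulAction G F'] [MeasurableSpace F']
    [Fintype Ω] (K : Subgroup G) (a : G) (H : Subgroup K) [Fintype (K ⧸ H)]
    (hH : ∀ k : K, k ∈ H → a * k * a⁻¹ ∈ K)
    (π : F' → Ω) (hs : Function.Surjective π) (hπ : ∀ o, MeasurableSet (π ⁻¹' {o}))
    (hK : ∀ k ∈ K, ∀ f, π (k • f) = π f) (hKo : ∀ f f', π f = π f' → ∃ k ∈ K, f' = k • f)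
    (hm : ∀ g : G, Measurable fun f : F' => g • f)
    (ν h : Measure F') [IsProbabilityMeasure ν] [IsProbabilityMeasure h]
    (hν : ∀ o', ∀ k ∈ K, ν {f | π ((a * k) • f) = o'} = ν (π ⁻¹' {o'}))
    (hh : ∀ o', ∀ k ∈ K, h {f | π ((a * k) • f) = o'} = h (π ⁻¹' {o'}))
    (M : ℝ) (hM : ∀ o, ν.real (π ⁻¹' {o}) ≤ M * h.real (π ⁻¹' {o})) (f : F') (k : G) (hk : k ∈ K)
    (he : ν.real (π ⁻¹' {π ((a * k) • f)}) = M * h.real (π ⁻¹' {π ((a * k) • f)})) :
    ν.real (π ⁻¹' {π f}) = M * h.real (π ⁻¹' {π f}) := by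
  obtain ⟨N, h1, h2, h3⟩ := Hq2_count K a H hH π hs hπ hK hKo hm (π ((a * k) • f))
  have hreal : ∀ μ : Measure F', IsProbabilityMeasure μ →
      (∀ k' ∈ K, μ {f' | π ((a * k') • f') = π ((a * k) • f)} =
        μ (π ⁻¹' {π ((a * k) • f)})) →
      ∑ o, (N o).toReal * μ.real (π ⁻¹' {o}) =
        (Fintype.card (K ⧸ H) : ℝ) * μ.real (π ⁻¹' {π ((a * k) • f)}) := by
    intro μ hμ hinv
    have h4 := congrArg ENNReal.toReal (h3 μ hinv)
    rw [ENNReal.toReal_sum (fun o _ => ENNReal.mul_ne_top (h1 o) (measure_ne_top μ _)),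
      ENNReal.toReal_mul, ENNReal.toReal_natCast] at h4
    simpa only [ENNReal.toReal_mul, Measure.real] using h4
  have h5 := hreal ν inferInstance (hν _)
  have h6 := hreal h inferInstance (hh _)
  have h7 : ∑ o, (N o).toReal * (M * h.real (π ⁻¹' {o}) - ν.real (π ⁻¹' {o})) = 0 := by
    have h8 : ∑ o, (N o).toReal * (M * h.real (π ⁻¹' {o}) - ν.real (π ⁻¹' {o})) =
        M * ∑ o, (N o).toReal * h.real (π ⁻¹' {o}) -
          ∑ o, (N o).toReal * ν.real (π ⁻¹' {o}) := by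
      rw [Finset.mul_sum, ← Finset.sum_sub_distrib]
      exact Finset.sum_congr rfl fun o _ => by ring
    rw [h8, h5, h6, he]
    ring
  have h9 := (Finset.sum_eq_zero_iff_of_nonneg fun o _ => mul_nonneg ENNReal.toReal_nonneg
    (sub_nonneg.2 (hM o))).1 h7 (π f) (Finset.mem_univ _)
  have h10 : (N (π f)).toReal ≠ 0 := (ENNReal.toReal_pos (h2 f ⟨k, hk, rfl⟩) (h1 _)).ne'
  have h11 := (mul_eq_zero.1 h9).resolve_left h10
  linarith

variable {p : ℕ} [Fact p.Prime] {n : ℕ} {F : Type} [TopologicalSpace F] [CompactSpace F]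
  [T2Space F] [SecondCountableTopology F] [MeasurableSpace F] [BorelSpace F]
  [MulAction (SLn p n) F] [ContinuousSMul (SLn p n) F]

omit [TopologicalSpace F] [CompactSpace F] [T2Space F] [SecondCountableTopology F] [BorelSpace F]
  [ContinuousSMul (SLn p n) F] in
/-- Invariance under the products `a k`. -/
private theorem Hq2_inv {I : Set (Fin n)} [DecidablePred (· ∈ I)] {Ω : Type} {l : ℕ} (hl : 1 ≤ l)
    (ν : Measure F) (hA : AInv p n ν)
    (hU : ∀ (i j : Fin n) (hij : i ≠ j), i ∈ I → j ∉ I → UInv p ν hij)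
    (π : F → Ω) (hπ : ∀ o, MeasurableSet (π ⁻¹' {o}))
    (hK : ∀ k ∈ KM p n l, ∀ f, π (k • f) = π f) (o' : Ω) (k : SLn p n) (hk : k ∈ KM p n l) :
    ν {f | π ((dg p (aI I) * k) • f) = o'} = ν (π ⁻¹' {o'}) := by
  obtain ⟨h0, hh0, u, -, rfl, hz, hu⟩ := exists_factor I hl hk
  have hmem := conj_mem I hh0 hz
  have h1 : MeasurePreserving (fun f : F => u • f) ν ν := by
    refine uni_prod I (fun g => MeasurePreserving (fun f : F => g • f) ν ν) ?_ ?_ ?_ hu
    · have h9 := MeasurePreserving.id ν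
      have h10 : (fun f : F => (1 : SLn p n) • f) = id := funext fun f => one_smul _ f
      change MeasurePreserving (fun f : F => (1 : SLn p n) • f) ν ν
      rw [h10]
      exact h9
    · intro i j hij hi hj x
      exact hU i j hij hi hj x
    · intro g g' hg hg'
      have := hg.comp hg'
      simpa only [Function.comp_def, smul_smul] using this
  have h2 : MeasurePreserving (fun f : F => dg p (aI I) • f) ν ν :=
    hA ⟨dg p (aI I), aI I, sum_aI I, rfl⟩
  have h3 : MeasurePreserving (fun f : F => dg p (aI I) • u • f) ν ν := h2.comp h1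
  have h4 : {f : F | π ((dg p (aI I) * (h0 * u)) • f) = o'} =
      (fun f : F => dg p (aI I) • u • f) ⁻¹' (π ⁻¹' {o'}) := by
    ext f
    have h5 : dg p (aI I) * (h0 * u) =
        (dg p (aI I) * h0 * (dg p (aI I))⁻¹) * (dg p (aI I) * u) := by group
    simp only [Set.mem_ofPred_eq, Set.mem_preimage, Set.mem_singleton_iff]
    rw [h5, mul_smul, hK _ hmem, mul_smul]
  rw [h4, h3.measure_preimage (hπ o').nullMeasurableSet]

/-- The subgroup of the elements of `K_l` which stay in `K_l` has finite index. -/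
private theorem Hq2_finite (a : SLn p n) (l : ℕ) (H : Subgroup (KM p n l))
    (hH : ∀ k : KM p n l, k ∈ H ↔ a * k * a⁻¹ ∈ KM p n l) : Finite (KM p n l ⧸ H) := by
  obtain ⟨M', hM'⟩ := KM_conj a l
  obtain ⟨S, -, hS⟩ := KM_finite (p := p) (n := n) M'
  have h1 : ∀ c : KM p n l ⧸ H, ∃ s : S, ∃ u ∈ KM p n M', ((c.out : KM p n l) : SLn p n)⁻¹ =
      u * (s : SLn p n) := by
    intro c
    obtain ⟨s, hs, u, hu, he⟩ := hS (((c.out : KM p n l) : SLn p n)⁻¹)
      (inv_mem (KM_le_KK l (c.out : KM p n l).2))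
    exact ⟨⟨s, hs⟩, u, hu, he⟩
  choose s u hu he using h1
  refine Finite.of_injective s fun c c' hcc => ?_
  have h2 := he c
  have h3 := he c'
  rw [← hcc] at h3
  have h4 : (c.out : KM p n l)⁻¹ * (c'.out : KM p n l) ∈ H := by
    rw [hH]
    have h5 : (((c.out : KM p n l)⁻¹ * (c'.out : KM p n l) : KM p n l) : SLn p n) =
        u c * (u c')⁻¹ := by
      push_cast
      have h6 : ((c'.out : KM p n l) : SLn p n) = (u c' * (s c : SLn p n))⁻¹ := by
        rw [← h3, inv_inv]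
      rw [h2, h6]
      group
    rw [h5]
    exact hM' _ (mul_mem (hu c) (inv_mem (hu c')))
  have h5 := QuotientGroup.eq.2 h4
  rwa [QuotientGroup.out_eq', QuotientGroup.out_eq'] at h5

/-- Powers of the central element move every root element with one index in `I` into `K_l`. -/
private theorem Hq2_EE {I : Set (Fin n)} [DecidablePred (· ∈ I)] (l : ℕ)
    (P : SLn p n → Prop) (hK : ∀ k ∈ KM p n l, P k) (ha : P (dg p (aI I)))
    (hm : ∀ a b, P a → P b → P (a * b)) (hi : ∀ a, P a → P a⁻¹) (i j : Fin n) (h : i ≠ j)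
    (hij : (i ∈ I ∧ j ∉ I) ∨ (i ∉ I ∧ j ∈ I)) (x : ℚ_[p]) : P (EE h x) := by
  have hp1 : (1 : ℝ) < p := by exact_mod_cast (Fact.out : p.Prime).one_lt
  obtain ⟨b, hb⟩ : ∃ b, b = dg p (aI I) := ⟨_, rfl⟩
  rw [← hb] at ha
  obtain ⟨c, hc⟩ : ∃ c : ℚ_[p], c = (p : ℚ_[p]) ^ (aI I i - aI I j) := ⟨_, rfl⟩
  have hc0 : c ≠ 0 := by rw [hc]; exact zpow_ne_zero _ pne
  have hcn : ‖c‖ = (p : ℝ) ^ (-(aI I i - aI I j)) := by rw [hc]; exact norm_p_zpow _
  have hconj : ∀ (m : ℕ) (y : ℚ_[p]), b ^ m * EE h y = EE h (c ^ m * y) * b ^ m := by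
    intro m
    induction m with
    | zero => intro y; rw [pow_zero, pow_zero, one_mul, one_mul, mul_one]
    | succ m ih =>
      intro y
      rw [pow_succ, mul_assoc, hb, dg_conj (sum_aI I) h y, ← hb, ← hc, ← mul_assoc, ih,
        mul_assoc, ← pow_succ, pow_succ c, mul_assoc]
  have hpow : ∀ m : ℕ, P (b ^ m) := by
    intro m
    induction m with
    | zero => rw [pow_zero]; exact hK 1 (one_mem _)
    | succ m ih => rw [pow_succ]; exact hm _ _ ih ha
  -- small elements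
  have hsmall : ∀ r : ℝ, 0 ≤ r → r < 1 → ∃ m : ℕ, r ^ m * ‖x‖ ≤ (p : ℝ) ^ (-(l : ℤ)) := by
    intro r hr0 hr1
    have hl0 : (0 : ℝ) < (p : ℝ) ^ (-(l : ℤ)) := zpow_pos (by linarith) _
    have hx0 : 0 < ‖x‖ + 1 := by positivity
    obtain ⟨m, hm'⟩ := exists_pow_lt_of_lt_one (div_pos hl0 hx0) hr1
    refine ⟨m, ?_⟩
    have h1 : r ^ m * (‖x‖ + 1) < (p : ℝ) ^ (-(l : ℤ)) := (lt_div_iff₀ hx0).1 hm'
    have h2 : 0 ≤ r ^ m := by positivity
    nlinarith
  have hcardI : ∀ t : Fin n, t ∈ I → (1 : ℤ) ≤ ((Finset.univ.filter (· ∈ I)).card : ℤ) := by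
    intro t ht
    have : 0 < (Finset.univ.filter (· ∈ I)).card :=
      Finset.card_pos.2 ⟨t, Finset.mem_filter.2 ⟨Finset.mem_univ _, ht⟩⟩
    exact_mod_cast this
  have hcardJ : ∀ t : Fin n, t ∉ I → (1 : ℤ) ≤ ((Finset.univ.filter (· ∉ I)).card : ℤ) := by
    intro t ht
    have : 0 < (Finset.univ.filter (· ∉ I)).card :=
      Finset.card_pos.2 ⟨t, Finset.mem_filter.2 ⟨Finset.mem_univ _, ht⟩⟩
    exact_mod_cast this
  rcases hij with ⟨h1, h2⟩ | ⟨h1, h2⟩
  · -- expanded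
    have h3 : aI I i - aI I j ≤ -1 := by
      unfold aI
      rw [if_pos h1, if_neg h2]
      have := hcardI i h1
      have := hcardJ j h2
      linarith
    have h4 : ‖c⁻¹‖ < 1 := by
      rw [norm_inv, hcn, ← _root_.zpow_neg, neg_neg]
      exact zpow_lt_one_of_neg₀ hp1 (by linarith)
    obtain ⟨m, hm'⟩ := hsmall _ (norm_nonneg _) h4
    have h5 : P (EE h (c⁻¹ ^ m * x)) := hK _ (EE_mem_KM h (by rw [norm_mul, norm_pow]; exact hm'))
    have h6 : EE h x = b ^ m * EE h (c⁻¹ ^ m * x) * (b ^ m)⁻¹ := by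
      rw [hconj, ← mul_assoc, ← mul_pow, mul_inv_cancel₀ hc0, one_pow, one_mul]
      group
    rw [h6]
    exact hm _ _ (hm _ _ (hpow m) h5) (hi _ (hpow m))
  · -- contracted
    have h3 : 1 ≤ aI I i - aI I j := by
      unfold aI
      rw [if_neg h1, if_pos h2]
      have := hcardI j h2
      have := hcardJ i h1
      linarith
    have h4 : ‖c‖ < 1 := by
      rw [hcn]
      exact zpow_lt_one_of_neg₀ hp1 (by linarith)
    obtain ⟨m, hm'⟩ := hsmall _ (norm_nonneg _) h4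
    have h5 : P (EE h (c ^ m * x)) := hK _ (EE_mem_KM h (by rw [norm_mul, norm_pow]; exact hm'))
    have h6 : EE h x = (b ^ m)⁻¹ * EE h (c ^ m * x) * b ^ m := by
      rw [mul_assoc, ← hconj]
      group
    rw [h6]
    exact hm _ _ (hm _ _ (hi _ (hpow m)) h5) (hpow m)

theorem unique_measure (hn : 2 ≤ n) {h : Measure F} (hF : HSp p n F h) {I : Set (Fin n)}
    (hI : I.Nonempty) (hI' : Iᶜ.Nonempty) (ν : Measure F) [IsProbabilityMeasure ν]
    (hA : AInv p n ν) (hU : ∀ (i j : Fin n) (hij : i ≠ j), i ∈ I → j ∉ I → UInv p ν hij) :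
    ν = h := by
  classical
  have hprob := hF.prob
  refine measure_ext_orb hF ν h fun l f₀ hl => ?_
  -- the orbits
  let Ω : Type := MulAction.orbitRel.Quotient (KM p n l) F
  let π : F → Ω := fun f => Quotient.mk'' f
  have hs : Function.Surjective π := Quotient.mk''_surjective
  have hπiff : ∀ f f', π f = π f' ↔ ∃ k ∈ KM p n l, f = k • f' := by
    intro f f'
    have h1 : π f = π f' ↔ f ∈ MulAction.orbit (KM p n l) f' := by
      rw [← MulAction.orbitRel_apply]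
      exact Quotient.eq''
    rw [h1]
    constructor
    · rintro ⟨k, hk⟩
      exact ⟨k, k.2, hk.symm⟩
    · rintro ⟨k, hk, hkf⟩
      exact ⟨⟨k, hk⟩, hkf.symm⟩
  have hset : ∀ f, π ⁻¹' {π f} = {f' : F | ∃ k ∈ KM p n l, f' = k • f} := by
    intro f
    ext f'
    exact hπiff f' f
  have hopen : ∀ o, IsOpen (π ⁻¹' {o}) := by
    intro o
    obtain ⟨f, rfl⟩ := hs o
    rw [hset]
    exact hF.orb l f
  have hopenS : ∀ S : Set Ω, IsOpen (π ⁻¹' S) := by
    intro S
    have h1 : π ⁻¹' S = ⋃ o ∈ S, π ⁻¹' {o} := by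
      ext f
      simp
    rw [h1]
    exact isOpen_biUnion fun o _ => hopen o
  have hπm : ∀ o, MeasurableSet (π ⁻¹' {o}) := fun o => (hopen o).measurableSet
  have hfin : Finite Ω := by
    obtain ⟨t, ht⟩ := isCompact_univ.elim_finite_subcover (fun o : Ω => π ⁻¹' {o}) hopen
      (fun f _ => Set.mem_iUnion.2 ⟨π f, rfl⟩)
    refine Set.finite_univ_iff.1 (t.finite_toSet.subset ?_)
    intro o _
    obtain ⟨f, rfl⟩ := hs o
    obtain ⟨o', ho'⟩ := Set.mem_iUnion.1 (ht (Set.mem_univ f))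
    obtain ⟨h1, h2⟩ := Set.mem_iUnion.1 ho'
    have h3 : π f = o' := h2
    rw [h3]
    exact h1
  have := Fintype.ofFinite Ω
  have hK : ∀ k ∈ KM p n l, ∀ f, π (k • f) = π f := fun k hk f => (hπiff _ _).2 ⟨k, hk, rfl⟩
  have hKo : ∀ f f', π f = π f' → ∃ k ∈ KM p n l, f' = k • f := fun f f' hh =>
    (hπiff _ _).1 hh.symm
  have hm : ∀ g : SLn p n, Measurable fun f : F => g • f := fun g =>
    (continuous_const_smul g).measurable
  -- the subgroup
  let a : SLn p n := dg p (aI I)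
  let H : Subgroup (KM p n l) := ((KM p n l).comap (MulAut.conj a).toMonoidHom).subgroupOf
    (KM p n l)
  have hH : ∀ k : KM p n l, k ∈ H ↔ a * k * a⁻¹ ∈ KM p n l := by
    intro k
    rw [Subgroup.mem_subgroupOf, Subgroup.mem_comap]
    rfl
  have := Hq2_finite a l H hH
  have := Fintype.ofFinite (KM p n l ⧸ H)
  have hν : ∀ o', ∀ k ∈ KM p n l, ν {f | π ((a * k) • f) = o'} = ν (π ⁻¹' {o'}) :=
    fun o' k hk => Hq2_inv hl ν hA hU π hπm hK o' k hk
  have hh : ∀ o', ∀ k ∈ KM p n l, h {f | π ((a * k) • f) = o'} = h (π ⁻¹' {o'}) := by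
    intro o' k hk
    exact (hF.inv (a * k)).measure_preimage (hπm o').nullMeasurableSet
  have hpos : ∀ o, 0 < h.real (π ⁻¹' {o}) := by
    intro o
    obtain ⟨f, rfl⟩ := hs o
    exact ENNReal.toReal_pos (hF.supp _ (hopen _) ⟨f, rfl⟩).ne' (measure_ne_top _ _)
  -- the maximal ratio
  have hne : Nonempty Ω := ⟨π f₀⟩
  obtain ⟨o₀, ho₀⟩ := Finite.exists_max fun o => ν.real (π ⁻¹' {o}) / h.real (π ⁻¹' {o})
  obtain ⟨M, hMdef⟩ : ∃ M, M = ν.real (π ⁻¹' {o₀}) / h.real (π ⁻¹' {o₀}) := ⟨_, rfl⟩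
  have hM : ∀ o, ν.real (π ⁻¹' {o}) ≤ M * h.real (π ⁻¹' {o}) := by
    intro o
    have h1 := ho₀ o
    rw [← hMdef] at h1
    exact (div_le_iff₀ (hpos o)).1 h1
  have hM0 : ν.real (π ⁻¹' {o₀}) = M * h.real (π ⁻¹' {o₀}) := by
    rw [hMdef, div_mul_cancel₀ _ (hpos o₀).ne']
  let C : Set F := {f | ν.real (π ⁻¹' {π f}) ≠ M * h.real (π ⁻¹' {π f})}
  have hCopen : IsOpen C := hopenS {o | ν.real (π ⁻¹' {o}) ≠ M * h.real (π ⁻¹' {o})}
  have hCclosed : IsClosed C := by
    rw [← isOpen_compl_iff]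
    exact hopenS {o | ν.real (π ⁻¹' {o}) ≠ M * h.real (π ⁻¹' {o})}ᶜ
  -- the stabiliser
  let P : SLn p n → Prop := fun g => ∀ f, g • f ∈ C ↔ f ∈ C
  have hPK : ∀ k ∈ KM p n l, P k := by
    intro k hk f
    change ν.real (π ⁻¹' {π (k • f)}) ≠ M * h.real (π ⁻¹' {π (k • f)}) ↔ _
    rw [hK k hk]
    exact Iff.rfl
  have hPm : ∀ g g', P g → P g' → P (g * g') := by
    intro g g' hg hg' f
    rw [mul_smul, hg, hg']
  have hPi : ∀ g, P g → P g⁻¹ := by
    intro g hg f
    rw [← hg (g⁻¹ • f), smul_inv_smul]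
  have hPa : P a := by
    have h1 : ∀ f, f ∈ C → a • f ∈ C := by
      intro f hf hcon
      refine hf ?_
      have h2 : (a * 1) • f = a • f := by rw [mul_one]
      refine Hq2_step (KM p n l) a H (fun k hk => (hH k).1 hk) π hs hπm hK hKo hm ν h hν hh M hM f
        1 (one_mem _) ?_
      rw [h2]
      exact hcon
    intro f
    refine ⟨fun h2 => ?_, h1 f⟩
    by_contra h3
    have hAo : IsOpen ((fun f : F => a • f) ⁻¹' C \ C) :=
      (hCopen.preimage (continuous_const_smul a)).sdiff hCclosed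
    have hsub : C ⊆ (fun f : F => a • f) ⁻¹' C := fun f hf => h1 f hf
    have h4 : h ((fun f : F => a • f) ⁻¹' C \ C) = 0 := by
      rw [measure_sdiff hsub hCopen.measurableSet.nullMeasurableSet
        (measure_ne_top _ _), (hF.inv a).measure_preimage hCopen.measurableSet.nullMeasurableSet,
        tsub_self]
    exact (hF.supp _ hAo ⟨f, h2, h3⟩).ne' h4
  have hall : ∀ g, P g := gen_UI hn hI hI' P
    (fun i j hij h1 x => Hq2_EE l P hPK hPa hPm hPi i j hij h1 x) hPm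
  have hCempty : ∀ f, ν.real (π ⁻¹' {π f}) = M * h.real (π ⁻¹' {π f}) := by
    intro f
    by_contra h1
    obtain ⟨f₁, hf₁⟩ := hs o₀
    obtain ⟨g, hg⟩ := hF.trans f f₁
    have h2 : g • f ∈ C := (hall g f).2 h1
    rw [hg] at h2
    refine h2 ?_
    rw [hf₁]
    exact hM0
  -- the constant is one
  have hsum : ∀ μ : Measure F, IsProbabilityMeasure μ → ∑ o, μ.real (π ⁻¹' {o}) = 1 := by
    intro μ hμ
    have h1 := sum_measure_preimage_singleton (μ := μ) (Finset.univ : Finset Ω) (f := π)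
      fun o _ => hπm o
    rw [Finset.coe_univ, Set.preimage_univ, measure_univ] at h1
    have h2 := congrArg ENNReal.toReal h1
    rw [ENNReal.toReal_sum fun o _ => measure_ne_top μ _] at h2
    simpa [Measure.real] using h2
  have hM1 : M = 1 := by
    have h1 := hsum ν inferInstance
    have h2 : ∑ o, ν.real (π ⁻¹' {o}) = M * ∑ o, h.real (π ⁻¹' {o}) := by
      rw [Finset.mul_sum]
      refine Finset.sum_congr rfl fun o _ => ?_
      obtain ⟨f, rfl⟩ := hs o
      exact hCempty f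
    rw [h1, hsum h hprob, mul_one] at h2
    exact h2.symm
  have hfinal := hCempty f₀
  rw [hM1, one_mul, hset] at hfinal
  exact (ENNReal.toReal_eq_toReal_iff' (measure_ne_top _ _) (measure_ne_top _ _)).1 hfinal

end Pool.Agent.H23.DM
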