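import Mathlib
import Pool.Agent.H23.DM.Kap

/-!
MODULE Mau (MP_d9606f_gt, Part 0.4, 0.5).  Translation continuity and the Mautner phenomenon.

* `tc_set`: compact `K ⊂ E ⊂ U` open with small `μ (U \ K)`; `EE h x • K ⊂ U` for small `x`.
* `tc_fun`: cover the (bounded up to small measure) values of `s` by finitely many small intervals
  and apply `tc_set` to their preimages.
* `mautner`: `g = dg p a`, `u = EE h x`, `a i ≠ a j`.  `g^k u g^(-k) = EE h (p^(k (a i - a j)) x)`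
  (`dg_conj`), which tends to `1` for `k → ∞` or `k → -∞`.  `E` is invariant mod `μ` under `g^k`, so
  `μ (u⁻¹ E Δ E) = μ ((g^k u g^(-k))⁻¹ E Δ E) → 0`.
-/

open MeasureTheory Filter Matrix
open scoped Topology ENNReal symmDiff

namespace Pool.Agent.H23.DM

open Pool.Agent.H73.PZ

variable {p : ℕ} [Fact p.Prime] {n : ℕ} {Y : Type} [TopologicalSpace Y] [CompactSpace Y]
  [T2Space Y] [SecondCountableTopology Y] [MeasurableSpace Y] [BorelSpace Y]
  [MulAction (SLn p n) Y] [ContinuousSMul (SLn p n) Y]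

private theorem Mau_contEE {i j : Fin n} (h : i ≠ j) :
    Continuous (fun x : ℚ_[p] => (EE h x : SLn p n)) := by
  refine Continuous.subtype_mk (f := fun x : ℚ_[p] => (1 : Matrix (Fin n) (Fin n) ℚ_[p]) +
    Matrix.single i j x) ?_ _
  refine continuous_const.add ?_
  refine continuous_matrix fun k l => ?_
  simp only [Matrix.single_apply]
  split_ifs
  · exact continuous_id
  · exact continuous_const

private theorem Mau_half (μ : Measure Y) [IsProbabilityMeasure μ] {i j : Fin n} (h : i ≠ j)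
    (hU : UInv p μ h) {E : Set Y} (hE : MeasurableSet E) {ε : ℝ≥0∞} (hε : ε ≠ 0) :
    ∀ᶠ x : ℚ_[p] in 𝓝 0, μ (E \ ((fun y : Y => EE h x • y) ⁻¹' E)) ≤ ε := by
  have hε2 : ε / 2 ≠ 0 := (ENNReal.half_pos hε).ne'
  obtain ⟨K, hKE, hK, hKm⟩ := hE.exists_isCompact_sdiff_lt (measure_ne_top μ E) hε2
  obtain ⟨U, hEU, hUo, -, hUm⟩ := hE.exists_isOpen_sdiff_lt (measure_ne_top μ E) hε2
  have hcont : Continuous (fun q : ℚ_[p] × Y => (EE h q.1 : SLn p n) • q.2) :=
    ((Mau_contEE h).comp continuous_fst).smul continuous_snd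
  have hopen : IsOpen ((fun q : ℚ_[p] × Y => (EE h q.1 : SLn p n) • q.2) ⁻¹' U) :=
    hUo.preimage hcont
  have hsub : ({(0 : ℚ_[p])} : Set ℚ_[p]) ×ˢ K ⊆
      (fun q : ℚ_[p] × Y => (EE h q.1 : SLn p n) • q.2) ⁻¹' U := by
    rintro ⟨x, y⟩ ⟨hx, hy⟩
    have hx' : x = 0 := hx
    subst hx'
    change (EE h (0 : ℚ_[p]) : SLn p n) • y ∈ U
    have h1 : (EE h (0 : ℚ_[p]) : SLn p n) = 1 := by
      apply Subtype.ext
      simp
    rw [h1, one_smul]
    exact hEU (hKE hy)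
  obtain ⟨V, W, hV, -, h0V, hKW, hVW⟩ := generalized_tube_lemma isCompact_singleton hK hopen hsub
  filter_upwards [hV.mem_nhds (h0V rfl)] with x hx
  have hincl : E \ ((fun y : Y => EE h x • y) ⁻¹' E) ⊆
      (E \ K) ∪ ((fun y : Y => EE h x • y) ⁻¹' (U \ E)) := by
    rintro y ⟨hyE, hyn⟩
    by_cases hyK : y ∈ K
    · right
      exact ⟨hVW (Set.mk_mem_prod hx (hKW hyK)), hyn⟩
    · left; exact ⟨hyE, hyK⟩
  calc μ (E \ ((fun y : Y => EE h x • y) ⁻¹' E))
      ≤ μ ((E \ K) ∪ ((fun y : Y => EE h x • y) ⁻¹' (U \ E))) := measure_mono hincl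
    _ ≤ μ (E \ K) + μ ((fun y : Y => EE h x • y) ⁻¹' (U \ E)) := measure_union_le _ _
    _ = μ (E \ K) + μ (U \ E) := by
        rw [(hU x).measure_preimage (hUo.measurableSet.diff hE).nullMeasurableSet]
    _ ≤ ε / 2 + ε / 2 := add_le_add hKm.le hUm.le
    _ = ε := ENNReal.add_halves ε

theorem tc_set (μ : Measure Y) [IsProbabilityMeasure μ] {i j : Fin n} (h : i ≠ j)
    (hU : UInv p μ h) {E : Set Y} (hE : MeasurableSet E) :
    Tendsto (fun x : ℚ_[p] => μ (((fun y : Y => EE h x • y) ⁻¹' E) ∆ E)) (𝓝 0) (𝓝 0) := by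
  rw [ENNReal.tendsto_nhds_zero]
  intro ε hε
  have hε2 : ε / 2 ≠ 0 := (ENNReal.half_pos hε.ne').ne'
  filter_upwards [Mau_half μ h hU hE hε2, Mau_half μ h hU hE.compl hε2] with x h1 h2
  have h3 : (((fun y : Y => EE h x • y) ⁻¹' E) ∆ E) ⊆
      (E \ ((fun y : Y => EE h x • y) ⁻¹' E)) ∪ (Eᶜ \ ((fun y : Y => EE h x • y) ⁻¹' Eᶜ)) := by
    rintro y (⟨ha, hb⟩ | ⟨ha, hb⟩)
    · right; exact ⟨hb, fun hc => hc ha⟩
    · left; exact ⟨ha, hb⟩
  calc μ (((fun y : Y => EE h x • y) ⁻¹' E) ∆ E) ≤ _ := measure_mono h3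
    _ ≤ _ := measure_union_le _ _
    _ ≤ ε / 2 + ε / 2 := add_le_add h1 h2
    _ = ε := ENNReal.add_halves ε

theorem tc_fun (μ : Measure Y) [IsProbabilityMeasure μ] {i j : Fin n} (h : i ≠ j)
    (hU : UInv p μ h) {s : Y → ℝ} (hs : Measurable s) {ε : ℝ} (hε : 0 < ε) :
    Tendsto (fun x : ℚ_[p] => μ {y : Y | ε < |s (EE h x • y) - s y|}) (𝓝 0) (𝓝 0) := by
  rw [ENNReal.tendsto_nhds_zero]
  intro δ hδ
  have hfl : Measurable (fun y => ⌊s y / ε⌋) := (hs.div_const ε).floor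
  set E : ℤ → Set Y := fun k => (fun y => ⌊s y / ε⌋) ⁻¹' {k} with hEdef
  have hEm : ∀ k, MeasurableSet (E k) := fun k => hfl (measurableSet_singleton k)
  set A : ℕ → Set Y := fun N => (fun y => ⌊s y / ε⌋) ⁻¹' {k : ℤ | (N : ℤ) < |k|} with hAdef
  have hAm : ∀ N, MeasurableSet (A N) := fun N => hfl (MeasurableSet.of_discrete)
  have hAanti : Antitone A := by
    intro N N' hNN y hy
    change (N : ℤ) < |⌊s y / ε⌋|
    have h1 : (N' : ℤ) < |⌊s y / ε⌋| := hy
    have h2 : (N : ℤ) ≤ N' := by exact_mod_cast hNN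
    omega
  have hAint : ⋂ N, A N = ∅ := by
    rw [Set.eq_empty_iff_forall_notMem]
    intro y hy
    rw [Set.mem_iInter] at hy
    have h1 : ((|⌊s y / ε⌋|.toNat : ℕ) : ℤ) < |⌊s y / ε⌋| := hy _
    rw [Int.toNat_of_nonneg (abs_nonneg _)] at h1
    exact lt_irrefl _ h1
  have hAt : Tendsto (fun N => μ (A N)) atTop (𝓝 0) := by
    have := tendsto_measure_iInter_atTop (μ := μ) (fun N => (hAm N).nullMeasurableSet) hAanti
      ⟨0, measure_ne_top μ _⟩
    rwa [hAint, measure_empty] at this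
  have hδ2 : δ / 2 ≠ 0 := (ENNReal.half_pos hδ.ne').ne'
  obtain ⟨N, hN⟩ := ((ENNReal.tendsto_nhds_zero.1 hAt) (δ / 2) (ENNReal.half_pos hδ.ne')).exists
  set F : Finset ℤ := Finset.Icc (-(N : ℤ)) N with hFdef
  have hcard : (F.card : ℝ≥0∞) ≠ ⊤ := ENNReal.natCast_ne_top _
  have hη : δ / 2 / (F.card : ℝ≥0∞) ≠ 0 := by
    rw [Ne, ENNReal.div_eq_zero_iff]
    push Not
    exact ⟨hδ2, hcard⟩
  have hall : ∀ᶠ x : ℚ_[p] in 𝓝 0, ∀ k ∈ F,
      μ (E k \ ((fun y : Y => EE h x • y) ⁻¹' E k)) ≤ δ / 2 / (F.card : ℝ≥0∞) := by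
    rw [Filter.eventually_all_finset]
    intro k _
    exact Mau_half μ h hU (hEm k) hη
  filter_upwards [hall] with x hx
  have hincl : {y : Y | ε < |s (EE h x • y) - s y|} ⊆
      (⋃ k ∈ F, (E k \ ((fun y : Y => EE h x • y) ⁻¹' E k))) ∪ A N := by
    intro y hy
    by_cases hyA : y ∈ A N
    · right; exact hyA
    · left
      have h1 : ¬ ((N : ℤ) < |⌊s y / ε⌋|) := hyA
      have hk : ⌊s y / ε⌋ ∈ F := by
        rw [hFdef, Finset.mem_Icc]
        rw [not_lt, abs_le] at h1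
        exact h1
      rw [Set.mem_iUnion₂]
      refine ⟨⌊s y / ε⌋, hk, rfl, fun hc => ?_⟩
      have hc' : ⌊s (EE h x • y) / ε⌋ = ⌊s y / ε⌋ := hc
      have h2 := Int.abs_sub_lt_one_of_floor_eq_floor hc'
      have h3 : |s (EE h x • y) - s y| < ε := by
        rw [← sub_div, abs_div, abs_of_pos hε, div_lt_one hε] at h2
        exact h2
      exact absurd hy (not_lt.2 h3.le)
  calc μ {y : Y | ε < |s (EE h x • y) - s y|}
      ≤ μ ((⋃ k ∈ F, (E k \ ((fun y : Y => EE h x • y) ⁻¹' E k))) ∪ A N) := measure_mono hincl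
    _ ≤ μ (⋃ k ∈ F, (E k \ ((fun y : Y => EE h x • y) ⁻¹' E k))) + μ (A N) :=
        measure_union_le _ _
    _ ≤ (∑ k ∈ F, μ (E k \ ((fun y : Y => EE h x • y) ⁻¹' E k))) + μ (A N) :=
        add_le_add (measure_biUnion_finset_le _ _) le_rfl
    _ ≤ (∑ _k ∈ F, δ / 2 / (F.card : ℝ≥0∞)) + δ / 2 :=
        add_le_add (Finset.sum_le_sum hx) hN
    _ ≤ δ / 2 + δ / 2 := by
        refine add_le_add ?_ le_rfl
        rw [Finset.sum_const, nsmul_eq_mul]
        exact ENNReal.mul_div_le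
    _ = δ := ENNReal.add_halves δ

private theorem Mau_conj {a : Fin n → ℤ} (ha : ∑ k, a k = 0) {i j : Fin n} (h : i ≠ j)
    (x : ℚ_[p]) (k : ℕ) :
    (dg p a) ^ k * EE h x = EE h (((p : ℚ_[p]) ^ (a i - a j)) ^ k * x) * (dg p a) ^ k := by
  induction k with
  | zero => simp
  | succ k ih =>
    rw [pow_succ' (dg p a), mul_assoc, ih, ← mul_assoc, dg_conj ha h, mul_assoc]
    congr 2
    rw [pow_succ']
    ring

private theorem Mau_pos (μ : Measure Y) [IsProbabilityMeasure μ] {i j : Fin n} (h : i ≠ j)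
    (hU : UInv p μ h) {a : Fin n → ℤ} (ha : ∑ k, a k = 0) (haij : 0 < a i - a j)
    (hinv : MeasurePreserving (fun y : Y => dg p a • y) μ μ) {E : Set Y} (hE : MeasurableSet E)
    (hEa : (fun y : Y => dg p a • y) ⁻¹' E =ᵐ[μ] E) (x : ℚ_[p]) :
    (fun y : Y => EE h x • y) ⁻¹' E =ᵐ[μ] E := by
  set g : SLn p n := dg p a with hg
  -- powers
  have hpow : ∀ k : ℕ, MeasurePreserving (fun y : Y => g ^ k • y) μ μ ∧
      (fun y : Y => g ^ k • y) ⁻¹' E =ᵐ[μ] E := by
    intro k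
    induction k with
    | zero =>
      simp only [pow_zero, one_smul]
      exact ⟨MeasurePreserving.id μ, Filter.EventuallyEq.rfl⟩
    | succ k ih =>
      have e : (fun y : Y => g ^ (k + 1) • y) = (fun y : Y => g ^ k • y) ∘ (fun y : Y => g • y) := by
        funext y
        change g ^ (k + 1) • y = g ^ k • g • y
        rw [← mul_smul, pow_succ]
      rw [e]
      refine ⟨ih.1.comp hinv, ?_⟩
      rw [Set.preimage_comp]
      exact (hinv.quasiMeasurePreserving.preimage_ae_eq ih.2).trans hEa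
  have hpinv : ∀ k : ℕ, (fun y : Y => (g ^ k)⁻¹ • y) ⁻¹' E =ᵐ[μ] E := by
    intro k
    obtain ⟨hm, he⟩ := hpow k
    have hm' : MeasurePreserving (fun y : Y => (g ^ k)⁻¹ • y) μ μ := by
      have := MeasurePreserving.symm (Homeomorph.smul (α := Y) (g ^ k)).toMeasurableEquiv hm
      exact this
    have h1 := hm'.quasiMeasurePreserving.preimage_ae_eq he
    rw [← Set.preimage_comp] at h1
    have e : (fun y : Y => g ^ k • y) ∘ (fun y : Y => (g ^ k)⁻¹ • y) = id := by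
      funext y
      change g ^ k • (g ^ k)⁻¹ • y = y
      rw [smul_inv_smul]
    rw [e, Set.preimage_id] at h1
    exact h1.symm
  -- the measure is the same for all `k`
  have hkey : ∀ k : ℕ, μ (((fun y : Y => EE h x • y) ⁻¹' E) ∆ E) =
      μ (((fun y : Y => EE h (((p : ℚ_[p]) ^ (a i - a j)) ^ k * x) • y) ⁻¹' E) ∆ E) := by
    intro k
    set u' : SLn p n := EE h (((p : ℚ_[p]) ^ (a i - a j)) ^ k * x) with hu'
    obtain ⟨hm, he⟩ := hpow k
    have hmu : MeasurePreserving (fun y : Y => u' • y) μ μ := hU _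
    have hconj : g ^ k * EE h x = u' * g ^ k := Mau_conj ha h x k
    have e : (fun y : Y => EE h x • y) =
        (fun y : Y => (g ^ k)⁻¹ • y) ∘ (fun y : Y => u' • y) ∘ (fun y : Y => g ^ k • y) := by
      funext y
      change (EE h x : SLn p n) • y = (g ^ k)⁻¹ • u' • g ^ k • y
      rw [← mul_smul u', ← hconj, ← mul_smul, inv_mul_cancel_left]
    have h1 : (fun y : Y => EE h x • y) ⁻¹' E =ᵐ[μ]
        (fun y : Y => g ^ k • y) ⁻¹' ((fun y : Y => u' • y) ⁻¹' E) := by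
      rw [e, Set.preimage_comp, Set.preimage_comp]
      exact hm.quasiMeasurePreserving.preimage_ae_eq
        (hmu.quasiMeasurePreserving.preimage_ae_eq (hpinv k))
    have h2 : (((fun y : Y => EE h x • y) ⁻¹' E) ∆ E : Set Y) =ᵐ[μ]
        (fun y : Y => g ^ k • y) ⁻¹' (((fun y : Y => u' • y) ⁻¹' E) ∆ E) := by
      have e2 : (fun y : Y => g ^ k • y) ⁻¹' (((fun y : Y => u' • y) ⁻¹' E) ∆ E) =
          ((fun y : Y => g ^ k • y) ⁻¹' ((fun y : Y => u' • y) ⁻¹' E)) ∆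
            ((fun y : Y => g ^ k • y) ⁻¹' E) := rfl
      rw [e2]
      exact h1.symmDiff he.symm
    rw [measure_congr h2]
    exact hm.measure_preimage
      ((hmu.measurable hE).symmDiff hE).nullMeasurableSet
  have hlim : Tendsto (fun k : ℕ => ((p : ℚ_[p]) ^ (a i - a j)) ^ k * x) atTop (𝓝 0) := by
    have hlt : ‖((p : ℚ_[p]) ^ (a i - a j))‖ < 1 := by
      rw [norm_p_zpow]
      have hp1 : (1 : ℝ) < p := by exact_mod_cast (Fact.out : p.Prime).one_lt
      exact zpow_lt_one_of_neg₀ hp1 (by omega)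
    have := (tendsto_pow_atTop_nhds_zero_of_norm_lt_one hlt).mul_const x
    rwa [zero_mul] at this
  have hz : Tendsto (fun k : ℕ => μ (((fun y : Y => EE h (((p : ℚ_[p]) ^ (a i - a j)) ^ k * x) • y)
      ⁻¹' E) ∆ E)) atTop (𝓝 0) := (tc_set μ h hU hE).comp hlim
  have hconst : Tendsto (fun _ : ℕ => μ (((fun y : Y => EE h x • y) ⁻¹' E) ∆ E)) atTop (𝓝 0) := by
    refine hz.congr fun k => (hkey k).symm
  have h0 : μ (((fun y : Y => EE h x • y) ⁻¹' E) ∆ E) = 0 :=
    tendsto_nhds_unique tendsto_const_nhds hconst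
  exact measure_symmDiff_eq_zero_iff.1 h0

theorem mautner (μ : Measure Y) [IsProbabilityMeasure μ] {i j : Fin n} (h : i ≠ j)
    (hU : UInv p μ h) {a : Fin n → ℤ} (ha : ∑ k, a k = 0) (haij : a i ≠ a j)
    (hinv : MeasurePreserving (fun y : Y => dg p a • y) μ μ) {E : Set Y} (hE : MeasurableSet E)
    (hEa : (fun y : Y => dg p a • y) ⁻¹' E =ᵐ[μ] E) (x : ℚ_[p]) :
    (fun y : Y => EE h x • y) ⁻¹' E =ᵐ[μ] E := by
  rcases lt_or_gt_of_ne haij with hlt | hgt
  · have ha' : ∑ k, (fun k => -a k) k = 0 := by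
      simp only [Finset.sum_neg_distrib, ha, neg_zero]
    have hinv' : MeasurePreserving (fun y : Y => (dg p a)⁻¹ • y) μ μ := by
      have := MeasurePreserving.symm (Homeomorph.smul (α := Y) (dg p a)).toMeasurableEquiv hinv
      exact this
    have hEa' : (fun y : Y => (dg p a)⁻¹ • y) ⁻¹' E =ᵐ[μ] E := by
      have h1 := hinv'.quasiMeasurePreserving.preimage_ae_eq hEa
      rw [← Set.preimage_comp] at h1
      have e : (fun y : Y => dg p a • y) ∘ (fun y : Y => (dg p a)⁻¹ • y) = id := by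
        funext y
        change dg p a • (dg p a)⁻¹ • y = y
        rw [smul_inv_smul]
      rw [e, Set.preimage_id] at h1
      exact h1.symm
    rw [← dg_neg ha] at hinv' hEa'
    exact Mau_pos μ h hU ha' (by omega) hinv' hE hEa' x
  · exact Mau_pos μ h hU ha (by omega) hinv hE hEa x

end Pool.Agent.H23.DM
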