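import Mathlib
import Pool.Agent.H23.DM.Mau
import Pool.Agent.H23.DM.Hq2

/-!
MODULE Er1 (MP_d9606f_gt, Part 0.6).  Haar measure on `F` is ergodic under `A`.

`E` is `A`-invariant mod `h`: by `mautner` (with `a = te i j`) it is invariant mod `h` under every
`EE hij x`, so under every `g` (`EE_induction`).  If `0 < h E` consider `ν = h|_E / h E`: a
`G`-invariant probability measure, so `ν = h` by `unique_measure` (`I = {0}`; `n ≥ 2`), so
`h Eᶜ = ν Eᶜ = 0`.
-/

open MeasureTheory Filter Matrix
open scoped Topology ENNReal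

namespace Pool.Agent.H23.DM

open Pool.Agent.H73.PZ

variable {p : ℕ} [Fact p.Prime] {n : ℕ} {F : Type} [TopologicalSpace F] [CompactSpace F]
  [T2Space F] [SecondCountableTopology F] [MeasurableSpace F] [BorelSpace F]
  [MulAction (SLn p n) F] [ContinuousSMul (SLn p n) F]

theorem sys_F (hn : 2 ≤ n) {h : Measure F} (hF : HSp p n F h) : Sys (AA p n) F h := by
  have : IsProbabilityMeasure h := hF.prob
  refine ⟨hF.prob, fun a => hF.inv (a : SLn p n), ?_⟩
  intro E hE hEA
  -- invariance under every element
  have hroot : ∀ (i j : Fin n) (hij : i ≠ j) (x : ℚ_[p]),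
      (fun y : F => (EE hij x : SLn p n) • y) ⁻¹' E =ᵐ[h] E := by
    intro i j hij x
    refine mautner h hij (fun x => hF.inv _) (sum_te i j) ?_ (hF.inv _) hE ?_ x
    · have h1 : te i j i = -1 := by simp [te, hij]
      have h2 : te i j j = 1 := by simp [te, hij.symm]
      rw [h1, h2]
      norm_num
    · exact hEA (mkA p (te i j) (sum_te i j))
  have hall : ∀ g : SLn p n, (fun y : F => g • y) ⁻¹' E =ᵐ[h] E := by
    intro g
    refine EE_induction hn (fun g => (fun y : F => g • y) ⁻¹' E =ᵐ[h] E) hroot ?_ g
    intro a b ha hb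
    have e : (fun y : F => (a * b) • y) = (fun y : F => a • y) ∘ (fun y : F => b • y) := by
      funext y
      exact mul_smul a b y
    change (fun y : F => (a * b) • y) ⁻¹' E =ᵐ[h] E
    rw [e, Set.preimage_comp]
    exact ((hF.inv b).quasiMeasurePreserving.preimage_ae_eq ha).trans hb
  by_cases h0 : h E = 0
  · exact Or.inl h0
  right
  set ν : Measure F := (h E)⁻¹ • h.restrict E with hν
  have : IsProbabilityMeasure ν := by
    refine ⟨?_⟩
    rw [hν, Measure.smul_apply, Measure.restrict_apply_univ, smul_eq_mul,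
      ENNReal.inv_mul_cancel h0 (measure_ne_top h E)]
  have hinv : ∀ g : SLn p n, MeasurePreserving (fun y : F => g • y) ν ν := by
    intro g
    have h1 := (hF.inv g).restrict_preimage hE
    rw [Measure.restrict_congr_set (hall g)] at h1
    exact h1.smul_measure _
  have hI : ({⟨0, by omega⟩} : Set (Fin n)).Nonempty := Set.singleton_nonempty _
  have hI' : (({⟨0, by omega⟩} : Set (Fin n))ᶜ).Nonempty := by
    refine ⟨⟨1, by omega⟩, ?_⟩
    simp
  have hνh : ν = h := unique_measure hn hF hI hI' ν (fun a => hinv (a : SLn p n))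
    (fun i j hij _ _ x => hinv _)
  have h2 : ν Eᶜ = 0 := by
    rw [hν, Measure.smul_apply, Measure.restrict_apply hE.compl, Set.compl_inter_self, measure_empty,
      smul_zero]
  rw [hνh] at h2
  exact h2

end Pool.Agent.H23.DM
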