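import Mathlib
import Pool.Agent.H23.DM.Er1
import Pool.Agent.H23.DM.Av4

/-!
MODULE Er2 (MP_d9606f_gt, Part 1.6).  Ergodic measures with maximal `kap`.

`H` a subset of `SLn p n` containing `AA p n`, `q : X → F` continuous equivariant, `N` = the set of
`H`-invariant probability measures on `X` projecting to `h`: closed, convex.
* `κ* = sup_N kap L t`, attained: the sets `{σ ∈ N | κ* - 1/k ≤ kap}` are closed, nonempty,
  decreasing; `N₀ = {σ ∈ N | κ* ≤ kap}` is closed, convex, nonempty.
* `g_1, g_2, ..` a sequence dense in `C(X, ℝ)` (separable); `N_(i+1)` = the maximisers of `∫ g_i` in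
  `N_i`; the intersection is nonempty and consists of one measure `σ` (all `∫ g_i` are determined).
* Let `E` be `H`-invariant mod `σ`, `0 < σ E < 1`; `σ_1 = σ(·|E)`, `σ_2 = σ(·|Eᶜ)`,
  `σ = t σ_1 + (1-t) σ_2`, `t = σ E`.  They are `H`-invariant; their projections to `F` are
  `A`-invariant and `≤ C h`, so equal to `h` (`sys_F`: the density is constant; e.g.
  `Ergodic`-type argument: for measurable `B ⊆ F` with density `> 1` ...).  So `σ_1, σ_2 ∈ N`;
  `kap_affine` and `kap ≤ κ*` on `N` give `σ_1, σ_2 ∈ N₀`, and inductively in all `N_i`, so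
  `σ_1 = σ = σ_2`, contradiction to `σ_1 E = 1`, `σ_2 E = 0`.
-/

open MeasureTheory Filter Matrix
open scoped Topology ENNReal

namespace Pool.Agent.H23.DM

open Pool.Agent.H73.PZ

variable {p : ℕ} [Fact p.Prime] {n : ℕ} {F : Type} [TopologicalSpace F] [CompactSpace F]
  [T2Space F] [SecondCountableTopology F] [MeasurableSpace F] [BorelSpace F]
  [MulAction (SLn p n) F] [ContinuousSMul (SLn p n) F]
  {X : Type} [TopologicalSpace X] [CompactSpace X]
  [T2Space X] [SecondCountableTopology X] [MeasurableSpace X] [BorelSpace X]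
  [MulAction (SLn p n) X] [ContinuousSMul (SLn p n) X] {L : SLn p n → X → ℝ}

/-- A measure on `F` which is `A`-invariant and absolutely continuous is Haar measure. -/
theorem eq_of_ac (hn : 2 ≤ n) {h : Measure F} (hF : HSp p n F h) (ν : Measure F)
    [IsProbabilityMeasure ν] (hA : AInv p n ν) (hac : ν ≪ h) : ν = h := by
  have hP : IsProbabilityMeasure h := hF.prob
  have hS := sys_F hn hF
  set f : F → ℝ≥0∞ := ν.rnDeriv h with hf
  have hfm : Measurable f := Measure.measurable_rnDeriv ν h
  have hinv : ∀ a : AA p n, f ∘ (fun y : F => a • y) =ᵐ[h] f := fun a =>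
    (hA a).rnDeriv_comp_aeEq (hS.mp a)
  have hwd : h.withDensity f = ν := Measure.withDensity_rnDeriv_eq ν h hac
  have hint : ∫⁻ x, f x ∂h = 1 := by
    have h1 : (h.withDensity f) Set.univ = 1 := by rw [hwd]; exact measure_univ
    rwa [withDensity_apply _ MeasurableSet.univ, Measure.restrict_univ] at h1
  have hB : MeasurableSet {x | 1 < f x} := measurableSet_lt measurable_const hfm
  have hle : ∀ᵐ x ∂h, f x ≤ 1 := by
    rcases hS.erg {x | 1 < f x} hB (fun a => by
      filter_upwards [hinv a] with x hx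
      have hx' : f (a • x) = f x := hx
      change ((fun y : F => a • y) ⁻¹' {x | 1 < f x}) x = ({x | 1 < f x} : Set F) x
      apply propext
      change 1 < f (a • x) ↔ 1 < f x
      rw [hx']) with h0 | h0
    · rw [ae_iff]
      simpa using h0
    · exfalso
      have h1 : ∀ᵐ x ∂h, 1 < f x := by
        rw [ae_iff]
        exact h0
      have h2 : ∫⁻ x, (1 : ℝ≥0∞) ∂h < ∫⁻ x, f x ∂h := by
        refine lintegral_strict_mono (IsProbabilityMeasure.ne_zero h) hfm.aemeasurable ?_ h1
        simp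
      rw [hint] at h2
      simp at h2
  have heq : f =ᵐ[h] fun _ => 1 := by
    refine ae_eq_of_ae_le_of_lintegral_le hle ?_ measurable_const.aemeasurable ?_
    · rw [hint]; exact ENNReal.one_ne_top
    · rw [hint]; simp
  rw [← hwd, withDensity_congr_ae heq]
  simp

/-- A strictly convex continuous function on the space of probability measures. -/
theorem exists_strict (X : Type) [TopologicalSpace X] [CompactSpace X]
    [T2Space X] [SecondCountableTopology X] [MeasurableSpace X] [BorelSpace X] :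
    ∃ Φ : ProbabilityMeasure X → ℝ, Continuous Φ ∧
      ∀ (σ μ ν : ProbabilityMeasure X) (t : ℝ), 0 < t → t < 1 →
        (σ : Measure X) = ENNReal.ofReal t • (μ : Measure X) +
          ENNReal.ofReal (1 - t) • (ν : Measure X) → Φ μ ≤ Φ σ → Φ ν ≤ Φ σ → μ = ν := by
  classical
  let g : ℕ → C(X, ℝ) := TopologicalSpace.denseSeq C(X, ℝ)
  have hg : DenseRange g := TopologicalSpace.denseRange_denseSeq C(X, ℝ)
  let w : ℕ → ℝ := fun i => (1 / 2) ^ i / (1 + ‖g i‖ ^ 2)
  have hw : ∀ i, 0 < w i := fun i => by positivity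
  have hc : ∀ f : C(X, ℝ), Continuous fun μ : ProbabilityMeasure X =>
      ∫ x, f x ∂(μ : Measure X) := fun f =>
    ProbabilityMeasure.continuous_integral_continuousMap f
  have hi : ∀ (f : C(X, ℝ)) (μ : Measure X) [IsFiniteMeasure μ], Integrable (fun x => f x) μ :=
    fun f μ _ => f.continuous.integrable_of_hasCompactSupport
      (HasCompactSupport.of_compactSpace _)
  have hb : ∀ (f : C(X, ℝ)) (μ : ProbabilityMeasure X), |∫ x, f x ∂(μ : Measure X)| ≤ ‖f‖ := by
    intro f μ
    have := norm_integral_le_of_norm_le_const (μ := (μ : Measure X)) (f := fun x => f x) (C := ‖f‖)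
      (Eventually.of_forall fun x => f.norm_coe_le_norm x)
    simpa using this
  have hbd : ∀ (i : ℕ) (μ ν : ProbabilityMeasure X) (c c' : ℝ), |c| ≤ 1 → |c'| ≤ 1 →
      ‖w i * (c * ∫ x, g i x ∂(μ : Measure X) + c' * ∫ x, g i x ∂(ν : Measure X)) ^ 2‖
        ≤ 4 * (1 / 2 : ℝ) ^ i := by
    intro i μ ν c c' h1 h2
    have h3 : |c * ∫ x, g i x ∂(μ : Measure X) + c' * ∫ x, g i x ∂(ν : Measure X)|
        ≤ 2 * ‖g i‖ := by
      refine (abs_add_le _ _).trans ?_
      rw [abs_mul, abs_mul]
      have := mul_le_mul h1 (hb (g i) μ) (abs_nonneg _) zero_le_one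
      have := mul_le_mul h2 (hb (g i) ν) (abs_nonneg _) zero_le_one
      linarith
    rw [Real.norm_eq_abs, abs_mul, abs_of_pos (hw i), abs_pow]
    have h4 : |c * ∫ x, g i x ∂(μ : Measure X) + c' * ∫ x, g i x ∂(ν : Measure X)| ^ 2
        ≤ (2 * ‖g i‖) ^ 2 := pow_le_pow_left₀ (abs_nonneg _) h3 2
    calc w i * |c * ∫ x, g i x ∂(μ : Measure X) + c' * ∫ x, g i x ∂(ν : Measure X)| ^ 2
        ≤ w i * (2 * ‖g i‖) ^ 2 := mul_le_mul_of_nonneg_left h4 (hw i).le
      _ = (1 / 2 : ℝ) ^ i * (4 * (‖g i‖ ^ 2 / (1 + ‖g i‖ ^ 2))) := by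
          simp only [w]
          ring
      _ ≤ (1 / 2 : ℝ) ^ i * (4 * 1) := by
          refine mul_le_mul_of_nonneg_left ?_ (by positivity)
          refine mul_le_mul_of_nonneg_left ?_ (by norm_num)
          rw [div_le_one (by positivity)]
          linarith
      _ = 4 * (1 / 2 : ℝ) ^ i := by ring
  have hsg : Summable fun i : ℕ => 4 * (1 / 2 : ℝ) ^ i :=
    (summable_geometric_of_lt_one (by norm_num) (by norm_num)).mul_left _
  have hbd1 : ∀ (i : ℕ) (μ : ProbabilityMeasure X),
      ‖w i * (∫ x, g i x ∂(μ : Measure X)) ^ 2‖ ≤ 4 * (1 / 2 : ℝ) ^ i := by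
    intro i μ
    have := hbd i μ μ 1 0 (by simp) (by simp)
    simpa using this
  have hs1 : ∀ μ : ProbabilityMeasure X,
      Summable fun i => w i * (∫ x, g i x ∂(μ : Measure X)) ^ 2 := fun μ =>
    Summable.of_norm_bounded hsg fun i => hbd1 i μ
  refine ⟨fun μ => ∑' i, w i * (∫ x, g i x ∂(μ : Measure X)) ^ 2, ?_, ?_⟩
  · exact continuous_tsum (fun i => continuous_const.mul ((hc (g i)).pow 2)) hsg hbd1
  · intro σ μ ν t ht ht1 hσ h1 h2
    have hint : ∀ f : C(X, ℝ), ∫ x, f x ∂(σ : Measure X) =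
        t * ∫ x, f x ∂(μ : Measure X) + (1 - t) * ∫ x, f x ∂(ν : Measure X) := by
      intro f
      rw [hσ, integral_add_measure ((hi f _).smul_measure ENNReal.ofReal_ne_top)
        ((hi f _).smul_measure ENNReal.ofReal_ne_top), integral_smul_measure,
        integral_smul_measure, ENNReal.toReal_ofReal ht.le, ENNReal.toReal_ofReal (by linarith)]
      rfl
    have hs2 : Summable fun i => w i * (∫ x, g i x ∂(μ : Measure X) -
        ∫ x, g i x ∂(ν : Measure X)) ^ 2 := by
      refine Summable.of_norm_bounded hsg fun i => ?_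
      have := hbd i μ ν 1 (-1) (by simp) (by simp)
      have e : (1 : ℝ) * ∫ x, g i x ∂(μ : Measure X) + -1 * ∫ x, g i x ∂(ν : Measure X) =
        ∫ x, g i x ∂(μ : Measure X) - ∫ x, g i x ∂(ν : Measure X) := by ring
      rwa [e] at this
    have key : (∑' i, w i * (∫ x, g i x ∂(σ : Measure X)) ^ 2) =
        t * (∑' i, w i * (∫ x, g i x ∂(μ : Measure X)) ^ 2) +
        (1 - t) * (∑' i, w i * (∫ x, g i x ∂(ν : Measure X)) ^ 2) -
        t * (1 - t) * ∑' i, w i * (∫ x, g i x ∂(μ : Measure X) -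
          ∫ x, g i x ∂(ν : Measure X)) ^ 2 := by
      rw [← tsum_mul_left, ← tsum_mul_left, ← tsum_mul_left,
        ← ((hs1 μ).mul_left t).tsum_add ((hs1 ν).mul_left (1 - t)),
        ← (((hs1 μ).mul_left t).add ((hs1 ν).mul_left (1 - t))).tsum_sub
          (hs2.mul_left (t * (1 - t)))]
      refine tsum_congr fun i => ?_
      rw [hint]
      ring
    have hn : ∀ i, 0 ≤ w i * (∫ x, g i x ∂(μ : Measure X) - ∫ x, g i x ∂(ν : Measure X)) ^ 2 :=
      fun i => mul_nonneg (hw i).le (sq_nonneg _)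
    have h0 : (∑' i, w i * (∫ x, g i x ∂(μ : Measure X) -
        ∫ x, g i x ∂(ν : Measure X)) ^ 2) ≤ 0 := by
      by_contra hcon
      push Not at hcon
      have h3 : 0 < t * (1 - t) * ∑' i, w i * (∫ x, g i x ∂(μ : Measure X) -
          ∫ x, g i x ∂(ν : Measure X)) ^ 2 := mul_pos (mul_pos ht (by linarith)) hcon
      have h4 := mul_le_mul_of_nonneg_left h1 ht.le
      have h5 := mul_le_mul_of_nonneg_left h2 (by linarith : 0 ≤ 1 - t)
      simp only [] at h4 h5
      nlinarith
    have h00 : ∀ i, ∫ x, g i x ∂(μ : Measure X) = ∫ x, g i x ∂(ν : Measure X) := by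
      intro i
      have h6 := hs2.le_tsum i (fun j _ => hn j)
      have h7 : w i * (∫ x, g i x ∂(μ : Measure X) - ∫ x, g i x ∂(ν : Measure X)) ^ 2 = 0 :=
        le_antisymm (h6.trans h0) (hn i)
      rcases mul_eq_zero.1 h7 with h8 | h8
      · exact absurd h8 (hw i).ne'
      · have := pow_eq_zero_iff (two_ne_zero) |>.1 h8
        linarith
    have hall : ∀ f : C(X, ℝ), ∫ x, f x ∂(μ : Measure X) = ∫ x, f x ∂(ν : Measure X) := by
      have hcont : ∀ ρ : ProbabilityMeasure X,
          Continuous fun f : C(X, ℝ) => ∫ x, f x ∂(ρ : Measure X) := by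
        intro ρ
        have hl : LipschitzWith 1 fun f : C(X, ℝ) => ∫ x, f x ∂(ρ : Measure X) := by
          refine LipschitzWith.of_dist_le_mul fun f f' => ?_
          rw [Real.dist_eq, ← integral_sub (hi f _) (hi f' _), NNReal.coe_one, one_mul,
            dist_eq_norm]
          exact hb (f - f') ρ
        exact hl.continuous
      have he := hg.equalizer (hcont μ) (hcont ν) (funext fun i => h00 i)
      exact fun f => congrFun he f
    have hmeas : (μ : Measure X) = (ν : Measure X) :=
      ext_of_forall_integral_eq_of_IsFiniteMeasure fun f => hall f.toContinuousMap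
    exact Subtype.ext hmeas

theorem exists_max (hn : 2 ≤ n) {h : Measure F} (hF : HSp p n F h) (hL : Sub1 L)
    {q : X → F} (hq : Continuous q) (hqe : ∀ (g : SLn p n) (x : X), q (g • x) = g • q x)
    (H : Set (SLn p n)) (hH : ∀ g ∈ AA p n, g ∈ H) (t : AA p n)
    (hne : ∃ σ : ProbabilityMeasure X, (∀ g ∈ H, Inv1 (fun x => g • x) σ) ∧
      (σ : Measure X).map q = h ∧ 0 < kap L (t : SLn p n) (σ : Measure X)) :
    ∃ σ : ProbabilityMeasure X, (∀ g ∈ H, Inv1 (fun x => g • x) σ) ∧
      (σ : Measure X).map q = h ∧ 0 < kap L (t : SLn p n) (σ : Measure X) ∧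
      ∀ E : Set X, MeasurableSet E → (∀ g ∈ H, (fun x : X => g • x) ⁻¹' E =ᵐ[(σ : Measure X)] E) →
        (σ : Measure X) E = 0 ∨ (σ : Measure X) Eᶜ = 0 := by
  classical
  have hP : IsProbabilityMeasure h := hF.prob
  obtain ⟨Φ, hΦc, hΦ⟩ := exists_strict X
  -- the set of the invariant measures over `h`
  let N : Set (ProbabilityMeasure X) :=
    {σ | (∀ g ∈ H, Inv1 (fun x => g • x) σ) ∧ (σ : Measure X).map q = h}
  have hNcl : IsClosed N := by
    have e : N = (⋂ g ∈ H, {σ : ProbabilityMeasure X | Inv1 (fun x => g • x) σ}) ∩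
        (psh q hq) ⁻¹' {(⟨h, hP⟩ : ProbabilityMeasure F)} := by
      ext σ
      simp only [N, Set.mem_inter_iff, Set.mem_iInter, Set.mem_preimage, Set.mem_ofPred_eq]
      refine and_congr Iff.rfl ?_
      constructor
      · intro h1
        apply Subtype.ext
        exact h1
      · intro h1
        exact congrArg Subtype.val h1
    rw [e]
    refine IsClosed.inter ?_ ?_
    · exact isClosed_biInter fun g _ => isClosed_inv (continuous_const_smul g)
    · exact isClosed_singleton.preimage (ProbabilityMeasure.continuous_map hq)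
  obtain ⟨σh, hσh1, hσh2, hσh3⟩ := hne
  have hNne : N.Nonempty := ⟨σh, hσh1, hσh2⟩
  have husc : UpperSemicontinuous fun σ : ProbabilityMeasure X =>
      kap L (t : SLn p n) (σ : Measure X) := by
    rw [upperSemicontinuous_iff_isClosed_preimage]
    intro c
    exact isClosed_kap hL _ c
  obtain ⟨σ0, hσ0, hmax0⟩ := UpperSemicontinuousOn.exists_isMaxOn hNne hNcl.isCompact
    (husc.upperSemicontinuousOn N)
  set κ : ℝ := kap L (t : SLn p n) (σ0 : Measure X) with hκ
  have hmax : ∀ σ ∈ N, kap L (t : SLn p n) (σ : Measure X) ≤ κ := fun σ hσ => hmax0 hσ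
  have hκ0 : 0 < κ := hσh3.trans_le (hmax σh ⟨hσh1, hσh2⟩)
  let N0 : Set (ProbabilityMeasure X) := N ∩ {σ | κ ≤ kap L (t : SLn p n) (σ : Measure X)}
  have hN0c : IsCompact N0 := (hNcl.inter (isClosed_kap hL _ κ)).isCompact
  obtain ⟨σ, hσ, hσmax⟩ := hN0c.exists_isMaxOn ⟨σ0, hσ0, hκ.le⟩ hΦc.continuousOn
  have hσmax' : ∀ ρ ∈ N0, Φ ρ ≤ Φ σ := fun ρ hρ => hσmax hρ
  refine ⟨σ, hσ.1.1, hσ.1.2, hκ0.trans_le hσ.2, ?_⟩
  intro E hE hEinv
  by_contra hcon
  push Not at hcon
  obtain ⟨hE0, hE1⟩ := hcon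
  -- the conditional measures
  have hcond : ∀ B : Set X, MeasurableSet B → (∀ g ∈ H, (fun x : X => g • x) ⁻¹' B
      =ᵐ[(σ : Measure X)] B) → (σ : Measure X) B ≠ 0 →
      ∃ ρ : ProbabilityMeasure X, ρ ∈ N ∧
        (ρ : Measure X) = ((σ : Measure X) B)⁻¹ • (σ : Measure X).restrict B := by
    intro B hB hBinv hB0
    have hprob : IsProbabilityMeasure (((σ : Measure X) B)⁻¹ • (σ : Measure X).restrict B) := by
      constructor
      rw [Measure.smul_apply, Measure.restrict_apply_univ, smul_eq_mul]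
      exact ENNReal.inv_mul_cancel hB0 (measure_ne_top _ _)
    refine ⟨⟨_, hprob⟩, ⟨?_, ?_⟩, rfl⟩
    · intro g hg
      have h1 : MeasurePreserving (fun x : X => g • x) (σ : Measure X) (σ : Measure X) :=
        hσ.1.1 g hg
      have h2 := h1.restrict_preimage hB
      have h3 : (σ : Measure X).restrict ((fun x : X => g • x) ⁻¹' B) =
          (σ : Measure X).restrict B := Measure.restrict_congr_set (hBinv g hg)
      rw [h3] at h2
      exact h2.smul_measure _
    · have h4 : IsProbabilityMeasure ((((σ : Measure X) B)⁻¹ •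
          (σ : Measure X).restrict B).map q) := Measure.isProbabilityMeasure_map hq.aemeasurable
      change (((σ : Measure X) B)⁻¹ • (σ : Measure X).restrict B).map q = h
      refine eq_of_ac hn hF _ ?_ ?_
      · intro a
        have h1 : MeasurePreserving (fun x : X => (a : SLn p n) • x) (σ : Measure X)
          (σ : Measure X) := hσ.1.1 (a : SLn p n) (hH _ a.2)
        have h2 := h1.restrict_preimage hB
        have h3 : (σ : Measure X).restrict ((fun x : X => (a : SLn p n) • x) ⁻¹' B) =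
            (σ : Measure X).restrict B := Measure.restrict_congr_set (hBinv _ (hH _ a.2))
        rw [h3] at h2
        have h5 := h2.smul_measure (((σ : Measure X) B)⁻¹)
        have hmF : Measurable fun y : F => (a : SLn p n) • y :=
          (continuous_const_smul (a : SLn p n)).measurable
        refine ⟨hmF, ?_⟩
        change ((((σ : Measure X) B)⁻¹ • (σ : Measure X).restrict B).map q).map
          (fun y : F => (a : SLn p n) • y) = _
        rw [Measure.map_map hmF hq.measurable]
        have e : (fun y : F => (a : SLn p n) • y) ∘ q = q ∘ fun x : X => (a : SLn p n) • x := by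
          funext x
          exact (hqe _ x).symm
        rw [e, ← Measure.map_map hq.measurable h5.measurable, h5.map_eq]
      · rw [← hσ.1.2]
        refine Measure.AbsolutelyContinuous.map ?_ hq.measurable
        exact (Measure.smul_absolutelyContinuous).trans Measure.restrict_le_self.absolutelyContinuous
  have hEc : ∀ g ∈ H, (fun x : X => g • x) ⁻¹' Eᶜ =ᵐ[(σ : Measure X)] Eᶜ := by
    intro g hg
    rw [Set.preimage_compl]
    exact (hEinv g hg).compl
  obtain ⟨σ1, hσ1, e1⟩ := hcond E hE hEinv hE0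
  obtain ⟨σ2, hσ2, e2⟩ := hcond Eᶜ hE.compl hEc hE1
  set τ : ℝ := (σ : Measure X).real E with hτ
  have hτ0 : 0 < τ := ENNReal.toReal_pos hE0 (measure_ne_top _ _)
  have hτc : (σ : Measure X).real Eᶜ = 1 - τ := probReal_compl_eq_one_sub hE
  have hτc0 : 0 < 1 - τ := by
    rw [← hτc]
    exact ENNReal.toReal_pos hE1 (measure_ne_top _ _)
  have hsum : (σ : Measure X) = ENNReal.ofReal τ • (σ1 : Measure X) +
      ENNReal.ofReal (1 - τ) • (σ2 : Measure X) := by
    rw [e1, e2, ← hτc, hτ, ofReal_measureReal, ofReal_measureReal, smul_smul, smul_smul,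
      ENNReal.mul_inv_cancel hE0 (measure_ne_top _ _),
      ENNReal.mul_inv_cancel hE1 (measure_ne_top _ _), one_smul, one_smul,
      Measure.restrict_add_restrict_compl hE]
  have htH : (t : SLn p n) ∈ H := hH _ t.2
  have haff := kap_affine hL (t : SLn p n) hτ0.le (by linarith) (hσ1.1 _ htH) (hσ2.1 _ htH) hsum
  have hk1 := hmax σ1 hσ1
  have hk2 := hmax σ2 hσ2
  have hk : κ ≤ kap L (t : SLn p n) (σ : Measure X) := hσ.2
  have hk1' : κ ≤ kap L (t : SLn p n) (σ1 : Measure X) := by
    by_contra hc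
    push Not at hc
    have := mul_lt_mul_of_pos_left hc hτ0
    have := mul_le_mul_of_nonneg_left hk2 hτc0.le
    nlinarith
  have hk2' : κ ≤ kap L (t : SLn p n) (σ2 : Measure X) := by
    by_contra hc
    push Not at hc
    have := mul_lt_mul_of_pos_left hc hτc0
    have := mul_le_mul_of_nonneg_left hk1 hτ0.le
    nlinarith
  have heq := hΦ σ σ1 σ2 τ hτ0 (by linarith) hsum (hσmax' _ ⟨hσ1, hk1'⟩) (hσmax' _ ⟨hσ2, hk2'⟩)
  have h1 : (σ1 : Measure X) Eᶜ = 0 := by
    rw [e1, Measure.smul_apply, Measure.restrict_apply hE.compl, Set.compl_inter_self,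
      measure_empty, smul_zero]
  have h2 : (σ2 : Measure X) Eᶜ = 1 := by
    rw [e2, Measure.smul_apply, Measure.restrict_apply_self, smul_eq_mul,
      ENNReal.inv_mul_cancel hE1 (measure_ne_top _ _)]
  rw [heq, h2] at h1
  exact one_ne_zero h1

end Pool.Agent.H23.DM
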