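import Mathlib
import Pool.Agent.H23.DM.Er2

/-!
MODULE Av5 (MP_d9606f_gt, (S3)).  From `U_I`-invariant measures to `B`-invariant ones.

`r : Fin n → ℕ` injective with `r i < r j` for `i ∈ I`, `j ∉ I` (the indices of `I` come first).
`w = ± aI I`: `dg p w` commutes with `EE h x` if both or none of the two indices are in `I`.
Call `(i, j)` a Levi root if `i < j` (use `r i < r j`) and `i ∈ I ↔ j ∈ I`; its height is the number
of `k` with `r i < r k ≤ r j`, or choose `r` with values `0..n-1` and take `r j - r i`.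
`N_d` := the set of the `dg p w`-invariant `σ` with `c ≤ kap L (dg p w) σ`, `UI σ I` and invariant
under all Levi roots of height `≥ d`, where `c = kap L (dg p w) μ > 0`: closed, convex
(`isClosed_kap`, `isClosed_inv`, ..).  `N_n ∋ μ`.  Given `N_(d+1) ≠ ∅` apply `MK` to the maps
`EE h x`, `h` a Levi root of height `d`: they map `N_(d+1)` to itself (the commutator of `EE` of height
`d` with one of height `≥ d+1`, or with `U_I`, is an `EE` of larger height, resp. in `U_I`:
`EE_heis`, `kap_psh`) and their push-forwards commute on `N_(d+1)`.  So `N_1 ≠ ∅`; `MK` for `AA` on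
`N_1`.  The result projects to `h` (`unique_measure`), `exists_max` with
`H = AA ∪ {EE h x | r i < r j}`, then `A`-ergodic by `mautner`.
-/

open MeasureTheory Filter Matrix
open scoped Topology ENNReal

namespace Pool.Agent.H23.DM

open Pool.Agent.H73.PZ

variable {p : ℕ} [Fact p.Prime] {n : ℕ} {F : Type} [TopologicalSpace F] [CompactSpace F]
  [T2Space F] [SecondCountableTopology F] [MeasurableSpace F] [BorelSpace F]
  [MulAction (SLn p n) F] [ContinuousSMul (SLn p n) F]
  {X : Type} [TopologicalSpace X] [CompactSpace X]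
  [T2Space X] [SecondCountableTopology X] [MeasurableSpace X] [BorelSpace X]
  [MulAction (SLn p n) X] [ContinuousSMul (SLn p n) X] {L : SLn p n → X → ℝ}

private theorem Av5_map_mul (g u : SLn p n) (ν : Measure X) :
    Measure.map (fun y : X => g • y) (Measure.map (fun y : X => u • y) ν) =
      Measure.map (fun y : X => (g * u) • y) ν := by
  rw [Measure.map_map (continuous_const_smul g).measurable (continuous_const_smul u).measurable]
  congr 1
  funext y
  simp only [Function.comp_apply, mul_smul]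

private theorem Av5_inv_mul {g u : SLn p n} {ν : ProbabilityMeasure X}
    (hg : Inv1 (fun y : X => g • y) ν) (hu : Inv1 (fun y : X => u • y) ν) :
    Inv1 (fun y : X => (g * u) • y) ν := by
  refine ⟨(continuous_const_smul (g * u)).measurable, ?_⟩
  rw [← Av5_map_mul, hu.map_eq, hg.map_eq]

private theorem Av5_inv_one (ν : ProbabilityMeasure X) :
    Inv1 (fun y : X => (1 : SLn p n) • y) ν := by
  have e : (fun y : X => (1 : SLn p n) • y) = id := by
    funext y
    simp
  unfold Inv1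
  rw [e]
  exact MeasurePreserving.id _

/-- Invariance of a push-forward. -/
private theorem Av5_inv_psh {g u g' : SLn p n} (e : g * u = u * g') {ν : ProbabilityMeasure X}
    (hν : Inv1 (fun y : X => g' • y) ν) :
    Inv1 (fun y : X => g • y) (psh (fun y : X => u • y) (continuous_const_smul u) ν) := by
  refine ⟨(continuous_const_smul g).measurable, ?_⟩
  show Measure.map (fun y : X => g • y) (Measure.map (fun y : X => u • y) (ν : Measure X)) =
    Measure.map (fun y : X => u • y) (ν : Measure X)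
  rw [Av5_map_mul, e, ← Av5_map_mul, hν.map_eq]

/-- Push-forwards that commute on a measure. -/
private theorem Av5_psh_comm {g u g' : SLn p n} (e : g * u = u * g * g') {ν : ProbabilityMeasure X}
    (hν : Inv1 (fun y : X => g' • y) ν) :
    psh (fun y : X => g • y) (continuous_const_smul g)
        (psh (fun y : X => u • y) (continuous_const_smul u) ν) =
      psh (fun y : X => u • y) (continuous_const_smul u)
        (psh (fun y : X => g • y) (continuous_const_smul g) ν) := by
  refine Subtype.ext ?_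
  show Measure.map (fun y : X => g • y) (Measure.map (fun y : X => u • y) (ν : Measure X)) =
    Measure.map (fun y : X => u • y) (Measure.map (fun y : X => g • y) (ν : Measure X))
  rw [Av5_map_mul, e, ← Av5_map_mul, hν.map_eq, ← Av5_map_mul]

private theorem Av5_EE_comm {i j k l : Fin n} (hij : i ≠ j) (hkl : k ≠ l) (hjk : j ≠ k)
    (hli : l ≠ i) (x y : ℚ_[p]) :
    (EE hkl y : SLn p n) * EE hij x = EE hij x * EE hkl y := by
  apply Subtype.ext
  simp only [Matrix.SpecialLinearGroup.coe_mul, Matrix.SpecialLinearGroup.transvection_coe,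
    mul_add, add_mul, mul_one, one_mul,
    Matrix.single_mul_single_of_ne _ _ _ _ hjk, Matrix.single_mul_single_of_ne _ _ _ _ hli,
    add_zero]
  abel

private theorem Av5_EE_zero {i j : Fin n} (hij : i ≠ j) : (EE hij (0 : ℚ_[p]) : SLn p n) = 1 := by
  apply Subtype.ext
  simp

/-- The roots of `U_I` and the positive Levi roots of height at least `d`. -/
private def Av5_S (I : Set (Fin n)) (d : ℕ) (i j : Fin n) : Prop :=
  (i ∈ I ∧ j ∉ I) ∨ ((i ∈ I ↔ j ∈ I) ∧ i < j ∧ (i : ℕ) + d ≤ j)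

private theorem Av5_comm {I : Set (Fin n)} {d : ℕ} {ν : ProbabilityMeasure X}
    (hν : ∀ (i j : Fin n) (h : i ≠ j), Av5_S I (d + 1) i j → ∀ x : ℚ_[p],
      Inv1 (fun y : X => EE h x • y) ν)
    {i j k l : Fin n} (hij : i ≠ j) (hL : (i ∈ I ↔ j ∈ I) ∧ i < j) (hkl : k ≠ l)
    (hS : Av5_S I d k l) (x y : ℚ_[p]) :
    ∃ g : SLn p n, EE hkl y * EE hij x = EE hij x * EE hkl y * g ∧ Inv1 (fun y : X => g • y) ν := by
  obtain ⟨hcl, hlt⟩ := hL
  have hlt' : (i : ℕ) < j := hlt
  by_cases h1 : j = k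
  · subst h1
    have hil : i ≠ l := by
      rcases hS with ⟨ha, hb⟩ | ⟨_, hb, _⟩
      · rintro rfl
        exact hb (hcl.2 ha)
      · exact (hlt.trans hb).ne
    have hT : Av5_S I (d + 1) i l := by
      rcases hS with ⟨ha, hb⟩ | ⟨hc, hb, hd⟩
      · exact Or.inl ⟨hcl.2 ha, hb⟩
      · exact Or.inr ⟨hcl.trans hc, hlt.trans hb, by omega⟩
    refine ⟨EE hil (-(x * y)), ?_, hν i l hil hT _⟩
    rw [EE_heis hij hkl hil x y, mul_assoc, ← EE_add, add_neg_cancel, Av5_EE_zero, mul_one]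
  · by_cases h2 : l = i
    · subst h2
      have hkj : k ≠ j := fun h => h1 h.symm
      have hT : Av5_S I (d + 1) k j := by
        rcases hS with ⟨ha, hb⟩ | ⟨hc, hb, hd⟩
        · exact Or.inl ⟨ha, fun h => hb (hcl.2 h)⟩
        · exact Or.inr ⟨hc.trans hcl, hb.trans hlt, by omega⟩
      exact ⟨EE hkj (y * x), EE_heis hkl hij hkj y x, hν k j hkj hT _⟩
    · refine ⟨1, ?_, Av5_inv_one ν⟩
      rw [mul_one]
      exact Av5_EE_comm hij hkl h1 h2 x y

/-- The sets `N_d`. -/
private def Av5_N (L : SLn p n → X → ℝ) (I : Set (Fin n)) (w : SLn p n) (c : ℝ) (d : ℕ) :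
    Set (ProbabilityMeasure X) :=
  {σ | Inv1 (fun y : X => w • y) σ ∧ c ≤ kap L w (σ : Measure X) ∧
    ∀ (i j : Fin n) (h : i ≠ j), Av5_S I d i j → ∀ x : ℚ_[p], Inv1 (fun y : X => EE h x • y) σ}

private theorem Av5_closed (hL : Sub1 L) (I : Set (Fin n)) (w : SLn p n) (c : ℝ) (d : ℕ) :
    IsClosed (Av5_N (X := X) L I w c d) := by
  have e : Av5_N (X := X) L I w c d = {σ | Inv1 (fun y : X => w • y) σ} ∩
      ({σ : ProbabilityMeasure X | c ≤ kap L w (σ : Measure X)} ∩
        ⋂ (i : Fin n) (j : Fin n) (h : i ≠ j) (_ : Av5_S I d i j) (x : ℚ_[p]),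
          {σ | Inv1 (fun y : X => EE h x • y) σ}) := by
    ext σ
    simp only [Av5_N, Set.mem_inter_iff, Set.mem_iInter, Set.mem_ofPred_eq]
  rw [e]
  refine (isClosed_inv (continuous_const_smul w)).inter ((isClosed_kap hL w c).inter ?_)
  refine isClosed_iInter fun i => isClosed_iInter fun j => isClosed_iInter fun h =>
    isClosed_iInter fun _ => isClosed_iInter fun x => ?_
  exact isClosed_inv (continuous_const_smul _)

private theorem Av5_cvx (hL : Sub1 L) (I : Set (Fin n)) (w : SLn p n) (c : ℝ) (d : ℕ) :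
    Cvx (Av5_N (X := X) L I w c d) := by
  intro ν ν' σ t h h' ht hσ
  refine ⟨cvx_inv (continuous_const_smul w) ν ν' σ t h.1 h'.1 ht hσ,
    cvx_kap hL w c ν ν' σ t h.2.1 h'.2.1 ht hσ, fun i j hij hS x => ?_⟩
  exact cvx_inv (continuous_const_smul (EE hij x : SLn p n)) ν ν' σ t (h.2.2 i j hij hS x)
    (h'.2.2 i j hij hS x) ht hσ

private theorem Av5_step (hL : Sub1 L) {I : Set (Fin n)} {w : SLn p n} {c : ℝ}
    (hw : ∀ (i j : Fin n) (hij : i ≠ j), (i ∈ I ↔ j ∈ I) → ∀ x : ℚ_[p],
      w * EE hij x = EE hij x * w) {d : ℕ} (hd : 1 ≤ d)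
    (hne : (Av5_N (X := X) L I w c (d + 1)).Nonempty) : (Av5_N (X := X) L I w c d).Nonempty := by
  have key : ∃ σ ∈ Av5_N (X := X) L I w c (d + 1),
      ∀ q : {q : Fin n × Fin n × ℚ_[p] // (q.1 ∈ I ↔ q.2.1 ∈ I) ∧ q.1 < q.2.1 ∧
        (q.1 : ℕ) + d = q.2.1}, Inv1 (fun y : X => (EE (q.2.2.1.ne) q.1.2.2 : SLn p n) • y) σ := by
    refine MK hne (Av5_closed hL I w c (d + 1)) (Av5_cvx hL I w c (d + 1))
      (I := {q : Fin n × Fin n × ℚ_[p] // (q.1 ∈ I ↔ q.2.1 ∈ I) ∧ q.1 < q.2.1 ∧
        (q.1 : ℕ) + d = q.2.1})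
      (fun q y => (EE (q.2.2.1.ne) q.1.2.2 : SLn p n) • y)
      (fun q => continuous_const_smul _) ?_ ?_
    · rintro ⟨⟨i, j, x⟩, hc, hlt, hle⟩ ν hν
      have hij : i ≠ j := hlt.ne
      refine ⟨?_, ?_, fun k l hkl hS y => ?_⟩
      · exact Av5_inv_psh (hw i j hij hc x) hν.1
      · exact (kap_psh hL (hw i j hij hc x) ν hν.1).symm ▸ hν.2.1
      · have hS' : Av5_S I d k l := by
          rcases hS with hS | ⟨h1, h2, h3⟩
          · exact Or.inl hS
          · exact Or.inr ⟨h1, h2, by omega⟩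
        obtain ⟨g, hg, hgi⟩ := Av5_comm hν.2.2 hij ⟨hc, hlt⟩ hkl hS' x y
        rw [mul_assoc] at hg
        exact Av5_inv_psh hg (Av5_inv_mul (hν.2.2 k l hkl hS y) hgi)
    · rintro ⟨⟨k, l, y⟩, hc', hlt', hle'⟩ ⟨⟨i, j, x⟩, hc, hlt, hle⟩ ν hν
      have hij : i ≠ j := hlt.ne
      have hkl : k ≠ l := hlt'.ne
      obtain ⟨g, hg, hgi⟩ := Av5_comm hν.2.2 hij ⟨hc, hlt⟩ hkl
        (Or.inr ⟨hc', hlt', hle'.le⟩) x y
      exact Av5_psh_comm hg hgi
  obtain ⟨σ, hσ, hinv⟩ := key
  refine ⟨σ, hσ.1, hσ.2.1, fun i j hij hS x => ?_⟩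
  rcases hS with hS | ⟨hc, hlt, hle⟩
  · exact hσ.2.2 i j hij (Or.inl hS) x
  · rcases Nat.lt_or_ge ((i : ℕ) + d) j with h | h
    · exact hσ.2.2 i j hij (Or.inr ⟨hc, hlt, by omega⟩) x
    · have he : (i : ℕ) + d = j := by omega
      exact hinv ⟨(i, j, x), hc, hlt, he⟩

private theorem Av5_N_one (hL : Sub1 L) {I : Set (Fin n)} {w : SLn p n} {c : ℝ}
    (hw : ∀ (i j : Fin n) (hij : i ≠ j), (i ∈ I ↔ j ∈ I) → ∀ x : ℚ_[p],
      w * EE hij x = EE hij x * w)
    (hne : (Av5_N (X := X) L I w c n).Nonempty) (hn : 1 ≤ n) :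
    (Av5_N (X := X) L I w c 1).Nonempty := by
  have h : ∀ k : ℕ, k + 1 ≤ n → (Av5_N (X := X) L I w c (n - k)).Nonempty := by
    intro k
    induction k with
    | zero => intro _; simpa using hne
    | succ k ih =>
      intro hk
      have h1 := ih (by omega)
      have e : n - k = (n - (k + 1)) + 1 := by omega
      rw [e] at h1
      exact Av5_step hL hw (by omega) h1
  have := h (n - 1) (by omega)
  have e : n - (n - 1) = 1 := by omega
  rwa [e] at this

private theorem Av5_A (hL : Sub1 L) {I : Set (Fin n)} {w : SLn p n} (hwA : w ∈ AA p n) {c : ℝ}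
    {d : ℕ} (hne : (Av5_N (X := X) L I w c d).Nonempty) :
    ∃ σ ∈ Av5_N (X := X) L I w c d, ∀ a : AA p n, Inv1 (fun y : X => (a : SLn p n) • y) σ := by
  refine MK hne (Av5_closed hL I w c d) (Av5_cvx hL I w c d) (I := AA p n)
    (fun a y => (a : SLn p n) • y) (fun a => continuous_const_smul _) ?_ ?_
  · rintro ⟨a, ha⟩ ν hν
    have hc : w * a = a * w := AA_comm hwA ha
    refine ⟨Av5_inv_psh hc hν.1, (kap_psh hL hc ν hν.1).symm ▸ hν.2.1, fun k l hkl hS y => ?_⟩
    obtain ⟨b, hb, rfl⟩ := ha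
    have hne : (p : ℚ_[p]) ^ (b k - b l) ≠ 0 := zpow_ne_zero _ pne
    have e := dg_conj (p := p) hb hkl (((p : ℚ_[p]) ^ (b k - b l))⁻¹ * y)
    rw [mul_inv_cancel_left₀ hne] at e
    exact Av5_inv_psh e.symm (hν.2.2 k l hkl hS _)
  · rintro ⟨a, ha⟩ ⟨b, hb⟩ ν hν
    refine Av5_psh_comm (g' := 1) ?_ (Av5_inv_one ν)
    rw [mul_one]
    exact AA_comm ha hb

theorem exists_B (hn : 2 ≤ n) {h : Measure F} (hF : HSp p n F h) (hL : Sub1 L)
    {q : X → F} (hq : Continuous q) (hqe : ∀ (g : SLn p n) (x : X), q (g • x) = g • q x)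
    {I : Set (Fin n)} (hI : I.Nonempty) (hI' : Iᶜ.Nonempty)
    (μ : ProbabilityMeasure X) (hA : AInv p n (μ : Measure X)) (hU : UI p (μ : Measure X) I)
    (w : AA p n) (hw : ∀ (i j : Fin n) (hij : i ≠ j), (i ∈ I ↔ j ∈ I) → ∀ x : ℚ_[p],
      (w : SLn p n) * EE hij x = EE hij x * (w : SLn p n))
    (hpos : 0 < kap L (w : SLn p n) (μ : Measure X)) :
    ∃ r : Fin n → ℕ, Function.Injective r ∧ ∃ μ' : Measure X, Sys (AA p n) X μ' ∧
      μ'.map q = h ∧ (∀ (i j : Fin n) (hij : i ≠ j), r i < r j → UInv p μ' hij) ∧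
      0 < kap L (w : SLn p n) μ' := by
  classical
  obtain ⟨r, hr⟩ : ∃ r : Fin n → ℕ, r = fun i => if i ∈ I then (i : ℕ) else n + i := ⟨_, rfl⟩
  have hrS : ∀ i j : Fin n, r i < r j → Av5_S I 1 i j := by
    intro i j hlt
    rw [hr] at hlt
    simp only at hlt
    have hi := i.2
    have hj := j.2
    by_cases h1 : i ∈ I
    · by_cases h2 : j ∈ I
      · rw [if_pos h1, if_pos h2] at hlt
        exact Or.inr ⟨iff_of_true h1 h2, hlt, by omega⟩
      · exact Or.inl ⟨h1, h2⟩
    · by_cases h2 : j ∈ I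
      · rw [if_neg h1, if_pos h2] at hlt
        omega
      · rw [if_neg h1, if_neg h2] at hlt
        exact Or.inr ⟨iff_of_false h1 h2, by
          rw [Fin.lt_def]
          omega, by omega⟩
  refine ⟨r, ?_, ?_⟩
  · intro i j hij
    rw [hr] at hij
    simp only at hij
    have hi := i.2
    have hj := j.2
    by_cases h1 : i ∈ I
    · by_cases h2 : j ∈ I
      · rw [if_pos h1, if_pos h2] at hij
        exact Fin.ext hij
      · rw [if_pos h1, if_neg h2] at hij
        omega
    · by_cases h2 : j ∈ I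
      · rw [if_neg h1, if_pos h2] at hij
        omega
      · rw [if_neg h1, if_neg h2] at hij
        exact Fin.ext (by omega)
  have hne : (Av5_N (X := X) L I (w : SLn p n) (kap L (w : SLn p n) (μ : Measure X)) n).Nonempty := by
    refine ⟨μ, hA w, le_rfl, fun i j hij hS x => ?_⟩
    rcases hS with ⟨h1, h2⟩ | ⟨_, _, h3⟩
    · exact hU i j hij h1 h2 x
    · have := j.2
      omega
  obtain ⟨σ, hσ, hσA⟩ := Av5_A hL w.2 (Av5_N_one hL hw hne (by omega))
  have hqm : Measurable q := hq.measurable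
  -- the projection is Haar measure
  have hproj : ∀ g : SLn p n, Inv1 (fun y : X => g • y) σ →
      MeasurePreserving (fun f : F => g • f) ((σ : Measure X).map q) ((σ : Measure X).map q) := by
    intro g hg
    refine ⟨(continuous_const_smul g).measurable, ?_⟩
    rw [Measure.map_map (continuous_const_smul g).measurable hqm]
    have e : (fun f : F => g • f) ∘ q = q ∘ fun y : X => g • y := by
      funext y
      simp only [Function.comp_apply, hqe]
    rw [e, ← Measure.map_map hqm (continuous_const_smul g).measurable, hg.map_eq]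
  have hprob : IsProbabilityMeasure ((σ : Measure X).map q) :=
    Measure.isProbabilityMeasure_map hqm.aemeasurable
  have hmap : (σ : Measure X).map q = h := by
    refine unique_measure hn hF hI hI' ((σ : Measure X).map q) (fun a => hproj _ (hσA a)) ?_
    intro i j hij h1 h2 x
    exact hproj _ (hσ.2.2 i j hij (Or.inl ⟨h1, h2⟩) x)
  -- an ergodic one
  obtain ⟨τ, hτ, hτq, hτk, hτe⟩ := exists_max hn hF hL hq hqe
    {g : SLn p n | g ∈ AA p n ∨ ∃ (i j : Fin n) (hij : i ≠ j) (x : ℚ_[p]), r i < r j ∧ g = EE hij x}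
    (fun g hg => Or.inl hg) w
    ⟨σ, by
      rintro g (hg | ⟨i, j, hij, x, hlt, rfl⟩)
      · exact hσA ⟨g, hg⟩
      · exact hσ.2.2 i j hij (hrS i j hlt) x, hmap, lt_of_lt_of_le hpos hσ.2.1⟩
  have hτU : ∀ (i j : Fin n) (hij : i ≠ j), r i < r j → UInv p (τ : Measure X) hij :=
    fun i j hij hlt x => hτ _ (Or.inr ⟨i, j, hij, x, hlt, rfl⟩)
  have hτA : ∀ a : AA p n, MeasurePreserving (fun x : X => a • x) (τ : Measure X) (τ : Measure X) :=
    fun a => hτ _ (Or.inl a.2)
  refine ⟨(τ : Measure X), ⟨inferInstance, hτA, fun E hE hEa => ?_⟩, hτq, hτU, hτk⟩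
  refine hτe E hE ?_
  rintro g (hg | ⟨i, j, hij, x, hlt, rfl⟩)
  · exact hEa ⟨g, hg⟩
  · have hte : te i j i ≠ te i j j := by
      unfold te
      simp [hij, hij.symm]
    exact mautner (τ : Measure X) hij (hτU i j hij hlt) (sum_te i j) hte
      (hτA (mkA p (te i j) (sum_te i j))) hE (hEa (mkA p (te i j) (sum_te i j))) x

end Pool.Agent.H23.DM
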