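import Mathlib
import Pool.Agent.H23.DM.Kp1
import Pool.Agent.H73.PZ.G4

/-!
MODULE Gr1 (MP_d9606f_gt, Part 1.1 in kappa form).  Slow growth on `A` gives slow growth on `G`.

* For `t ∈ AA` and `c > 0`: with `T ≥ 1` from `hA` write `S = q T + r`: `L (t^S) x ≤ q c T + C_r`
  (`sub`, induction on `q`), so `L (t^S) x ≤ c S + C` for all `S`, `x`.
* `∑ a_i = 0`, `i₀ = 0`: `dg p a = ∏_{i ≠ i₀} (dg p (te i₀ i))^(a_i)` (integer powers, use
  `te i i₀` for negative exponents), so `L (dg p a) x ≤ c ∑ |a_i| + n C ≤ c n max |a_i| + n C`.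
* `size (dg p a) ≥ p ^ (max |a_i|)` (entries of the matrix and of its inverse), so
  `max |a_i| ≤ log (size (dg p a)) / log p`.
* `cartan`: `g = k (dg p a) k'`; `L` is bounded above on `KK × X` (compact: `isCompact_KK`),
  `size (dg p a) ≤ size g` (`size_mul_le`, `size k ≤ 1`).  `c = ε log p / n`.
-/

open MeasureTheory Filter Matrix
open scoped Topology ENNReal

namespace Pool.Agent.H23.DM

open Pool.Agent.H73.PZ

variable {p : ℕ} [Fact p.Prime] {n : ℕ} {Y : Type} [TopologicalSpace Y] [CompactSpace Y]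
  [MulAction (SLn p n) Y] [ContinuousSMul (SLn p n) Y] {L : SLn p n → Y → ℝ}

omit [ContinuousSMul (SLn p n) Y] in
private theorem gr1_bdd (hL : Sub1 L) (g : SLn p n) : ∃ C : ℝ, 0 ≤ C ∧ ∀ y, L g y ≤ C := by
  have hc : Continuous fun y : Y => L g y :=
    hL.cont.comp (by fun_prop : Continuous fun y : Y => ((g, y) : SLn p n × Y))
  obtain ⟨C, hC⟩ := (isCompact_univ (X := Y)).bddAbove_image hc.continuousOn
  refine ⟨max C 0, le_max_right _ _, fun y => (hC ⟨y, Set.mem_univ y, rfl⟩).trans (le_max_left _ _)⟩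

omit [ContinuousSMul (SLn p n) Y] in
/-- slow growth of the powers of one element -/
private theorem gr1_pow (hL : Sub1 L) {t : SLn p n} {c : ℝ} (hc : 0 < c)
    (h : ∃ T : ℕ, 1 ≤ T ∧ ∀ y : Y, L (t ^ T) y < c * T) :
    ∃ C : ℝ, 0 ≤ C ∧ ∀ (S : ℕ) (y : Y), L (t ^ S) y ≤ c * S + C := by
  obtain ⟨T, hT, hlt⟩ := h
  choose D hD0 hD using fun r : ℕ => gr1_bdd hL (t ^ r)
  refine ⟨∑ r ∈ Finset.range T, D r, Finset.sum_nonneg fun r _ => hD0 r, fun S => ?_⟩
  induction S using Nat.strong_induction_on with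
  | _ S ih =>
    intro y
    rcases lt_or_ge S T with h1 | h1
    · have h2 : D S ≤ ∑ r ∈ Finset.range T, D r :=
        Finset.single_le_sum (fun r _ => hD0 r) (Finset.mem_range.2 h1)
      have h3 : 0 ≤ c * S := by positivity
      linarith [hD S y]
    · have e : t ^ S = t ^ (S - T) * t ^ T := by rw [← pow_add, Nat.sub_add_cancel h1]
      have h4 := hL.sub (t ^ (S - T)) (t ^ T) y
      have h5 := ih (S - T) (by omega) (t ^ T • y)
      have h6 := hlt y
      rw [Nat.cast_sub h1] at h5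
      rw [e]
      linarith

private theorem gr1_nsmul {b : Fin n → ℤ} (hb : ∑ i, b i = 0) (k : ℕ) :
    dg p (fun j => (k : ℤ) * b j) = dg p b ^ k := by
  induction k with
  | zero =>
    rw [pow_zero, ← dg_zero]
    congr 1
    funext j
    simp
  | succ k ih =>
    have h1 : ∑ i, (k : ℤ) * b i = 0 := by rw [← Finset.mul_sum, hb, mul_zero]
    rw [pow_succ, ← ih, ← dg_add h1 hb]
    congr 1
    funext j
    push_cast
    ring

omit [ContinuousSMul (SLn p n) Y] in
private theorem gr1_dir (hL : Sub1 L)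
    (hA : ∀ t : AA p n, ∀ c : ℝ, 0 < c → ∃ T : ℕ, 1 ≤ T ∧ ∀ y : Y, L ((t : SLn p n) ^ T) y < c * T)
    {c : ℝ} (hc : 0 < c) {b : Fin n → ℤ} (hb : ∑ i, b i = 0) :
    ∃ C : ℝ, 0 ≤ C ∧ ∀ (z : ℤ) (y : Y), L (dg p (fun j => z * b j)) y ≤ c * |(z : ℝ)| + C := by
  have hb' : ∑ i, -b i = 0 := by rw [Finset.sum_neg_distrib, hb, neg_zero]
  obtain ⟨C₁, h10, h1⟩ := gr1_pow hL hc (hA (mkA p b hb) c hc)
  obtain ⟨C₂, h20, h2⟩ := gr1_pow hL hc (hA (mkA p (fun i => -b i) hb') c hc)
  refine ⟨max C₁ C₂, h10.trans (le_max_left _ _), fun z y => ?_⟩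
  obtain ⟨k, rfl | rfl⟩ := z.eq_nat_or_neg
  · rw [gr1_nsmul hb, Int.cast_natCast, Nat.abs_cast]
    have h3 := h1 k y
    have h4 : C₁ ≤ max C₁ C₂ := le_max_left _ _
    exact h3.trans (by linarith)
  · have e : (fun j => -(k : ℤ) * b j) = fun j => (k : ℤ) * (-b j) := by
      funext j
      ring
    rw [e, gr1_nsmul hb', Int.cast_neg, abs_neg, Int.cast_natCast, Nat.abs_cast]
    have h3 := h2 k y
    have h4 : C₂ ≤ max C₁ C₂ := le_max_right _ _
    exact h3.trans (by linarith)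

private theorem gr1_te (i₀ : Fin n) {a : Fin n → ℤ} (ha : ∑ i, a i = 0) (j : Fin n) :
    ∑ i, a i * te i₀ i j = a j := by
  unfold te
  simp only [mul_sub, Finset.sum_sub_distrib, mul_ite, mul_one, mul_zero]
  rw [Finset.sum_ite_eq Finset.univ j a, if_pos (Finset.mem_univ j)]
  split_ifs with h
  · rw [ha, sub_zero]
  · rw [Finset.sum_const_zero, sub_zero]

omit [ContinuousSMul (SLn p n) Y] in
/-- slow growth on the diagonal group, uniformly -/
private theorem gr1_diag (hn : 2 ≤ n) (hL : Sub1 L)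
    (hA : ∀ t : AA p n, ∀ c : ℝ, 0 < c → ∃ T : ℕ, 1 ≤ T ∧ ∀ y : Y, L ((t : SLn p n) ^ T) y < c * T)
    {c : ℝ} (hc : 0 < c) :
    ∃ C : ℝ, ∀ a : Fin n → ℤ, ∑ i, a i = 0 → ∀ y : Y,
      L (dg p a) y ≤ c * ∑ i, |(a i : ℝ)| + C := by
  have i₀ : Fin n := ⟨0, by omega⟩
  choose D hD0 hD using fun i : Fin n => gr1_dir hL hA hc (sum_te i₀ i)
  obtain ⟨C₀, _, hC₀⟩ := gr1_bdd (Y := Y) hL 1
  have key : ∀ (a : Fin n → ℤ) (s : Finset (Fin n)) (y : Y),
      L (dg p (fun j => ∑ i ∈ s, a i * te i₀ i j)) y ≤ C₀ + ∑ i ∈ s, (c * |(a i : ℝ)| + D i) := by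
    intro a s
    induction s using Finset.induction_on with
    | empty =>
      intro y
      simp only [Finset.sum_empty, add_zero]
      rw [dg_zero]
      exact hC₀ y
    | insert i s hi ih =>
      intro y
      have h1 : ∑ j, a i * te i₀ i j = 0 := by rw [← Finset.mul_sum, sum_te, mul_zero]
      have h2 : ∑ j, ∑ k ∈ s, a k * te i₀ k j = 0 := by
        rw [Finset.sum_comm]
        exact Finset.sum_eq_zero fun k _ => by rw [← Finset.mul_sum, sum_te, mul_zero]
      have e : (fun j => ∑ k ∈ insert i s, a k * te i₀ k j) =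
          fun j => a i * te i₀ i j + ∑ k ∈ s, a k * te i₀ k j := by
        funext j
        rw [Finset.sum_insert hi]
      rw [e, dg_add h1 h2, Finset.sum_insert hi]
      have h3 := hL.sub (dg p fun j => a i * te i₀ i j)
        (dg p fun j => ∑ k ∈ s, a k * te i₀ k j) y
      have h4 := hD i (a i) ((dg p fun j => ∑ k ∈ s, a k * te i₀ k j) • y)
      have h5 := ih y
      linarith
  refine ⟨C₀ + ∑ i, D i, fun a ha y => ?_⟩
  have h := key a Finset.univ y
  have e : (fun j => ∑ i, a i * te i₀ i j) = a := funext fun j => gr1_te i₀ ha j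
  rw [e, Finset.sum_add_distrib, ← Finset.mul_sum] at h
  linarith

private theorem gr1_size {a : Fin n → ℤ} (ha : ∑ i, a i = 0) (i : Fin n) :
    |(a i : ℝ)| * Real.log p ≤ Real.log (size (dg p a)) := by
  have hp0 : (0 : ℝ) < p := by exact_mod_cast (Fact.out : p.Prime).pos
  have hb : ∑ i, -a i = 0 := by rw [Finset.sum_neg_distrib, ha, neg_zero]
  have h1 := norm_le_size (dg p a) i i
  have h2 := norm_inv_le_size (dg p a) i i
  rw [dg_coe ha, Matrix.diagonal_apply_eq, norm_p_zpow] at h1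
  rw [← dg_neg ha, dg_coe hb, Matrix.diagonal_apply_eq, norm_p_zpow, neg_neg] at h2
  have h3 := Real.log_le_log (by positivity) h1
  have h4 := Real.log_le_log (by positivity) h2
  rw [Real.log_zpow] at h3 h4
  push_cast at h3
  rcases abs_choice (a i : ℝ) with h | h
  · rw [h]
    exact h4
  · rw [h]
    exact h3

theorem growth_all (hn : 2 ≤ n) (hL : Sub1 L)
    (hA : ∀ t : AA p n, ∀ c : ℝ, 0 < c → ∃ T : ℕ, 1 ≤ T ∧ ∀ y : Y, L ((t : SLn p n) ^ T) y < c * T) :
    ∀ ε : ℝ, 0 < ε → ∃ C : ℝ, ∀ (g : SLn p n) (y : Y), L g y ≤ ε * Real.log (size g) + C := by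
  intro ε hε
  have hp1 : (1 : ℝ) < p := by exact_mod_cast (Fact.out : p.Prime).one_lt
  have hlp : 0 < Real.log p := Real.log_pos hp1
  have hn0 : (0 : ℝ) < n := by
    have : 0 < n := by omega
    exact_mod_cast this
  obtain ⟨C, hC⟩ := gr1_diag (Y := Y) hn hL hA (c := ε * Real.log p / n) (by positivity)
  obtain ⟨B, hB⟩ := ((isCompact_KK (p := p) (n := n)).prod (isCompact_univ (X := Y))).bddAbove_image
    hL.cont.continuousOn
  have hB' : ∀ k ∈ KK p n, ∀ y : Y, L k y ≤ B := fun k hk y =>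
    hB ⟨(k, y), ⟨hk, Set.mem_univ y⟩, rfl⟩
  refine ⟨B + B + C, fun g y => ?_⟩
  obtain ⟨k, hk, k', hk', a, ha, rfl⟩ := cartan (by omega) g
  have h1 := hL.sub (k * dg p a) k' y
  have h2 := hL.sub k (dg p a) (k' • y)
  have h3 := hB' k hk (dg p a • k' • y)
  have h4 := hB' k' hk' y
  have h5 := hC a ha (k' • y)
  have hs : 0 < size (dg p a) := lt_of_lt_of_le zero_lt_one (one_le_size (by omega) _)
  have h6 : size (dg p a) ≤ size (k * dg p a * k') := by
    have e : dg p a = k⁻¹ * (k * dg p a * k') * k'⁻¹ := by group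
    have h7 := size_mul_le (k⁻¹ * (k * dg p a * k')) k'⁻¹
    have h8 := size_mul_le k⁻¹ (k * dg p a * k')
    rw [← e, size_inv] at h7
    rw [size_inv] at h8
    have h9 : size k ≤ 1 := hk
    have h10 : size k' ≤ 1 := hk'
    have h11 := size_nonneg (k * dg p a * k')
    have h12 := size_nonneg k
    have h13 := size_nonneg k'
    have h14 := size_nonneg (k⁻¹ * (k * dg p a * k'))
    calc size (dg p a) ≤ size (k⁻¹ * (k * dg p a * k')) * size k' := h7
      _ ≤ size (k⁻¹ * (k * dg p a * k')) * 1 := mul_le_mul_of_nonneg_left h10 h14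
      _ ≤ size k * size (k * dg p a * k') := by rw [mul_one]; exact h8
      _ ≤ 1 * size (k * dg p a * k') := mul_le_mul_of_nonneg_right h9 h11
      _ = _ := one_mul _
  have h15 : Real.log (size (dg p a)) ≤ Real.log (size (k * dg p a * k')) := Real.log_le_log hs h6
  have h16 : ε * Real.log p / n * ∑ i, |(a i : ℝ)| ≤ ε * Real.log (size (dg p a)) := by
    have h17 : (∑ i, |(a i : ℝ)|) * Real.log p ≤ n * Real.log (size (dg p a)) := by
      rw [Finset.sum_mul]
      refine (Finset.sum_le_sum fun i _ => gr1_size ha i).trans (le_of_eq ?_)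
      rw [Finset.sum_const, Finset.card_univ, Fintype.card_fin, nsmul_eq_mul]
    have e : ε * Real.log p / n * ∑ i, |(a i : ℝ)| =
        ε * ((∑ i, |(a i : ℝ)|) * Real.log p / n) := by ring
    rw [e]
    refine mul_le_mul_of_nonneg_left ?_ hε.le
    rw [div_le_iff₀ hn0]
    linarith
  have h18 := mul_le_mul_of_nonneg_left h15 hε.le
  linarith

end Pool.Agent.H23.DM
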