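import Mathlib
import Pool.Agent.H23.DM.Er2

/-!
MODULE Pt1 (MP_d9606f_gt, Part 1, assembly).

`exists_start`, `exists_UI` give `ν'` on `X`, invariant under `AA` and `U_I`, `kap L t' ν' > 0`; its
projection to `F` is `h` (`unique_measure`).  `exists_max` with `H = AA ∪ {EE hij x | i ∈ I, j ∉ I}`
gives `σ`, `H`-ergodic.  `A`-ergodic: if `E` is `A`-invariant mod `σ` then by `mautner` (`te i j`) it is
invariant under `EE hij x`, so under `H`.
-/

open MeasureTheory Filter Matrix
open scoped Topology ENNReal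

namespace Pool.Agent.H23.DM

open Pool.Agent.H73.PZ

variable {p : ℕ} [Fact p.Prime] {n : ℕ} {F : Type} [TopologicalSpace F] [CompactSpace F]
  [T2Space F] [SecondCountableTopology F] [MeasurableSpace F] [BorelSpace F]
  [MulAction (SLn p n) F] [ContinuousSMul (SLn p n) F]
  {X : Type} [TopologicalSpace X] [CompactSpace X]
  [T2Space X] [SecondCountableTopology X] [MeasurableSpace X] [BorelSpace X]
  [MulAction (SLn p n) X] [ContinuousSMul (SLn p n) X] {L : SLn p n → X → ℝ}

/-- Push-forward of an invariant measure under an equivariant map. -/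
private theorem Pt1_push {q : X → F} (hq : Continuous q)
    (hqe : ∀ (g : SLn p n) (x : X), q (g • x) = g • q x) (μ : Measure X) (g : SLn p n)
    (hg : MeasurePreserving (fun x : X => g • x) μ μ) :
    MeasurePreserving (fun f : F => g • f) (μ.map q) (μ.map q) := by
  refine ⟨(continuous_const_smul g).measurable, ?_⟩
  rw [Measure.map_map (continuous_const_smul g).measurable hq.measurable]
  have h1 : (fun f : F => g • f) ∘ q = q ∘ fun x : X => g • x := by
    funext x
    exact (hqe g x).symm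
  rw [h1, ← Measure.map_map hq.measurable (continuous_const_smul g).measurable, hg.map_eq]

theorem part1 (hn : 3 ≤ n) {h : Measure F} (hF : HSp p n F h) (hL : Sub1 L)
    {q : X → F} (hq : Continuous q) (hqe : ∀ (g : SLn p n) (x : X), q (g • x) = g • q x)
    (t : AA p n) {c : ℝ} (hc : 0 < c)
    (hgr : ∀ T : ℕ, 1 ≤ T → ∃ x : X, c * T ≤ L ((t : SLn p n) ^ T) x) :
    ∃ I : Set (Fin n), I.Nonempty ∧ Iᶜ.Nonempty ∧ ∃ μ : Measure X,
      Sys (AA p n) X μ ∧ μ.map q = h ∧ UI p μ I ∧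
      ∃ t' : AA p n, 0 < kap L (t' : SLn p n) μ := by
  have hn2 : 2 ≤ n := by omega
  obtain ⟨ν, hA, hν⟩ := exists_start hL t hgr
  obtain ⟨I, hI, hI', ν', hA', hUI, t', ht'⟩ := exists_UI hn hL ν hA t (lt_of_lt_of_le hc hν)
  refine ⟨I, hI, hI', ?_⟩
  have hprob : IsProbabilityMeasure ((ν' : Measure X).map q) :=
    Measure.isProbabilityMeasure_map hq.measurable.aemeasurable
  have hmap : (ν' : Measure X).map q = h := by
    refine unique_measure hn2 hF hI hI' _ (fun a => ?_) fun i j hij hi hj x => ?_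
    · exact Pt1_push hq hqe _ (a : SLn p n) (hA' a)
    · exact Pt1_push hq hqe _ (EE hij x) (hUI i j hij hi hj x)
  obtain ⟨H, hHdef⟩ : ∃ H : Set (SLn p n), H = {g | g ∈ AA p n ∨ ∃ (i j : Fin n) (hij : i ≠ j),
    i ∈ I ∧ j ∉ I ∧ ∃ x : ℚ_[p], g = EE hij x} := ⟨_, rfl⟩
  have hHA : ∀ g ∈ AA p n, g ∈ H := fun g hg => by
    rw [hHdef]
    exact Or.inl hg
  have hHE : ∀ (i j : Fin n) (hij : i ≠ j), i ∈ I → j ∉ I → ∀ x : ℚ_[p], EE hij x ∈ H := by
    intro i j hij hi hj x
    rw [hHdef]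
    exact Or.inr ⟨i, j, hij, hi, hj, x, rfl⟩
  obtain ⟨σ, hσ, hσh, hσk, hσe⟩ := exists_max hn2 hF hL hq hqe H hHA t'
    ⟨ν', fun g hg => by
      rw [hHdef] at hg
      rcases hg with hg | ⟨i, j, hij, hi, hj, x, rfl⟩
      · exact hA' ⟨g, hg⟩
      · exact hUI i j hij hi hj x, hmap, ht'⟩
  have hmp : ∀ a : AA p n, MeasurePreserving (fun x : X => a • x) (σ : Measure X) (σ : Measure X) :=
    fun a => hσ (a : SLn p n) (hHA _ a.2)
  have hUσ : UI p (σ : Measure X) I := fun i j hij hi hj x => hσ _ (hHE i j hij hi hj x)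
  refine ⟨(σ : Measure X), ⟨inferInstance, hmp, fun E hE hEa => hσe E hE fun g hg => ?_⟩, hσh, hUσ,
    t', hσk⟩
  rw [hHdef] at hg
  rcases hg with hg | ⟨i, j, hij, hi, hj, x, rfl⟩
  · exact hEa ⟨g, hg⟩
  · refine mautner (σ : Measure X) hij (hUσ i j hij hi hj) (sum_te i j) ?_
      (hmp (mkA p (te i j) (sum_te i j))) hE (hEa (mkA p (te i j) (sum_te i j))) x
    unfold te
    rw [if_neg hij, if_pos rfl, if_pos rfl, if_neg (Ne.symm hij)]
    norm_num

end Pool.Agent.H23.DM
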