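import Mathlib
import Pool.Agent.H23.DM.Gsp
import Pool.Agent.H23.DM.Sp2
import Pool.Agent.H73.PZ.G7

/-!
Linear cocycles of `G`, and MODULE Pt3 (MP_d9606f_gt, Part 3.5).

`GC D`: `D g x` is a bounded measurable linear cocycle of `SLn p n` over `X`.  `hG.coc μ h`: its
restriction to `A` as a `Coc`.

`part3`: `μ` is `G`-invariant, and all `A`-equivariant measurable sections are equivariant under the
root groups (`hsec`).  Claim: `Up` for every `a`.  It is enough to treat `a = dg p (te i j)`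
(`Up_mul`, `Up_pow`, `Up_one`: every `a` is a product of powers of such elements).
Suppose `c.Up a` fails; `exists_split`: `S`, `T`, `S ≠ 0` (else `T = D 1` and `Up`), `Dn` on `S`;
`exists_proj`, `proj_equiv`: `πu` is an `A`-equivariant section (multiply: `D b x * πu x =
πu (b x) * D b x`), so equivariant under `u₁ = EE (i,j) 1`, `u₂ = EE (j,i) 1` and their inverses, so
under `w = u₁ u₂⁻¹ u₁`; `w a w⁻¹ = a⁻¹` in `SLn`.  `S.Q x = rp (πu x)` a.e. (`S.Q πu = πu`,
`πu S.Q = S.Q`), so `D w x * S.Q x = S.Q (w x) * D w x * S.Q x`.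
`D (a^t) x S.Q x = D w (..) * [D (a⁻¹^t) (w⁻¹ x) * S.Q (w⁻¹ x)] * D w⁻¹ x * S.Q x`, so `(sub S).Le a⁻¹ (-δ)`
and invariance of `μ` under `w` give `(sub S).Le a (-δ/2)`: `zero_of_Le`: `S.Q = 0`, contradiction.
-/

open MeasureTheory Filter Matrix
open scoped Topology ENNReal

namespace Pool.Agent.H23.DM

open Pool.Agent.H73.PZ

noncomputable section

variable {p : ℕ} [Fact p.Prime] {n : ℕ} {ι X : Type} [Fintype ι] [DecidableEq ι]
  [MeasurableSpace X] [MulAction (SLn p n) X]

/-- A bounded measurable linear cocycle of `SLn p n`. -/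
structure GC (D : SLn p n → X → Matrix ι ι ℝ) : Prop where
  meas : ∀ g, MM (D g)
  bdd : ∀ g, ∃ C : ℝ, ∀ x, fn (D g x) ≤ C
  mul : ∀ g g' x, D (g * g') x = D g (g' • x) * D g' x
  symm : ∀ x, (D 1 x)ᵀ = D 1 x

/-- The restriction of the cocycle to `A`. -/
def GC.coc {D : SLn p n → X → Matrix ι ι ℝ} (hG : GC D) (μ : Measure X) : Coc (AA p n) X ι μ where
  D a x := D (a : SLn p n) x
  meas a := hG.meas a
  bdd a := by
    obtain ⟨C, hC⟩ := hG.bdd (a : SLn p n)
    exact ⟨C, Filter.Eventually.of_forall hC⟩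
  mul a b := Filter.Eventually.of_forall fun x => hG.mul a b x
  symm := Filter.Eventually.of_forall fun x => hG.symm x

private theorem Pt3_smul {D : SLn p n → X → Matrix ι ι ℝ} (hG : GC D) {s : X → Matrix ι ι ℝ}
    {μ : Measure X} {g g' : SLn p n}
    (hg' : MeasurePreserving (fun y : X => g' • y) μ μ)
    (h : ∀ᵐ x ∂μ, D g x * s x = s (g • x) * D g x)
    (h' : ∀ᵐ x ∂μ, D g' x * s x = s (g' • x) * D g' x) :
    ∀ᵐ x ∂μ, D (g * g') x * s x = s ((g * g') • x) * D (g * g') x := by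
  filter_upwards [hg'.quasiMeasurePreserving.ae h, h'] with x h1 h2
  rw [hG.mul, Matrix.mul_assoc, h2, ← Matrix.mul_assoc, h1, Matrix.mul_assoc, mul_smul]

private theorem Pt3_inv {D : SLn p n → X → Matrix ι ι ℝ} (hG : GC D) {s : X → Matrix ι ι ℝ}
    {μ : Measure X} {g : SLn p n}
    (hg' : MeasurePreserving (fun y : X => g⁻¹ • y) μ μ)
    (hs : ∀ᵐ x ∂μ, D 1 x * s x = s x ∧ s x * D 1 x = s x)
    (h : ∀ᵐ x ∂μ, D g x * s x = s (g • x) * D g x) :
    ∀ᵐ x ∂μ, D g⁻¹ x * s x = s (g⁻¹ • x) * D g⁻¹ x := by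
  filter_upwards [hg'.quasiMeasurePreserving.ae h, hg'.quasiMeasurePreserving.ae hs, hs]
    with x h1 h2 h3
  have e1 : g • g⁻¹ • x = x := smul_inv_smul g x
  rw [e1] at h1
  have e2 : D g⁻¹ x * D g (g⁻¹ • x) = D 1 (g⁻¹ • x) := by
    have := hG.mul g⁻¹ g (g⁻¹ • x)
    rw [inv_mul_cancel, e1] at this
    exact this.symm
  have e3 : D g (g⁻¹ • x) * D g⁻¹ x = D 1 x := by
    have := hG.mul g g⁻¹ x
    rw [mul_inv_cancel] at this
    exact this.symm
  calc D g⁻¹ x * s x = D g⁻¹ x * (s x * D 1 x) := by rw [h3.2]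
    _ = D g⁻¹ x * ((s x * D g (g⁻¹ • x)) * D g⁻¹ x) := by rw [← e3, Matrix.mul_assoc (s x)]
    _ = (D g⁻¹ x * D g (g⁻¹ • x)) * s (g⁻¹ • x) * D g⁻¹ x := by
        rw [← h1]
        simp only [Matrix.mul_assoc]
    _ = s (g⁻¹ • x) * D g⁻¹ x := by rw [e2, h2.1]

/-- The Weyl element inverts `te i j`. -/
private theorem Pt3_weyl {i j : Fin n} (hij : i ≠ j) :
    (EE hij (1 : ℚ_[p]) * EE hij.symm (-1) * EE hij 1) * dg p (te i j) =
      (dg p (te i j))⁻¹ * (EE hij (1 : ℚ_[p]) * EE hij.symm (-1) * EE hij 1) := by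
  have hw := EE_weyl (p := p) hij (a := 1) one_ne_zero
  rw [inv_one] at hw
  have hs : ∑ k, -te i j k = 0 := by rw [Finset.sum_neg_distrib, sum_te, neg_zero]
  rw [← dg_neg (sum_te i j)]
  apply Subtype.ext
  rw [Matrix.SpecialLinearGroup.coe_mul _ (dg p (te i j)), Matrix.SpecialLinearGroup.coe_mul (dg p _),
    hw, dg_coe (sum_te i j), dg_coe hs]
  ext k l
  rw [Matrix.mul_diagonal, Matrix.diagonal_mul]
  simp only [Matrix.add_apply, Matrix.sub_apply, Matrix.one_apply, Matrix.single_apply, te]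
  by_cases hki : k = i
  · subst hki
    by_cases hlk : k = l
    · subst hlk
      simp [hij, hij.symm]
    · by_cases hlj : j = l
      · subst hlj
        simp [hij, hij.symm]
      · simp [hij, hij.symm, hlk, hlj]
  · by_cases hkj : k = j
    · subst hkj
      by_cases hlk : k = l
      · subst hlk
        simp [hij, hij.symm]
      · by_cases hli : i = l
        · subst hli
          simp [hij, hij.symm]
        · simp [hij, hij.symm, hlk, hli]
    · by_cases hlk : k = l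
      · subst hlk
        simp [hki, hkj, Ne.symm hki, Ne.symm hkj]
      · simp [hki, hkj, Ne.symm hki, Ne.symm hkj, hlk]

/-- Transfer of a rate through an element conjugating `a` to `a⁻¹`. -/
private theorem Pt3_transfer {D : SLn p n → X → Matrix ι ι ℝ} (hG : GC D) {μ : Measure X}
    (hE : Sys (AA p n) X μ) {w : SLn p n} {a : AA p n}
    (hwm : MeasurePreserving (fun y : X => w • y) μ μ)
    (hwa : w * (a : SLn p n) = (a : SLn p n)⁻¹ * w) (S : (hG.coc μ).Sub)
    {s : X → Matrix ι ι ℝ} (hs : ∀ᵐ x ∂μ, S.Q x * s x = s x ∧ s x * S.Q x = S.Q x)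
    (hw : ∀ᵐ x ∂μ, D w x * s x = s (w • x) * D w x) {δ : ℝ} (hδ : 0 < δ)
    (h : ((hG.coc μ).sub hE S).Le a⁻¹ (-δ)) : ((hG.coc μ).sub hE S).Le a (-(δ / 2)) := by
  obtain ⟨C, hC⟩ := hG.bdd w⁻¹
  obtain ⟨C', hC'⟩ := hG.bdd w
  have hpow : ∀ t : ℕ, (a : SLn p n) ^ t = w⁻¹ * (((a : SLn p n)⁻¹) ^ t * w) := by
    intro t
    have h1 : ∀ t : ℕ, w * (a : SLn p n) ^ t = ((a : SLn p n)⁻¹) ^ t * w := by
      intro t
      induction t with
      | zero => simp
      | succ t ih =>
        rw [pow_succ, ← mul_assoc, ih, mul_assoc, hwa, ← mul_assoc, ← pow_succ]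
    rw [← h1 t, inv_mul_cancel_left]
  -- the bad sets
  have hmeas : ∀ t : ℕ, MeasurableSet {x | Real.exp (-δ * t) <
      fn (((hG.coc μ).sub hE S).D (a⁻¹ ^ t) x)} := fun t =>
    measurableSet_lt measurable_const (MM.fn (((hG.coc μ).sub hE S).meas (a⁻¹ ^ t)))
  have h1 : WP μ fun t => (fun x : X => w • x) ⁻¹' {x | Real.exp (-δ * t) <
      fn (((hG.coc μ).sub hE S).D (a⁻¹ ^ t) x)} := by
    refine WP.mono h (Eventually.of_forall fun t => le_of_eq ?_)
    exact hwm.measure_preimage (hmeas t).nullMeasurableSet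
  have h2 : WP μ fun _ : ℕ => (∅ : Set X) := by
    unfold WP
    simp
  have hev : ∀ᶠ t : ℕ in atTop, (max C 0 + 1) * (max C' 0 + 1) * Real.exp (-(δ / 2) * t) ≤ 1 := by
    have h3 : Tendsto (fun t : ℕ => Real.exp (-(δ / 2) * t)) atTop (𝓝 0) := by
      have h4 : Tendsto (fun t : ℕ => δ / 2 * (t : ℝ)) atTop atTop :=
        tendsto_natCast_atTop_atTop.const_mul_atTop (half_pos hδ)
      have h5 := Real.tendsto_exp_neg_atTop_nhds_zero.comp h4
      refine h5.congr fun t => ?_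
      simp only [Function.comp, neg_mul]
    have h4 := h3.const_mul ((max C 0 + 1) * (max C' 0 + 1))
    rw [mul_zero] at h4
    exact h4.eventually_le_const zero_lt_one
  refine WP.union h1 h2 ?_
  filter_upwards [hev] with t ht
  refine measure_eq_zero_iff_ae_notMem.2 ?_
  filter_upwards [hs, hw, hwm.quasiMeasurePreserving.ae hs, S.symm, S.idem] with x x1 x2 x3 x4 x5
  rintro ⟨y1, y2⟩
  have y3 : fn (D ((a : SLn p n)⁻¹ ^ t) (w • x) * S.Q (w • x)) ≤ Real.exp (-δ * t) := by
    by_contra y4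
    exact y2 (Or.inl (not_le.1 y4))
  have e1 : S.Q (w • x) * (D w x * S.Q x) = D w x * S.Q x := by
    have e2 : D w x * S.Q x = s (w • x) * (D w x * S.Q x) := by
      calc D w x * S.Q x = D w x * (s x * S.Q x) := by rw [x1.2]
        _ = (D w x * s x) * S.Q x := by rw [Matrix.mul_assoc]
        _ = s (w • x) * (D w x * S.Q x) := by rw [x2, Matrix.mul_assoc]
    calc S.Q (w • x) * (D w x * S.Q x) = S.Q (w • x) * (s (w • x) * (D w x * S.Q x)) := by rw [← e2]
      _ = (S.Q (w • x) * s (w • x)) * (D w x * S.Q x) := by rw [Matrix.mul_assoc]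
      _ = D w x * S.Q x := by rw [x3.1, ← e2]
  have e3 : D ((a : SLn p n) ^ t) x * S.Q x =
      D w⁻¹ (((a : SLn p n)⁻¹ ^ t * w) • x) *
        ((D ((a : SLn p n)⁻¹ ^ t) (w • x) * S.Q (w • x)) * (D w x * S.Q x)) := by
    rw [hpow t, hG.mul w⁻¹, hG.mul ((a : SLn p n)⁻¹ ^ t) w x]
    rw [Matrix.mul_assoc (D ((a : SLn p n)⁻¹ ^ t) (w • x)) (S.Q (w • x)), e1]
    simp only [Matrix.mul_assoc]
  have hCC : fn (D w⁻¹ (((a : SLn p n)⁻¹ ^ t * w) • x)) ≤ max C 0 + 1 :=
    (hC _).trans ((le_max_left _ _).trans (by linarith))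
  have hCC' : fn (D w x * S.Q x) ≤ max C' 0 + 1 :=
    (fn_mul_proj_le x4 x5 _).trans ((hC' _).trans ((le_max_left _ _).trans (by linarith)))
  have hp1 : (0 : ℝ) ≤ max C 0 + 1 := by positivity
  have hp2 : (0 : ℝ) ≤ max C' 0 + 1 := by positivity
  have e4 : fn (D ((a : SLn p n) ^ t) x * S.Q x) ≤
      (max C 0 + 1) * (Real.exp (-δ * t) * (max C' 0 + 1)) := by
    rw [e3]
    refine (fn_mul_le _ _).trans (mul_le_mul hCC ?_ (fn_nonneg _) hp1)
    exact (fn_mul_le _ _).trans (mul_le_mul y3 hCC' (fn_nonneg _) (Real.exp_pos _).le)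
  have e5 : Real.exp (-δ * t) = Real.exp (-(δ / 2) * t) * Real.exp (-(δ / 2) * t) := by
    rw [← Real.exp_add]
    congr 1
    ring
  have e6 : (max C 0 + 1) * (Real.exp (-δ * t) * (max C' 0 + 1)) ≤ Real.exp (-(δ / 2) * t) := by
    rw [e5]
    have h6 := mul_le_mul_of_nonneg_right ht (Real.exp_pos (-(δ / 2) * t)).le
    rw [one_mul] at h6
    calc _ = (max C 0 + 1) * (max C' 0 + 1) * Real.exp (-(δ / 2) * t) * Real.exp (-(δ / 2) * t) := by
          ring
      _ ≤ _ := h6
  exact absurd y1 (not_lt.2 (e4.trans e6))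

/-- `c.Up` for the element with exponents `b`. -/
private def Pt3U (c : Coc (AA p n) X ι μ) (b : Fin n → ℤ) : Prop :=
  ∀ hb : ∑ i, b i = 0, c.Up (mkA p b hb)

private theorem Pt3U_zero {μ : Measure X} (hE : Sys (AA p n) X μ) (c : Coc (AA p n) X ι μ) :
    Pt3U c (fun _ => 0) := by
  intro hb
  have : mkA p (fun _ : Fin n => (0 : ℤ)) hb = 1 := Subtype.ext dg_zero
  rw [this]
  exact Coc.Up_one hE c

private theorem Pt3U_add {μ : Measure X} (hE : Sys (AA p n) X μ) {c : Coc (AA p n) X ι μ}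
    {b b' : Fin n → ℤ} (hb : ∑ i, b i = 0) (hb' : ∑ i, b' i = 0) (h : Pt3U c b)
    (h' : Pt3U c b') : Pt3U c (fun i => b i + b' i) := by
  intro hs
  have : mkA p (fun i => b i + b' i) hs = mkA p b hb * mkA p b' hb' :=
    Subtype.ext (dg_add hb hb')
  rw [this]
  exact Coc.Up_mul hE (h hb) (h' hb')

private theorem Pt3U_nsmul {μ : Measure X} (hE : Sys (AA p n) X μ) {c : Coc (AA p n) X ι μ}
    {b : Fin n → ℤ} (hb : ∑ i, b i = 0) (h : Pt3U c b) (m : ℕ) :
    Pt3U c (fun i => (m : ℤ) * b i) := by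
  induction m with
  | zero =>
    have e : (fun i => ((0 : ℕ) : ℤ) * b i) = fun _ => 0 := by
      funext i
      simp
    rw [e]
    exact Pt3U_zero hE c
  | succ m ih =>
    have e : (fun i => ((m + 1 : ℕ) : ℤ) * b i) = fun i => (m : ℤ) * b i + b i := by
      funext i
      push_cast
      ring
    rw [e]
    refine Pt3U_add hE ?_ hb ih h
    rw [← Finset.mul_sum, hb, mul_zero]

theorem part3 (hn : 2 ≤ n) {D : SLn p n → X → Matrix ι ι ℝ} (hG : GC D) {μ : Measure X}
    (hE : Sys (AA p n) X μ) (hU : ∀ (i j : Fin n) (hij : i ≠ j), UInv p μ hij)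
    (hsec : ∀ s : X → Matrix ι ι ℝ, MM s →
      (∀ a : AA p n, ∀ᵐ x ∂μ, D (a : SLn p n) x * s x = s (a • x) * D (a : SLn p n) x) →
      ∀ (i j : Fin n) (hij : i ≠ j),
        ∀ᵐ x ∂μ, D (EE hij (1 : ℚ_[p])) x * s x =
          s ((EE hij (1 : ℚ_[p]) : SLn p n) • x) * D (EE hij (1 : ℚ_[p])) x) (a : AA p n) :
    (hG.coc μ).Up a := by
  classical
  set c := hG.coc μ with hc
  -- the coroot elements
  have key : ∀ (i j : Fin n) (hij : i ≠ j), Pt3U c (te i j) := by
    intro i j hij hb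
    set a₀ := mkA p (te i j) hb with ha₀
    obtain ⟨S, T, hD, hS, hT⟩ := Coc.exists_split hE c a₀
    obtain ⟨πu, πc, hmu, hmc, hrel⟩ := Coc.exists_proj hE c hD
    have heq := fun b => Coc.proj_equiv hE c (πu := πu) (πc := πc) (hrel.mono fun x hx => by
      obtain ⟨r1, r2, r3, r4, r5, r6, r7, r8, r9, -, -⟩ := hx
      exact ⟨r1, r2, r3, r4, r5, r6, r7, r8, r9⟩) b
    have hs1 := hsec πu hmu (fun b => (heq b).mono fun x hx => hx.1)
    have hone : ∀ᵐ x ∂μ, D 1 x * πu x = πu x ∧ πu x * D 1 x = πu x := by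
      filter_upwards [hrel, S.le] with x hx hle
      obtain ⟨-, r2, -, -, -, -, -, r8, -, -, -⟩ := hx
      refine ⟨?_, r8⟩
      have h3 : D 1 x * S.Q x = S.Q x := hle
      rw [← r2, ← Matrix.mul_assoc, h3]
    have hinv : ∀ᵐ x ∂μ, D (EE hij.symm (-1 : ℚ_[p])) x * πu x =
        πu ((EE hij.symm (-1 : ℚ_[p]) : SLn p n) • x) * D (EE hij.symm (-1 : ℚ_[p])) x := by
      have h1 := hs1 j i hij.symm
      have h2 : MeasurePreserving (fun y : X => (EE hij.symm (1 : ℚ_[p]))⁻¹ • y) μ μ := by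
        have h3 := hU j i hij.symm (-1)
        rw [← EE_inv hij.symm (1 : ℚ_[p])] at h3
        exact h3
      have h3 := Pt3_inv hG h2 hone h1
      rw [EE_inv hij.symm (1 : ℚ_[p])] at h3
      exact h3
    have m1 : MeasurePreserving (fun y : X => EE hij (1 : ℚ_[p]) • y) μ μ := hU i j hij 1
    have m2 : MeasurePreserving (fun y : X => EE hij.symm (-1 : ℚ_[p]) • y) μ μ :=
      hU j i hij.symm (-1)
    have hw : ∀ᵐ x ∂μ, D (EE hij (1 : ℚ_[p]) * EE hij.symm (-1) * EE hij 1) x * πu x =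
        πu ((EE hij (1 : ℚ_[p]) * EE hij.symm (-1) * EE hij 1) • x) *
          D (EE hij (1 : ℚ_[p]) * EE hij.symm (-1) * EE hij 1) x :=
      Pt3_smul hG m1 (Pt3_smul hG m2 (hs1 i j hij) hinv) (hs1 i j hij)
    have hwm : MeasurePreserving (fun y : X =>
        (EE hij (1 : ℚ_[p]) * EE hij.symm (-1) * EE hij 1) • y) μ μ := by
      have h1 := m1.comp (m2.comp m1)
      have e : ((fun y : X => EE hij (1 : ℚ_[p]) • y) ∘
          ((fun y : X => EE hij.symm (-1 : ℚ_[p]) • y) ∘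
            (fun y : X => EE hij (1 : ℚ_[p]) • y))) =
          fun y : X => (EE hij (1 : ℚ_[p]) * EE hij.symm (-1) * EE hij 1) • y := by
        funext y
        simp only [Function.comp, mul_smul]
      rw [e] at h1
      exact h1
    have hwa := Pt3_weyl (p := p) hij
    obtain ⟨δ, hδ, hSδ⟩ := hS
    have hle := Pt3_transfer hG hE (a := a₀) hwm hwa S
      (hrel.mono fun x hx => ⟨hx.2.1, hx.2.2.1⟩) hw hδ hSδ
    have hz := Coc.zero_of_Le hE hle hSδ (by linarith)
    have hT1 : ∀ᵐ x ∂μ, T.Q x = c.D 1 x := by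
      filter_upwards [hz, hrel, S.le, T.le, T.symm, c.symm] with x x1 x2 x3 x4 x5 x6
      obtain ⟨r1, r2, -, r4, -, -, -, -, -, -, -⟩ := x2
      have x7 : c.D 1 x * S.Q x = 0 := x1
      have x8 : S.Q x = 0 := by rw [← x3, x7]
      have x9 : πu x = 0 := by rw [← r2, x8, Matrix.zero_mul]
      have x10 : πc x = c.D 1 x := by rw [← r1, x9, zero_add]
      rw [x10] at r4
      have x11 := congrArg Matrix.transpose r4
      rw [Matrix.transpose_mul, x5, x6] at x11
      rw [← x4, x11]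
    intro ε hε
    exact Coc.Le_of_sub_Le hE hT1 (hT ε hε)
  -- integer multiples
  have key0 : ∀ i j : Fin n, Pt3U c (te i j) := by
    intro i j
    by_cases hij : i = j
    · subst hij
      have e : te i i = fun _ => 0 := by
        funext k
        unfold te
        exact sub_self _
      rw [e]
      exact Pt3U_zero hE c
    · exact key i j hij
  have key1 : ∀ (i j : Fin n) (m : ℤ), Pt3U c (fun k => m * te i j k) := by
    intro i j m
    rcases le_total 0 m with hm | hm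
    · have h1 := Pt3U_nsmul hE (sum_te i j) (key0 i j) m.toNat
      rw [Int.toNat_of_nonneg hm] at h1
      exact h1
    · have h1 := Pt3U_nsmul hE (sum_te j i) (key0 j i) (-m).toNat
      rw [Int.toNat_of_nonneg (by omega)] at h1
      have e : (fun k => m * te i j k) = fun k => -m * te j i k := by
        funext k
        unfold te
        ring
      rw [e]
      exact h1
  -- the general element
  obtain ⟨g, b, hb, rfl⟩ := a
  have hn0 : 0 < n := by omega
  set i₀ : Fin n := ⟨0, hn0⟩ with hi₀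
  have key2 : ∀ s : Finset (Fin n), Pt3U c (fun l => ∑ k ∈ s, b k * te i₀ k l) := by
    intro s
    induction s using Finset.induction_on with
    | empty =>
      have e : (fun l : Fin n => ∑ k ∈ (∅ : Finset (Fin n)), b k * te i₀ k l) = fun _ => 0 := by
        funext l
        simp
      rw [e]
      exact Pt3U_zero hE c
    | insert k s hk ih =>
      have e : (fun l : Fin n => ∑ k' ∈ insert k s, b k' * te i₀ k' l) =
          fun l => b k * te i₀ k l + ∑ k' ∈ s, b k' * te i₀ k' l := by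
        funext l
        rw [Finset.sum_insert hk]
      rw [e]
      refine Pt3U_add hE ?_ ?_ (key1 i₀ k (b k)) ih
      · rw [← Finset.mul_sum, sum_te, mul_zero]
      · rw [Finset.sum_comm]
        refine Finset.sum_eq_zero fun k' _ => ?_
        rw [← Finset.mul_sum, sum_te, mul_zero]
  have h3 := key2 Finset.univ
  have e : (fun l : Fin n => ∑ k, b k * te i₀ k l) = b := by
    funext l
    unfold te
    simp only [mul_sub, mul_ite, mul_one, mul_zero, Finset.sum_sub_distrib]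
    rw [Finset.sum_ite_eq]
    simp only [Finset.mem_univ, if_true]
    by_cases hl : l = i₀
    · simp only [hl, if_true]
      rw [hb, sub_zero]
    · simp only [hl, if_false, Finset.sum_const_zero, sub_zero]
  rw [e] at h3
  exact h3 hb

end

end Pool.Agent.H23.DM
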