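import Mathlib
import Pool.Agent.H23.DM.Sp4

/-!
MODULE Sp5 (MP_d9606f, Part 2, helper93).  Existence of the four-fold splitting, and the fact that an
invariant subbundle of growth at most `L` has no component in the part `g` (`Split4.low`).
-/

open MeasureTheory Filter Matrix
open scoped Topology

set_option linter.unusedSectionVars false

namespace Pool.Agent.H23.DM

namespace Coc

noncomputable section

variable {A X ι : Type} [CommGroup A] [MulAction A X] [Fintype ι] [DecidableEq ι]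
  [MeasurableSpace X] {μ : Measure X}

theorem exists_split2 (hE : Sys A X μ) (c : Coc A X ι μ) (a : A) : Nonempty (c.Split2 hE a) := by
  obtain ⟨S, T, hD, hdn, hup⟩ := exists_split hE c a
  obtain ⟨u, v, hu, hv, h⟩ := exists_proj hE c hD
  have h' : ∀ᵐ x ∂μ, u x + v x = c.D 1 x ∧ S.Q x * u x = u x ∧ u x * S.Q x = S.Q x ∧
        T.Q x * v x = v x ∧ v x * T.Q x = T.Q x ∧ u x * T.Q x = 0 ∧ v x * S.Q x = 0 ∧
        u x * c.D 1 x = u x ∧ v x * c.D 1 x = v x := by
    filter_upwards [h] with x hx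
    exact ⟨hx.1, hx.2.1, hx.2.2.1, hx.2.2.2.1, hx.2.2.2.2.1, hx.2.2.2.2.2.1, hx.2.2.2.2.2.2.1,
      hx.2.2.2.2.2.2.2.1, hx.2.2.2.2.2.2.2.2.1⟩
  have heq := fun b => proj_equiv hE c h' b
  exact ⟨{ S := S, T := T, u := u, v := v, mu := hu, mv := hv
           sum := by filter_upwards [h] with x hx; exact hx.1
           Su := by filter_upwards [h] with x hx; exact hx.2.1
           Tv := by filter_upwards [h] with x hx; exact hx.2.2.2.1
           uS := by filter_upwards [h] with x hx; exact hx.2.2.1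
           uT := by filter_upwards [h] with x hx; exact hx.2.2.2.2.2.1
           vT := by filter_upwards [h] with x hx; exact hx.2.2.2.2.1
           vS := by filter_upwards [h] with x hx; exact hx.2.2.2.2.2.2.1
           eu := fun b => by filter_upwards [heq b] with x hx; exact hx.1
           ev := fun b => by filter_upwards [heq b] with x hx; exact hx.2
           dn := hdn, up := hup }⟩

/-- **The four-fold splitting** for `b` with threshold `L`; `χ` is any real character of `A` with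
`χ b = 1`. -/
theorem exists_split4 (hE : Sys A X μ) (c : Coc A X ι μ) (b : A) (χ : Chi A) (hχ : χ.f b = 1)
    (L : ℝ) : Nonempty (c.Split4 b L) := by
  obtain ⟨s1⟩ := exists_split2 hE (c.twist χ L) b
  obtain ⟨T1, hT1⟩ := exists_untwist c χ L s1.T
  obtain ⟨s2⟩ := exists_split2 hE (c.sub hE T1) b
  obtain ⟨s3⟩ := exists_split2 hE ((c.sub hE T1).sub hE s2.T) b⁻¹
  exact exists_split4_of hE c b χ hχ s1 T1 hT1 s2 s3

/-- A constant nonnegative function below quantities tending to zero in probability vanishes. -/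
theorem ae_zero_of_WP [IsFiniteMeasure μ] {f : X → ℝ} (hf0 : ∀ x, 0 ≤ f x) {δ : ℝ} (hδ : 0 < δ)
    (h : WP μ fun t : ℕ => {x | Real.exp (-δ * t) < f x}) : ∀ᵐ x ∂μ, f x = 0 := by
  have key : ∀ n : ℕ, μ {x | 1 / ((n : ℝ) + 1) < f x} = 0 := by
    intro n
    have h1 : Tendsto (fun t : ℕ => Real.exp (-δ * t)) atTop (𝓝 0) := by
      refine Real.tendsto_exp_atBot.comp ?_
      have h2 : Tendsto (fun t : ℕ => δ * (t : ℝ)) atTop atTop :=
        tendsto_natCast_atTop_atTop.const_mul_atTop hδ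
      have h3 := tendsto_neg_atTop_atBot.comp h2
      refine h3.congr fun t => ?_
      simp
    have h4 : ∀ᶠ t : ℕ in atTop, Real.exp (-δ * t) < 1 / ((n : ℝ) + 1) :=
      h1.eventually_lt_const (by positivity)
    have h5 : ∀ᶠ t : ℕ in atTop, μ {x | 1 / ((n : ℝ) + 1) < f x} ≤
        μ {x | Real.exp (-δ * t) < f x} := by
      filter_upwards [h4] with t ht
      refine measure_mono fun x hx => ?_
      have hx' : 1 / ((n : ℝ) + 1) < f x := hx
      change Real.exp (-δ * t) < f x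
      linarith
    exact le_antisymm (ge_of_tendsto h h5) bot_le
  have h2 : ∀ᵐ x ∂μ, ∀ n : ℕ, ¬ (1 / ((n : ℝ) + 1) < f x) := by
    rw [ae_all_iff]
    intro n
    exact measure_eq_zero_iff_ae_notMem.1 (key n)
  filter_upwards [h2] with x hx
  by_contra hne
  have hpos : 0 < f x := lt_of_le_of_ne (hf0 x) (Ne.symm hne)
  obtain ⟨n, hn⟩ := exists_nat_one_div_lt hpos
  exact hx n hn

theorem Rt_add [IsFiniteMeasure μ] {c : Coc A X ι μ} {π π' : X → Matrix ι ι ℝ} {a : A} {r r' : ℝ}
    (hr : r < r') (h : c.Rt π a r) (h' : c.Rt π' a r) : c.Rt (fun x => π x + π' x) a r' := by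
  have h1 : ∀ᶠ t : ℕ in atTop, 2 ≤ Real.exp ((r' - r) * t) := by
    have h2 : Tendsto (fun t : ℕ => (r' - r) * (t : ℝ)) atTop atTop :=
      tendsto_natCast_atTop_atTop.const_mul_atTop (by linarith)
    exact (Real.tendsto_exp_atTop.comp h2).eventually_ge_atTop 2
  refine WP.union h h' ?_
  filter_upwards [h1] with t ht
  have h2 : {x | Real.exp (r' * t) < fn (c.D (a ^ t) x * (π x + π' x))} \
      ({x | Real.exp (r * t) < fn (c.D (a ^ t) x * π x)} ∪
        {x | Real.exp (r * t) < fn (c.D (a ^ t) x * π' x)}) = ∅ := by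
    refine Set.eq_empty_iff_forall_notMem.2 fun x hx => ?_
    obtain ⟨hx1, hx2⟩ := hx
    simp only [Set.mem_union, Set.mem_ofPred_eq, not_or, not_lt] at hx1 hx2
    have h3 : fn (c.D (a ^ t) x * (π x + π' x)) ≤ Real.exp (r * t) + Real.exp (r * t) := by
      rw [Matrix.mul_add]
      exact (fn_add_le _ _).trans (add_le_add hx2.1 hx2.2)
    have h4 : Real.exp (r' * t) = Real.exp (r * t) * Real.exp ((r' - r) * t) := by
      rw [← Real.exp_add]; congr 1; ring
    have h5 := Real.exp_pos (r * t)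
    nlinarith
  rw [h2]
  exact measure_empty

/-- A subbundle of growth at most `L` has no component in the part `g`. -/
theorem Split4.low (hE : Sys A X μ) {c : Coc A X ι μ} {b : A} {L : ℝ} (s : c.Split4 b L)
    (S : c.Sub) (hS : ∀ ε : ℝ, 0 < ε → (c.sub hE S).Le b (L + ε)) : ∀ᵐ x ∂μ, s.g x * S.Q x = 0 := by
  have : IsProbabilityMeasure μ := hE.prob
  obtain ⟨δ, hδ, hg⟩ := s.rg
  have hpow : ∀ t : ℕ, MeasurePreserving (fun x : X => b ^ t • x) μ μ := fun t => hE.mp (b ^ t)
  have w1 := hg.shift s.eg.meas hpow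
  have w2 : WP μ fun t => {x | Real.exp (δ / 4 * t) < fn (s.g (b ^ t • x))} :=
    WP_fn_shift s.eg.meas (by linarith) hpow
  have w3 : c.Rt S.Q b (L + δ / 4) := hS (δ / 4) (by linarith)
  have w12 : WP μ fun t => ({x | Real.exp (-(L + δ) * t) < fn (c.D (b⁻¹ ^ t) (b ^ t • x) *
      s.g (b ^ t • x))} ∪ {x | Real.exp (δ / 4 * t) < fn (s.g (b ^ t • x))} : Set X) :=
    WP.union w1 w2 (Eventually.of_forall fun t => by simp)
  have w : WP μ fun t : ℕ => {x | Real.exp (-(δ / 2) * t) < fn (s.g x * S.Q x)} := by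
    refine WP.union w12 w3 (Eventually.of_forall fun t => ?_)
    have hinv : ∀ᵐ x ∂μ, c.D (b ^ t)⁻¹ (b ^ t • x) * c.D (b ^ t) x = c.D 1 x := D_inv_mul hE c (b ^ t)
    have hsum : ∀ᵐ x ∂μ, c.D 1 x * s.g x = s.g x := by
      filter_upwards [s.sum, s.mg, s.zg, s.pg, s.eg.idem] with x h1 h2 h3 h4 h5
      rw [← h1, Matrix.add_mul, Matrix.add_mul, Matrix.add_mul, h2.1, h3.1, h4.1, h5, add_zero,
        add_zero, zero_add]
    have hid : ∀ᵐ x ∂μ, s.g (b ^ t • x) * s.g (b ^ t • x) = s.g (b ^ t • x) :=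
      hE.ae_smul (b ^ t) s.eg.idem
    have hae : ∀ᵐ x ∂μ, fn (s.g x * S.Q x) ≤ fn (c.D (b⁻¹ ^ t) (b ^ t • x) * s.g (b ^ t • x)) *
        (fn (s.g (b ^ t • x)) * fn (c.D (b ^ t) x * S.Q x)) := by
      filter_upwards [hinv, hsum, hid, s.eg.comm (b ^ t)] with x h1 h2 h3 h4
      have e : s.g x * S.Q x = c.D (b⁻¹ ^ t) (b ^ t • x) * s.g (b ^ t • x) *
          (s.g (b ^ t • x) * (c.D (b ^ t) x * S.Q x)) := by
        rw [inv_pow]
        calc s.g x * S.Q x = c.D 1 x * s.g x * S.Q x := by rw [h2]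
          _ = c.D (b ^ t)⁻¹ (b ^ t • x) * (c.D (b ^ t) x * s.g x) * S.Q x := by
              rw [← h1]; simp only [Matrix.mul_assoc]
          _ = c.D (b ^ t)⁻¹ (b ^ t • x) * (s.g (b ^ t • x) * s.g (b ^ t • x) * c.D (b ^ t) x) *
                S.Q x := by rw [h4, h3]
          _ = _ := by simp only [Matrix.mul_assoc]
      rw [e]
      refine (fn_mul_le _ _).trans ?_
      exact mul_le_mul_of_nonneg_left (fn_mul_le _ _) (fn_nonneg _)
    refine measure_mono_null ?_ (ae_iff.1 hae)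
    rintro x ⟨hx1, hx2⟩ hx3
    simp only [Set.mem_union, Set.mem_ofPred_eq, not_or, not_lt] at hx1 hx2
    obtain ⟨⟨g1, g2⟩, g3⟩ := hx2
    have h1 : fn (s.g x * S.Q x) ≤ Real.exp (-(L + δ) * t) *
        (Real.exp (δ / 4 * t) * Real.exp ((L + δ / 4) * t)) := by
      refine hx3.trans ?_
      refine mul_le_mul g1 (mul_le_mul g2 g3 (fn_nonneg _) (Real.exp_pos _).le)
        (mul_nonneg (fn_nonneg _) (fn_nonneg _)) (Real.exp_pos _).le
    rw [← Real.exp_add, ← Real.exp_add] at h1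
    have h2 : -(L + δ) * t + (δ / 4 * t + (L + δ / 4) * t) = -(δ / 2) * t := by ring
    rw [h2] at h1
    exact absurd hx1 (not_lt.2 h1)
  have h0 := ae_zero_of_WP (fun x => fn_nonneg (s.g x * S.Q x)) (by linarith : (0 : ℝ) < δ / 2) w
  filter_upwards [h0] with x hx
  exact fn_eq_zero.1 hx

end

end Coc

end Pool.Agent.H23.DM
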